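import Mathlib

section

/-!
# Bilinear forms attached to matrices, and the pencil `h - t f`
-/

set_option autoImplicit false
set_option linter.unusedSectionVars false

noncomputable section

namespace Pool.Agent.Lib.MP_8ab79f_ag.Six

open Polynomial

section bl

variable {ι : Type*} [Fintype ι] {S T : Type*} [CommRing S] [CommRing T]

/-- The bilinear form attached to a matrix. -/
def bl (A : Matrix ι ι S) (x y : ι → S) : S := ∑ i, ∑ j, A i j * x i * y j

theorem bl_add_left (A : Matrix ι ι S) (x x' y : ι → S) :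
    bl A (x + x') y = bl A x y + bl A x' y := by
  simp only [bl, Pi.add_apply, mul_add, add_mul, Finset.sum_add_distrib]

theorem bl_add_right (A : Matrix ι ι S) (x y y' : ι → S) :
    bl A x (y + y') = bl A x y + bl A x y' := by
  simp only [bl, Pi.add_apply, mul_add, Finset.sum_add_distrib]

theorem bl_sub_left (A : Matrix ι ι S) (x x' y : ι → S) :
    bl A (x - x') y = bl A x y - bl A x' y := by
  simp only [bl, Pi.sub_apply, mul_sub, sub_mul, Finset.sum_sub_distrib]

theorem bl_sub_right (A : Matrix ι ι S) (x y y' : ι → S) :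
    bl A x (y - y') = bl A x y - bl A x y' := by
  simp only [bl, Pi.sub_apply, mul_sub, Finset.sum_sub_distrib]

theorem bl_neg_left (A : Matrix ι ι S) (x y : ι → S) : bl A (-x) y = -bl A x y := by
  simp only [bl, Pi.neg_apply, mul_neg, neg_mul, Finset.sum_neg_distrib]

theorem bl_neg_right (A : Matrix ι ι S) (x y : ι → S) : bl A x (-y) = -bl A x y := by
  simp only [bl, Pi.neg_apply, mul_neg, Finset.sum_neg_distrib]

theorem bl_smul_left (A : Matrix ι ι S) (c : S) (x y : ι → S) :
    bl A (c • x) y = c * bl A x y := by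
  simp only [bl, Pi.smul_apply, smul_eq_mul, Finset.mul_sum]
  refine Finset.sum_congr rfl fun i _ => Finset.sum_congr rfl fun j _ => ?_
  ring

theorem bl_smul_right (A : Matrix ι ι S) (c : S) (x y : ι → S) :
    bl A x (c • y) = c * bl A x y := by
  simp only [bl, Pi.smul_apply, smul_eq_mul, Finset.mul_sum]
  refine Finset.sum_congr rfl fun i _ => Finset.sum_congr rfl fun j _ => ?_
  ring

theorem bl_zero_left (A : Matrix ι ι S) (y : ι → S) : bl A 0 y = 0 := by
  simp [bl]

theorem bl_zero_right (A : Matrix ι ι S) (x : ι → S) : bl A x 0 = 0 := by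
  simp [bl]

theorem bl_comm {A : Matrix ι ι S} (hA : A.IsSymm) (x y : ι → S) : bl A x y = bl A y x := by
  unfold bl
  rw [Finset.sum_comm]
  refine Finset.sum_congr rfl fun i _ => Finset.sum_congr rfl fun j _ => ?_
  rw [hA.apply i j]
  ring

theorem bl_map (φ : S →+* T) (A : Matrix ι ι S) (x y : ι → S) :
    φ (bl A x y) = bl (A.map φ) (fun i => φ (x i)) (fun i => φ (y i)) := by
  simp [bl, map_sum]

theorem bl_sub_mat (A A' : Matrix ι ι S) (x y : ι → S) :
    bl (A - A') x y = bl A x y - bl A' x y := by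
  simp only [bl, Matrix.sub_apply, sub_mul, Finset.sum_sub_distrib]

theorem bl_add_mat (A A' : Matrix ι ι S) (x y : ι → S) :
    bl (A + A') x y = bl A x y + bl A' x y := by
  simp only [bl, Matrix.add_apply, add_mul, Finset.sum_add_distrib]

theorem bl_smul_mat (c : S) (A : Matrix ι ι S) (x y : ι → S) :
    bl (c • A) x y = c * bl A x y := by
  simp only [bl, Matrix.smul_apply, smul_eq_mul, Finset.mul_sum, mul_assoc]

/-- If `x` and `x'` are congruent modulo `d` then so are the values of the form. -/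
theorem bl_dvd_left (A : Matrix ι ι S) {d : S} {x x' : ι → S} (h : ∀ i, d ∣ x i - x' i)
    (y : ι → S) : d ∣ bl A x y - bl A x' y := by
  rw [← bl_sub_left]
  unfold bl
  refine Finset.dvd_sum fun i _ => Finset.dvd_sum fun j _ => ?_
  exact Dvd.dvd.mul_right (Dvd.dvd.mul_left (h i) _) _

theorem bl_dvd_right (A : Matrix ι ι S) {d : S} {y y' : ι → S} (h : ∀ i, d ∣ y i - y' i)
    (x : ι → S) : d ∣ bl A x y - bl A x y' := by
  rw [← bl_sub_right]
  unfold bl
  refine Finset.dvd_sum fun i _ => Finset.dvd_sum fun j _ => ?_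
  exact Dvd.dvd.mul_left (h j) _

theorem bl_dvd (A : Matrix ι ι S) {d : S} {x x' y y' : ι → S} (h : ∀ i, d ∣ x i - x' i)
    (h' : ∀ i, d ∣ y i - y' i) : d ∣ bl A x y - bl A x' y' := by
  have h1 := bl_dvd_left A h y
  have h2 := bl_dvd_right A h' x'
  have := dvd_add h1 h2
  rwa [sub_add_sub_cancel] at this

end bl

section pencil

variable {ι : Type*} [Fintype ι] {R S : Type*} [CommRing R] [CommRing S]

/-- The constant vector attached to a vector. -/
def cst (v : ι → R) : ι → R[X] := fun i => C (v i)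

/-- The Gram matrix of the generic member `h - t f` of the pencil. -/
def hT (f h : Matrix ι ι R) : Matrix ι ι R[X] := h.map C - (X : R[X]) • f.map C

/-- The coefficient of degree `d - 1` of a polynomial vector. -/
def lead (d : ℕ) (Z : ι → R[X]) : ι → R := fun i => (X * Z i).coeff d

theorem bl_hT (f h : Matrix ι ι R) (x y : ι → R[X]) :
    bl (hT f h) x y = bl (h.map C) x y - X * bl (f.map C) x y := by
  rw [hT, bl_sub_mat, bl_smul_mat]

theorem bl_cst (f : Matrix ι ι R) (x y : ι → R) :
    bl (f.map C) (cst x) (cst y) = C (bl f x y) := by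
  rw [bl_map]
  rfl

theorem isSymm_map {f : Matrix ι ι R} (hf : f.IsSymm) (φ : R → S) : (f.map φ).IsSymm := by
  ext i j
  simp [Matrix.transpose_apply, hf.apply i j]

theorem isSymm_hT {f h : Matrix ι ι R} (hf : f.IsSymm) (hh : h.IsSymm) : (hT f h).IsSymm := by
  ext i j
  simp [hT, Matrix.transpose_apply, hf.apply i j, hh.apply i j]

@[simp] theorem cst_zero : (cst (0 : ι → R)) = 0 := by
  ext i : 1
  simp [cst]

theorem cst_add (x y : ι → R) : cst (x + y) = cst x + cst y := by
  ext i : 1
  simp [cst]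

theorem cst_smul (c : R) (x : ι → R) : cst (c • x) = C c • cst x := by
  ext i : 1
  simp [cst]

theorem eval_bl_hT (f h : Matrix ι ι R) (x y : ι → R[X]) (τ : R) :
    (bl (hT f h) x y).eval τ =
      bl (h - τ • f) (fun i => (x i).eval τ) (fun i => (y i).eval τ) := by
  have h1 := bl_map (evalRingHom τ) (hT f h) x y
  have h2 : (hT f h).map (evalRingHom τ) = h - τ • f := by
    ext i j
    simp only [hT, Matrix.map_apply, Matrix.sub_apply, Matrix.smul_apply, smul_eq_mul,
      coe_evalRingHom, eval_sub, eval_C, eval_mul, eval_X]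
  rw [h2] at h1
  exact h1

end pencil

/-- A solution of the dressing equation attached to the modulus `G`, the vector `x`, and the base
vector `B`. -/
structure IsSol {ι : Type*} [Fintype ι] {R : Type*} [CommRing R] (f h : Matrix ι ι R) (G : R[X])
    (x : ι → R[X]) (B : ι → R) (μ : R[X]) (Z : ι → R[X]) : Prop where
  deg : ∀ i, (Z i).degree < G.degree
  cong : ∀ i, G ∣ μ * x i - Z i
  eqn : G ^ 2 ∣ 2 * G * bl (f.map C) x (cst (B + lead G.natDegree Z)) - μ * bl (hT f h) x x +
    2 * bl (hT f h) x Z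

end Pool.Agent.Lib.MP_8ab79f_ag.Six
end
end

section

set_option autoImplicit false
set_option linter.unusedSectionVars false

noncomputable section

namespace Pool.Agent.Lib.MP_8ab79f_ag.Six

open Polynomial

section BStepAux

variable {ι : Type*} [Fintype ι] {κ : Type*} [Field κ]

theorem BStep_natDegree (A : Matrix ι ι κ) {x y : ι → κ[X]} {m n : ℕ}
    (hx : ∀ i, (x i).natDegree ≤ m) (hy : ∀ i, (y i).natDegree ≤ n) :
    (bl (A.map C) x y).natDegree ≤ m + n := by
  unfold bl
  refine natDegree_sum_le_of_forall_le _ _ fun i _ => natDegree_sum_le_of_forall_le _ _ fun j _ => ?_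
  refine (natDegree_mul_le).trans (Nat.add_le_add ?_ (hy j))
  refine (natDegree_mul_le).trans ?_
  rw [Matrix.map_apply, natDegree_C, zero_add]
  exact hx i

theorem BStep_coeff (A : Matrix ι ι κ) {x y : ι → κ[X]} {m n : ℕ}
    (hx : ∀ i, (x i).natDegree ≤ m) (hy : ∀ i, (y i).natDegree ≤ n) :
    (bl (A.map C) x y).coeff (m + n) = bl A (fun i => (x i).coeff m) (fun i => (y i).coeff n) := by
  unfold bl
  rw [finsetSum_coeff]
  refine Finset.sum_congr rfl fun i _ => ?_
  rw [finsetSum_coeff]
  refine Finset.sum_congr rfl fun j _ => ?_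
  rw [Matrix.map_apply, mul_assoc, coeff_C_mul, coeff_mul_add_eq_of_natDegree_le (hx i) (hy j), mul_assoc]

theorem BStep_natDegree_XZ {G : κ[X]} {Z : κ[X]} (h : Z.degree < G.degree) :
    (X * Z).natDegree ≤ G.natDegree := by
  by_cases h0 : Z = 0
  · rw [h0, mul_zero, natDegree_zero]
    exact Nat.zero_le _
  · have h1 := natDegree_lt_natDegree h0 h
    rw [natDegree_X_mul h0]
    omega

theorem BStep_degree {G : κ[X]} (hG : G.Monic) {Z : κ[X]} (h : (X * Z).natDegree ≤ G.natDegree) :
    Z.degree < G.degree := by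
  by_cases h0 : Z = 0
  · rw [h0, degree_zero]
    exact bot_lt_iff_ne_bot.2 (degree_ne_bot.2 hG.ne_zero)
  · rw [natDegree_X_mul h0] at h
    exact degree_lt_degree (by omega)

end BStepAux

/-- The step lemma: removing a reflection from a solution of the dressing equation. -/
theorem step {ι : Type*} [Fintype ι] {κ : Type*} [Field κ] (h2 : (2 : κ) ≠ 0)
    {f h : Matrix ι ι κ} (hf : f.IsSymm) (hh : h.IsSymm) {G' g : κ[X]} (hG' : G'.Monic)
    (hg : g.Monic) (hcop : IsCoprime G' g) {B : ι → κ} {b : ι → κ[X]} {m : ℕ}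
    (hb : ∀ i, (b i).natDegree ≤ m) {c : κ} (hc : c ≠ 0) (hbb : bl (hT f h) b b = C c * g)
    (hgd : g.natDegree = 2 * m + 1) (hbB : bl (hT f h) b (cst B) = 0) {x x' : ι → κ[X]}
    (hxg : ∀ i, g ∣ x i - b i)
    (hxG : ∀ i, G' ∣ x i - (C c * g * x' i - 2 * bl (hT f h) b x' * b i))
    {μ : κ[X]} {Z : ι → κ[X]} (hs : IsSol f h (G' * g) x B μ Z) :
    ∃ Z' : ι → κ[X], IsSol f h G' x' B (C c * μ) Z' ∧
      lead G'.natDegree Z' = lead (G' * g).natDegree Z ∧
      ∀ i, C c * Z i = C c * g * Z' i - 2 * (bl (hT f h) b Z' +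
        G' * bl (f.map C) b (cst (B + lead (G' * g).natDegree Z))) * b i := by
  have hHs : ∀ u v : ι → κ[X], bl (hT f h) u v = bl (hT f h) v u :=
    fun u v => bl_comm (isSymm_hT hf hh) u v
  have hgne : g ≠ 0 := hg.ne_zero
  have hcne : (C c : κ[X]) ≠ 0 := by simpa using hc
  set ζ : ι → κ := lead (G' * g).natDegree Z with hζ
  set O : ι → κ[X] := cst (B + ζ) with hO
  set N : κ[X] := bl (hT f h) b Z + G' * g * bl (f.map C) b O with hN
  have hGm : (G' * g).Monic := hG'.mul hg
  have hGd : (G' * g).natDegree = G'.natDegree + (2 * m + 1) := by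
    rw [hG'.natDegree_mul hg, hgd]
  choose y hy using hxg
  choose r hr using hs.cong
  choose s hs' using hxG
  have hx : x = b + g • y := by
    funext i
    have := hy i
    simp only [Pi.add_apply, Pi.smul_apply, smul_eq_mul]
    linear_combination this
  have hZ : Z = μ • x - (G' * g) • r := by
    funext i
    have := hr i
    simp only [Pi.sub_apply, Pi.smul_apply, smul_eq_mul]
    linear_combination -this
  -- (1)
  obtain ⟨e, he⟩ := hs.eqn
  have h1 : ∃ q, 2 * N = μ * C c * g + g ^ 2 * q := by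
    have hHZ : bl (hT f h) b Z = μ * (C c * g + g * bl (hT f h) b y) -
        G' * g * bl (hT f h) b r := by
      rw [hZ, bl_sub_right, bl_smul_right, bl_smul_right, hx, bl_add_right, bl_smul_right, hbb]
    have hxx : bl (hT f h) x x = C c * g + 2 * g * bl (hT f h) b y + g ^ 2 * bl (hT f h) y y := by
      rw [hx]
      simp only [bl_add_left, bl_add_right, bl_smul_left, bl_smul_right]
      rw [hbb, hHs y b]
      ring
    have hxZ : bl (hT f h) x Z = μ * bl (hT f h) x x - G' * g * bl (hT f h) x r := by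
      rw [hZ, bl_sub_right, bl_smul_right, bl_smul_right]
    have hxr : bl (hT f h) x r = bl (hT f h) b r + g * bl (hT f h) y r := by
      rw [hx, bl_add_left, bl_smul_left]
    have hxO : bl (f.map C) x O = bl (f.map C) b O + g * bl (f.map C) y O := by
      rw [hx, bl_add_left, bl_smul_left]
    have he' : 2 * (G' * g) * bl (f.map C) x O - μ * bl (hT f h) x x +
        2 * bl (hT f h) x Z = (G' * g) ^ 2 * e := he
    rw [hxZ, hxr, hxO, hxx] at he'
    refine ⟨G' ^ 2 * e - 2 * G' * bl (f.map C) y O - μ * bl (hT f h) y y +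
      2 * G' * bl (hT f h) y r, ?_⟩
    rw [hN, hHZ]
    linear_combination he'
  obtain ⟨q, hq⟩ := h1
  -- (2)
  have h3 : ∃ Z' : ι → κ[X], ∀ i, C c * g ^ 2 * Z' i = C c * g * Z i - 2 * N * b i := by
    refine ⟨fun i => μ * y i - G' * r i - C c⁻¹ * q * b i, fun i => ?_⟩
    have hZi : Z i = μ * (b i + g * y i) - G' * g * r i := by
      have := congrFun hZ i
      simp only [Pi.sub_apply, Pi.smul_apply, smul_eq_mul, hx, Pi.add_apply] at this
      exact this
    have hcc : (C c : κ[X]) * C c⁻¹ = 1 := by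
      rw [← C_mul, mul_inv_cancel₀ hc, C_1]
    rw [hZi]
    linear_combination (-(g ^ 2 * q * b i)) * hcc + (b i) * hq
  obtain ⟨Z', hZ'⟩ := h3
  -- (3)
  have hW : ∀ i, (X * Z i).natDegree ≤ G'.natDegree + (2 * m + 1) := fun i => by
    rw [← hGd]
    exact BStep_natDegree_XZ (hs.deg i)
  have hζi : ∀ i, (X * Z i).coeff (G'.natDegree + (2 * m + 1)) = ζ i := fun i => by
    rw [hζ]
    unfold lead
    rw [hGd]
  have hfB : bl f (fun i => (b i).coeff m) B = 0 := by
    have h4 : (bl (hT f h) b (cst B)).coeff (m + 1) = 0 := by rw [hbB, coeff_zero]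
    have hcB : ∀ i, (cst B i).natDegree ≤ 0 := fun i => by
      simp [cst]
    have h5 := BStep_coeff f hb hcB
    have h6 := BStep_natDegree h hb hcB
    rw [bl_hT, coeff_sub, coeff_X_mul, coeff_eq_zero_of_natDegree_lt (by omega), zero_sub,
      neg_eq_zero] at h4
    rw [add_zero, h4] at h5
    have h7 : (fun i => (cst B i).coeff 0) = B := by
      funext i
      simp [cst]
    rw [h7] at h5
    exact h5.symm
  have hXN : (X * N).natDegree ≤ m + (G'.natDegree + (2 * m + 1)) := by
    set d := G'.natDegree + (2 * m + 1) with hd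
    set W : ι → κ[X] := (X : κ[X]) • Z with hWd
    have hWi : ∀ i, (W i).natDegree ≤ d := fun i => hW i
    have hOi : ∀ i, (O i).natDegree ≤ 0 := fun i => by
      simp [hO, cst]
    have e1 : X * N = bl (h.map C) b W - X * bl (f.map C) b W +
        X * ((G' * g) * bl (f.map C) b O) := by
      rw [hN, hWd, bl_smul_right, bl_smul_right, bl_hT]
      ring
    have n1 := BStep_natDegree h hb hWi
    have n2 := BStep_natDegree f hb hWi
    have n3 := BStep_natDegree f hb hOi
    have c2 := BStep_coeff f hb hWi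
    have c3 := BStep_coeff f hb hOi
    have n4 : ((G' * g) * bl (f.map C) b O).natDegree ≤ d + m := by
      refine (natDegree_mul_le).trans (Nat.add_le_add ?_ n3)
      rw [hGd]
    have c4 : ((G' * g) * bl (f.map C) b O).coeff (d + m) =
        bl f (fun i => (b i).coeff m) (B + ζ) := by
      have hGd' : (G' * g).natDegree ≤ d := by rw [hGd]
      rw [coeff_mul_add_eq_of_natDegree_le hGd' (show _ ≤ m from n3)]
      have h8 : (G' * g).coeff d = 1 := by
        rw [← hGd]
        exact hGm
      have h9 : (fun i => (O i).coeff 0) = B + ζ := by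
        funext i
        simp [hO, cst]
      rw [h8, one_mul]
      rw [add_zero] at c3
      rw [← h9, ← c3]
    rw [natDegree_le_iff_coeff_eq_zero]
    intro k hk
    rcases Nat.exists_eq_add_of_lt hk with ⟨l, hl⟩
    rw [e1, coeff_add, coeff_sub]
    obtain ⟨k', rfl⟩ : ∃ k', k = k' + 1 := ⟨k - 1, by omega⟩
    rw [coeff_X_mul, coeff_X_mul, coeff_eq_zero_of_natDegree_lt (by omega)]
    rcases Nat.eq_zero_or_pos l with h0 | h0
    · have hk' : k' = m + d := by omega
      have hk'' : k' = d + m := by omega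
      have a1 : (bl (f.map C) b W).coeff k' = bl f (fun i => (b i).coeff m) ζ := by
        rw [hk', c2]
        congr 1
        funext i
        exact hζi i
      have a2 : ((G' * g) * bl (f.map C) b O).coeff k' =
          bl f (fun i => (b i).coeff m) (B + ζ) := by rw [hk'', c4]
      rw [a1, a2, bl_add_right, hfB]
      ring
    · rw [coeff_eq_zero_of_natDegree_lt (by omega : (bl (f.map C) b W).natDegree < k'),
        coeff_eq_zero_of_natDegree_lt (by omega :
          ((G' * g) * bl (f.map C) b O).natDegree < k')]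
      ring
  have hg2 : (g ^ 2).Monic := hg.pow 2
  have hg2d : (g ^ 2).natDegree = 4 * m + 2 := by
    rw [hg.natDegree_pow, hgd]
    ring
  have hkey : ∀ i, C c * (g ^ 2 * (X * Z' i)) = C c * (g * (X * Z i)) - 2 * (X * N) * b i := by
    intro i
    have := hZ' i
    linear_combination X * this
  have n5 : ∀ i, (2 * (X * N) * b i).natDegree ≤ (m + (G'.natDegree + (2 * m + 1))) + m := by
    intro i
    refine (natDegree_mul_le).trans (Nat.add_le_add ?_ (hb i))
    refine (natDegree_mul_le).trans ?_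
    have h2' : (2 : κ[X]).natDegree = 0 := by
      have h2'' : (2 : κ[X]) = C 2 := rfl
      rw [h2'', natDegree_C]
    omega
  have n6 : ∀ i, (g * (X * Z i)).natDegree ≤ (2 * m + 1) + (G'.natDegree + (2 * m + 1)) := by
    intro i
    exact (natDegree_mul_le).trans (Nat.add_le_add hgd.le (hW i))
  have n7 : ∀ i, (g ^ 2 * (X * Z' i)).natDegree ≤ (2 * m + 1) + (G'.natDegree + (2 * m + 1)) := by
    intro i
    have e2 : (C c * (g ^ 2 * (X * Z' i))).natDegree = (g ^ 2 * (X * Z' i)).natDegree :=
      natDegree_C_mul hc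
    rw [← e2, hkey i]
    refine (natDegree_sub_le _ _).trans (max_le ?_ ?_)
    · exact (natDegree_C_mul_le _ _).trans (n6 i)
    · have := n5 i
      omega
  have n8 : ∀ i, (X * Z' i).natDegree ≤ G'.natDegree := by
    intro i
    by_cases h0 : X * Z' i = 0
    · rw [h0, natDegree_zero]
      exact Nat.zero_le _
    · have := n7 i
      rw [hg2.natDegree_mul' h0, hg2d] at this
      omega
  have hdeg : ∀ i, (Z' i).degree < G'.degree := fun i => BStep_degree hG' (n8 i)
  have hlead : lead G'.natDegree Z' = ζ := by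
    funext i
    have e3 : (C c * (g ^ 2 * (X * Z' i))).coeff ((2 * m + 1) + (G'.natDegree + (2 * m + 1))) =
        (C c * (g * (X * Z i)) - 2 * (X * N) * b i).coeff
          ((2 * m + 1) + (G'.natDegree + (2 * m + 1))) := by rw [hkey i]
    rw [coeff_sub, coeff_C_mul, coeff_C_mul] at e3
    have e4 : (2 * (X * N) * b i).coeff ((2 * m + 1) + (G'.natDegree + (2 * m + 1))) = 0 := by
      apply coeff_eq_zero_of_natDegree_lt
      have := n5 i
      omega
    have e5 : (g * (X * Z i)).coeff ((2 * m + 1) + (G'.natDegree + (2 * m + 1))) = ζ i := by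
      rw [coeff_mul_add_eq_of_natDegree_le hgd.le (hW i), hζi i]
      have : g.coeff (2 * m + 1) = 1 := by rw [← hgd]; exact hg
      rw [this, one_mul]
    have e6 : (g ^ 2 * (X * Z' i)).coeff ((2 * m + 1) + (G'.natDegree + (2 * m + 1))) =
        (X * Z' i).coeff G'.natDegree := by
      have e7 : (2 * m + 1) + (G'.natDegree + (2 * m + 1)) = (4 * m + 2) + G'.natDegree := by ring
      rw [e7, coeff_mul_add_eq_of_natDegree_le hg2d.le (n8 i)]
      have : (g ^ 2).coeff (4 * m + 2) = 1 := by rw [← hg2d]; exact hg2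
      rw [this, one_mul]
    rw [e4, e5, e6, sub_zero] at e3
    exact mul_left_cancel₀ hc e3
  -- N in terms of Z'
  have hcgZ : (C c * g) • Z = (C c * g ^ 2) • Z' + (2 * N) • b := by
    funext i
    have := hZ' i
    simp only [Pi.add_apply, Pi.smul_apply, smul_eq_mul]
    linear_combination -this
  have hcg : (C c * g : κ[X]) ≠ 0 := mul_ne_zero hcne hgne
  have hNZ' : N = -(g * bl (hT f h) b Z') - G' * g * bl (f.map C) b O := by
    have e1 : bl (hT f h) b ((C c * g) • Z) = bl (hT f h) b ((C c * g ^ 2) • Z' + (2 * N) • b) := by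
      rw [hcgZ]
    rw [bl_smul_right, bl_add_right, bl_smul_right, bl_smul_right, hbb] at e1
    apply mul_left_cancel₀ hcg
    have e2 : bl (hT f h) b Z = N - G' * g * bl (f.map C) b O := by rw [hN]; ring
    rw [e2] at e1
    linear_combination -e1
  -- (5), (4)
  set β : ι → κ[X] := (C c * g) • x' - (2 * bl (hT f h) b x') • b with hβ
  have hxβ : x = β + G' • s := by
    funext i
    have := hs' i
    simp only [hβ, Pi.add_apply, Pi.sub_apply, Pi.smul_apply, smul_eq_mul]
    linear_combination this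
  have hbβ : bl (hT f h) b β = -(C c * g * bl (hT f h) b x') := by
    rw [hβ, bl_sub_right, bl_smul_right, bl_smul_right, hbb]
    ring
  have hcong : ∀ i, G' ∣ C c * μ * x' i - Z' i := by
    intro i
    have k1 : IsCoprime G' (g ^ 2) := hcop.pow_right
    have k2 : G' ∣ C c * g ^ 2 * (C c * μ * x' i - Z' i) := by
      have e1 : Z i = μ * (β i + G' * s i) - G' * g * r i := by
        have := congrFun hZ i
        simp only [Pi.sub_apply, Pi.smul_apply, smul_eq_mul] at this
        rw [this]
        have h5 := congrFun hxβ i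
        simp only [Pi.add_apply, Pi.smul_apply, smul_eq_mul] at h5
        rw [h5]
      have e2 : N = μ * (bl (hT f h) b β + G' * bl (hT f h) b s) - G' * g * bl (hT f h) b r +
          G' * g * bl (f.map C) b O := by
        rw [hN, hZ, bl_sub_right, bl_smul_right, bl_smul_right, hxβ, bl_add_right, bl_smul_right]
      have e3 : β i = C c * g * x' i - 2 * bl (hT f h) b x' * b i := by
        simp only [hβ, Pi.sub_apply, Pi.smul_apply, smul_eq_mul]
      rw [hbβ] at e2
      refine ⟨-(C c * g * (μ * s i - g * r i)) + 2 * b i * (μ * bl (hT f h) b s -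
        g * bl (hT f h) b r + g * bl (f.map C) b O), ?_⟩
      have e4 := hZ' i
      rw [e1, e3, e2] at e4
      linear_combination -e4
    have k3 : G' ∣ C c * (C c * μ * x' i - Z' i) := by
      apply k1.dvd_of_dvd_mul_left
      have : g ^ 2 * (C c * (C c * μ * x' i - Z' i)) = C c * g ^ 2 * (C c * μ * x' i - Z' i) := by
        ring
      rw [this]
      exact k2
    have hu : IsUnit (C c : κ[X]) := isUnit_C.2 (isUnit_iff_ne_zero.2 hc)
    exact (hu.dvd_mul_left).1 k3
  have hEβ : G' ^ 2 ∣ 2 * (G' * g) * bl (f.map C) β O - μ * bl (hT f h) β β +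
      2 * bl (hT f h) β Z := by
    have he' : 2 * (G' * g) * bl (f.map C) x O - μ * bl (hT f h) x x +
        2 * bl (hT f h) x Z = (G' * g) ^ 2 * e := he
    have e1 : bl (f.map C) x O = bl (f.map C) β O + G' * bl (f.map C) s O := by
      rw [hxβ, bl_add_left, bl_smul_left]
    have e2 : bl (hT f h) x x = bl (hT f h) β β + 2 * G' * bl (hT f h) x s -
        G' ^ 2 * bl (hT f h) s s := by
      rw [hxβ]
      simp only [bl_add_left, bl_add_right, bl_smul_left, bl_smul_right]
      rw [hHs s β]
      ring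
    have e3 : bl (hT f h) x Z = bl (hT f h) β Z + G' * bl (hT f h) s Z := by
      conv_lhs => rw [hxβ]
      rw [bl_add_left, bl_smul_left]
    have e4 : bl (hT f h) s Z = μ * bl (hT f h) x s - G' * g * bl (hT f h) s r := by
      conv_lhs => rw [hZ]
      rw [bl_sub_right, bl_smul_right, bl_smul_right, hHs s x]
    rw [e1, e2, e3, e4] at he'
    refine ⟨g ^ 2 * e - 2 * g * bl (f.map C) s O - μ * bl (hT f h) s s +
      2 * g * bl (hT f h) s r, ?_⟩
    linear_combination he'
  have heqn : G' ^ 2 ∣ 2 * G' * bl (f.map C) x' O - C c * μ * bl (hT f h) x' x' +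
      2 * bl (hT f h) x' Z' := by
    have e1 : bl (hT f h) β β = (C c) ^ 2 * g ^ 2 * bl (hT f h) x' x' := by
      rw [hβ]
      simp only [bl_sub_left, bl_sub_right, bl_smul_left, bl_smul_right]
      rw [hbb, hHs x' b]
      ring
    have e2 : bl (f.map C) β O = C c * g * bl (f.map C) x' O -
        2 * bl (hT f h) b x' * bl (f.map C) b O := by
      rw [hβ, bl_sub_left, bl_smul_left, bl_smul_left]
    have e3 : bl (hT f h) β Z = C c * g ^ 2 * bl (hT f h) x' Z' +
        2 * bl (hT f h) b x' * (G' * g * bl (f.map C) b O) := by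
      apply mul_left_cancel₀ hcg
      have e4 : C c * g * bl (hT f h) β Z = C c * g ^ 2 * bl (hT f h) β Z' +
          2 * N * bl (hT f h) β b := by
        rw [← bl_smul_right, hcgZ, bl_add_right, bl_smul_right, bl_smul_right]
      have e5 : bl (hT f h) β Z' = C c * g * bl (hT f h) x' Z' -
          2 * bl (hT f h) b x' * bl (hT f h) b Z' := by
        rw [hβ, bl_sub_left, bl_smul_left, bl_smul_left]
      rw [e4, hHs β b, hbβ, e5, hNZ']
      ring
    have e6 : 2 * (G' * g) * bl (f.map C) β O - μ * bl (hT f h) β β + 2 * bl (hT f h) β Z =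
        g ^ 2 * (C c * (2 * G' * bl (f.map C) x' O - C c * μ * bl (hT f h) x' x' +
      2 * bl (hT f h) x' Z')) := by
      rw [e1, e2, e3]
      ring
    rw [e6] at hEβ
    have k1 : IsCoprime (G' ^ 2) (g ^ 2) := hcop.pow
    have k2 := k1.dvd_of_dvd_mul_left hEβ
    have hu : IsUnit (C c : κ[X]) := isUnit_C.2 (isUnit_iff_ne_zero.2 hc)
    exact (hu.dvd_mul_left).1 k2
  refine ⟨Z', ⟨hdeg, hcong, ?_⟩, hlead, ?_⟩
  · rw [hlead]
    exact heqn
  · intro i
    apply mul_left_cancel₀ hgne
    have e1 := hZ' i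
    rw [hNZ'] at e1
    linear_combination -e1

end Pool.Agent.Lib.MP_8ab79f_ag.Six
end
end

section

set_option autoImplicit false
set_option linter.unusedSectionVars false

noncomputable section

namespace Pool.Agent.Lib.MP_8ab79f_ag.Six

open Polynomial

variable {ι : Type*} [Fintype ι] {κ : Type*} [Field κ]

/-- The first end point. -/
theorem end0 (h2 : (2 : κ) ≠ 0) {f h : Matrix ι ι κ} (hf : f.IsSymm) (hh : h.IsSymm)
    {G : κ[X]} (hG : G.Monic) {B : ι → κ} {a : ι → κ[X]} {m : ℕ}
    (ha : ∀ i, (a i).natDegree ≤ m) {c : κ} (hc : c ≠ 0) (haa : bl (hT f h) a a = C c * G)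
    (hGd : G.natDegree = 2 * m + 1) (haB : bl (hT f h) a (cst B) = 0) {x : ι → κ[X]}
    (hx : ∀ i, G ∣ x i - a i) {μ : κ[X]} {Z : ι → κ[X]} (hs : IsSol f h G x B μ Z) :
    lead G.natDegree Z = 0 ∧ (B = 0 → Z = 0) := by
  obtain ⟨Z', hZ', hlead, hform⟩ := step h2 hf hh (G' := 1) (g := G) monic_one hG
    isCoprime_one_left ha hc haa hGd haB (x := x) (x' := 0) hx (fun i => one_dvd _)
    (μ := μ) (Z := Z) (by rw [one_mul]; exact hs)
  have hZ0 : Z' = 0 := by
    funext i
    have h1 := hZ'.deg i
    rw [degree_one] at h1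
    exact degree_eq_bot.1 (Nat.WithBot.lt_zero_iff.1 h1)
  simp only [one_mul] at hlead hform
  have hl : lead G.natDegree Z = 0 := by
    rw [← hlead, hZ0]
    funext i
    simp [lead]
  refine ⟨hl, fun hB => ?_⟩
  funext i
  have h1 := hform i
  rw [hl, hB, hZ0, add_zero, cst_zero, bl_zero_right, bl_zero_right] at h1
  simp only [Pi.zero_apply, mul_zero, add_zero, zero_mul, sub_zero] at h1
  rcases mul_eq_zero.1 h1 with h3 | h3
  · exact absurd (C_eq_zero.1 h3) hc
  · exact h3

/-- The case of a modulus of degree one. -/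
theorem base1 {f h : Matrix ι ι κ} (hf : f.IsSymm) (hh : h.IsSymm) {B y : ι → κ}
    (hy : bl h y y = 0) (hyy : bl f y y ≠ 0) {x : ι → κ[X]} (hx : ∀ i, X ∣ x i - C (y i))
    {μ : κ[X]} {Z : ι → κ[X]} (hs : IsSol f h X x B μ Z) :
    lead (X : κ[X]).natDegree Z = (-(2 * bl f y B / bl f y y)) • y ∧ (B = 0 → Z = 0) := by
  set ζ : ι → κ := lead (X : κ[X]).natDegree Z with hζ
  set μ0 : κ := μ.eval 0 with hμ0
  have hZ : ∀ i, Z i = C (ζ i) := by
    intro i
    have h1 := hs.deg i
    rw [degree_X] at h1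
    have h3 : Z i = C ((Z i).coeff 0) := eq_C_of_degree_le_zero (by
      exact Nat.WithBot.lt_one_iff_le_zero.1 h1)
    rw [h3]
    simp only [hζ, lead, natDegree_X]
    rw [show (1 : ℕ) = 0 + 1 from rfl, coeff_X_mul]
  have hζy : ∀ i, ζ i = μ0 * y i := by
    intro i
    have h1 := hs.cong i
    rw [X_dvd_iff, coeff_zero_eq_eval_zero, eval_sub, eval_mul, hZ i, eval_C] at h1
    have h3 := hx i
    rw [X_dvd_iff, coeff_zero_eq_eval_zero, eval_sub, eval_C] at h3
    rw [sub_eq_zero] at h1 h3
    rw [← h1, h3]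
  have hZ' : Z = C μ0 • cst y := by
    funext i
    rw [hZ i, hζy i]
    simp [cst]
  choose r hr using hx
  have hx' : x = cst y + (X : κ[X]) • r := by
    funext i
    simp only [Pi.add_apply, Pi.smul_apply, smul_eq_mul, cst, ← hr i]
    ring
  obtain ⟨μ1, hμ1⟩ : (X : κ[X]) ∣ μ - C μ0 := by
    rw [X_dvd_iff, coeff_zero_eq_eval_zero, eval_sub, eval_C, hμ0, sub_self]
  have hμ' : μ = C μ0 + X * μ1 := by rw [← hμ1]; ring
  have hS := isSymm_hT hf hh
  have hyy' : bl (hT f h) (cst y) (cst y) = -(X * C (bl f y y)) := by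
    rw [bl_hT, bl_cst, bl_cst, hy, C_0, zero_sub]
  have hE := hs.eqn
  rw [← hζ] at hE
  set Q : κ[X] := 2 * bl (f.map C) x (cst (B + ζ)) + μ * C (bl f y y)
    - μ * (2 * bl (hT f h) (cst y) r + X * bl (hT f h) r r)
    + 2 * (C μ0 * (-C (bl f y y) + bl (hT f h) (cst y) r)) with hQ
  have hEQ : 2 * X * bl (f.map C) x (cst (B + ζ)) - μ * bl (hT f h) x x +
      2 * bl (hT f h) x Z = X * Q := by
    have e1 : bl (hT f h) x x = -(X * C (bl f y y)) + 2 * (X * bl (hT f h) (cst y) r) +
        X * (X * bl (hT f h) r r) := by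
      rw [hx', bl_add_left, bl_add_right, bl_add_right, bl_smul_left, bl_smul_left, bl_smul_right,
        bl_smul_right, bl_comm hS r (cst y), hyy']
      ring
    have e2 : bl (hT f h) x Z = C μ0 * (-(X * C (bl f y y)) + X * bl (hT f h) (cst y) r) := by
      rw [hZ', hx', bl_smul_right, bl_add_left, bl_smul_left, bl_comm hS r (cst y), hyy']
    rw [e1, e2, hQ]
    ring
  rw [hEQ, sq] at hE
  have hXQ : (X : κ[X]) ∣ Q := (mul_dvd_mul_iff_left X_ne_zero).1 hE
  rw [X_dvd_iff, coeff_zero_eq_eval_zero] at hXQ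
  have hf1 : (bl (f.map C) x (cst (B + ζ))).eval 0 = bl f y B + μ0 * bl f y y := by
    rw [hx', bl_add_left, bl_smul_left, bl_cst, eval_add, eval_mul, eval_X, eval_C, zero_mul,
      add_zero, bl_add_right]
    congr 1
    have : ζ = μ0 • y := by funext i; rw [hζy i]; rfl
    rw [this, bl_smul_right]
  have hμe : μ.eval 0 = μ0 := rfl
  rw [hQ] at hXQ
  simp only [eval_add, eval_sub, eval_mul, eval_neg, eval_C, eval_X, hf1, hμe, eval_ofNat] at hXQ
  have hkey : 2 * bl f y B + μ0 * bl f y y = 0 := by linear_combination hXQ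
  have hμ0' : μ0 = -(2 * bl f y B / bl f y y) := by
    field_simp
    linear_combination hkey
  refine ⟨?_, fun hB => ?_⟩
  · funext i
    rw [hζy i, hμ0']
    rfl
  · have h0 : μ0 = 0 := by
      rw [hμ0', hB, bl_zero_right]; simp
    rw [hZ', h0, C_0, zero_smul]

/-- The second end point. -/
theorem end1 (h2 : (2 : κ) ≠ 0) {f h : Matrix ι ι κ} (hf : f.IsSymm) (hh : h.IsSymm)
    {g : κ[X]} (hg : g.Monic) {t₁ : κ} (ht₁ : t₁ ≠ 0) (hg0 : g.eval 0 ≠ 0)
    (hg1 : g.eval t₁ ≠ 0) {B : ι → κ} {b : ι → κ[X]} {m : ℕ}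
    (hb : ∀ i, (b i).natDegree ≤ m) {c : κ} (hc : c ≠ 0) (hbb : bl (hT f h) b b = C c * g)
    (hgd : g.natDegree = 2 * m + 1) (hbB : bl (hT f h) b (cst B) = 0) {u y : ι → κ}
    (hu : bl h u u = t₁ * bl f u u) (huu : bl f u u ≠ 0) (hfuB : bl f u B = 0)
    (hhuB : bl h u B = 0) (hy : bl h y y = 0) (hyy : bl f y y ≠ 0) {x x' : ι → κ[X]}
    (hxg : ∀ i, g ∣ x i - b i)
    (hxG : ∀ i, X * (X - C t₁) ∣ x i - (C c * g * x' i - 2 * bl (hT f h) b x' * b i))
    (hx'1 : ∀ i, X - C t₁ ∣ x' i - C (u i))
    (hx'0 : ∀ i, X ∣ x' i - (bl (hT f h) (cst u) (cst u) * C (y i) -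
      2 * bl (hT f h) (cst u) (cst y) * C (u i)))
    {μ : κ[X]} {Z : ι → κ[X]} (hs : IsSol f h (X * (X - C t₁) * g) x B μ Z) :
    lead (X * (X - C t₁) * g).natDegree Z = (-(2 * bl f y B / bl f y y)) • y ∧
      (B = 0 → Z = 0) := by
  have hcX : IsCoprime (X : κ[X]) g := by
    have h1 := (irreducible_X_sub_C (0 : κ)).coprime_iff_not_dvd (n := g)
    rw [dvd_iff_isRoot] at h1
    have h3 := h1.2 (fun h => hg0 h)
    rwa [C_0, sub_zero] at h3
  have hct : IsCoprime (X - C t₁) g := by
    have h1 := (irreducible_X_sub_C t₁).coprime_iff_not_dvd (n := g)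
    rw [dvd_iff_isRoot] at h1
    exact h1.2 (fun h => hg1 h)
  obtain ⟨Z₁, hZ₁, hlead₁, hform₁⟩ := step h2 hf hh (G' := X * (X - C t₁)) (g := g)
    (monic_X.mul (monic_X_sub_C t₁)) hg (hcX.mul_left hct) hb hc hbb hgd hbB (x := x) (x' := x')
    hxg hxG hs
  have huuT : bl (hT f h) (cst u) (cst u) = C (-bl f u u) * (X - C t₁) := by
    rw [bl_hT, bl_cst, bl_cst, hu]
    simp only [C_mul, C_neg]
    ring
  have hXt : IsCoprime (X : κ[X]) (X - C t₁) := by
    have h1 := (irreducible_X_sub_C (0 : κ)).coprime_iff_not_dvd (n := X - C t₁)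
    rw [dvd_iff_isRoot] at h1
    have h3 := h1.2 (fun h => by
      rw [IsRoot, eval_sub, eval_X, eval_C, zero_sub, neg_eq_zero] at h
      exact ht₁ h)
    rwa [C_0, sub_zero] at h3
  obtain ⟨Z₂, hZ₂, hlead₂, hform₂⟩ := step h2 hf hh (G' := (X : κ[X])) (g := X - C t₁) monic_X
    (monic_X_sub_C t₁) hXt (B := B) (b := cst u) (m := 0) (fun i => by simp [cst])
    (c := -bl f u u) (neg_ne_zero.2 huu) huuT (by simp)
    (by rw [bl_hT, bl_cst, bl_cst, hfuB, hhuB]; simp) (x := x') (x' := cst y)
    (fun i => hx'1 i) (fun i => by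
      have h1 := hx'0 i
      rw [huuT] at h1
      exact h1) hZ₁
  obtain ⟨hb1, hb2⟩ := base1 hf hh hy hyy (x := cst y) (fun i => by
    simp only [cst, sub_self]; exact dvd_zero _) hZ₂
  refine ⟨by rw [← hlead₁, ← hlead₂, hb1], fun hB => ?_⟩
  have hZ20 := hb2 hB
  have hl2 : lead (X * (X - C t₁)).natDegree Z₁ = 0 := by
    rw [← hlead₂, hZ20]
    funext i
    simp [lead]
  have hl1 : lead (X * (X - C t₁) * g).natDegree Z = 0 := by rw [← hlead₁, hl2]
  have hZ10 : Z₁ = 0 := by
    funext i
    have h1 := hform₂ i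
    rw [hl2, hB, hZ20, add_zero, cst_zero, bl_zero_right, bl_zero_right] at h1
    simp only [Pi.zero_apply, mul_zero, add_zero, zero_mul, sub_zero] at h1
    rcases mul_eq_zero.1 h1 with h3 | h3
    · exact absurd (C_eq_zero.1 h3) (neg_ne_zero.2 huu)
    · exact h3
  funext i
  have h1 := hform₁ i
  rw [hl1, hB, hZ10, add_zero, cst_zero, bl_zero_right, bl_zero_right] at h1
  simp only [Pi.zero_apply, mul_zero, add_zero, zero_mul, sub_zero] at h1
  rcases mul_eq_zero.1 h1 with h3 | h3
  · exact absurd (C_eq_zero.1 h3) hc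
  · exact h3

end Pool.Agent.Lib.MP_8ab79f_ag.Six
end
end

section

set_option autoImplicit false
set_option linter.unusedSectionVars false

noncomputable section

namespace Pool.Agent.Lib.MP_8ab79f_ag.Six

open Polynomial

section BLemD_aux

variable {R : Type*} [CommRing R] {ι : Type*} [Fintype ι]

theorem BLemD_coeff_mul {p q : R[X]} {m n : ℕ} (hp : p.natDegree ≤ m + 1)
    (hq : q.natDegree ≤ n + 1) :
    (p * q).coeff (m + n + 1) = p.coeff (m + 1) * q.coeff n + p.coeff m * q.coeff (n + 1) := by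
  rw [coeff_mul]
  have hne : ((m + 1, n) : ℕ × ℕ) ≠ (m, n + 1) := by
    intro h
    have := congrArg Prod.fst h
    simp at this
  rw [← Finset.sum_pair (f := fun x : ℕ × ℕ => p.coeff x.1 * q.coeff x.2) hne]
  symm
  apply Finset.sum_subset
  · intro x hx
    rw [Finset.mem_insert, Finset.mem_singleton] at hx
    rw [Finset.HasAntidiagonal.mem_antidiagonal]
    rcases hx with rfl | rfl
    · simp only []
      omega
    · simp only []
      omega
  · rintro ⟨a, b⟩ hx hx'
    rw [Finset.HasAntidiagonal.mem_antidiagonal] at hx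
    rw [Finset.mem_insert, Finset.mem_singleton, Prod.mk.injEq, Prod.mk.injEq] at hx'
    simp only [] at hx ⊢
    by_cases ha : m + 1 < a
    · rw [coeff_eq_zero_of_natDegree_lt (lt_of_le_of_lt hp ha), zero_mul]
    · have hb : n + 1 < b := by omega
      rw [coeff_eq_zero_of_natDegree_lt (lt_of_le_of_lt hq hb), mul_zero]

theorem BLemD_natDegree_bl (f : Matrix ι ι R) {Z W : ι → R[X]} {m n : ℕ}
    (hZ : ∀ i, (Z i).natDegree ≤ m) (hW : ∀ i, (W i).natDegree ≤ n) :
    (bl (f.map C) Z W).natDegree ≤ m + n := by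
  unfold bl
  refine natDegree_sum_le_of_forall_le _ _ fun i _ => ?_
  refine natDegree_sum_le_of_forall_le _ _ fun j _ => ?_
  rw [Matrix.map_apply, mul_assoc]
  refine (natDegree_C_mul_le _ _).trans ?_
  exact natDegree_mul_le.trans (add_le_add (hZ i) (hW j))

theorem BLemD_coeff_bl_top (f : Matrix ι ι R) {Z W : ι → R[X]} {m n : ℕ}
    (hZ : ∀ i, (Z i).natDegree ≤ m) (hW : ∀ i, (W i).natDegree ≤ n) :
    (bl (f.map C) Z W).coeff (m + n) =
      bl f (fun i => (Z i).coeff m) (fun i => (W i).coeff n) := by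
  unfold bl
  rw [finsetSum_coeff]
  refine Finset.sum_congr rfl fun i _ => ?_
  rw [finsetSum_coeff]
  refine Finset.sum_congr rfl fun j _ => ?_
  rw [Matrix.map_apply, mul_assoc, coeff_C_mul, coeff_mul_add_eq_of_natDegree_le (hZ i) (hW j),
    mul_assoc]

theorem BLemD_coeff_bl_snd (f : Matrix ι ι R) {Z W : ι → R[X]} {m n : ℕ}
    (hZ : ∀ i, (Z i).natDegree ≤ m + 1) (hW : ∀ i, (W i).natDegree ≤ n + 1) :
    (bl (f.map C) Z W).coeff (m + n + 1) =
      bl f (fun i => (Z i).coeff (m + 1)) (fun i => (W i).coeff n) +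
        bl f (fun i => (Z i).coeff m) (fun i => (W i).coeff (n + 1)) := by
  unfold bl
  rw [finsetSum_coeff, ← Finset.sum_add_distrib]
  refine Finset.sum_congr rfl fun i _ => ?_
  rw [finsetSum_coeff, ← Finset.sum_add_distrib]
  refine Finset.sum_congr rfl fun j _ => ?_
  rw [Matrix.map_apply, mul_assoc, coeff_C_mul, BLemD_coeff_mul (hZ i) (hW j)]
  ring

theorem BLemD_coeff_bl_cst (f : Matrix ι ι R) (Z : ι → R[X]) (v : ι → R) (k : ℕ) :
    (bl (f.map C) Z (cst v)).coeff k = bl f (fun i => (Z i).coeff k) v := by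
  unfold bl cst
  rw [finsetSum_coeff]
  refine Finset.sum_congr rfl fun i _ => ?_
  rw [finsetSum_coeff]
  refine Finset.sum_congr rfl fun j _ => ?_
  rw [Matrix.map_apply, coeff_mul_C, coeff_C_mul]

theorem BLemD_natDegree_cst (v : ι → R) (i : ι) : (cst v i).natDegree ≤ 0 := by
  simp [cst]

end BLemD_aux

/-- Lemma D: a solution of the dressing equation gives a common zero of the two forms. -/
theorem lemD {ι : Type*} [Fintype ι] {R : Type*} [CommRing R] [Nontrivial R]
    {f h : Matrix ι ι R} (hf : f.IsSymm) (hh : h.IsSymm) {G : R[X]} (hG : G.Monic)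
    (hd : 2 ≤ G.natDegree) {x : ι → R[X]} {B : ι → R} (hfB : bl f B B = 0) (hhB : bl h B B = 0)
    (hxB : G ∣ bl (hT f h) x (cst B)) {μ : R[X]} {Z : ι → R[X]} (hs : IsSol f h G x B μ Z) :
    bl f (B + lead G.natDegree Z) (B + lead G.natDegree Z) = 0 ∧
      bl h (B + lead G.natDegree Z) (B + lead G.natDegree Z) = 0 := by
  obtain ⟨e, he⟩ : ∃ e, G.natDegree = e + 2 := ⟨G.natDegree - 2, by omega⟩
  have hG0 : G ≠ 0 := hG.ne_zero
  -- degrees and coefficients of `Z`
  have hZd : ∀ i, (Z i).natDegree ≤ e + 1 := by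
    intro i
    have h1 := hs.deg i
    by_cases h0 : Z i = 0
    · rw [h0]
      simp
    · have h2 := natDegree_lt_natDegree h0 h1
      omega
  set z1 : ι → R := fun i => (Z i).coeff (e + 1) with hz1
  set z2 : ι → R := fun i => (Z i).coeff e with hz2
  have hlead : lead G.natDegree Z = z1 := by
    funext i
    rw [he]
    exact coeff_X_mul _ _
  have hE := hs.eqn
  rw [hlead] at hE ⊢
  -- the remainder
  choose r hr using hs.cong
  have hx : μ • x = Z + G • r := by
    funext i
    simp only [Pi.smul_apply, Pi.add_apply, smul_eq_mul]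
    rw [← hr i]
    ring
  have hTs := isSymm_hT hf hh
  have hfs : (f.map (C : R →+* R[X])).IsSymm := isSymm_map hf _
  -- first divisibility
  set O : ι → R[X] := cst (B + z1) with hO
  have hK : G ^ 2 ∣ bl (hT f h) Z Z + 2 * (G * bl (f.map C) Z O) := by
    have h1 : μ * (2 * G * bl (f.map C) x O - μ * bl (hT f h) x x + 2 * bl (hT f h) x Z) =
        2 * G * bl (f.map C) (μ • x) O - bl (hT f h) (μ • x) (μ • x) +
          2 * bl (hT f h) (μ • x) Z := by
      simp only [bl_smul_left, bl_smul_right]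
      ring
    have h2 : 2 * G * bl (f.map C) (μ • x) O - bl (hT f h) (μ • x) (μ • x) +
          2 * bl (hT f h) (μ • x) Z = bl (hT f h) Z Z + 2 * (G * bl (f.map C) Z O) +
        G ^ 2 * (2 * bl (f.map C) r O - bl (hT f h) r r) := by
      rw [hx]
      simp only [bl_add_left, bl_add_right, bl_smul_left, bl_smul_right]
      rw [bl_comm hTs Z r]
      ring
    have h3 : G ^ 2 ∣ bl (hT f h) Z Z + 2 * (G * bl (f.map C) Z O) +
        G ^ 2 * (2 * bl (f.map C) r O - bl (hT f h) r r) := by
      rw [← h2, ← h1]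
      exact Dvd.dvd.mul_left hE μ
    exact (dvd_add_left (dvd_mul_right _ _)).1 h3
  have hfZZ : (bl (f.map C) Z Z).natDegree ≤ (e + 1) + (e + 1) := BLemD_natDegree_bl f hZd hZd
  have hhZZ : (bl (h.map C) Z Z).natDegree ≤ (e + 1) + (e + 1) := BLemD_natDegree_bl h hZd hZd
  have hfZO : (bl (f.map C) Z O).natDegree ≤ e + 1 := by
    have := BLemD_natDegree_bl f hZd (BLemD_natDegree_cst (B + z1))
    simpa using this
  have hK0 : bl (hT f h) Z Z + 2 * (G * bl (f.map C) Z O) = 0 := by
    by_contra hne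
    refine Monic.not_dvd_of_natDegree_lt (hG.pow 2) hne ?_ hK
    rw [hG.natDegree_pow, he]
    have h1 : (bl (hT f h) Z Z).natDegree ≤ 2 * e + 3 := by
      rw [bl_hT]
      refine (natDegree_sub_le _ _).trans (max_le (by omega) ?_)
      refine natDegree_mul_le.trans ?_
      have : (X : R[X]).natDegree ≤ 1 := natDegree_X_le
      omega
    have h2 : (2 * (G * bl (f.map C) Z O)).natDegree ≤ 2 * e + 3 := by
      rw [two_mul]
      refine (natDegree_add_le _ _).trans (max_le ?_ ?_) <;>
      · refine natDegree_mul_le.trans ?_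
        omega
    have h3 := natDegree_add_le (bl (hT f h) Z Z) (2 * (G * bl (f.map C) Z O))
    have h4 := max_le h1 h2
    omega
  rw [bl_hT] at hK0
  -- coefficients of `G`
  have hGtop : G.coeff (e + 2) = 1 := by
    rw [← he]
    exact hG.coeff_natDegree
  -- coefficient of degree `2 e + 3`
  have hc3 : -bl f z1 z1 + 2 * bl f z1 (B + z1) = 0 := by
    have h1 := congrArg (fun p : R[X] => p.coeff (2 * e + 2 + 1)) hK0
    simp only [coeff_add, coeff_sub, coeff_zero] at h1
    rw [coeff_X_mul] at h1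
    have h2 : (bl (h.map C) Z Z).coeff (2 * e + 2 + 1) = 0 :=
      coeff_eq_zero_of_natDegree_lt (by omega)
    have h3 : (bl (f.map C) Z Z).coeff (2 * e + 2) = bl f z1 z1 := by
      have := BLemD_coeff_bl_top f hZd hZd
      rw [show 2 * e + 2 = (e + 1) + (e + 1) by ring]
      exact this
    have h4 : (G * bl (f.map C) Z O).coeff (2 * e + 2 + 1) = bl f z1 (B + z1) := by
      rw [show 2 * e + 2 + 1 = (e + 2) + (e + 1) by ring,
        coeff_mul_add_eq_of_natDegree_le he.le hfZO, hGtop, one_mul]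
      exact BLemD_coeff_bl_cst f Z (B + z1) (e + 1)
    rw [two_mul (G * _), coeff_add, h2, h3, h4] at h1
    rw [two_mul]
    linear_combination h1
  -- coefficient of degree `2 e + 2`
  have hc2 : bl h z1 z1 - 2 * bl f z1 z2 + 2 * (bl f z2 (B + z1) +
      G.coeff (e + 1) * bl f z1 (B + z1)) = 0 := by
    have h1 := congrArg (fun p : R[X] => p.coeff (2 * e + 1 + 1)) hK0
    simp only [coeff_add, coeff_sub, coeff_zero] at h1
    rw [coeff_X_mul] at h1
    have h2 : (bl (h.map C) Z Z).coeff (2 * e + 1 + 1) = bl h z1 z1 := by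
      have := BLemD_coeff_bl_top h hZd hZd
      rw [show 2 * e + 1 + 1 = (e + 1) + (e + 1) by ring]
      exact this
    have h3 : (bl (f.map C) Z Z).coeff (2 * e + 1) = bl f z1 z2 + bl f z2 z1 := by
      have := BLemD_coeff_bl_snd f hZd hZd
      rw [show 2 * e + 1 = e + e + 1 by ring]
      exact this
    have h4 : (G * bl (f.map C) Z O).coeff (2 * e + 1 + 1) =
        bl f z2 (B + z1) + G.coeff (e + 1) * bl f z1 (B + z1) := by
      rw [show 2 * e + 1 + 1 = (e + 1) + e + 1 by ring,
        BLemD_coeff_mul he.le hfZO, hGtop, one_mul]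
      rw [hO, BLemD_coeff_bl_cst f Z (B + z1) e, BLemD_coeff_bl_cst f Z (B + z1) (e + 1)]
    rw [two_mul (G * _), coeff_add, h2, h3, h4, bl_comm hf z2 z1] at h1
    linear_combination h1
  -- the second divisibility
  have hP : G ∣ bl (hT f h) Z (cst B) := by
    have h1 : G ∣ μ * bl (hT f h) x (cst B) := Dvd.dvd.mul_left hxB μ
    rw [← bl_smul_left, hx, bl_add_left, bl_smul_left] at h1
    exact (dvd_add_left (dvd_mul_right _ _)).1 h1
  obtain ⟨s, hs1⟩ := hP
  have hPd : (bl (hT f h) Z (cst B)).natDegree ≤ e + 2 := by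
    rw [bl_hT]
    have h1 := BLemD_natDegree_bl f hZd (BLemD_natDegree_cst B)
    have h2 := BLemD_natDegree_bl h hZd (BLemD_natDegree_cst B)
    refine (natDegree_sub_le _ _).trans (max_le (by omega) ?_)
    refine natDegree_mul_le.trans ?_
    have : (X : R[X]).natDegree ≤ 1 := natDegree_X_le
    omega
  have hs2 : s = C (s.coeff 0) := by
    by_cases h0 : s = 0
    · rw [h0]
      simp
    · have h1 := hG.natDegree_mul' h0
      rw [← hs1, he] at h1
      exact eq_C_of_natDegree_eq_zero (by omega)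
  rw [hs2, bl_hT] at hs1
  have hd2 : -bl f z1 B = s.coeff 0 := by
    have h1 := congrArg (fun p : R[X] => p.coeff (e + 1 + 1)) hs1
    simp only [coeff_sub, coeff_mul_C] at h1
    rw [coeff_X_mul, BLemD_coeff_bl_cst f Z B (e + 1), hGtop, one_mul] at h1
    have h2 : (bl (h.map C) Z (cst B)).coeff (e + 1 + 1) = 0 := by
      have h3 := BLemD_natDegree_bl h hZd (BLemD_natDegree_cst B)
      exact coeff_eq_zero_of_natDegree_lt (by omega)
    rw [h2, zero_sub] at h1
    exact h1
  have hd1 : bl h z1 B - bl f z2 B = G.coeff (e + 1) * s.coeff 0 := by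
    have h1 := congrArg (fun p : R[X] => p.coeff (e + 1)) hs1
    simp only [coeff_sub, coeff_mul_C] at h1
    rw [coeff_X_mul, BLemD_coeff_bl_cst f Z B e, BLemD_coeff_bl_cst h Z B (e + 1)] at h1
    exact h1
  -- conclusion
  simp only [bl_add_left, bl_add_right] at hc3 hc2 ⊢
  rw [bl_comm hf B z1, bl_comm hh B z1, hfB, hhB]
  rw [← hd2] at hd1
  rw [bl_comm hf z2 z1] at hc2
  constructor
  · linear_combination hc3
  · linear_combination hc2 + 2 * hd1 - 2 * G.coeff (e + 1) * hc3

end Pool.Agent.Lib.MP_8ab79f_ag.Six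
end
end

section

set_option autoImplicit false
set_option linter.unusedSectionVars false

noncomputable section

namespace Pool.Agent.Lib.MP_8ab79f_ag.Six

open Polynomial

variable {ι : Type*} [Fintype ι] {R S : Type*} [CommRing R] [CommRing S]

/-- The residue of the dressing equation (its homogeneous part). -/
def resid (d : ℕ) (f h : Matrix ι ι R) (G : R[X]) (x : ι → R[X]) (μ : R[X]) : R[X] :=
  (2 * bl (f.map C) x (cst (lead d fun i => (μ * x i) %ₘ G)) + μ * (bl (hT f h) x x /ₘ G) -
    2 * bl (hT f h) x (fun i => (μ * x i) /ₘ G)) %ₘ G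

/-- The matrix of the dressing equation. -/
def sysMat (d : ℕ) (f h : Matrix ι ι R) (G : R[X]) (x : ι → R[X]) : Matrix (Fin d) (Fin d) R :=
  Matrix.of fun i j => (resid d f h G x (X ^ (j : ℕ))).coeff i

/-- The right hand side of the dressing equation. -/
def sysVec (d : ℕ) (f : Matrix ι ι R) (G : R[X]) (x : ι → R[X]) (B : ι → R) : Fin d → R :=
  fun i => ((2 * bl (f.map C) x (cst B)) %ₘ G).coeff i

/-- The polynomial with given coefficients. -/
def polyOf {d : ℕ} (c : Fin d → R) : R[X] := ∑ j, C (c j) * X ^ (j : ℕ)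

end Pool.Agent.Lib.MP_8ab79f_ag.Six
end
end

section

set_option autoImplicit false
set_option linter.unusedSectionVars false

noncomputable section

namespace Pool.Agent.Lib.MP_8ab79f_ag.Six

open Polynomial

variable {ι : Type*} [Fintype ι] {R S : Type*} [CommRing R] [CommRing S]

namespace DSolAux

theorem div_add [Nontrivial R] {G : R[X]} (hG : G.Monic) (a b : R[X]) :
    (a + b) /ₘ G = a /ₘ G + b /ₘ G := by
  refine (div_modByMonic_unique (a /ₘ G + b /ₘ G) (a %ₘ G + b %ₘ G) hG ⟨?_, ?_⟩).1
  · linear_combination modByMonic_add_div a G + modByMonic_add_div b G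
  · exact (degree_add_le _ _).trans_lt
      (max_lt (degree_modByMonic_lt a hG) (degree_modByMonic_lt b hG))

theorem div_C_mul [Nontrivial R] {G : R[X]} (hG : G.Monic) (c : R) (a : R[X]) :
    (C c * a) /ₘ G = C c * (a /ₘ G) := by
  refine (div_modByMonic_unique (C c * (a /ₘ G)) (C c * (a %ₘ G)) hG ⟨?_, ?_⟩).1
  · linear_combination C c * modByMonic_add_div a G
  · rw [← smul_eq_C_mul]
    exact (degree_smul_le c _).trans_lt (degree_modByMonic_lt a hG)

theorem mod_C_mul [Nontrivial R] {G : R[X]} (hG : G.Monic) (c : R) (a : R[X]) :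
    (C c * a) %ₘ G = C c * (a %ₘ G) := by
  refine (div_modByMonic_unique (C c * (a /ₘ G)) (C c * (a %ₘ G)) hG ⟨?_, ?_⟩).2
  · linear_combination C c * modByMonic_add_div a G
  · rw [← smul_eq_C_mul]
    exact (degree_smul_le c _).trans_lt (degree_modByMonic_lt a hG)

theorem lead_add (d : ℕ) (Z Z' : ι → R[X]) : lead d (Z + Z') = lead d Z + lead d Z' := by
  ext i
  simp only [lead, Pi.add_apply, mul_add, coeff_add]

theorem lead_C_mul (d : ℕ) (c : R) (Z : ι → R[X]) :
    lead d (C c • Z) = c • lead d Z := by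
  ext i
  simp only [lead, Pi.smul_apply, smul_eq_mul]
  rw [← mul_assoc, mul_comm X (C c), mul_assoc, coeff_C_mul]

theorem resid_add [Nontrivial R] {f h : Matrix ι ι R} {G : R[X]} (hG : G.Monic) (d : ℕ)
    (x : ι → R[X]) (a b : R[X]) :
    resid d f h G x (a + b) = resid d f h G x a + resid d f h G x b := by
  unfold resid
  have h1 : (fun i => ((a + b) * x i) %ₘ G) =
      (fun i => (a * x i) %ₘ G) + (fun i => (b * x i) %ₘ G) := by
    funext i
    rw [add_mul, add_modByMonic]
    rfl
  have h2 : (fun i => ((a + b) * x i) /ₘ G) =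
      (fun i => (a * x i) /ₘ G) + (fun i => (b * x i) /ₘ G) := by
    funext i
    rw [add_mul, div_add hG]
    rfl
  rw [h1, h2, lead_add, cst_add, bl_add_right, bl_add_right, ← add_modByMonic]
  congr 1
  ring

theorem resid_C_mul [Nontrivial R] {f h : Matrix ι ι R} {G : R[X]} (hG : G.Monic) (d : ℕ)
    (x : ι → R[X]) (c : R) (a : R[X]) :
    resid d f h G x (C c * a) = C c * resid d f h G x a := by
  unfold resid
  have h1 : (fun i => ((C c * a) * x i) %ₘ G) = C c • (fun i => (a * x i) %ₘ G) := by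
    funext i
    rw [mul_assoc, mod_C_mul hG]
    rfl
  have h2 : (fun i => ((C c * a) * x i) /ₘ G) = C c • (fun i => (a * x i) /ₘ G) := by
    funext i
    rw [mul_assoc, div_C_mul hG]
    rfl
  rw [h1, h2, lead_C_mul, cst_smul, bl_smul_right, bl_smul_right, ← mod_C_mul hG]
  congr 1
  ring

theorem resid_sum [Nontrivial R] {f h : Matrix ι ι R} {G : R[X]} (hG : G.Monic) (d : ℕ)
    (x : ι → R[X]) {κ : Type*} (s : Finset κ) (c : κ → R) (a : κ → R[X]) :
    resid d f h G x (∑ j ∈ s, C (c j) * a j) = ∑ j ∈ s, C (c j) * resid d f h G x (a j) := by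
  classical
  induction s using Finset.induction_on with
  | empty =>
    have := resid_C_mul (f := f) (h := h) hG d x 0 0
    simpa using this
  | insert j s hj ih => rw [Finset.sum_insert hj, Finset.sum_insert hj, resid_add hG,
      resid_C_mul hG, ih]

end DSolAux

open DSolAux

/-- A solution of the linear system gives a solution of the dressing equation. -/
theorem isSol_of_sys [Nontrivial R] {f h : Matrix ι ι R} (hf : f.IsSymm) (hh : h.IsSymm)
    {G : R[X]} (hG : G.Monic) {d : ℕ} (hd : G.natDegree = d) {x : ι → R[X]}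
    (hxx : G ∣ bl (hT f h) x x) {B : ι → R} {c : Fin d → R}
    (hc : (sysMat d f h G x).mulVec c + sysVec d f G x B = 0) :
    IsSol f h G x B (polyOf c) (fun i => (polyOf c * x i) %ₘ G) := by
  refine ⟨fun i => degree_modByMonic_lt _ hG, fun i => ?_, ?_⟩
  · have := dvd_modByMonic_sub (polyOf c * x i) G
    rw [← dvd_neg, neg_sub] at this
    exact this
  · rw [hd]
    set μ := polyOf c with hμ
    set Z : ι → R[X] := fun i => (μ * x i) %ₘ G with hZ
    set r : ι → R[X] := fun i => (μ * x i) /ₘ G with hr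
    set u := bl (hT f h) x x /ₘ G with hu
    have hGu : G * u = bl (hT f h) x x := by
      have h1 := modByMonic_add_div (bl (hT f h) x x) G
      rw [(modByMonic_eq_zero_iff_dvd hG).2 hxx, zero_add] at h1
      exact h1
    have hGr : G • r = μ • x - Z := by
      funext i
      have h1 := modByMonic_add_div (μ * x i) G
      simp only [Pi.smul_apply, smul_eq_mul, Pi.sub_apply, hr, hZ]
      linear_combination h1
    have hres : resid d f h G x μ + (2 * bl (f.map C) x (cst B)) %ₘ G = 0 := by
      ext n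
      rw [coeff_add, coeff_zero]
      by_cases hn : n < d
      · have h1 := congrFun hc ⟨n, hn⟩
        rw [Pi.add_apply, Matrix.mulVec, Pi.zero_apply] at h1
        have h2 : (resid d f h G x μ).coeff n =
            (fun j => sysMat d f h G x ⟨n, hn⟩ j) ⬝ᵥ c := by
          rw [hμ, polyOf, resid_sum hG, finsetSum_coeff, dotProduct]
          refine Finset.sum_congr rfl fun j _ => ?_
          rw [coeff_C_mul, mul_comm]
          rfl
        rw [h2]
        exact h1
      · have hdeg : (n : WithBot ℕ) ≥ G.degree := by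
          rw [degree_eq_natDegree hG.ne_zero, hd]
          exact_mod_cast not_lt.1 hn
        have h1 : ((resid d f h G x μ)).coeff n = 0 :=
          coeff_eq_zero_of_degree_lt ((degree_modByMonic_lt _ hG).trans_le hdeg)
        have h2 : ((2 * bl (f.map C) x (cst B)) %ₘ G).coeff n = 0 :=
          coeff_eq_zero_of_degree_lt ((degree_modByMonic_lt _ hG).trans_le hdeg)
        rw [h1, h2, add_zero]
    have hdvd : G ∣ (2 * bl (f.map C) x (cst (lead d Z)) + μ * u - 2 * bl (hT f h) x r) +
        2 * bl (f.map C) x (cst B) := by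
      rw [← modByMonic_eq_zero_iff_dvd hG, add_modByMonic]
      exact hres
    obtain ⟨q, hq⟩ := hdvd
    refine ⟨q, ?_⟩
    have h3 : G * bl (hT f h) x r = μ * bl (hT f h) x x - bl (hT f h) x Z := by
      rw [← bl_smul_right, hGr, bl_sub_right, bl_smul_right]
    rw [cst_add, bl_add_right]
    linear_combination G * hq - μ * hGu + 2 * h3

theorem DSolAux.map_C_map (φ : R →+* S) (f : Matrix ι ι R) :
    (f.map C).map (mapRingHom φ) = (f.map φ).map C := by
  ext i j : 2
  simp

theorem DSolAux.hT_map (φ : R →+* S) (f h : Matrix ι ι R) :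
    (hT f h).map (mapRingHom φ) = hT (f.map φ) (h.map φ) := by
  ext i j : 2
  simp [hT]

theorem DSolAux.lead_map (φ : R →+* S) (d : ℕ) (Z : ι → R[X]) :
    lead d (fun i => (Z i).map φ) = fun i => φ (lead d Z i) := by
  funext i
  simp only [lead]
  rw [← coeff_map, Polynomial.map_mul, map_X]

theorem DSolAux.bl_f_map (φ : R →+* S) (f : Matrix ι ι R) (x : ι → R[X]) (v : ι → R) :
    (bl (f.map C) x (cst v)).map φ =
      bl ((f.map φ).map C) (fun i => (x i).map φ) (cst fun i => φ (v i)) := by
  have h1 := bl_map (mapRingHom φ) (f.map C) x (cst v)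
  rw [map_C_map] at h1
  have h2 : (fun i => mapRingHom φ (cst v i)) = cst fun i => φ (v i) := by
    funext i
    simp [cst]
  rw [h2] at h1
  exact h1

theorem DSolAux.bl_h_map (φ : R →+* S) (f h : Matrix ι ι R) (x y : ι → R[X]) :
    (bl (hT f h) x y).map φ =
      bl (hT (f.map φ) (h.map φ)) (fun i => (x i).map φ) (fun i => (y i).map φ) := by
  have h1 := bl_map (mapRingHom φ) (hT f h) x y
  rw [hT_map] at h1
  exact h1

/-- Solutions of the dressing equation are preserved by ring homomorphisms. -/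
theorem IsSol.map [Nontrivial S] (φ : R →+* S) {f h : Matrix ι ι R} {G : R[X]} (hG : G.Monic)
    {x : ι → R[X]} {B : ι → R} {μ : R[X]} {Z : ι → R[X]} (hs : IsSol f h G x B μ Z) :
    IsSol (f.map φ) (h.map φ) (G.map φ) (fun i => (x i).map φ) (fun i => φ (B i)) (μ.map φ)
      (fun i => (Z i).map φ) := by
  refine ⟨fun i => ?_, fun i => ?_, ?_⟩
  · rw [hG.degree_map]
    exact (degree_map_le).trans_lt (hs.deg i)
  · have := map_dvd (mapRingHom φ) (hs.cong i)
    simpa only [map_sub, map_mul, coe_mapRingHom] using this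
  · rw [hG.natDegree_map]
    have h1 := map_dvd (mapRingHom φ) hs.eqn
    simp only [map_sub, map_add, map_mul, map_pow, coe_mapRingHom, bl_f_map, bl_h_map,
      Polynomial.map_ofNat] at h1
    have h5 : ((fun i => φ (B i)) + fun i => φ (lead G.natDegree Z i)) =
        fun i => φ ((B + lead G.natDegree Z) i) := funext fun i => (map_add φ _ _).symm
    rw [lead_map, h5]
    exact h1

/-- The matrix of the dressing equation is compatible with ring homomorphisms. -/
theorem sysMat_map [Nontrivial S] (φ : R →+* S) (d : ℕ) (f h : Matrix ι ι R) {G : R[X]}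
    (hG : G.Monic) (x : ι → R[X]) :
    sysMat d (f.map φ) (h.map φ) (G.map φ) (fun i => (x i).map φ) = (sysMat d f h G x).map φ := by
  ext i j
  simp only [sysMat, Matrix.of_apply, Matrix.map_apply]
  rw [← coeff_map]
  congr 1
  unfold resid
  rw [map_modByMonic _ hG]
  simp only [Polynomial.map_sub, Polynomial.map_add, Polynomial.map_mul, bl_f_map, bl_h_map,
    Polynomial.map_ofNat, map_divByMonic _ hG, Polynomial.map_pow, map_X, map_modByMonic _ hG,
    ← lead_map]

end Pool.Agent.Lib.MP_8ab79f_ag.Six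
end
end

section

set_option autoImplicit false
set_option linter.unusedSectionVars false

noncomputable section

namespace Pool.Agent.Lib.MP_8ab79f_ag.Six

open Polynomial

section DDress

variable {ι : Type*} [Fintype ι] {R S : Type*} [CommRing R] [CommRing S]

theorem ddr_sysVec_smul (d : ℕ) (f : Matrix ι ι R) (G : R[X]) (x : ι → R[X])
    (B : ι → R) (δ : R) : sysVec d f G x (δ • B) = δ • sysVec d f G x B := by
  funext i
  unfold sysVec
  have h1 : 2 * bl (f.map C) x (cst (δ • B)) = δ • (2 * bl (f.map C) x (cst B)) := by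
    rw [cst_smul, bl_smul_right, smul_eq_C_mul]
    ring
  rw [h1, smul_modByMonic]
  rw [coeff_smul, Pi.smul_apply]

theorem ddr_sysVec_zero (d : ℕ) (f : Matrix ι ι R) (G : R[X]) (x : ι → R[X]) :
    sysVec d f G x 0 = 0 := by
  funext i
  unfold sysVec
  rw [cst_zero, bl_zero_right, mul_zero, zero_modByMonic, coeff_zero]
  rfl

theorem ddr_hT_map (φ : R →+* S) (f h : Matrix ι ι R) :
    (hT f h).map (mapRingHom φ) = hT (f.map φ) (h.map φ) := by
  ext i j : 2
  simp only [hT, Matrix.map_apply, Matrix.sub_apply, Matrix.smul_apply, smul_eq_mul,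
    coe_mapRingHom, Polynomial.map_sub, Polynomial.map_mul, map_C, map_X]

theorem ddr_polyOf_coeff {d : ℕ} (c : Fin d → R) (j : Fin d) : (polyOf c).coeff j = c j := by
  unfold polyOf
  rw [finsetSum_coeff, Finset.sum_eq_single j]
  · rw [coeff_C_mul_X_pow, if_pos rfl]
  · intro k _ hk
    rw [coeff_C_mul_X_pow, if_neg]
    intro e
    exact hk (Fin.ext e.symm)
  · intro hj
    exact absurd (Finset.mem_univ j) hj

theorem ddr_polyOf_degree {d : ℕ} (c : Fin d → R) : (polyOf c).degree < d := by
  unfold polyOf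
  refine lt_of_le_of_lt (degree_sum_le _ _) ?_
  rw [Finset.sup_lt_iff (by exact WithBot.bot_lt_coe d)]
  intro j _
  refine lt_of_le_of_lt (degree_C_mul_X_pow_le _ _) ?_
  exact_mod_cast j.isLt

end DDress

variable {ι : Type*} [Fintype ι] {κ : Type*} [Field κ]

/-- The dressing theorem: a family of vectors over the line gives a rational curve. -/
theorem dressing {f h : Matrix ι ι κ} (hf : f.IsSymm) (hh : h.IsSymm) {O : ι → κ}
    (hfO : bl f O O = 0) (hhO : bl h O O = 0) {G : κ[X]} (hG : G.Monic)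
    (hd : 2 ≤ G.natDegree) (x : ι → κ[X][X])
    (hxx : G.map C ∣ bl (hT (f.map C) (h.map C)) x x)
    (hxO : G.map C ∣ bl (hT (f.map C) (h.map C)) x (cst fun i => C (O i))) :
    ∃ Q : ι → κ[X], bl (f.map C) Q Q = 0 ∧ bl (h.map C) Q Q = 0 ∧
      ∀ s : κ, ∃ δ : κ,
        (∃ (μ : κ[X]) (Z : ι → κ[X]),
          IsSol f h G (fun i => (x i).map (evalRingHom s)) (δ • O) μ Z ∧
          (fun i => (Q i).eval s) = δ • O + lead G.natDegree Z) ∧
        (δ = 0 → ∃ (μ : κ[X]) (Z : ι → κ[X]), μ ≠ 0 ∧ μ.degree < G.degree ∧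
          IsSol f h G (fun i => (x i).map (evalRingHom s)) 0 μ Z) := by
  classical
  obtain ⟨d, hdd⟩ : ∃ d, d = G.natDegree := ⟨_, rfl⟩
  have hGR : (G.map (C : κ →+* κ[X])).Monic := hG.map C
  have hGd : (G.map (C : κ →+* κ[X])).natDegree = d := by rw [hG.natDegree_map, hdd]
  have hfR : (f.map (C : κ →+* κ[X])).IsSymm := isSymm_map hf _
  have hhR : (h.map (C : κ →+* κ[X])).IsSymm := isSymm_map hh _
  obtain ⟨OR, hOR⟩ : ∃ OR : ι → κ[X], OR = fun i => C (O i) := ⟨_, rfl⟩
  obtain ⟨A, hA⟩ : ∃ A, A = sysMat d (f.map C) (h.map C) (G.map C) x := ⟨_, rfl⟩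
  obtain ⟨v, hv⟩ : ∃ v, v = sysVec d (f.map C) (G.map C) x OR := ⟨_, rfl⟩
  obtain ⟨δ, hδ⟩ : ∃ δ, δ = A.det := ⟨_, rfl⟩
  obtain ⟨c, hc⟩ : ∃ c, c = -(A.adjugate.mulVec v) := ⟨_, rfl⟩
  have hsys : (sysMat d (f.map C) (h.map C) (G.map C) x).mulVec c +
      sysVec d (f.map C) (G.map C) x (δ • OR) = 0 := by
    rw [ddr_sysVec_smul d, ← hA, ← hv, hc, Matrix.mulVec_neg, Matrix.mulVec_mulVec,
      Matrix.mul_adjugate, Matrix.smul_mulVec, Matrix.one_mulVec, hδ, neg_add_cancel]
  have hsol := isSol_of_sys hfR hhR hGR hGd hxx hsys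
  obtain ⟨Z, hZ⟩ : ∃ Z : ι → κ[X][X], Z = fun i => (polyOf c * x i) %ₘ G.map C := ⟨_, rfl⟩
  rw [← hZ] at hsol
  have hfB : bl (f.map (C : κ →+* κ[X])) (δ • OR) (δ • OR) = 0 := by
    rw [bl_smul_left, bl_smul_right]
    have h1 : bl (f.map (C : κ →+* κ[X])) OR OR = C (bl f O O) := by
      rw [hOR]
      exact (bl_map C f O O).symm
    rw [h1, hfO]
    simp
  have hhB : bl (h.map (C : κ →+* κ[X])) (δ • OR) (δ • OR) = 0 := by
    rw [bl_smul_left, bl_smul_right]
    have h1 : bl (h.map (C : κ →+* κ[X])) OR OR = C (bl h O O) := by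
      rw [hOR]
      exact (bl_map C h O O).symm
    rw [h1, hhO]
    simp
  have hxB : G.map C ∣ bl (hT (f.map C) (h.map C)) x (cst (δ • OR)) := by
    rw [cst_smul, bl_smul_right]
    refine Dvd.dvd.mul_left ?_ _
    rw [hOR]
    exact hxO
  obtain ⟨hQf, hQh⟩ := lemD hfR hhR hGR (by rw [hGd, hdd]; exact hd) hfB hhB hxB hsol
  rw [hGd] at hQf hQh
  refine ⟨δ • OR + lead d Z, hQf, hQh, fun s => ⟨δ.eval s, ?_, ?_⟩⟩
  · have h1 := hsol.map (evalRingHom s) hGR
    have e1 : ∀ A : Matrix ι ι κ, (A.map (C : κ →+* κ[X])).map (evalRingHom s) = A := by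
      intro A
      ext i j
      simp
    have e2 : (G.map (C : κ →+* κ[X])).map (evalRingHom s) = G := by
      rw [Polynomial.map_map]
      have : (evalRingHom s).comp (C : κ →+* κ[X]) = RingHom.id κ := by
        ext a
        simp
      rw [this, Polynomial.map_id]
    have e3 : (fun i => evalRingHom s ((δ • OR) i)) = δ.eval s • O := by
      funext i
      rw [hOR]
      simp
    rw [e1, e1, e2, e3] at h1
    refine ⟨_, _, h1, ?_⟩
    funext i
    have e4 : (fun i => (evalRingHom s) ((δ • OR) i)) i = (δ.eval s • O) i := congrFun e3 i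
    rw [Pi.add_apply, Pi.add_apply, eval_add]
    congr 1
    unfold lead
    rw [hdd]
    have e5 : X * (Z i).map (evalRingHom s) = (X * Z i).map (evalRingHom s) := by
      rw [Polynomial.map_mul, map_X]
    rw [e5, coeff_map]
    rfl
  · intro hδ0
    have e1 : ∀ A : Matrix ι ι κ, (A.map (C : κ →+* κ[X])).map (evalRingHom s) = A := by
      intro A
      ext i j
      simp
    have e2 : (G.map (C : κ →+* κ[X])).map (evalRingHom s) = G := by
      rw [Polynomial.map_map]
      have : (evalRingHom s).comp (C : κ →+* κ[X]) = RingHom.id κ := by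
        ext a
        simp
      rw [this, Polynomial.map_id]
    have h1 := sysMat_map (evalRingHom s) d (f.map C) (h.map C) hGR x
    rw [e1, e1, e2, ← hA] at h1
    have h2 : (sysMat d f h G fun i => (x i).map (evalRingHom s)).det = 0 := by
      rw [h1]
      have h3 := RingHom.map_det (evalRingHom s) A
      have h4 : (evalRingHom s).mapMatrix A = A.map (evalRingHom s) := rfl
      rw [← h4, ← h3, ← hδ]
      exact hδ0
    obtain ⟨c', hc', hc0⟩ := Matrix.exists_mulVec_eq_zero_iff.2 h2
    have h5 : G ∣ bl (hT f h) (fun i => (x i).map (evalRingHom s))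
        (fun i => (x i).map (evalRingHom s)) := by
      have h6 := map_dvd (mapRingHom (evalRingHom s)) hxx
      rw [bl_map, ddr_hT_map, e1, e1] at h6
      have h7 : mapRingHom (evalRingHom s) (G.map C) = G := e2
      rw [h7] at h6
      exact h6
    have h8 := isSol_of_sys hf hh hG hdd.symm h5 (B := 0) (c := c') (by
      rw [hc0, ddr_sysVec_zero, add_zero])
    refine ⟨_, _, ?_, ?_, h8⟩
    · intro h9
      apply hc'
      funext j
      rw [← ddr_polyOf_coeff c' j, h9, coeff_zero]
      rfl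
    · refine lt_of_lt_of_eq (ddr_polyOf_degree c') ?_
      rw [hdd, degree_eq_natDegree hG.ne_zero]

end Pool.Agent.Lib.MP_8ab79f_ag.Six
end
end

section

set_option autoImplicit false
set_option linter.unusedSectionVars false

noncomputable section

namespace Pool.Agent.Lib.MP_8ab79f_ag.Six

open Polynomial

/-- A function which is polynomial along every line. -/
def PolyLines {κ V : Type*} [CommRing κ] [AddCommGroup V] [Module κ V] (φ : V → κ) : Prop :=
  ∀ x y : V, ∃ p : κ[X], ∀ s : κ, p.eval s = φ (x + s • y)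

section

variable {κ V : Type*} [Field κ] [AddCommGroup V] [Module κ V]

theorem PolyLines.const (c : κ) : PolyLines (fun _ : V => c) := by
  intro x y
  exact ⟨C c, fun s => by simp⟩

theorem PolyLines.add {φ ψ : V → κ} (hφ : PolyLines φ) (hψ : PolyLines ψ) :
    PolyLines (fun v => φ v + ψ v) := by
  intro x y
  obtain ⟨p, hp⟩ := hφ x y
  obtain ⟨q, hq⟩ := hψ x y
  exact ⟨p + q, fun s => by simp [hp, hq]⟩

theorem PolyLines.sub {φ ψ : V → κ} (hφ : PolyLines φ) (hψ : PolyLines ψ) :
    PolyLines (fun v => φ v - ψ v) := by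
  intro x y
  obtain ⟨p, hp⟩ := hφ x y
  obtain ⟨q, hq⟩ := hψ x y
  exact ⟨p - q, fun s => by simp [hp, hq]⟩

theorem PolyLines.mul {φ ψ : V → κ} (hφ : PolyLines φ) (hψ : PolyLines ψ) :
    PolyLines (fun v => φ v * ψ v) := by
  intro x y
  obtain ⟨p, hp⟩ := hφ x y
  obtain ⟨q, hq⟩ := hψ x y
  exact ⟨p * q, fun s => by simp [hp, hq]⟩

theorem PolyLines.linear (φ : V →ₗ[κ] κ) : PolyLines (fun v => φ v) := by
  intro x y
  exact ⟨C (φ x) + X * C (φ y), fun s => by simp; ring⟩

theorem PolyLines.sum {ι : Type*} (s : Finset ι) {φ : ι → V → κ}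
    (h : ∀ i ∈ s, PolyLines (φ i)) : PolyLines (fun v => ∑ i ∈ s, φ i v) := by
  classical
  induction s using Finset.induction_on with
  | empty => simpa using PolyLines.const (V := V) (0 : κ)
  | insert a s ha ih =>
    simp only [Finset.sum_insert ha]
    exact (h a (Finset.mem_insert_self a s)).add
      (ih fun i hi => h i (Finset.mem_insert_of_mem hi))

/-- The value of a bilinear form at two vectors depending linearly on `v`. -/
theorem PolyLines.bl {ι : Type*} [Fintype ι] (A : Matrix ι ι κ) {L M : V → ι → κ}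
    (hL : ∀ i, PolyLines (fun v => L v i)) (hM : ∀ i, PolyLines (fun v => M v i)) :
    PolyLines (fun v => Six.bl A (L v) (M v)) := by
  refine PolyLines.sum _ fun i _ => PolyLines.sum _ fun j _ => ?_
  exact ((PolyLines.const _).mul (hL i)).mul (hM j)

/-- Finitely many functions which are polynomial along lines and not identically zero are
simultaneously nonzero at some point. -/
theorem exists_forall_ne_zero [Infinite κ] {ι : Type*} [Finite ι] (φ : ι → V → κ)
    (hφ : ∀ i, PolyLines (φ i)) (hne : ∀ i, ∃ v, φ i v ≠ 0) : ∃ v, ∀ i, φ i v ≠ 0 := by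
  classical
  have key : ∀ s : Finset ι, ∃ v, ∀ i ∈ s, φ i v ≠ 0 := by
    intro s
    induction s using Finset.induction_on with
    | empty => exact ⟨0, fun i hi => absurd hi (Finset.notMem_empty i)⟩
    | insert a s ha ih =>
      obtain ⟨v, hv⟩ := ih
      obtain ⟨v', hv'⟩ := hne a
      choose p hp using fun i => hφ i v (v' - v)
      have hpne : ∀ i ∈ insert a s, p i ≠ 0 := by
        intro i hi h0
        rcases Finset.mem_insert.1 hi with rfl | hi
        · have h1 := hp i 1
          rw [h0, eval_zero, one_smul, add_sub_cancel] at h1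
          exact hv' h1.symm
        · have h1 := hp i 0
          rw [h0, eval_zero, zero_smul, add_zero] at h1
          exact hv i hi h1.symm
      have hprod : (∏ i ∈ insert a s, p i) ≠ 0 := Finset.prod_ne_zero_iff.2 hpne
      obtain ⟨t, ht⟩ : ∃ t : κ, (∏ i ∈ insert a s, p i).eval t ≠ 0 := by
        by_contra hcon
        push Not at hcon
        apply hprod
        apply Polynomial.funext
        intro t
        rw [hcon t, eval_zero]
      rw [eval_prod, Finset.prod_ne_zero_iff] at ht
      refine ⟨v + t • (v' - v), fun i hi => ?_⟩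
      rw [← hp i t]
      exact ht i hi
  have := Fintype.ofFinite ι
  obtain ⟨v, hv⟩ := key Finset.univ
  exact ⟨v, fun i => hv i (Finset.mem_univ i)⟩

end

end Pool.Agent.Lib.MP_8ab79f_ag.Six
end
end

section

set_option autoImplicit false
set_option linter.unusedSectionVars false

noncomputable section

namespace Pool.Agent.Lib.MP_8ab79f_ag.Six

open Polynomial

variable {E : Type*} [Field E]

theorem gfa_mulVec {A : Matrix (Fin 7) (Fin 7) E} (hA : A.IsSymm) (v : Fin 7 → E) (i : Fin 7) :
    A.mulVec v i = bl A v (Pi.single i 1) := by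
  unfold bl Matrix.mulVec dotProduct
  refine Finset.sum_congr rfl fun k _ => ?_
  rw [Finset.sum_eq_single i]
  · rw [Pi.single_eq_same, mul_one, hA.apply i k]
  · intro j _ hj
    rw [Pi.single_eq_of_ne hj, mul_zero]
  · intro hi
    exact absurd (Finset.mem_univ i) hi

/-- If `A α` vanishes on the orthogonal of `O` then `α` is a multiple of `O` modulo the kernel. -/
theorem exists_mulVec_eq_zero {A : Matrix (Fin 7) (Fin 7) E} (hA : A.IsSymm) {O α : Fin 7 → E}
    (h : ∀ w, bl A w O = 0 → bl A α w = 0) : ∃ c : E, A.mulVec (α - c • O) = 0 := by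
  have key : ∀ c : E, (∀ w, bl A (α - c • O) w = 0) → A.mulVec (α - c • O) = 0 := by
    intro c hc
    funext i
    rw [gfa_mulVec hA, hc]
    rfl
  by_cases h0 : ∀ w, bl A w O = 0
  · refine ⟨0, key 0 fun w => ?_⟩
    rw [zero_smul, sub_zero]
    exact h w (h0 w)
  · push Not at h0
    obtain ⟨w₀, hw₀⟩ := h0
    refine ⟨bl A α w₀ / bl A w₀ O, key _ fun w => ?_⟩
    have h1 : bl A (w - (bl A w O / bl A w₀ O) • w₀) O = 0 := by
      rw [bl_sub_left, bl_smul_left, div_mul_cancel₀ _ hw₀, sub_self]
    have h2 := h _ h1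
    rw [bl_sub_right, bl_smul_right] at h2
    rw [bl_sub_left, bl_smul_left, bl_comm hA O w]
    have h3 : bl A α w = bl A w O / bl A w₀ O * bl A α w₀ := sub_eq_zero.1 h2
    rw [h3]
    field_simp
    ring

end Pool.Agent.Lib.MP_8ab79f_ag.Six
end
end

section

set_option autoImplicit false
set_option linter.unusedSectionVars false

noncomputable section

namespace Pool.Agent.Lib.MP_8ab79f_ag.Six

open Polynomial

variable {E : Type*} [Field E]

/-- `w ↦ bl A w y` as a linear map -/
def GFieldB_L (A : Matrix (Fin 7) (Fin 7) E) (y : Fin 7 → E) : (Fin 7 → E) →ₗ[E] E where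
  toFun w := bl A w y
  map_add' w w' := bl_add_left A w w' y
  map_smul' c w := bl_smul_left A c w y

/-- `v ↦ (w ↦ bl A v w)` as a linear map -/
def GFieldB_B (A : Matrix (Fin 7) (Fin 7) E) : (Fin 7 → E) →ₗ[E] ((Fin 7 → E) →ₗ[E] E) where
  toFun v :=
    { toFun := fun w => bl A v w
      map_add' := fun w w' => bl_add_right A v w w'
      map_smul' := fun c w => bl_smul_right A c v w }
  map_add' v v' := by
    ext w
    simp [bl_add_left]
  map_smul' c v := by
    ext w
    simp [bl_smul_left]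

theorem GFieldB_mulVec {A : Matrix (Fin 7) (Fin 7) E} (hA : A.IsSymm) {v : Fin 7 → E}
    (h : GFieldB_B A v = 0) : A.mulVec v = 0 := by
  ext i
  have h1 : bl A v (Pi.single i 1) = 0 := by
    have := LinearMap.congr_fun h (Pi.single i 1)
    exact this
  rw [Pi.zero_apply, ← h1]
  unfold bl Matrix.mulVec dotProduct
  refine Finset.sum_congr rfl fun j _ => ?_
  rw [Finset.sum_eq_single i]
  · rw [Pi.single_eq_same, mul_one, hA.apply i j]
  · intro b _ hb
    rw [Pi.single_eq_of_ne hb, mul_zero]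
  · intro h
    exact absurd (Finset.mem_univ _) h

theorem GFieldB_ker {A : Matrix (Fin 7) (Fin 7) E}
    (hrk : ∀ v w : Fin 7 → E, A.mulVec v = 0 → A.mulVec w = 0 →
      ∃ s t : E, (s ≠ 0 ∨ t ≠ 0) ∧ s • v + t • w = 0) {M : Type*} [AddCommGroup M] [Module E M]
    [Module.Finite E M] (f : M →ₗ[E] (Fin 7 → E)) (hf : Function.Injective f)
    (h : ∀ m, A.mulVec (f m) = 0) : Module.finrank E M ≤ 1 := by
  by_contra hcon
  push Not at hcon
  have : Nontrivial M := Module.nontrivial_of_finrank_pos (R := E) (by omega)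
  obtain ⟨x, hx⟩ := exists_ne (0 : M)
  obtain ⟨y, hy⟩ := exists_linearIndependent_pair_of_one_lt_finrank hcon hx
  obtain ⟨s, t, hst, h0⟩ := hrk (f x) (f y) (h x) (h y)
  have h1 : s • x + t • y = 0 := by
    apply hf
    rw [map_add, map_smul, map_smul, map_zero, h0]
  obtain ⟨h2, h3⟩ := LinearIndependent.pair_iff.1 hy s t h1
  rcases hst with h4 | h4
  · exact h4 h2
  · exact h4 h3

/-- A quadratic form with kernel of dimension at most one, restricted to a hyperplane, is not a
product of two linear forms. -/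
theorem not_prod (h2 : (2 : E) ≠ 0) {A : Matrix (Fin 7) (Fin 7) E} (hA : A.IsSymm)
    (hrk : ∀ v w : Fin 7 → E, A.mulVec v = 0 → A.mulVec w = 0 →
      ∃ s t : E, (s ≠ 0 ∨ t ≠ 0) ∧ s • v + t • w = 0) (O : Fin 7 → E) :
    ¬ ∃ φ ψ : (Fin 7 → E) →ₗ[E] E, ∀ v, bl A v O = 0 → bl A v v = φ v * ψ v := by
  have h20 := h2
  rintro ⟨φ, ψ, h⟩
  set L : (Fin 7 → E) →ₗ[E] (Fin 3 → E) := LinearMap.pi ![GFieldB_L A O, φ, ψ] with hL
  have hK : ∀ k ∈ LinearMap.ker L, bl A k O = 0 ∧ φ k = 0 ∧ ψ k = 0 := by
    intro k hk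
    have h1 : L k = 0 := hk
    exact ⟨congrFun h1 0, congrFun h1 1, congrFun h1 2⟩
  have hdim : 4 ≤ Module.finrank E (LinearMap.ker L) := by
    have h1 := LinearMap.finrank_range_add_finrank_ker L
    have h2 : Module.finrank E (LinearMap.range L) ≤ 3 := by
      have := Submodule.finrank_le (LinearMap.range L)
      rwa [Module.finrank_fin_fun] at this
    rw [Module.finrank_fin_fun] at h1
    omega
  have hkw : ∀ k ∈ LinearMap.ker L, ∀ w, bl A w O = 0 → bl A k w = 0 := by
    intro k hk w hw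
    obtain ⟨h1, h2, h3⟩ := hK k hk
    have h4 : bl A k k = 0 := by rw [h k h1, h2, zero_mul]
    have h5 : bl A (k + w) O = 0 := by rw [bl_add_left, h1, hw, add_zero]
    have h6 := h (k + w) h5
    rw [map_add, map_add, h2, h3, zero_add, zero_add, ← h w hw, bl_add_left, bl_add_right,
      bl_add_right, h4, bl_comm hA w k] at h6
    have h7 : 2 * bl A k w = 0 := by linear_combination h6
    exact (mul_eq_zero.1 h7).resolve_left h20
  set N : Submodule E (Fin 7 → E) := LinearMap.ker A.mulVecLin with hN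
  have hle : LinearMap.ker L ≤ N ⊔ Submodule.span E {O} := by
    intro k hk
    obtain ⟨c, hc⟩ := exists_mulVec_eq_zero hA (hkw k hk)
    have h1 : k = (k - c • O) + c • O := by abel
    rw [h1]
    refine Submodule.add_mem_sup ?_ (Submodule.smul_mem _ _ (Submodule.mem_span_singleton_self O))
    exact hc
  have h1 := Submodule.finrank_mono hle
  have h2 := Submodule.finrank_add_le_finrank_add_finrank N (Submodule.span E {O})
  have h3 : Module.finrank E N ≤ 1 :=
    GFieldB_ker hrk N.subtype N.subtype_injective (fun m => m.2)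
  have h4 : Module.finrank E (Submodule.span E {O}) ≤ 1 := by
    have := finrank_span_le_card (R := E) ({O} : Set (Fin 7 → E))
    simpa using this
  omega

/-- A totally isotropic subspace of a form with kernel of dimension at most one has dimension at
most four. -/
theorem exists_anisotropic (h2 : (2 : E) ≠ 0) {A : Matrix (Fin 7) (Fin 7) E} (hA : A.IsSymm)
    (hrk : ∀ v w : Fin 7 → E, A.mulVec v = 0 → A.mulVec w = 0 →
      ∃ s t : E, (s ≠ 0 ∨ t ≠ 0) ∧ s • v + t • w = 0) (φ ψ : (Fin 7 → E) →ₗ[E] E) :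
    ∃ v, φ v = 0 ∧ ψ v = 0 ∧ bl A v v ≠ 0 := by
  by_contra hcon
  push Not at hcon
  set L : (Fin 7 → E) →ₗ[E] (Fin 2 → E) := LinearMap.pi ![φ, ψ] with hL
  set T := LinearMap.ker L with hT
  have hmem : ∀ k ∈ T, φ k = 0 ∧ ψ k = 0 := by
    intro k hk
    have h1 : L k = 0 := hk
    exact ⟨congrFun h1 0, congrFun h1 1⟩
  have hdim : 5 ≤ Module.finrank E T := by
    have h1 : Module.finrank E (LinearMap.range L) + Module.finrank E T =
      Module.finrank E (Fin 7 → E) := LinearMap.finrank_range_add_finrank_ker L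
    have h2 : Module.finrank E (LinearMap.range L) ≤ 2 := by
      have := Submodule.finrank_le (LinearMap.range L)
      rwa [Module.finrank_fin_fun] at this
    rw [Module.finrank_fin_fun] at h1
    omega
  have hzero : ∀ v ∈ T, ∀ w ∈ T, bl A v w = 0 := by
    intro v hv w hw
    obtain ⟨h3, h4⟩ := hmem v hv
    obtain ⟨h5, h6⟩ := hmem w hw
    have h7 := hcon v h3 h4
    have h8 := hcon w h5 h6
    have h9 := hcon (v + w) (by rw [map_add, h3, h5, add_zero]) (by rw [map_add, h4, h6, add_zero])
    rw [bl_add_left, bl_add_right, bl_add_right, h7, h8, bl_comm hA w v] at h9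
    have h10 : 2 * bl A v w = 0 := by linear_combination h9
    exact (mul_eq_zero.1 h10).resolve_left h2
  -- the map `v ↦ bl A v ·` on `T` has its values in the span of `φ` and `ψ`
  set G : T →ₗ[E] ((Fin 7 → E) →ₗ[E] E) := (GFieldB_B A).comp T.subtype with hG
  have hrange : LinearMap.range G ≤ Submodule.span E (Set.range ![φ, ψ]) := by
    rintro _ ⟨v, rfl⟩
    apply mem_span_of_iInf_ker_le_ker
    intro w hw
    have hwT : w ∈ T := by
      rw [Submodule.mem_iInf] at hw
      have h0 := hw 0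
      have h1 := hw 1
      show L w = 0
      ext i
      fin_cases i
      · exact h0
      · exact h1
    exact hzero v.1 v.2 w hwT
  have h3 : Module.finrank E (LinearMap.range G) ≤ 2 := by
    refine (Submodule.finrank_mono hrange).trans ?_
    have := finrank_range_le_card (R := E) (![φ, ψ])
    simpa [Set.finrank] using this
  have h4 : Module.finrank E (LinearMap.ker G) ≤ 1 := by
    have hinj : Function.Injective (T.subtype.comp (LinearMap.ker G).subtype) := by
      intro x y hxy
      exact Subtype.ext (Subtype.ext hxy)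
    refine GFieldB_ker hrk (M := LinearMap.ker G) (T.subtype.comp (LinearMap.ker G).subtype)
      hinj (fun m => ?_)
    apply GFieldB_mulVec hA
    exact m.2
  have h5 := LinearMap.finrank_range_add_finrank_ker G
  omega

end Pool.Agent.Lib.MP_8ab79f_ag.Six
end
end

section

set_option autoImplicit false
set_option linter.unusedSectionVars false

noncomputable section

namespace Pool.Agent.Lib.MP_8ab79f_ag.Six

open Polynomial

variable {E : Type*} [Field E]

/-- The choice of a reflection vector. -/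
theorem exists_v_field [Infinite E] (h2 : (2 : E) ≠ 0) {A : Matrix (Fin 7) (Fin 7) E}
    (hA : A.IsSymm) (hrk : ∀ v w : Fin 7 → E, A.mulVec v = 0 → A.mulVec w = 0 →
      ∃ s t : E, (s ≠ 0 ∨ t ≠ 0) ∧ s • v + t • w = 0) {O α χ : Fin 7 → E}
    (hα : ∃ w, bl A w O = 0 ∧ bl A α w ≠ 0) (hχ : ∃ w, bl A w O = 0 ∧ bl A χ w ≠ 0) :
    ∃ w, bl A w O = 0 ∧ bl A α w ≠ 0 ∧
      2 * bl A α w * bl A χ w - bl A w w * bl A α χ ≠ 0 := by
  set V : Submodule E (Fin 7 → E) := LinearMap.ker (GFieldB_L A O) with hV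
  have hmem : ∀ w : Fin 7 → E, w ∈ V ↔ bl A w O = 0 := fun w => Iff.rfl
  obtain ⟨wα, hα1, hα2⟩ := hα
  obtain ⟨wχ, hχ1, hχ2⟩ := hχ
  have hid : ∀ i, PolyLines (fun v : V => (v : Fin 7 → E) i) := fun i =>
    PolyLines.linear ((LinearMap.proj i).comp V.subtype)
  have hc : ∀ (x : Fin 7 → E) (i : Fin 7), PolyLines (fun _ : V => x i) := fun x i =>
    PolyLines.const _
  have pα : PolyLines (fun v : V => bl A α v) := PolyLines.bl (V := V) A (L := fun _ => α)
    (M := fun v => (v : Fin 7 → E)) (hc α) hid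
  have pχ : PolyLines (fun v : V => bl A χ v) := PolyLines.bl (V := V) A (L := fun _ => χ)
    (M := fun v => (v : Fin 7 → E)) (hc χ) hid
  have pw : PolyLines (fun v : V => bl A v v) := PolyLines.bl (V := V) A
    (L := fun v => (v : Fin 7 → E)) (M := fun v => (v : Fin 7 → E)) hid hid
  by_cases h0 : bl A α χ = 0
  · obtain ⟨v, hv⟩ := exists_forall_ne_zero (ι := Fin 2)
      ![fun v : V => bl A α v, fun v : V => bl A χ v]
      (by
        intro i
        fin_cases i
        · exact pα
        · exact pχ)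
      (by
        intro i
        fin_cases i
        · exact ⟨⟨wα, hα1⟩, hα2⟩
        · exact ⟨⟨wχ, hχ1⟩, hχ2⟩)
    have hv0 : bl A α v ≠ 0 := hv 0
    have hv1 : bl A χ v ≠ 0 := hv 1
    refine ⟨v, v.2, hv0, ?_⟩
    rw [h0, mul_zero, sub_zero]
    exact mul_ne_zero (mul_ne_zero h2 hv0) hv1
  · have hex : ∃ v : V, 2 * bl A α v * bl A χ v - bl A v v * bl A α χ ≠ 0 := by
      by_contra hcon
      push Not at hcon
      apply not_prod h2 hA hrk O
      refine ⟨(2 * (bl A α χ)⁻¹) • GFieldB_B A α, GFieldB_B A χ, fun v hv => ?_⟩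
      have h1 := hcon ⟨v, hv⟩
      simp only at h1
      show bl A v v = ((2 * (bl A α χ)⁻¹) * bl A α v) * bl A χ v
      field_simp
      linear_combination -h1
    obtain ⟨v₁, hv₁⟩ := hex
    obtain ⟨v, hv⟩ := exists_forall_ne_zero (ι := Fin 2)
      ![fun v : V => bl A α v, fun v : V => 2 * bl A α v * bl A χ v - bl A v v * bl A α χ]
      (by
        intro i
        fin_cases i
        · exact pα
        · exact ((((PolyLines.const 2).mul pα).mul pχ).sub (pw.mul (PolyLines.const _))))
      (by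
        intro i
        fin_cases i
        · exact ⟨⟨wα, hα1⟩, hα2⟩
        · exact ⟨v₁, hv₁⟩)
    exact ⟨v, v.2, hv 0, hv 1⟩

end Pool.Agent.Lib.MP_8ab79f_ag.Six
end
end

section

set_option autoImplicit false
set_option linter.unusedSectionVars false

noncomputable section

namespace Pool.Agent.Lib.MP_8ab79f_ag.Six

open Polynomial

variable {ι : Type*} [Fintype ι] {κ : Type*} [Field κ]

/-- There is a polynomial family of isotropic vectors modulo `D`, orthogonal to `O`, from `a`
to `b`. -/
def HasPath (f h : Matrix ι ι κ) (O : ι → κ) (D : κ[X]) (a b : ι → κ[X]) : Prop :=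
  ∃ x : ι → κ[X][X], D.map C ∣ bl (hT (f.map C) (h.map C)) x x ∧
    D.map C ∣ bl (hT (f.map C) (h.map C)) x (cst fun i => C (O i)) ∧
    (∀ i, D ∣ (x i).map (evalRingHom 0) - a i) ∧ (∀ i, D ∣ (x i).map (evalRingHom 1) - b i)

end Pool.Agent.Lib.MP_8ab79f_ag.Six
end
end
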