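import Mathlib
import Pool.Agent.Lib.MP_8ab79f_ag.Defs
import Pool.Agent.Lib.MP_8ab79f_ag.Mg.G003

section

/-!
# A homomorphism from the multiplicative group of a rational function field to `ZMod 2`

Let `O` be a Noetherian domain and `π` a prime element. Every nonzero element of the fraction field
of `O[X]` is a power of `π` times a quotient of polynomials which are nonzero modulo `π`. We attach
to it the parity of (order at `-1`) minus (order at infinity) of this quotient modulo `π`.
-/

set_option autoImplicit false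
set_option linter.unusedSectionVars false

namespace Pool.Agent.Lib.MP_8ab79f_ag

open Polynomial

section Chi

variable {O : Type*} [CommRing O] [IsDomain O]

/-- Reduction of polynomials modulo `π`. -/
noncomputable def red (π : O) : O[X] →+* (O ⧸ Ideal.span {π})[X] :=
  mapRingHom (Ideal.Quotient.mk (Ideal.span {π}))

theorem red_eq_zero_iff {π : O} {a : O[X]} : red π a = 0 ↔ C π ∣ a := by
  rw [C_dvd_iff_dvd_coeff]
  constructor
  · intro h i
    have h1 := congrArg (fun f => coeff f i) h
    simp only [red, coe_mapRingHom, coeff_map, coeff_zero] at h1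
    rwa [Ideal.Quotient.eq_zero_iff_mem, Ideal.mem_span_singleton] at h1
  · intro h
    ext i
    simp only [red, coe_mapRingHom, coeff_map, coeff_zero]
    rw [Ideal.Quotient.eq_zero_iff_mem, Ideal.mem_span_singleton]
    exact h i

/-- The parity of (order at `-1`) minus (order at infinity). -/
noncomputable def par {R : Type*} [CommRing R] (f : R[X]) : ZMod 2 :=
  ((rootMultiplicity (-1) f + natDegree f : ℕ) : ZMod 2)

theorem par_mul {R : Type*} [CommRing R] [IsDomain R] {f g : R[X]} (hf : f ≠ 0) (hg : g ≠ 0) :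
    par (f * g) = par f + par g := by
  unfold par
  rw [rootMultiplicity_mul (mul_ne_zero hf hg), natDegree_mul hf hg]
  push_cast
  ring

theorem zmod_two_add_self (a : ZMod 2) : a + a = 0 := by
  revert a
  decide

variable [IsNoetherianRing O] {π : O}

theorem isDomain_quot (hπ : Prime π) : IsDomain (O ⧸ Ideal.span {π}) := by
  rw [Ideal.Quotient.isDomain_iff_prime]
  rwa [Ideal.span_singleton_prime hπ.ne_zero]

theorem prime_C (hπ : Prime π) : Prime (C π : O[X]) := prime_C_iff.2 hπ

theorem exists_factor (hπ : Prime π) {a : O[X]} (ha : a ≠ 0) :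
    ∃ (m : ℕ) (b : O[X]), ¬ C π ∣ b ∧ a = C π ^ m * b := by
  obtain ⟨m, b, h1, h2⟩ := WfDvdMonoid.max_power_factor ha (prime_C hπ).irreducible
  exact ⟨m, b, h1, h2⟩

variable {K : Type*} [Field K] [Algebra O[X] K] [IsFractionRing O[X] K]

/-- `x = (π ^ m * a) / (π ^ n * b)` with `a` and `b` nonzero modulo `π`. -/
def Rep (π : O) (x : K) (m : ℕ) (a : O[X]) (n : ℕ) (b : O[X]) : Prop :=
  ¬ C π ∣ a ∧ ¬ C π ∣ b ∧
    x * algebraMap O[X] K (C π ^ n * b) = algebraMap O[X] K (C π ^ m * a)

theorem exists_rep (hπ : Prime π) {x : K} (hx : x ≠ 0) : ∃ m a n b, Rep π x m a n b := by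
  obtain ⟨p, q, hq, rfl⟩ := IsFractionRing.div_surjective (A := O[X]) x
  have hq0 : q ≠ 0 := nonZeroDivisors.ne_zero hq
  have hp0 : p ≠ 0 := by
    rintro rfl
    simp at hx
  obtain ⟨m, a, ha, hpa⟩ := exists_factor hπ hp0
  obtain ⟨n, b, hb, hqb⟩ := exists_factor hπ hq0
  refine ⟨m, a, n, b, ha, hb, ?_⟩
  rw [← hpa, ← hqb]
  have : algebraMap O[X] K q ≠ 0 := by
    rw [Ne, IsFractionRing.to_map_eq_zero_iff]
    exact hq0
  exact div_mul_cancel₀ _ this

theorem rep_unique (hπ : Prime π) {x : K} {m n m' n' : ℕ} {a b a' b' : O[X]}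
    (h : Rep π x m a n b) (h' : Rep π x m' a' n' b') :
    par (red π a) + par (red π b) = par (red π a') + par (red π b') := by
  have hdom := isDomain_quot hπ
  obtain ⟨ha, hb, e⟩ := h
  obtain ⟨ha', hb', e'⟩ := h'
  have hinj := IsFractionRing.injective O[X] K
  have key : (C π ^ m * a) * (C π ^ n' * b') = (C π ^ m' * a') * (C π ^ n * b) := by
    apply hinj
    rw [map_mul _ (C π ^ m * a), map_mul _ (C π ^ m' * a'), ← e, ← e']
    ring
  have hπ' := prime_C hπ
  have hab' : ¬ C π ∣ a * b' := fun h => (hπ'.dvd_or_dvd h).elim ha hb'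
  have ha'b : ¬ C π ∣ a' * b := fun h => (hπ'.dvd_or_dvd h).elim ha' hb
  have key2 : C π ^ (m + n') * (a * b') = C π ^ (m' + n) * (a' * b) := by
    rw [pow_add, pow_add]
    linear_combination key
  have hexp : m + n' = m' + n := by
    rcases lt_trichotomy (m + n') (m' + n) with h | h | h
    · exfalso
      obtain ⟨l, hl⟩ := Nat.exists_eq_add_of_lt h
      rw [hl, show m + n' + l + 1 = (m + n') + (l + 1) by ring, pow_add _ (m + n'), mul_assoc] at key2
      have := mul_left_cancel₀ (pow_ne_zero _ hπ'.ne_zero) key2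
      apply hab'
      exact ⟨C π ^ l * (a' * b), by rw [this, pow_succ]; ring⟩
    · exact h
    · exfalso
      obtain ⟨l, hl⟩ := Nat.exists_eq_add_of_lt h
      rw [hl, show m' + n + l + 1 = (m' + n) + (l + 1) by ring, pow_add _ (m' + n), mul_assoc] at key2
      have := mul_left_cancel₀ (pow_ne_zero _ hπ'.ne_zero) key2
      apply ha'b
      exact ⟨C π ^ l * (a * b'), by rw [← this, pow_succ]; ring⟩
  rw [hexp] at key2
  have key3 := mul_left_cancel₀ (pow_ne_zero _ hπ'.ne_zero) key2
  have ra : red π a ≠ 0 := fun h => ha (red_eq_zero_iff.1 h)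
  have rb : red π b ≠ 0 := fun h => hb (red_eq_zero_iff.1 h)
  have ra' : red π a' ≠ 0 := fun h => ha' (red_eq_zero_iff.1 h)
  have rb' : red π b' ≠ 0 := fun h => hb' (red_eq_zero_iff.1 h)
  have key4 := congrArg (fun f => par (red π f)) key3
  simp only [map_mul] at key4
  rw [par_mul ra rb', par_mul ra' rb] at key4
  have h1 := zmod_two_add_self (par (red π b))
  have h2 := zmod_two_add_self (par (red π b'))
  linear_combination key4 + h1 - h2

open Classical in
/-- The homomorphism. -/
noncomputable def chi (π : O) (x : K) : ZMod 2 :=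
  if h : ∃ m a n b, Rep π x m a n b then
    par (red π h.choose_spec.choose) + par (red π h.choose_spec.choose_spec.choose_spec.choose)
  else 0

theorem chi_eq (hπ : Prime π) {x : K} {m n : ℕ} {a b : O[X]} (h : Rep π x m a n b) :
    chi π x = par (red π a) + par (red π b) := by
  have hex : ∃ m a n b, Rep π x m a n b := ⟨m, a, n, b, h⟩
  unfold chi
  rw [dif_pos hex]
  exact rep_unique hπ hex.choose_spec.choose_spec.choose_spec.choose_spec h

theorem chi_mul (hπ : Prime π) {x y : K} (hx : x ≠ 0) (hy : y ≠ 0) :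
    chi π (x * y) = chi π x + chi π y := by
  have hdom := isDomain_quot hπ
  obtain ⟨m, a, n, b, h⟩ := exists_rep (O := O) hπ hx
  obtain ⟨m', a', n', b', h'⟩ := exists_rep (O := O) hπ hy
  rw [chi_eq hπ h, chi_eq hπ h']
  obtain ⟨ha, hb, e⟩ := h
  obtain ⟨ha', hb', e'⟩ := h'
  have hπ' := prime_C hπ
  have haa : ¬ C π ∣ a * a' := fun h => (hπ'.dvd_or_dvd h).elim ha ha'
  have hbb : ¬ C π ∣ b * b' := fun h => (hπ'.dvd_or_dvd h).elim hb hb'
  have hrep : Rep π (x * y) (m + m') (a * a') (n + n') (b * b') := by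
    refine ⟨haa, hbb, ?_⟩
    have e1 : C π ^ (n + n') * (b * b') = (C π ^ n * b) * (C π ^ n' * b') := by
      rw [pow_add]; ring
    have e2 : C π ^ (m + m') * (a * a') = (C π ^ m * a) * (C π ^ m' * a') := by
      rw [pow_add]; ring
    rw [e1, e2, map_mul _ (C π ^ n * b), map_mul _ (C π ^ m * a), ← e, ← e']
    ring
  have ra : red π a ≠ 0 := fun h => ha (red_eq_zero_iff.1 h)
  have rb : red π b ≠ 0 := fun h => hb (red_eq_zero_iff.1 h)
  have ra' : red π a' ≠ 0 := fun h => ha' (red_eq_zero_iff.1 h)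
  have rb' : red π b' ≠ 0 := fun h => hb' (red_eq_zero_iff.1 h)
  rw [chi_eq hπ hrep, map_mul, map_mul, par_mul ra ra', par_mul rb rb']
  ring

/-- The value at the image of a polynomial which is nonzero modulo `π`, times a power of `π`. -/
theorem chi_algebraMap (hπ : Prime π) (m : ℕ) {a : O[X]} (ha : ¬ C π ∣ a) :
    chi π (algebraMap O[X] K (C π ^ m * a)) = par (red π a) := by
  have h1 : ¬ C π ∣ (1 : O[X]) := fun h => (prime_C hπ).not_isUnit (isUnit_of_dvd_one h)
  have hrep : Rep π (algebraMap O[X] K (C π ^ m * a)) m a 0 1 := by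
    refine ⟨ha, h1, ?_⟩
    simp
  have h2 : par (red π (1 : O[X])) = 0 := by
    rw [map_one, par, natDegree_one, ← C_1, rootMultiplicity_C]
    simp
  rw [chi_eq hπ hrep, h2, add_zero]

end Chi

end Pool.Agent.Lib.MP_8ab79f_ag
end

section

/-!
# A descent lemma for quadratic forms over a rational function field

If all nonzero values of a quadratic form over `K` lie in one class of a homomorphism to `ZMod 2`,
then a polynomial dividing a value of the form at a vector of polynomials, and having no common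
factor with that vector, takes all its values in one class.
-/

set_option autoImplicit false

namespace Pool.Agent.Lib.MP_8ab79f_ag

open Polynomial

variable {K : Type*} [Field K] {n : ℕ}

/-- The quadratic form with matrix `A` at a vector over a `K`-algebra. -/
def qf {R : Type*} [CommRing R] [Algebra K R] (A : Matrix (Fin n) (Fin n) K) (y : Fin n → R) : R :=
  ∑ i, ∑ j, algebraMap K R (A i j) * y i * y j

theorem qf_smul {R : Type*} [CommRing R] [Algebra K R] (A : Matrix (Fin n) (Fin n) K)
    (y : Fin n → R) (d : R) : qf A (fun i => d * y i) = d ^ 2 * qf A y := by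
  unfold qf
  rw [Finset.mul_sum]
  refine Finset.sum_congr rfl fun i _ => ?_
  rw [Finset.mul_sum]
  refine Finset.sum_congr rfl fun j _ => ?_
  ring

theorem eval_qf (A : Matrix (Fin n) (Fin n) K) (y : Fin n → K[X]) (s : K) :
    (qf A y).eval s = qf A (fun i => (y i).eval s) := by
  simp [qf, eval_finsetSum, Polynomial.algebraMap_eq]

theorem qf_congr (A : Matrix (Fin n) (Fin n) K) (F : K[X]) (y y' : Fin n → K[X])
    (h : ∀ i, F ∣ y i - y' i) : F ∣ qf A y - qf A y' := by
  unfold qf
  rw [← Finset.sum_sub_distrib]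
  refine Finset.dvd_sum fun i _ => ?_
  rw [← Finset.sum_sub_distrib]
  refine Finset.dvd_sum fun j _ => ?_
  have : algebraMap K K[X] (A i j) * y i * y j - algebraMap K K[X] (A i j) * y' i * y' j =
      algebraMap K K[X] (A i j) * ((y i - y' i) * y j + y' i * (y j - y' j)) := by ring
  rw [this]
  exact dvd_mul_of_dvd_right (dvd_add (dvd_mul_of_dvd_left (h i) _)
    (dvd_mul_of_dvd_right (h j) _)) _

theorem natDegree_qf_le (A : Matrix (Fin n) (Fin n) K) (y : Fin n → K[X]) (D : ℕ)
    (h : ∀ i, (y i).natDegree ≤ D) : (qf A y).natDegree ≤ 2 * D := by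
  unfold qf
  refine natDegree_sum_le_of_forall_le _ _ fun i _ => ?_
  refine natDegree_sum_le_of_forall_le _ _ fun j _ => ?_
  rw [Polynomial.algebraMap_eq]
  calc (C (A i j) * y i * y j).natDegree ≤ (C (A i j) * y i).natDegree + (y j).natDegree :=
        natDegree_mul_le
    _ ≤ (y i).natDegree + (y j).natDegree := by
        gcongr
        exact natDegree_C_mul_le _ _
    _ ≤ 2 * D := by
        have := h i
        have := h j
        omega

/-- The descent lemma. -/
theorem descent (A : Matrix (Fin n) (Fin n) K) (χ : K → ZMod 2) (τ : ZMod 2)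
    (hχ : ∀ a b : K, a ≠ 0 → b ≠ 0 → χ (a * b) = χ a + χ b)
    (hA : ∀ y : Fin n → K, y ≠ 0 → qf A y ≠ 0 ∧ χ (qf A y) = τ) (F : K[X]) (hF : F ≠ 0)
    (y : Fin n → K[X]) (hdvd : F ∣ qf A y)
    (hcop : ∀ p : K[X], Irreducible p → p ∣ F → ∃ j, ¬ p ∣ y j) (s₀ s₁ : K) :
    F.eval s₀ ≠ 0 ∧ F.eval s₁ ≠ 0 ∧ χ (F.eval s₀) = χ (F.eval s₁) := by
  classical
  induction hN : F.natDegree using Nat.strong_induction_on generalizing F y with
  | _ N ih =>
    rcases Nat.eq_zero_or_pos F.natDegree with h0 | hpos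
    · obtain ⟨c, rfl⟩ : ∃ c, F = C c := ⟨_, eq_C_of_natDegree_eq_zero h0⟩
      have hc : c ≠ 0 := by
        rintro rfl
        exact hF (map_zero _)
      simp [hc]
    · -- reduce modulo `F`
      set y' : Fin n → K[X] := fun j => y j % F with hy'
      have hyy' : ∀ j, F ∣ y j - y' j := fun j =>
        ⟨y j / F, by rw [hy']; simp only; rw [sub_eq_iff_eq_add]; exact (EuclideanDomain.div_add_mod _ _).symm⟩
      have hdvd' : F ∣ qf A y' := by
        have h1 := qf_congr A F y y' hyy'
        have h2 := dvd_sub hdvd h1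
        rwa [sub_sub_cancel] at h2
      have hdeg : ∀ j, (y' j).natDegree ≤ F.natDegree - 1 := by
        intro j
        rcases eq_or_ne (y' j) 0 with h | h
        · rw [h]; simp
        · have := natDegree_lt_natDegree h (EuclideanDomain.mod_lt (y j) hF)
          omega
      -- an irreducible factor of `F`
      obtain ⟨p₀, hp₀, hp₀F⟩ : ∃ p, Irreducible p ∧ p ∣ F := by
        apply WfDvdMonoid.exists_irreducible_factor _ hF
        intro hu
        have := natDegree_eq_zero_of_isUnit hu
        omega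
      have hcop' : ∀ p : K[X], Irreducible p → p ∣ F → ∃ j, ¬ p ∣ y' j := by
        intro p hp hpF
        obtain ⟨j, hj⟩ := hcop p hp hpF
        refine ⟨j, fun h => hj ?_⟩
        have h1 := dvd_add (hpF.trans (hyy' j)) h
        rwa [sub_add_cancel] at h1
      -- divide by the greatest common divisor
      set d : K[X] := Finset.univ.gcd y' with hd
      have hd0 : d ≠ 0 := by
        intro h
        rw [hd, Finset.gcd_eq_zero_iff] at h
        obtain ⟨j, hj⟩ := hcop' p₀ hp₀ hp₀F
        exact hj (h j (Finset.mem_univ _) ▸ dvd_zero _)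
      have hex : ∀ j, ∃ c, y' j = d * c := fun j => Finset.gcd_dvd (Finset.mem_univ j)
      choose y'' hy'' using hex
      have hunit : ∀ p : K[X], (∀ j, p ∣ y'' j) → IsUnit p := by
        intro p hp
        have h1 : d * p ∣ d := by
          rw [hd]
          apply Finset.dvd_gcd
          intro j _
          rw [← hd, hy'' j]
          exact mul_dvd_mul_left _ (hp j)
        have h2 : d * p ∣ d * 1 := by rwa [mul_one]
        exact isUnit_of_dvd_one ((mul_dvd_mul_iff_left hd0).1 h2)
      have hS : qf A y' = d ^ 2 * qf A y'' := by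
        rw [← qf_smul]
        congr 1
        ext1 j
        exact hy'' j
      have hFd : IsCoprime F (d ^ 2) := by
        apply IsCoprime.pow_right
        rw [← EuclideanDomain.gcd_isUnit_iff]
        by_contra hnu
        have hg0 : EuclideanDomain.gcd F d ≠ 0 := by
          intro h
          exact hF ((EuclideanDomain.gcd_eq_zero_iff.1 h).1)
        obtain ⟨p, hp, hpg⟩ := WfDvdMonoid.exists_irreducible_factor hnu hg0
        obtain ⟨j, hj⟩ := hcop' p hp (hpg.trans (EuclideanDomain.gcd_dvd_left _ _))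
        apply hj
        rw [hy'' j]
        exact dvd_mul_of_dvd_left (hpg.trans (EuclideanDomain.gcd_dvd_right _ _)) _
      have hFS : F ∣ qf A y'' := by
        rw [hS] at hdvd'
        exact hFd.dvd_of_dvd_mul_left hdvd'
      have hval : ∀ s : K, (qf A y'').eval s ≠ 0 ∧ χ ((qf A y'').eval s) = τ := by
        intro s
        rw [eval_qf]
        apply hA
        intro h
        have h1 : IsUnit (X - C s) := by
          apply hunit
          intro j
          rw [dvd_iff_isRoot]
          exact congrFun h j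
        exact not_isUnit_X_sub_C s h1
      obtain ⟨F', hF'⟩ := hFS
      have hS0 : qf A y'' ≠ 0 := by
        intro h
        apply (hval 0).1
        rw [h, eval_zero]
      have hF'0 : F' ≠ 0 := by
        rintro rfl
        rw [mul_zero] at hF'
        exact hS0 hF'
      have hdeg'' : ∀ j, (y'' j).natDegree ≤ F.natDegree - 1 := by
        intro j
        rcases eq_or_ne (y'' j) 0 with h | h
        · rw [h]; simp
        · have h1 := hdeg j
          rw [hy'' j, natDegree_mul hd0 h] at h1
          omega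
      have hdF' : F'.natDegree < N := by
        have h1 := natDegree_qf_le A y'' _ hdeg''
        rw [hF', natDegree_mul hF hF'0] at h1
        omega
      have hih := ih F'.natDegree hdF' F' hF'0 y'' ⟨F, by rw [hF', mul_comm]⟩ (by
        intro p hp _
        by_contra hcon
        push Not at hcon
        exact hp.not_isUnit (hunit p hcon)) rfl
      have e0 := hval s₀
      have e1 := hval s₁
      rw [hF', eval_mul] at e0 e1
      have f0 : F.eval s₀ ≠ 0 := left_ne_zero_of_mul e0.1
      have f1 : F.eval s₁ ≠ 0 := left_ne_zero_of_mul e1.1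
      refine ⟨f0, f1, ?_⟩
      rw [hχ _ _ f0 hih.1] at e0
      rw [hχ _ _ f1 hih.2.1] at e1
      have := e0.2.trans e1.2.symm
      rw [hih.2.2] at this
      exact add_right_cancel this

end Pool.Agent.Lib.MP_8ab79f_ag
end

section

/-!
# The quadratic form in four variables whose values lie in one class
-/

set_option autoImplicit false
set_option linter.unusedSectionVars false

namespace Pool.Agent.Lib.MP_8ab79f_ag

open Polynomial

/-- The norm form `x ^ 2 + x * y + θ * y ^ 2` has only the trivial zero. -/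
def Aniso {R : Type*} [CommRing R] (θ : R) : Prop :=
  ∀ x y : R, x ^ 2 + x * y + θ * y ^ 2 = 0 → x = 0 ∧ y = 0

section Norm

variable {κ : Type*} [CommRing κ] [IsDomain κ] {θ : κ}

theorem coeff_norm (u v : κ[X]) (n : ℕ) (hu : u.natDegree ≤ n) (hv : v.natDegree ≤ n) :
    (u ^ 2 + u * v + C θ * v ^ 2).coeff (n + n) =
      u.coeff n ^ 2 + u.coeff n * v.coeff n + θ * v.coeff n ^ 2 := by
  rw [coeff_add, coeff_add, coeff_C_mul, sq, sq, coeff_mul_add_eq_of_natDegree_le hu hu,
    coeff_mul_add_eq_of_natDegree_le hu hv, coeff_mul_add_eq_of_natDegree_le hv hv, sq, sq]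

theorem natDegree_norm (hθ : Aniso θ) (u v : κ[X]) (h : u ≠ 0 ∨ v ≠ 0) :
    (u ^ 2 + u * v + C θ * v ^ 2).natDegree =
      max u.natDegree v.natDegree + max u.natDegree v.natDegree ∧
      u ^ 2 + u * v + C θ * v ^ 2 ≠ 0 := by
  set n := max u.natDegree v.natDegree with hn
  have hu : u.natDegree ≤ n := le_max_left _ _
  have hv : v.natDegree ≤ n := le_max_right _ _
  have hc : (u ^ 2 + u * v + C θ * v ^ 2).coeff (n + n) ≠ 0 := by
    rw [coeff_norm u v n hu hv]
    intro h0
    obtain ⟨h1, h2⟩ := hθ _ _ h0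
    rcases le_total u.natDegree v.natDegree with hle | hle
    · have hnv : n = v.natDegree := by rw [hn]; exact max_eq_right hle
      rw [hnv] at h1 h2
      have hv0 : v = 0 := leadingCoeff_eq_zero.1 h2
      rw [hv0] at hle h1
      rw [natDegree_zero] at h1 hle
      have hu0 : u = 0 := by
        rw [eq_C_of_natDegree_le_zero hle, h1, C_0]
      exact h.elim (fun h => h hu0) (fun h => h hv0)
    · have hnu : n = u.natDegree := by rw [hn]; exact max_eq_left hle
      rw [hnu] at h1 h2
      have hu0 : u = 0 := leadingCoeff_eq_zero.1 h1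
      rw [hu0] at hle h2
      rw [natDegree_zero] at h2 hle
      have hv0 : v = 0 := by
        rw [eq_C_of_natDegree_le_zero hle, h2, C_0]
      exact h.elim (fun h => h hu0) (fun h => h hv0)
  refine ⟨?_, fun h0 => hc (by rw [h0, coeff_zero])⟩
  apply natDegree_eq_of_le_of_coeff_ne_zero _ hc
  refine natDegree_add_le_of_degree_le (natDegree_add_le_of_degree_le ?_ ?_) ?_
  · rw [sq]
    exact natDegree_mul_le_of_le hu hu
  · exact natDegree_mul_le_of_le hu hv
  · rw [sq]
    exact (natDegree_C_mul_le _ _).trans (natDegree_mul_le_of_le hv hv)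

theorem rootMultiplicity_norm (hθ : Aniso θ) (c : κ) (u v : κ[X]) (h : u ≠ 0 ∨ v ≠ 0) :
    ∃ e, (u ^ 2 + u * v + C θ * v ^ 2).rootMultiplicity c = e + e := by
  induction hN : u.natDegree + v.natDegree using Nat.strong_induction_on generalizing u v with
  | _ N ih =>
    by_cases hr : u.eval c = 0 ∧ v.eval c = 0
    · obtain ⟨h1, h2⟩ := hr
      obtain ⟨u', hu'⟩ := dvd_iff_isRoot.2 h1
      obtain ⟨v', hv'⟩ := dvd_iff_isRoot.2 h2
      have h' : u' ≠ 0 ∨ v' ≠ 0 := by
        rcases h with h | h
        · left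
          rintro rfl
          exact h (by rw [hu', mul_zero])
        · right
          rintro rfl
          exact h (by rw [hv', mul_zero])
      have hX : (X - C c : κ[X]) ≠ 0 := X_sub_C_ne_zero c
      have key : ∀ w w' : κ[X], w = (X - C c) * w' → w'.natDegree ≤ w.natDegree ∧
          (w' ≠ 0 → w'.natDegree < w.natDegree) := by
        intro w w' hw
        rcases eq_or_ne w' 0 with h0 | h0
        · rw [h0, natDegree_zero]
          exact ⟨Nat.zero_le _, fun h => absurd rfl h⟩
        · have : w.natDegree = 1 + w'.natDegree := by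
            rw [hw, natDegree_mul hX h0, natDegree_X_sub_C]
          exact ⟨by omega, fun _ => by omega⟩
      have hlt : u'.natDegree + v'.natDegree < N := by
        have k1 := key u u' hu'
        have k2 := key v v' hv'
        rcases h' with h' | h'
        · have := k1.2 h'
          omega
        · have := k2.2 h'
          omega
      obtain ⟨e, he⟩ := ih _ hlt u' v' h' rfl
      refine ⟨e + 1, ?_⟩
      have e1 : u ^ 2 + u * v + C θ * v ^ 2 =
          (u' ^ 2 + u' * v' + C θ * v' ^ 2) * (X - C c) ^ 2 := by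
        rw [hu', hv']
        ring
      rw [e1, rootMultiplicity_mul_X_sub_C_pow (natDegree_norm hθ u' v' h').2, he]
      ring
    · refine ⟨0, ?_⟩
      apply rootMultiplicity_eq_zero
      intro h0
      apply hr
      apply hθ
      have := h0
      rw [IsRoot.def] at this
      simpa using this

theorem par_norm (hθ : Aniso θ) (u v : κ[X]) (h : u ≠ 0 ∨ v ≠ 0) :
    par (u ^ 2 + u * v + C θ * v ^ 2) = 0 := by
  unfold par
  obtain ⟨e, he⟩ := rootMultiplicity_norm hθ (-1) u v h
  rw [he, (natDegree_norm hθ u v h).1]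
  push_cast
  rw [zmod_two_add_self, zmod_two_add_self, zero_add]

theorem par_X : par (X : κ[X]) = 1 := by
  unfold par
  rw [natDegree_X, rootMultiplicity_eq_zero]
  · simp
  · intro h
    rw [IsRoot.def, eval_X] at h
    exact one_ne_zero (neg_eq_zero.1 h)

theorem par_m : par (-X - X ^ 2 : κ[X]) = 1 := by
  have e1 : (-X - X ^ 2 : κ[X]) = C (-1) * X * (X - C (-1)) := by
    simp only [map_neg, map_one]
    ring
  have h1 : (C (-1 : κ)) ≠ 0 := by simp
  have h2 : (C (-1 : κ) * X) ≠ 0 := mul_ne_zero h1 X_ne_zero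
  rw [e1, par_mul h2 (X_sub_C_ne_zero _), par_mul h1 X_ne_zero, par_X]
  unfold par
  rw [rootMultiplicity_X_sub_C_self, natDegree_X_sub_C, rootMultiplicity_C, natDegree_C]
  decide

theorem m_ne_zero : (-X - X ^ 2 : κ[X]) ≠ 0 := by
  intro h
  have h1 := par_m (κ := κ)
  rw [h] at h1
  unfold par at h1
  simp at h1

end Norm

section Psi

/-- The quaternary form. -/
def psi {R : Type*} [CommRing R] (π θ t x₁ y₁ x₂ y₂ : R) : R :=
  (π - t - t ^ 2) * (x₁ ^ 2 + x₁ * y₁ + θ * y₁ ^ 2) - π * t * y₁ ^ 2 +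
    π * t * (x₂ ^ 2 + x₂ * y₂ + θ * y₂ ^ 2) - π ^ 2 * (π - t - t ^ 2) * y₂ ^ 2

variable {O : Type*} [CommRing O] [IsDomain O] [IsNoetherianRing O] {π θ : O}

theorem pair_factor (hπ : Prime π) (a b : O[X]) (h : a ≠ 0 ∨ b ≠ 0) :
    ∃ (i : ℕ) (a' b' : O[X]), a = C π ^ i * a' ∧ b = C π ^ i * b' ∧
      (red π a' ≠ 0 ∨ red π b' ≠ 0) := by
  rcases eq_or_ne a 0 with ha | ha
  · have hb : b ≠ 0 := h.resolve_left (fun h => h ha)
    obtain ⟨n, b', h1, h2⟩ := exists_factor hπ hb
    exact ⟨n, 0, b', by rw [ha, mul_zero], h2, Or.inr fun h => h1 (red_eq_zero_iff.1 h)⟩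
  rcases eq_or_ne b 0 with hb | hb
  · obtain ⟨n, a', h1, h2⟩ := exists_factor hπ ha
    exact ⟨n, a', 0, h2, by rw [hb, mul_zero], Or.inl fun h => h1 (red_eq_zero_iff.1 h)⟩
  obtain ⟨m, a', h1, h2⟩ := exists_factor hπ ha
  obtain ⟨n, b', h3, h4⟩ := exists_factor hπ hb
  rcases le_total m n with hmn | hmn
  · refine ⟨m, a', C π ^ (n - m) * b', h2, ?_, Or.inl fun h => h1 (red_eq_zero_iff.1 h)⟩
    rw [← mul_assoc, ← pow_add, Nat.add_sub_cancel' hmn, h4]
  · refine ⟨n, C π ^ (m - n) * a', b', ?_, h4, Or.inr fun h => h3 (red_eq_zero_iff.1 h)⟩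
    rw [← mul_assoc, ← pow_add, Nat.add_sub_cancel' hmn, h2]

theorem red_C (a : O) : red π (C a) = C (Ideal.Quotient.mk (Ideal.span {π}) a) := by
  simp [red]

theorem red_X : red π (X : O[X]) = X := by
  simp [red]

theorem red_C_self : red π (C π) = 0 := red_eq_zero_iff.2 dvd_rfl

/-- Nonzero values at vectors of polynomials: a power of `π` times a polynomial of odd parity. -/
theorem psi_poly (hπ : Prime π) (hθ : Aniso (Ideal.Quotient.mk (Ideal.span {π}) θ))
    (a b c d : O[X]) (h : ¬ (a = 0 ∧ b = 0 ∧ c = 0 ∧ d = 0)) :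
    ∃ (e : ℕ) (G : O[X]), psi (C π) (C θ) X a b c d = C π ^ e * G ∧ red π G ≠ 0 ∧
      par (red π G) = 1 := by
  have hdom := isDomain_quot hπ
  -- the two cases
  have caseI : ∀ (i : ℕ) (a' b' c' d' : O[X]), a = C π ^ i * a' → b = C π ^ i * b' →
      c = C π ^ i * c' → d = C π ^ i * d' → (red π a' ≠ 0 ∨ red π b' ≠ 0) →
      ∃ (e : ℕ) (G : O[X]), psi (C π) (C θ) X a b c d = C π ^ e * G ∧ red π G ≠ 0 ∧
        par (red π G) = 1 := by
    intro i a' b' c' d' ha hb hc hd h'
    refine ⟨i + i, psi (C π) (C θ) X a' b' c' d', ?_, ?_⟩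
    · rw [ha, hb, hc, hd]
      unfold psi
      ring
    · have e1 : red π (psi (C π) (C θ) X a' b' c' d') = (-X - X ^ 2) *
          (red π a' ^ 2 + red π a' * red π b' +
            C (Ideal.Quotient.mk (Ideal.span {π}) θ) * red π b' ^ 2) := by
        unfold psi
        simp only [map_add, map_sub, map_mul, map_pow, red_C_self, red_X, red_C]
        ring
      have h1 := (natDegree_norm hθ _ _ h').2
      rw [e1]
      refine ⟨mul_ne_zero m_ne_zero h1, ?_⟩
      rw [par_mul m_ne_zero h1, par_m, par_norm hθ _ _ h', add_zero]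
  have caseII : ∀ (i : ℕ) (a' b' c' d' : O[X]), a = C π ^ (i + 1) * a' → b = C π ^ (i + 1) * b' →
      c = C π ^ i * c' → d = C π ^ i * d' → (red π c' ≠ 0 ∨ red π d' ≠ 0) →
      ∃ (e : ℕ) (G : O[X]), psi (C π) (C θ) X a b c d = C π ^ e * G ∧ red π G ≠ 0 ∧
        par (red π G) = 1 := by
    intro i a' b' c' d' ha hb hc hd h'
    refine ⟨i + i + 1, C π * (C π - X - X ^ 2) * (a' ^ 2 + a' * b' + C θ * b' ^ 2) -
      C π ^ 2 * X * b' ^ 2 + X * (c' ^ 2 + c' * d' + C θ * d' ^ 2) -
      C π * (C π - X - X ^ 2) * d' ^ 2, ?_, ?_⟩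
    · rw [ha, hb, hc, hd]
      unfold psi
      ring
    · have e1 : red π (C π * (C π - X - X ^ 2) * (a' ^ 2 + a' * b' + C θ * b' ^ 2) -
          C π ^ 2 * X * b' ^ 2 + X * (c' ^ 2 + c' * d' + C θ * d' ^ 2) -
          C π * (C π - X - X ^ 2) * d' ^ 2) = X *
          (red π c' ^ 2 + red π c' * red π d' +
            C (Ideal.Quotient.mk (Ideal.span {π}) θ) * red π d' ^ 2) := by
        simp only [map_add, map_sub, map_mul, map_pow, red_C_self, red_X, red_C]
        ring
      have h1 := (natDegree_norm hθ _ _ h').2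
      rw [e1]
      refine ⟨mul_ne_zero X_ne_zero h1, ?_⟩
      rw [par_mul X_ne_zero h1, par_X, par_norm hθ _ _ h', add_zero]
  by_cases hab : a = 0 ∧ b = 0
  · obtain ⟨ha, hb⟩ := hab
    have hcd : c ≠ 0 ∨ d ≠ 0 := by
      by_contra hcon
      push Not at hcon
      exact h ⟨ha, hb, hcon.1, hcon.2⟩
    obtain ⟨j, c', d', hc, hd, h'⟩ := pair_factor hπ c d hcd
    exact caseII j 0 0 c' d' (by rw [ha, mul_zero]) (by rw [hb, mul_zero]) hc hd h'
  have hab' : a ≠ 0 ∨ b ≠ 0 := by
    by_contra hcon
    push Not at hcon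
    exact hab hcon
  obtain ⟨i, a', b', ha, hb, h1⟩ := pair_factor hπ a b hab'
  by_cases hcd : c = 0 ∧ d = 0
  · obtain ⟨hc, hd⟩ := hcd
    exact caseI i a' b' 0 0 ha hb (by rw [hc, mul_zero]) (by rw [hd, mul_zero]) h1
  have hcd' : c ≠ 0 ∨ d ≠ 0 := by
    by_contra hcon
    push Not at hcon
    exact hcd hcon
  obtain ⟨j, c', d', hc, hd, h2⟩ := pair_factor hπ c d hcd'
  rcases Nat.lt_or_ge j i with hji | hji
  · refine caseII j (C π ^ (i - (j + 1)) * a') (C π ^ (i - (j + 1)) * b') c' d' ?_ ?_ hc hd h2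
    · rw [← mul_assoc, ← pow_add, Nat.add_sub_cancel' hji, ha]
    · rw [← mul_assoc, ← pow_add, Nat.add_sub_cancel' hji, hb]
  · refine caseI i a' b' (C π ^ (j - i) * c') (C π ^ (j - i) * d') ha hb ?_ ?_ h1
    · rw [← mul_assoc, ← pow_add, Nat.add_sub_cancel' hji, hc]
    · rw [← mul_assoc, ← pow_add, Nat.add_sub_cancel' hji, hd]

variable {K : Type*} [Field K] [Algebra O[X] K] [IsFractionRing O[X] K]

/-- The matrix of the quaternary form over `K`. -/
def psiMat (π θ t : K) : Matrix (Fin 4) (Fin 4) K :=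
  !![π - t - t ^ 2, π - t - t ^ 2, 0, 0;
     0, (π - t - t ^ 2) * θ - π * t, 0, 0;
     0, 0, π * t, π * t;
     0, 0, 0, π * t * θ - π ^ 2 * (π - t - t ^ 2)]

theorem qf_psiMat {R : Type*} [CommRing R] [Algebra K R] (π θ t : K) (y : Fin 4 → R) :
    qf (psiMat π θ t) y = psi (algebraMap K R π) (algebraMap K R θ) (algebraMap K R t)
      (y 0) (y 1) (y 2) (y 3) := by
  simp [qf, psiMat, psi, Fin.sum_univ_four]
  ring

/-- All nonzero values of the quaternary form over `K` have class `1`. -/
theorem psi_value (hπ : Prime π) (hθ : Aniso (Ideal.Quotient.mk (Ideal.span {π}) θ))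
    (y : Fin 4 → K) (hy : y ≠ 0) :
    qf (psiMat (algebraMap O[X] K (C π)) (algebraMap O[X] K (C θ)) (algebraMap O[X] K X)) y ≠ 0 ∧
    chi π (qf (psiMat (algebraMap O[X] K (C π)) (algebraMap O[X] K (C θ))
      (algebraMap O[X] K X)) y) = 1 := by
  obtain ⟨b, hb⟩ := IsLocalization.exist_integer_multiples_of_finite (nonZeroDivisors O[X]) y
  choose a ha using hb
  have hb0 : algebraMap O[X] K b ≠ 0 := by
    rw [Ne, IsFractionRing.to_map_eq_zero_iff]
    exact nonZeroDivisors.ne_zero b.2
  have ha' : ∀ i, algebraMap O[X] K (a i) = algebraMap O[X] K b * y i := by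
    intro i
    rw [ha i, Algebra.smul_def]
  have hne : ¬ (a 0 = 0 ∧ a 1 = 0 ∧ a 2 = 0 ∧ a 3 = 0) := by
    rintro ⟨h0, h1, h2, h3⟩
    apply hy
    have key : ∀ i, a i = 0 → y i = 0 := by
      intro i hi
      have := ha' i
      rw [hi, map_zero] at this
      exact (mul_eq_zero.1 this.symm).resolve_left hb0
    funext i
    fin_cases i
    · exact key 0 h0
    · exact key 1 h1
    · exact key 2 h2
    · exact key 3 h3
  obtain ⟨e, G, h1, h2, h3⟩ := psi_poly hπ hθ (a 0) (a 1) (a 2) (a 3) hne
  have hval : (algebraMap O[X] K b) ^ 2 *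
      qf (psiMat (algebraMap O[X] K (C π)) (algebraMap O[X] K (C θ)) (algebraMap O[X] K X)) y =
      algebraMap O[X] K (C π ^ e * G) := by
    rw [← h1, ← qf_smul, qf_psiMat]
    unfold psi
    simp only [map_add, map_sub, map_mul, map_pow, ha', Algebra.algebraMap_self, RingHom.id_apply]
  have hG0 : algebraMap O[X] K (C π ^ e * G) ≠ 0 := by
    rw [Ne, IsFractionRing.to_map_eq_zero_iff]
    refine mul_ne_zero (pow_ne_zero _ (prime_C hπ).ne_zero) ?_
    rintro rfl
    exact h2 (map_zero _)
  rw [← hval] at hG0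
  have hq0 := right_ne_zero_of_mul hG0
  refine ⟨hq0, ?_⟩
  have hchi : chi π (algebraMap O[X] K (C π ^ e * G)) = 1 := by
    rw [chi_algebraMap hπ e (fun h => h2 (red_eq_zero_iff.2 h)), h3]
  rw [← hval, chi_mul hπ (pow_ne_zero _ hb0) hq0, sq, chi_mul hπ hb0 hb0, zmod_two_add_self,
    zero_add] at hchi
  exact hchi

end Psi

end Pool.Agent.Lib.MP_8ab79f_ag
end

section

/-!
# The invariant of R-equivalence
-/

set_option autoImplicit false
set_option linter.unusedSectionVars false

namespace Pool.Agent.Lib.MP_8ab79f_ag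

open Polynomial

section Emb

variable (O : Type*) [CommRing O] [IsDomain O] (k : Type*) [Field k] [Algebra O k]
  [IsFractionRing O k]

theorem emb_injective :
    Function.Injective ((algebraMap O[X] (FractionRing O[X])).comp (C : O →+* O[X])) := by
  rw [RingHom.coe_comp]
  exact (IsFractionRing.injective O[X] (FractionRing O[X])).comp C_injective

/-- The embedding of `k`, the fraction field of `O`, in the fraction field of `O[X]`. -/
noncomputable def emb : k →+* FractionRing O[X] :=
  IsFractionRing.lift (emb_injective O)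

variable {O k}

theorem emb_algebraMap (a : O) :
    emb O k (algebraMap O k a) = algebraMap O[X] (FractionRing O[X]) (C a) := by
  unfold emb
  rw [IsFractionRing.lift_algebraMap]
  rfl

/-- The variable, as an element of the fraction field of `O[X]`. -/
noncomputable def tt (O : Type*) [CommRing O] : FractionRing O[X] :=
  algebraMap O[X] (FractionRing O[X]) X

/-- The variable is transcendental over `k`. -/
theorem tt_transcendental (P : k[X]) (h : P.eval₂ (emb O k) (tt O) = 0) : P = 0 := by
  obtain ⟨b, hbm, hb⟩ := IsLocalization.integerNormalization_spec (nonZeroDivisors O) P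
  set P' := IsLocalization.integerNormalization (nonZeroDivisors O) P with hP'
  have hmap : P'.map (algebraMap O k) = C (algebraMap O k b) * P := by
    rw [hb]
    ext i
    rw [coeff_smul, coeff_C_mul, Algebra.smul_def]
  have hb0 : algebraMap O k b ≠ 0 := by
    rw [Ne, IsFractionRing.to_map_eq_zero_iff]
    exact nonZeroDivisors.ne_zero hbm
  have h1 : (P'.map (algebraMap O k)).eval₂ (emb O k) (tt O) = 0 := by
    rw [hmap, eval₂_mul, h, mul_zero]
  rw [eval₂_map] at h1
  have h2 : (emb O k).comp (algebraMap O k) =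
      (algebraMap O[X] (FractionRing O[X])).comp (C : O →+* O[X]) := by
    ext a
    rw [RingHom.comp_apply, emb_algebraMap, RingHom.comp_apply]
  rw [h2, tt, ← hom_eval₂, eval₂_C_X] at h1
  have h3 : P' = 0 := (IsFractionRing.to_map_eq_zero_iff).1 h1
  rw [h3, Polynomial.map_zero] at hmap
  have := mul_eq_zero.1 hmap.symm
  rw [C_eq_zero] at this
  exact this.resolve_left hb0

end Emb

section Curve

variable {O : Type*} [CommRing O] [IsDomain O] [IsNoetherianRing O] {π θ : O}
variable {k : Type*} [Field k] [Algebra O k] [IsFractionRing O k]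

/-- The homomorphism is trivial on `k`. -/
theorem chi_emb (hπ : Prime π) {c : k} (hc : c ≠ 0) : chi π (emb O k c) = 0 := by
  have hdom := isDomain_quot hπ
  have key : ∀ a : O, a ≠ 0 → chi π (emb O k (algebraMap O k a)) = 0 := by
    intro a ha
    rw [emb_algebraMap]
    obtain ⟨m, b, h1, h2⟩ := WfDvdMonoid.max_power_factor ha hπ.irreducible
    have h3 : (C a : O[X]) = C π ^ m * C b := by rw [h2, map_mul, map_pow]
    have h4 : ¬ C π ∣ (C b : O[X]) := by
      intro h
      rw [C_dvd_iff_dvd_coeff] at h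
      have := h 0
      rw [coeff_C_zero] at this
      exact h1 this
    rw [h3, chi_algebraMap hπ m h4, red_C]
    unfold par
    rw [rootMultiplicity_C, natDegree_C]
    rfl
  obtain ⟨a, b, hb, rfl⟩ := IsFractionRing.div_surjective (A := O) c
  have hb0 : b ≠ 0 := nonZeroDivisors.ne_zero hb
  have ha0 : a ≠ 0 := by
    rintro rfl
    simp at hc
  have hb1 : algebraMap O k b ≠ 0 := by
    rw [Ne, IsFractionRing.to_map_eq_zero_iff]
    exact hb0
  have h1 : emb O k (algebraMap O k a / algebraMap O k b) * emb O k (algebraMap O k b) =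
      emb O k (algebraMap O k a) := by
    rw [← map_mul, div_mul_cancel₀ _ hb1]
  have h2 := key a ha0
  rw [← h1, chi_mul hπ ((_root_.map_ne_zero _).2 hc) ((_root_.map_ne_zero _).2 hb1), key b hb0, add_zero] at h2
  exact h2

/-- If `a` and `b` in `k` are not both zero then `a - t * b` is not zero. -/
theorem sub_tt_ne_zero {a b : k} (h : a ≠ 0 ∨ b ≠ 0) : emb O k a - tt O * emb O k b ≠ 0 := by
  intro h0
  have h1 : (C a - X * C b : k[X]).eval₂ (emb O k) (tt O) = 0 := by
    rw [eval₂_sub, eval₂_mul, eval₂_C, eval₂_C, eval₂_X]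
    exact h0
  have h2 := tt_transcendental _ h1
  have h3 := congrArg (fun p => coeff p 0) h2
  have h4 := congrArg (fun p => coeff p 1) h2
  simp at h3 h4
  exact h.elim (fun h => h h3) (fun h => h h4)

/-- The first quadratic form, over a commutative ring. -/
def ff {R : Type*} [CommRing R] (π θ : R) (x : Fin 6 → R) : R :=
  x 4 ^ 2 + x 4 * x 5 + π * (x 2 ^ 2 + x 2 * x 3 + θ * x 3 ^ 2 - x 1 ^ 2 - x 5 ^ 2)

/-- The second quadratic form, over a commutative ring. -/
def gg {R : Type*} [CommRing R] (π θ : R) (x : Fin 6 → R) : R :=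
  x 0 ^ 2 + x 0 * x 1 + θ * x 1 ^ 2 + x 4 * x 5 - π ^ 2 * x 3 ^ 2

theorem pencil_identity {R : Type*} [CommRing R] (π θ t : R) (x : Fin 6 → R) :
    t * ff π θ x + (π - t - t ^ 2) * gg π θ x =
      (x 4 - t * x 5) * (t * x 4 + π * x 5) + psi π θ t (x 0) (x 1) (x 2) (x 3) := by
  unfold ff gg psi
  ring

/-- A common irreducible factor over the larger field is impossible. -/
theorem no_common_factor (x : Fin 6 → k[X]) (c : Fin 6 → k[X]) (hc : ∑ i, c i * x i = 1)
    (hx : ∃ i : Fin 6, i.1 < 4 ∧ x i ≠ 0)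
    (p : (FractionRing O[X])[X]) (hp : Irreducible p)
    (h1 : p ∣ (x 4).map (emb O k) - C (tt O) * (x 5).map (emb O k))
    (h2 : ∀ i : Fin 6, i.1 < 4 → p ∣ (x i).map (emb O k)) : False := by
  classical
  have hfact : Fact (Irreducible p) := ⟨hp⟩
  let _ : Algebra k (FractionRing O[X]) := (emb O k).toAlgebra
  set σ : AdjoinRoot p := AdjoinRoot.root p with hσ
  have hval : ∀ q : k[X], aeval σ q = AdjoinRoot.mk p (q.map (emb O k)) := by
    intro q
    have h3 : AdjoinRoot.mk p (q.map (emb O k)) = aeval σ (q.map (emb O k)) :=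
      (AdjoinRoot.aeval_eq _).symm
    rw [h3]
    exact (aeval_map_algebraMap (A := FractionRing O[X]) σ q).symm
  have hz : ∀ i : Fin 6, i.1 < 4 → aeval σ (x i) = 0 := by
    intro i hi
    rw [hval, AdjoinRoot.mk_eq_zero]
    exact h2 i hi
  have hzw : aeval σ (x 4) = algebraMap (FractionRing O[X]) (AdjoinRoot p) (tt O) * aeval σ (x 5) := by
    rw [hval, hval, ← sub_eq_zero, AdjoinRoot.algebraMap_eq]
    have : (AdjoinRoot.of p) (tt O) = AdjoinRoot.mk p (C (tt O)) := rfl
    rw [this, ← map_mul, ← map_sub, AdjoinRoot.mk_eq_zero]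
    exact h1
  obtain ⟨i₀, hi₀, hx₀⟩ := hx
  have halg : IsAlgebraic k σ := ⟨x i₀, hx₀, hz i₀ hi₀⟩
  by_cases hw : aeval σ (x 5) = 0
  · have hz4 : aeval σ (x 4) = 0 := by rw [hzw, hw, mul_zero]
    have h3 := congrArg (aeval σ) hc
    rw [map_sum, map_one] at h3
    apply one_ne_zero (α := AdjoinRoot p)
    rw [← h3]
    apply Finset.sum_eq_zero
    intro i _
    rw [map_mul]
    have : aeval σ (x i) = 0 := by
      fin_cases i
      · exact hz 0 (by decide)
      · exact hz 1 (by decide)
      · exact hz 2 (by decide)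
      · exact hz 3 (by decide)
      · exact hz4
      · exact hw
    rw [this, mul_zero]
  · have hmem : ∀ q : k[X], aeval σ q ∈ algebraicClosure k (AdjoinRoot p) := by
      intro q
      have h3 : Algebra.adjoin k {σ} ≤ (algebraicClosure k (AdjoinRoot p)).toSubalgebra := by
        rw [Algebra.adjoin_le_iff, Set.singleton_subset_iff]
        exact mem_algebraicClosure_iff.2 halg
      exact h3 (aeval_mem_adjoin_singleton k σ)
    have h4 : algebraMap (FractionRing O[X]) (AdjoinRoot p) (tt O) =
        aeval σ (x 4) * (aeval σ (x 5))⁻¹ := by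
      rw [hzw, mul_assoc, mul_inv_cancel₀ hw, mul_one]
    have h5 : algebraMap (FractionRing O[X]) (AdjoinRoot p) (tt O) ∈
        algebraicClosure k (AdjoinRoot p) := by
      rw [h4]
      exact mul_mem (hmem _) (inv_mem (hmem _))
    rw [mem_algebraicClosure_iff] at h5
    have h6 : IsAlgebraic k (tt O) := by
      rwa [isAlgebraic_algebraMap_iff (algebraMap (FractionRing O[X]) (AdjoinRoot p)).injective]
        at h5
    obtain ⟨P, hP0, hP⟩ := h6
    exact hP0 (tt_transcendental P hP)

/-- The invariant of a vector with coordinates in `k`. -/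
noncomputable def inv (π : O) (v : Fin 6 → k) : ZMod 2 :=
  chi π (emb O k (v 4) - tt O * emb O k (v 5))

theorem inv_smul (hπ : Prime π) {c : k} (hc : c ≠ 0) (v : Fin 6 → k)
    (hv : v 4 ≠ 0 ∨ v 5 ≠ 0) : inv π (c • v) = inv π v := by
  unfold inv
  have e1 : emb O k ((c • v) 4) - tt O * emb O k ((c • v) 5) =
      emb O k c * (emb O k (v 4) - tt O * emb O k (v 5)) := by
    simp only [Pi.smul_apply, smul_eq_mul, map_mul]
    ring
  rw [e1, chi_mul hπ ((_root_.map_ne_zero _).2 hc) (sub_tt_ne_zero hv), chi_emb hπ hc, zero_add]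

/-- A nonzero common zero of the two forms has last coordinates not both zero. -/
theorem last_ne_zero (hπ : Prime π) (hθ : Aniso (Ideal.Quotient.mk (Ideal.span {π}) θ))
    (v : Fin 6 → k) (hv : v ≠ 0) (hf : ff (algebraMap O k π) (algebraMap O k θ) v = 0)
    (hg : gg (algebraMap O k π) (algebraMap O k θ) v = 0) : v 4 ≠ 0 ∨ v 5 ≠ 0 := by
  by_contra hcon
  push Not at hcon
  obtain ⟨h4, h5⟩ := hcon
  set ι := emb O k with hι
  have e1 := pencil_identity (ι (algebraMap O k π)) (ι (algebraMap O k θ)) (tt O)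
    (fun i => ι (v i))
  have hf' : ff (ι (algebraMap O k π)) (ι (algebraMap O k θ)) (fun i => ι (v i)) = 0 := by
    have := congrArg ι hf
    rw [map_zero] at this
    rw [← this]
    simp [ff]
  have hg' : gg (ι (algebraMap O k π)) (ι (algebraMap O k θ)) (fun i => ι (v i)) = 0 := by
    have := congrArg ι hg
    rw [map_zero] at this
    rw [← this]
    simp [gg]
  rw [hf', hg', h4, h5, map_zero] at e1
  have hy : (fun j : Fin 4 => ι (v (Fin.castLE (by norm_num) j))) ≠ 0 := by
    intro h0
    apply hv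
    have key : ∀ j : Fin 4, v (Fin.castLE (by norm_num) j) = 0 := fun j => by
      have := congrFun h0 j
      exact (map_eq_zero ι).1 this
    funext i
    fin_cases i
    · exact key 0
    · exact key 1
    · exact key 2
    · exact key 3
    · exact h4
    · exact h5
  have h6 := (psi_value (K := FractionRing O[X]) hπ hθ _ hy).1
  apply h6
  rw [qf_psiMat, ← emb_algebraMap (k := k), ← emb_algebraMap (k := k)]
  refine Eq.trans (b := psi (ι (algebraMap O k π)) (ι (algebraMap O k θ)) (tt O)
    (ι (v 0)) (ι (v 1)) (ι (v 2)) (ι (v 3))) rfl ?_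
  linear_combination -e1

/-- The invariant is constant along a curve given by polynomials with no common factor. -/
theorem curve_inv_coprime (hπ : Prime π) (hθ : Aniso (Ideal.Quotient.mk (Ideal.span {π}) θ))
    (x c : Fin 6 → k[X]) (hc : ∑ i, c i * x i = 1)
    (hf : ff (C (algebraMap O k π)) (C (algebraMap O k θ)) x = 0)
    (hg : gg (C (algebraMap O k π)) (C (algebraMap O k θ)) x = 0) (s t : k) :
    inv π (fun i => (x i).eval s) = inv π (fun i => (x i).eval t) := by
  set ι := emb O k with hι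
  have hnz : ∀ s : k, (fun i => (x i).eval s) ≠ 0 := by
    intro s h0
    have h1 := congrArg (eval s) hc
    rw [eval_finsetSum, eval_one] at h1
    apply one_ne_zero (α := k)
    rw [← h1]
    apply Finset.sum_eq_zero
    intro i _
    have := congrFun h0 i
    simp only [Pi.zero_apply] at this
    rw [eval_mul, this, mul_zero]
  have hfs : ∀ s : k, ff (algebraMap O k π) (algebraMap O k θ) (fun i => (x i).eval s) = 0 := by
    intro s
    have := congrArg (eval s) hf
    rw [eval_zero] at this
    rw [← this]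
    simp [ff]
  have hgs : ∀ s : k, gg (algebraMap O k π) (algebraMap O k θ) (fun i => (x i).eval s) = 0 := by
    intro s
    have := congrArg (eval s) hg
    rw [eval_zero] at this
    rw [← this]
    simp [gg]
  have hlast := fun s => last_ne_zero hπ hθ _ (hnz s) (hfs s) (hgs s)
  set F : (FractionRing O[X])[X] := (x 4).map ι - C (tt O) * (x 5).map ι with hF
  set y : Fin 4 → (FractionRing O[X])[X] := fun j => (x (Fin.castLE (by norm_num) j)).map ι with hy
  have heval : ∀ s : k, F.eval (ι s) = ι ((x 4).eval s) - tt O * ι ((x 5).eval s) := by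
    intro s
    rw [hF, eval_sub, eval_mul, eval_C, eval_map_apply, eval_map_apply]
  have hF0 : F ≠ 0 := by
    intro h0
    have h1 := heval s
    rw [h0, eval_zero] at h1
    exact sub_tt_ne_zero (hlast s) h1.symm
  have hff : ff (C (ι (algebraMap O k π))) (C (ι (algebraMap O k θ))) (fun i => (x i).map ι) = 0 := by
    have := congrArg (Polynomial.map ι) hf
    rw [Polynomial.map_zero] at this
    rw [← this]
    simp [ff]
  have hgg : gg (C (ι (algebraMap O k π))) (C (ι (algebraMap O k θ))) (fun i => (x i).map ι) = 0 := by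
    have := congrArg (Polynomial.map ι) hg
    rw [Polynomial.map_zero] at this
    rw [← this]
    simp [gg]
  have hdvd : F ∣ qf (psiMat (algebraMap O[X] (FractionRing O[X]) (C π))
      (algebraMap O[X] (FractionRing O[X]) (C θ)) (algebraMap O[X] (FractionRing O[X]) X)) y := by
    have e1 := pencil_identity (C (ι (algebraMap O k π))) (C (ι (algebraMap O k θ))) (C (tt O))
      (fun i => (x i).map ι)
    rw [hff, hgg, mul_zero, mul_zero, add_zero] at e1
    refine ⟨-(C (tt O) * (x 4).map ι + C (ι (algebraMap O k π)) * (x 5).map ι), ?_⟩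
    rw [qf_psiMat, Polynomial.algebraMap_eq, ← emb_algebraMap (k := k), ← emb_algebraMap (k := k)]
    have e2 : psi (C (ι (algebraMap O k π))) (C (ι (algebraMap O k θ))) (C (tt O))
        ((x 0).map ι) ((x 1).map ι) ((x 2).map ι) ((x 3).map ι) =
        -(((x 4).map ι - C (tt O) * (x 5).map ι) *
          (C (tt O) * (x 4).map ι + C (ι (algebraMap O k π)) * (x 5).map ι)) := by
      linear_combination -e1
    refine Eq.trans e2 ?_
    rw [hF]
    have e3 : ∀ a b : (FractionRing O[X])[X], -(a * b) = a * -b := fun a b => by ring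
    exact e3 _ _
  have hcop : ∀ p : (FractionRing O[X])[X], Irreducible p → p ∣ F → ∃ j, ¬ p ∣ y j := by
    intro p hp hpF
    by_contra hcon
    push Not at hcon
    by_cases hx : ∃ i : Fin 6, i.1 < 4 ∧ x i ≠ 0
    · refine no_common_factor x c hc hx p hp hpF ?_
      intro i hi
      exact hcon ⟨i.1, hi⟩
    · push Not at hx
      -- then `x 4` and `x 5` satisfy `x 4 * x 5 = 0` and so on
      have h0 := hx 0 (by decide)
      have h1 := hx 1 (by decide)
      have h2 := hx 2 (by decide)
      have h3 := hx 3 (by decide)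
      unfold gg at hg
      unfold ff at hf
      rw [h0, h1, h3] at hg
      rw [h1, h2, h3] at hf
      have hπ0 : (C (algebraMap O k π) : k[X]) ≠ 0 := by
        rw [Ne, C_eq_zero, IsFractionRing.to_map_eq_zero_iff]
        exact hπ.ne_zero
      have h45 : x 4 * x 5 = 0 := by linear_combination hg
      have h44 : x 4 ^ 2 = C (algebraMap O k π) * x 5 ^ 2 := by linear_combination hf - h45
      have : x 4 = 0 ∧ x 5 = 0 := by
        rcases mul_eq_zero.1 h45 with h | h
        · rw [h, zero_pow two_ne_zero] at h44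
          refine ⟨h, ?_⟩
          have := (mul_eq_zero.1 h44.symm).resolve_left hπ0
          exact pow_eq_zero_iff two_ne_zero |>.1 this
        · rw [h, zero_pow two_ne_zero, mul_zero] at h44
          exact ⟨pow_eq_zero_iff two_ne_zero |>.1 h44, h⟩
      apply hnz 0
      funext i
      fin_cases i <;> simp [h0, h1, h2, h3, this.1, this.2]
  have h := (descent _ (chi π) 1 (fun a b ha hb => chi_mul hπ ha hb)
    (fun y hy => psi_value hπ hθ y hy) F hF0 y hdvd hcop (ι s) (ι t)).2.2
  rw [heval, heval] at h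
  exact h

end Curve

end Pool.Agent.Lib.MP_8ab79f_ag
end

section

/-!
# Two points which are not R-equivalent
-/

set_option autoImplicit false
set_option linter.unusedSectionVars false

namespace Pool.Agent.Lib.MP_8ab79f_ag

open Polynomial

variable {O : Type*} [CommRing O] [IsDomain O] [IsNoetherianRing O] {π θ : O}
variable {k : Type*} [Field k] [Algebra O k] [IsFractionRing O k]

theorem ff_smul {R : Type*} [CommRing R] (π θ d : R) (x : Fin 6 → R) :
    ff π θ (fun i => d * x i) = d ^ 2 * ff π θ x := by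
  unfold ff
  ring

theorem gg_smul {R : Type*} [CommRing R] (π θ d : R) (x : Fin 6 → R) :
    gg π θ (fun i => d * x i) = d ^ 2 * gg π θ x := by
  unfold gg
  ring

/-- The invariant is constant along a curve. -/
theorem curve_inv (hπ : Prime π) (hθ : Aniso (Ideal.Quotient.mk (Ideal.span {π}) θ))
    (x : Fin 6 → k[X])
    (hf : ff (C (algebraMap O k π)) (C (algebraMap O k θ)) x = 0)
    (hg : gg (C (algebraMap O k π)) (C (algebraMap O k θ)) x = 0) (s t : k)
    (hs : (fun i => (x i).eval s) ≠ 0) (ht : (fun i => (x i).eval t) ≠ 0) :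
    inv π (fun i => (x i).eval s) = inv π (fun i => (x i).eval t) := by
  obtain ⟨d, hd⟩ := (IsPrincipalIdealRing.principal (Ideal.span (Set.range x))).principal
  have hd' : Ideal.span (Set.range x) = Ideal.span {d} := hd
  have hdvd : ∀ i, ∃ x', x i = d * x' := by
    intro i
    have : x i ∈ Ideal.span {d} := hd' ▸ Ideal.subset_span (Set.mem_range_self i)
    exact Ideal.mem_span_singleton.1 this
  choose x' hx' using hdvd
  have hxx : x = fun i => d * x' i := funext hx'
  have hd0 : d ≠ 0 := by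
    rintro rfl
    apply hs
    funext i
    simp [hx']
  obtain ⟨c, hc⟩ := (Ideal.mem_span_range_iff_exists_fun).1
    (hd' ▸ Ideal.mem_span_singleton_self d : d ∈ Ideal.span (Set.range x))
  have hc1 : ∑ i, c i * x' i = 1 := by
    have e1 : d * ∑ i, c i * x' i = d * 1 := by
      rw [mul_one, Finset.mul_sum]
      conv_rhs => rw [← hc]
      refine Finset.sum_congr rfl fun i _ => ?_
      rw [hx' i]
      ring
    exact mul_left_cancel₀ hd0 e1
  have hf' : ff (C (algebraMap O k π)) (C (algebraMap O k θ)) x' = 0 := by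
    rw [hxx, ff_smul] at hf
    exact (mul_eq_zero.1 hf).resolve_left (pow_ne_zero _ hd0)
  have hg' : gg (C (algebraMap O k π)) (C (algebraMap O k θ)) x' = 0 := by
    rw [hxx, gg_smul] at hg
    exact (mul_eq_zero.1 hg).resolve_left (pow_ne_zero _ hd0)
  have key : ∀ s : k, (fun i => (x i).eval s) ≠ 0 →
      inv π (fun i => (x i).eval s) = inv π (fun i => (x' i).eval s) := by
    intro s hs
    have h1 : (fun i => (x i).eval s) = d.eval s • (fun i => (x' i).eval s) := by
      funext i
      rw [hx' i, eval_mul]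
      rfl
    rw [h1] at hs
    have h2 : d.eval s ≠ 0 := fun h => hs (by rw [h, zero_smul])
    have h3 : (fun i => (x' i).eval s) ≠ 0 := fun h => hs (by rw [h, smul_zero])
    have hfs : ff (algebraMap O k π) (algebraMap O k θ) (fun i => (x' i).eval s) = 0 := by
      have := congrArg (eval s) hf'
      rw [eval_zero] at this
      rw [← this]
      simp [ff]
    have hgs : gg (algebraMap O k π) (algebraMap O k θ) (fun i => (x' i).eval s) = 0 := by
      have := congrArg (eval s) hg'
      rw [eval_zero] at this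
      rw [← this]
      simp [gg]
    rw [h1, inv_smul hπ h2 _ (last_ne_zero hπ hθ _ h3 hfs hgs)]
  rw [key s hs, key t ht]
  exact curve_inv_coprime hπ hθ x' c hc1 hf' hg' s t

/-- The first quadratic form as a polynomial. -/
noncomputable def fPoly (π θ : k) : MvPolynomial (Fin 6) k :=
  ff (MvPolynomial.C π) (MvPolynomial.C θ) MvPolynomial.X

/-- The second quadratic form as a polynomial. -/
noncomputable def gPoly (π θ : k) : MvPolynomial (Fin 6) k :=
  gg (MvPolynomial.C π) (MvPolynomial.C θ) MvPolynomial.X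

theorem aeval_fPoly {R : Type*} [CommRing R] [Algebra k R] (π θ : k) (v : Fin 6 → R) :
    MvPolynomial.aeval v (fPoly π θ) = ff (algebraMap k R π) (algebraMap k R θ) v := by
  simp [fPoly, ff]

theorem aeval_gPoly {R : Type*} [CommRing R] [Algebra k R] (π θ : k) (v : Fin 6 → R) :
    MvPolynomial.aeval v (gPoly π θ) = gg (algebraMap k R π) (algebraMap k R θ) v := by
  simp [gPoly, gg]

theorem eval_fPoly (π θ : k) (v : Fin 6 → k) :
    MvPolynomial.eval v (fPoly π θ) = ff π θ v := by
  simp [fPoly, ff]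

theorem eval_gPoly (π θ : k) (v : Fin 6 → k) :
    MvPolynomial.eval v (gPoly π θ) = gg π θ v := by
  simp [gPoly, gg]

/-- Directly linked points have the same invariant. -/
theorem inv_directlyLinked (hπ : Prime π) (hθ : Aniso (Ideal.Quotient.mk (Ideal.span {π}) θ))
    {P Q : Projectivization k (Fin 6 → k)}
    (h : DirectlyLinked (n := 5) (fPoly (algebraMap O k π) (algebraMap O k θ))
      (gPoly (algebraMap O k π) (algebraMap O k θ)) P Q) :
    inv π P.rep = inv π Q.rep := by
  obtain ⟨d, φ, _, hf, hg, u, v, hu, hv, _, _, rfl, rfl⟩ := h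
  have hrep : ∀ (w : Fin 6 → k) (hw : w ≠ 0),
      ff (algebraMap O k π) (algebraMap O k θ) w = 0 →
      gg (algebraMap O k π) (algebraMap O k θ) w = 0 →
      inv π (Projectivization.mk k w hw).rep = inv π w := by
    intro w hw h1 h2
    obtain ⟨a, ha⟩ := Projectivization.exists_smul_eq_mk_rep k w hw
    rw [← ha]
    exact inv_smul hπ a.ne_zero w (last_ne_zero hπ hθ w hw h1 h2)
  set ℓ : Fin 2 → k[X] := fun j => C (u j) + X * C (v j - u j) with hℓ
  set x : Fin 6 → k[X] := fun i => MvPolynomial.aeval ℓ (φ i) with hx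
  have hx0 : ∀ i, (x i).eval 0 = MvPolynomial.eval u (φ i) := by
    intro i
    have h1 : (aeval (0 : k)).comp (MvPolynomial.aeval ℓ) = MvPolynomial.aeval (R := k) u := by
      ext j
      simp [hℓ]
    have h2 := congrArg (fun F => F (φ i)) h1
    simpa [MvPolynomial.aeval_eq_eval, Polynomial.aeval_def, eval₂_eq_eval_map] using h2
  have hx1 : ∀ i, (x i).eval 1 = MvPolynomial.eval v (φ i) := by
    intro i
    have h1 : (aeval (1 : k)).comp (MvPolynomial.aeval ℓ) = MvPolynomial.aeval (R := k) v := by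
      ext j
      simp [hℓ]
    have h2 := congrArg (fun F => F (φ i)) h1
    simpa [MvPolynomial.aeval_eq_eval, Polynomial.aeval_def, eval₂_eq_eval_map] using h2
  have hfx : ff (C (algebraMap O k π)) (C (algebraMap O k θ)) x = 0 := by
    have h1 := congrArg (MvPolynomial.aeval ℓ) hf
    rw [aeval_fPoly, map_zero] at h1
    rw [← h1]
    simp [ff, hx]
  have hgx : gg (C (algebraMap O k π)) (C (algebraMap O k θ)) x = 0 := by
    have h1 := congrArg (MvPolynomial.aeval ℓ) hg
    rw [aeval_gPoly, map_zero] at h1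
    rw [← h1]
    simp [gg, hx]
  have hu' : (fun i => (x i).eval 0) = fun i => MvPolynomial.eval u (φ i) := funext hx0
  have hv' : (fun i => (x i).eval 1) = fun i => MvPolynomial.eval v (φ i) := funext hx1
  have key := curve_inv hπ hθ x hfx hgx 0 1 (by rw [hu']; exact hu) (by rw [hv']; exact hv)
  rw [hu', hv'] at key
  have hfe : ∀ w : Fin 2 → k,
      ff (algebraMap O k π) (algebraMap O k θ) (fun i => MvPolynomial.eval w (φ i)) = 0 := by
    intro w
    have h1 := congrArg (MvPolynomial.eval w) hf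
    rw [aeval_fPoly, map_zero] at h1
    rw [← h1]
    simp [ff]
  have hge : ∀ w : Fin 2 → k,
      gg (algebraMap O k π) (algebraMap O k θ) (fun i => MvPolynomial.eval w (φ i)) = 0 := by
    intro w
    have h1 := congrArg (MvPolynomial.eval w) hg
    rw [aeval_gPoly, map_zero] at h1
    rw [← h1]
    simp [gg]
  rw [hrep _ hu (hfe u) (hge u), hrep _ hv (hfe v) (hge v)]
  exact key

/-- The two points. -/
def ptA (k : Type*) [Field k] : Fin 6 → k := ![0, 0, 1, 0, 0, 1]

/-- The two points. -/
def ptB (k : Type*) [Field k] : Fin 6 → k := ![1, 0, 1, 0, -1, 1]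

theorem ptA_ne_zero : ptA k ≠ 0 := fun h => one_ne_zero (congrFun h 5)

theorem ptB_ne_zero : ptB k ≠ 0 := fun h => one_ne_zero (congrFun h 5)

theorem inv_ptA (hπ : Prime π) : inv π (ptA k) = 1 := by
  have hdom := isDomain_quot hπ
  have h1 : emb O k (ptA k 4) - tt O * emb O k (ptA k 5) =
      algebraMap O[X] (FractionRing O[X]) (C π ^ 0 * (-X)) := by
    have e4 : ptA k 4 = 0 := rfl
    have e5 : ptA k 5 = 1 := rfl
    rw [e4, e5, map_zero, map_one, tt, pow_zero, one_mul, map_neg]
    ring
  have h2 : ¬ C π ∣ (-X : O[X]) := by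
    intro h
    rw [dvd_neg, C_dvd_iff_dvd_coeff] at h
    have := h 1
    rw [coeff_X_one] at this
    exact hπ.not_isUnit (isUnit_of_dvd_one this)
  unfold inv
  rw [h1, chi_algebraMap hπ 0 h2, map_neg, red_X]
  have h3 : (-X : (O ⧸ Ideal.span {π})[X]) = C (-1) * X := by simp
  have h4 : (C (-1 : O ⧸ Ideal.span {π})) ≠ 0 := by simp
  rw [h3, par_mul h4 X_ne_zero, par_X]
  unfold par
  rw [rootMultiplicity_C, natDegree_C]
  decide

theorem inv_ptB (hπ : Prime π) : inv π (ptB k) = 0 := by
  have hdom := isDomain_quot hπ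
  have h1 : emb O k (ptB k 4) - tt O * emb O k (ptB k 5) =
      algebraMap O[X] (FractionRing O[X]) (C π ^ 0 * (-1 - X)) := by
    have e4 : ptB k 4 = -1 := rfl
    have e5 : ptB k 5 = 1 := rfl
    rw [e4, e5, map_neg, map_one, tt, pow_zero, one_mul, map_sub, map_neg, map_one]
    ring
  have h2 : ¬ C π ∣ (-1 - X : O[X]) := by
    intro h
    rw [C_dvd_iff_dvd_coeff] at h
    have := h 1
    simp only [coeff_sub, coeff_neg, coeff_one, coeff_X_one, one_ne_zero, if_false, neg_zero,
      zero_sub, dvd_neg] at this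
    exact hπ.not_isUnit (isUnit_of_dvd_one this)
  unfold inv
  rw [h1, chi_algebraMap hπ 0 h2, map_sub, map_neg, map_one, red_X]
  have h3 : (-1 - X : (O ⧸ Ideal.span {π})[X]) = C (-1) * (X - C (-1)) := by
    simp
    ring
  have h4 : (C (-1 : O ⧸ Ideal.span {π})) ≠ 0 := by simp
  rw [h3, par_mul h4 (X_sub_C_ne_zero _)]
  unfold par
  rw [rootMultiplicity_C, natDegree_C, rootMultiplicity_X_sub_C_self, natDegree_X_sub_C]
  decide

/-- There are at least two classes. -/
theorem nontrivial_RClasses (hπ : Prime π)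
    (hθ : Aniso (Ideal.Quotient.mk (Ideal.span {π}) θ)) :
    Nontrivial (RClasses (n := 5) (fPoly (algebraMap O k π) (algebraMap O k θ))
      (gPoly (algebraMap O k π) (algebraMap O k θ))) := by
  set F := fPoly (algebraMap O k π) (algebraMap O k θ) with hF
  set G := gPoly (algebraMap O k π) (algebraMap O k θ) with hG
  have hmem : ∀ (w : Fin 6 → k) (hw : w ≠ 0),
      ff (algebraMap O k π) (algebraMap O k θ) w = 0 →
      gg (algebraMap O k π) (algebraMap O k θ) w = 0 →
      Projectivization.mk k w hw ∈ ratPoints (n := 5) F G ∧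
      inv π (Projectivization.mk k w hw).rep = inv π w := by
    intro w hw h1 h2
    obtain ⟨a, ha⟩ := Projectivization.exists_smul_eq_mk_rep k w hw
    refine ⟨⟨?_, ?_⟩, ?_⟩
    · rw [← ha, hF, eval_fPoly]
      have := ff_smul (algebraMap O k π) (algebraMap O k θ) (a : k) w
      rw [h1, mul_zero] at this
      exact this
    · rw [← ha, hG, eval_gPoly]
      have := gg_smul (algebraMap O k π) (algebraMap O k θ) (a : k) w
      rw [h2, mul_zero] at this
      exact this
    · rw [← ha]
      exact inv_smul hπ a.ne_zero w (last_ne_zero hπ hθ w hw h1 h2)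
  have hfA : ff (algebraMap O k π) (algebraMap O k θ) (ptA k) = 0 := by
    simp [ff, ptA]
  have hgA : gg (algebraMap O k π) (algebraMap O k θ) (ptA k) = 0 := by
    simp [gg, ptA]
  have hfB : ff (algebraMap O k π) (algebraMap O k θ) (ptB k) = 0 := by
    simp [ff, ptB]
  have hgB : gg (algebraMap O k π) (algebraMap O k θ) (ptB k) = 0 := by
    simp [gg, ptB]
  obtain ⟨mA, iA⟩ := hmem _ ptA_ne_zero hfA hgA
  obtain ⟨mB, iB⟩ := hmem _ ptB_ne_zero hfB hgB
  refine ⟨⟨Quot.mk _ ⟨_, mA⟩, Quot.mk _ ⟨_, mB⟩, fun h => ?_⟩⟩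
  have key : ∀ P Q : ratPoints (n := 5) F G, DirectlyLinked (n := 5) F G P Q →
      inv π P.1.rep = inv π Q.1.rep := fun P Q h => inv_directlyLinked hπ hθ h
  have h1 := congrArg (Quot.lift (fun P : ratPoints (n := 5) F G => inv π P.1.rep) key) h
  have h2 : inv π (Projectivization.mk k (ptA k) ptA_ne_zero).rep =
      inv π (Projectivization.mk k (ptB k) ptB_ne_zero).rep := h1
  rw [iA, iB, inv_ptA hπ, inv_ptB hπ] at h2
  exact one_ne_zero h2

end Pool.Agent.Lib.MP_8ab79f_ag
end

section

set_option autoImplicit false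
set_option linter.unusedSectionVars false

noncomputable section

namespace Pool.Agent.Lib.MP_8ab79f_ag.Six

open Polynomial

variable {ι : Type*} [Fintype ι] {κ : Type*} [Field κ]

theorem BPathA_hT (f h : Matrix ι ι κ) :
    hT (f.map C) (h.map C) = (hT f h).map (mapRingHom (C : κ →+* κ[X])) := by
  ext1 i j
  simp [hT, Matrix.map_apply, Matrix.sub_apply, Matrix.smul_apply]

theorem BPathA_bl (f h : Matrix ι ι κ) (x y : ι → κ[X]) :
    bl (hT (f.map C) (h.map C)) (fun i => (x i).map C) (fun i => (y i).map C) =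
      (bl (hT f h) x y).map (C : κ →+* κ[X]) := by
  rw [BPathA_hT]
  exact (bl_map (mapRingHom (C : κ →+* κ[X])) (hT f h) x y).symm

theorem BPathA_cst (O : ι → κ) :
    (cst fun i => (C (O i) : κ[X])) = fun i => ((cst O i).map (C : κ →+* κ[X])) := by
  funext i
  simp [cst]

theorem BPathA_ev (t : κ) (p : κ[X]) : (p.map (C : κ →+* κ[X])).map (evalRingHom t) = p := by
  rw [Polynomial.map_map]
  have : (evalRingHom t).comp (C : κ →+* κ[X]) = RingHom.id κ := by
    ext x
    simp
  rw [this, Polynomial.map_id]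

theorem hasPath_unit (f h : Matrix ι ι κ) (O : ι → κ) {D : κ[X]} (hD : IsUnit D)
    (a b : ι → κ[X]) : HasPath f h O D a b := by
  have h1 : IsUnit (D.map (C : κ →+* κ[X])) := hD.map (mapRingHom (C : κ →+* κ[X]))
  exact ⟨0, h1.dvd, h1.dvd, fun i => hD.dvd, fun i => hD.dvd⟩

theorem BPathA_mul_aux {f h : Matrix ι ι κ} (hf : f.IsSymm) (hh : h.IsSymm) {O : ι → κ}
    {D : κ[X]} {a b : ι → κ[X]} {x y : ι → κ[X][X]}
    (hx1 : D.map C ∣ bl (hT (f.map C) (h.map C)) x x)
    (hx2 : D.map C ∣ bl (hT (f.map C) (h.map C)) x (cst fun i => C (O i)))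
    (hx3 : ∀ i, D ∣ (x i).map (evalRingHom 0) - a i)
    (hx4 : ∀ i, D ∣ (x i).map (evalRingHom 1) - b i)
    (hxy : ∀ i, D.map C ∣ y i - x i) :
    D.map C ∣ bl (hT (f.map C) (h.map C)) y y ∧
    D.map C ∣ bl (hT (f.map C) (h.map C)) y (cst fun i => C (O i)) ∧
    (∀ i, D ∣ (y i).map (evalRingHom 0) - a i) ∧ (∀ i, D ∣ (y i).map (evalRingHom 1) - b i) := by
  have hev : ∀ (t : κ) (i : ι), D ∣ (y i).map (evalRingHom t) - (x i).map (evalRingHom t) := by
    intro t i
    obtain ⟨z, hz⟩ := hxy i
    rw [← Polynomial.map_sub, hz, Polynomial.map_mul, BPathA_ev]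
    exact dvd_mul_right _ _
  refine ⟨?_, ?_, ?_, ?_⟩
  · have h1 := bl_dvd (hT (f.map C) (h.map C)) hxy hxy
    have := dvd_add h1 hx1
    rwa [sub_add_cancel] at this
  · have h1 := bl_dvd_left (hT (f.map C) (h.map C)) hxy (cst fun i => C (O i))
    have := dvd_add h1 hx2
    rwa [sub_add_cancel] at this
  · intro i
    have := dvd_add (hev 0 i) (hx3 i)
    rwa [sub_add_sub_cancel] at this
  · intro i
    have := dvd_add (hev 1 i) (hx4 i)
    rwa [sub_add_sub_cancel] at this

theorem hasPath_mul {f h : Matrix ι ι κ} (hf : f.IsSymm) (hh : h.IsSymm) {O : ι → κ}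
    {D E : κ[X]} (hDE : IsCoprime D E) {a b : ι → κ[X]} (hD : HasPath f h O D a b)
    (hE : HasPath f h O E a b) : HasPath f h O (D * E) a b := by
  obtain ⟨x, x1, x2, x3, x4⟩ := hD
  obtain ⟨y, y1, y2, y3, y4⟩ := hE
  have hDE' : IsCoprime (D.map (C : κ →+* κ[X])) (E.map (C : κ →+* κ[X])) :=
    hDE.map (mapRingHom (C : κ →+* κ[X]))
  obtain ⟨r, s, hrs⟩ := hDE'
  set D' := D.map (C : κ →+* κ[X]) with hD'
  set E' := E.map (C : κ →+* κ[X]) with hE'
  let z : ι → κ[X][X] := fun i => s * E' * x i + r * D' * y i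
  have hzx : ∀ i, D' ∣ z i - x i := by
    intro i
    refine ⟨r * (y i - x i), ?_⟩
    simp only [z]
    linear_combination (x i) * hrs
  have hzy : ∀ i, E' ∣ z i - y i := by
    intro i
    refine ⟨s * (x i - y i), ?_⟩
    simp only [z]
    linear_combination (y i) * hrs
  obtain ⟨u1, u2, u3, u4⟩ := BPathA_mul_aux hf hh x1 x2 x3 x4 hzx
  obtain ⟨v1, v2, v3, v4⟩ := BPathA_mul_aux hf hh y1 y2 y3 y4 hzy
  have hcop : IsCoprime D' E' := ⟨r, s, hrs⟩
  refine ⟨z, ?_, ?_, ?_, ?_⟩
  · rw [Polynomial.map_mul]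
    exact hcop.mul_dvd u1 v1
  · rw [Polynomial.map_mul]
    exact hcop.mul_dvd u2 v2
  · exact fun i => hDE.mul_dvd (u3 i) (v3 i)
  · exact fun i => hDE.mul_dvd (u4 i) (v4 i)

theorem hasPath_lin {f h : Matrix ι ι κ} (hf : f.IsSymm) (hh : h.IsSymm) {O : ι → κ}
    {D : κ[X]} {a b : ι → κ[X]} (haa : D ∣ bl (hT f h) a a) (hbb : D ∣ bl (hT f h) b b)
    (hab : D ∣ bl (hT f h) a b) (haO : D ∣ bl (hT f h) a (cst O))
    (hbO : D ∣ bl (hT f h) b (cst O)) : HasPath f h O D a b := by
  have hsym : (hT (f.map (C : κ →+* κ[X])) (h.map (C : κ →+* κ[X]))).IsSymm :=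
    isSymm_hT (isSymm_map hf _) (isSymm_map hh _)
  have hmap : ∀ {p : κ[X]}, D ∣ p → D.map (C : κ →+* κ[X]) ∣ p.map (C : κ →+* κ[X]) :=
    fun {p} hp => map_dvd (mapRingHom (C : κ →+* κ[X])) hp
  set a' : ι → κ[X][X] := fun i => (a i).map C with ha'
  set b' : ι → κ[X][X] := fun i => (b i).map C with hb'
  have e1 : D.map (C : κ →+* κ[X]) ∣ bl (hT (f.map C) (h.map C)) a' a' := by
    rw [BPathA_bl]; exact hmap haa
  have e2 : D.map (C : κ →+* κ[X]) ∣ bl (hT (f.map C) (h.map C)) b' b' := by
    rw [BPathA_bl]; exact hmap hbb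
  have e3 : D.map (C : κ →+* κ[X]) ∣ bl (hT (f.map C) (h.map C)) a' b' := by
    rw [BPathA_bl]; exact hmap hab
  have e4 : D.map (C : κ →+* κ[X]) ∣ bl (hT (f.map C) (h.map C)) a' (cst fun i => C (O i)) := by
    rw [BPathA_cst, BPathA_bl]; exact hmap haO
  have e5 : D.map (C : κ →+* κ[X]) ∣ bl (hT (f.map C) (h.map C)) b' (cst fun i => C (O i)) := by
    rw [BPathA_cst, BPathA_bl]; exact hmap hbO
  let l : κ[X][X] := C X
  refine ⟨(1 - l) • a' + l • b', ?_, ?_, ?_, ?_⟩
  · rw [bl_add_left, bl_add_right, bl_add_right, bl_smul_left, bl_smul_left, bl_smul_left,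
      bl_smul_left, bl_smul_right, bl_smul_right, bl_smul_right, bl_smul_right,
      bl_comm hsym b' a']
    exact dvd_add (dvd_add (Dvd.dvd.mul_left (Dvd.dvd.mul_left e1 _) _)
      (Dvd.dvd.mul_left (Dvd.dvd.mul_left e3 _) _))
      (dvd_add (Dvd.dvd.mul_left (Dvd.dvd.mul_left e3 _) _)
      (Dvd.dvd.mul_left (Dvd.dvd.mul_left e2 _) _))
  · rw [bl_add_left, bl_smul_left, bl_smul_left]
    exact dvd_add (Dvd.dvd.mul_left e4 _) (Dvd.dvd.mul_left e5 _)
  · intro i
    have : (((1 - l) • a' + l • b') i).map (evalRingHom (0 : κ)) - a i = 0 := by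
      simp only [Pi.add_apply, Pi.smul_apply, smul_eq_mul, Polynomial.map_add, Polynomial.map_mul,
        Polynomial.map_sub, ha', hb', BPathA_ev, l]
      simp
    rw [this]
    exact dvd_zero _
  · intro i
    have : (((1 - l) • a' + l • b') i).map (evalRingHom (1 : κ)) - b i = 0 := by
      simp only [Pi.add_apply, Pi.smul_apply, smul_eq_mul, Polynomial.map_add, Polynomial.map_mul,
        Polynomial.map_sub, ha', hb', BPathA_ev, l]
      simp
    rw [this]
    exact dvd_zero _

end Pool.Agent.Lib.MP_8ab79f_ag.Six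
end
end

section

set_option autoImplicit false
set_option linter.unusedSectionVars false

noncomputable section

namespace Pool.Agent.Lib.MP_8ab79f_ag.Six

open Polynomial

variable {ι : Type*} [Fintype ι] {κ : Type*} [Field κ]

theorem hasPath_reg (h2 : (2 : κ) ≠ 0) {f h : Matrix ι ι κ} (hf : f.IsSymm) (hh : h.IsSymm)
    {O : ι → κ} {D : κ[X]} {a b v : ι → κ[X]} (haa : D ∣ bl (hT f h) a a)
    (hbb : D ∣ bl (hT f h) b b) (haO : D ∣ bl (hT f h) a (cst O))
    (hbO : D ∣ bl (hT f h) b (cst O)) (hvO : D ∣ bl (hT f h) v (cst O))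
    (h0 : IsCoprime D (bl (hT f h) a v))
    (h1 : IsCoprime D (2 * bl (hT f h) a v * bl (hT f h) b v -
      bl (hT f h) v v * bl (hT f h) a b)) : HasPath f h O D a b := by
  have hS : (hT f h).IsSymm := isSymm_hT hf hh
  have hS' : (hT (f.map (C : κ →+* κ[X])) (h.map C)).IsSymm :=
    isSymm_hT (isSymm_map hf _) (isSymm_map hh _)
  set p := bl (hT f h) a v with hp
  set q := bl (hT f h) b v with hq
  set r := bl (hT f h) v v with hr
  set s := bl (hT f h) a b with hs
  set AA := bl (hT f h) a a with hAA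
  set BB := bl (hT f h) b b with hBB
  set AO := bl (hT f h) a (cst O) with hAO
  set BO := bl (hT f h) b (cst O) with hBO
  set VO := bl (hT f h) v (cst O) with hVO
  have hcop0 : IsCoprime D (2 * p ^ 2) := by
    have hu : IsUnit (2 : κ[X]) := by
      have : (2 : κ[X]) = C 2 := (_root_.map_ofNat C 2).symm
      rw [this]
      exact isUnit_C.2 (isUnit_iff_ne_zero.2 h2)
    exact (isCoprime_mul_unit_left_right hu D (p ^ 2)).2 (h0.pow_right)
  obtain ⟨r0, I0, hI0⟩ := hcop0
  obtain ⟨r1, I1, hI1⟩ := h1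
  let φ : κ[X] → κ[X][X] := fun z => z.map (C : κ →+* κ[X])
  let a' : ι → κ[X][X] := fun i => φ (a i)
  let b' : ι → κ[X][X] := fun i => φ (b i)
  let v' : ι → κ[X][X] := fun i => φ (v i)
  have ebl : ∀ x y : ι → κ[X], bl (hT (f.map C) (h.map C)) (fun i => φ (x i))
      (fun i => φ (y i)) = φ (bl (hT f h) x y) := fun x y => BPathA_bl f h x y
  have e1 : bl (hT (f.map C) (h.map C)) a' v' = φ p := ebl a v
  have e2 : bl (hT (f.map C) (h.map C)) b' v' = φ q := ebl b v
  have e3 : bl (hT (f.map C) (h.map C)) v' v' = φ r := ebl v v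
  have e4 : bl (hT (f.map C) (h.map C)) a' b' = φ s := ebl a b
  have e5 : bl (hT (f.map C) (h.map C)) a' a' = φ AA := ebl a a
  have e6 : bl (hT (f.map C) (h.map C)) b' b' = φ BB := ebl b b
  have e1' : bl (hT (f.map C) (h.map C)) v' a' = φ p := by rw [bl_comm hS', e1]
  have e2' : bl (hT (f.map C) (h.map C)) v' b' = φ q := by rw [bl_comm hS', e2]
  have e4' : bl (hT (f.map C) (h.map C)) b' a' = φ s := by rw [bl_comm hS', e4]
  have ecst : (cst fun i => (C (O i) : κ[X])) = fun i => φ (cst O i) := BPathA_cst O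
  have o1 : bl (hT (f.map C) (h.map C)) a' (cst fun i => C (O i)) = φ AO := by
    rw [ecst]
    exact ebl a (cst O)
  have o2 : bl (hT (f.map C) (h.map C)) b' (cst fun i => C (O i)) = φ BO := by
    rw [ecst]
    exact ebl b (cst O)
  have o3 : bl (hT (f.map C) (h.map C)) v' (cst fun i => C (O i)) = φ VO := by
    rw [ecst]
    exact ebl v (cst O)
  let L : κ[X][X] := C X
  let Cl : κ[X][X] := (1 - L) * (2 * φ p ^ 2) + L * (2 * φ p * φ q - φ r * φ s)
  let σ : κ[X][X] := (1 - L) * φ I0 + L * φ I1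
  let x : ι → κ[X][X] := σ • (Cl • ((1 - L) • a' + L • b') -
    (L * (1 - L) * φ s) • ((2 * φ p) • v' - φ r • a'))
  have dv : ∀ {z : κ[X]}, D ∣ z → D.map (C : κ →+* κ[X]) ∣ φ z := by
    rintro z ⟨k, rfl⟩
    exact ⟨φ k, Polynomial.map_mul _⟩
  refine ⟨x, ?_, ?_, ?_, ?_⟩
  · have key : bl (hT (f.map C) (h.map C)) x x =
        (σ ^ 2 * (Cl ^ 2 * (1 - L) ^ 2 + 2 * Cl * L * (1 - L) * φ s * (1 - L) * φ r +
          (L * (1 - L) * φ s) ^ 2 * φ r ^ 2)) * φ AA + (σ ^ 2 * Cl ^ 2 * L ^ 2) * φ BB := by
      simp only [x, bl_smul_left, bl_smul_right, bl_sub_left, bl_sub_right, bl_add_left,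
        bl_add_right, e1, e2, e3, e4, e5, e6, e1', e2', e4']
      simp only [Cl]
      ring
    rw [key]
    exact dvd_add (Dvd.dvd.mul_left (dv haa) _) (Dvd.dvd.mul_left (dv hbb) _)
  · have key : bl (hT (f.map C) (h.map C)) x (cst fun i => C (O i)) =
        (σ * (Cl * (1 - L) + L * (1 - L) * φ s * φ r)) * φ AO + (σ * Cl * L) * φ BO +
          (-σ * (L * (1 - L) * φ s) * (2 * φ p)) * φ VO := by
      simp only [x, bl_smul_left, bl_sub_left, bl_add_left, o1, o2, o3]
      ring
    rw [key]
    exact dvd_add (dvd_add (Dvd.dvd.mul_left (dv haO) _) (Dvd.dvd.mul_left (dv hbO) _))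
      (Dvd.dvd.mul_left (dv hvO) _)
  · intro i
    have hL : L.map (evalRingHom (0 : κ)) = 0 := by simp [L]
    have hm : ∀ z : κ[X], (φ z).map (evalRingHom (0 : κ)) = z := fun z => BPathA_ev 0 z
    have : (x i).map (evalRingHom (0 : κ)) = I0 * (2 * p ^ 2) * a i := by
      simp only [x, σ, Cl, a', b', v', Pi.smul_apply, Pi.sub_apply, Pi.add_apply, smul_eq_mul,
        Polynomial.map_mul, Polynomial.map_sub, Polynomial.map_add, Polynomial.map_pow,
        Polynomial.map_one, Polynomial.map_ofNat, hL, hm]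
      ring
    rw [this]
    exact ⟨-r0 * a i, by linear_combination (a i) * hI0⟩
  · intro i
    have hL : L.map (evalRingHom (1 : κ)) = 1 := by simp [L]
    have hm : ∀ z : κ[X], (φ z).map (evalRingHom (1 : κ)) = z := fun z => BPathA_ev 1 z
    have : (x i).map (evalRingHom (1 : κ)) = I1 * (2 * p * q - r * s) * b i := by
      simp only [x, σ, Cl, a', b', v', Pi.smul_apply, Pi.sub_apply, Pi.add_apply, smul_eq_mul,
        Polynomial.map_mul, Polynomial.map_sub, Polynomial.map_add, Polynomial.map_pow,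
        Polynomial.map_one, Polynomial.map_ofNat, hL, hm]
      ring
    rw [this]
    exact ⟨-r1 * b i, by linear_combination (b i) * hI1⟩

end Pool.Agent.Lib.MP_8ab79f_ag.Six
end
end

section

set_option autoImplicit false
set_option linter.unusedSectionVars false

noncomputable section

namespace Pool.Agent.Lib.MP_8ab79f_ag.Six

open Polynomial

variable {ι : Type*} [Fintype ι] {κ : Type*} [Field κ]

theorem hasPath_all (h2 : (2 : κ) ≠ 0) {f h : Matrix ι ι κ} (hf : f.IsSymm) (hh : h.IsSymm)
    {O : ι → κ} {G : κ[X]} (hG : G ≠ 0) {a b : ι → κ[X]} (haa : G ∣ bl (hT f h) a a)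
    (hbb : G ∣ bl (hT f h) b b) (haO : G ∣ bl (hT f h) a (cst O))
    (hbO : G ∣ bl (hT f h) b (cst O))
    (hloc : ∀ q : κ[X], Irreducible q → q ∣ G →
      (∃ v : ι → κ[X], bl (hT f h) v (cst O) = 0 ∧ ¬ q ∣ bl (hT f h) a v ∧
        ¬ q ∣ 2 * bl (hT f h) a v * bl (hT f h) b v - bl (hT f h) v v * bl (hT f h) a b) ∨
      (¬ q ^ 2 ∣ G ∧ q ∣ bl (hT f h) a b)) : HasPath f h O G a b := by
  suffices key : ∀ D : κ[X], D ∣ G → HasPath f h O D a b from key G dvd_rfl
  intro D
  induction D using UniqueFactorizationMonoid.induction_on_coprime with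
  | h0 =>
    intro hD
    exact absurd (zero_dvd_iff.1 hD) hG
  | h1 hu =>
    intro _
    exact hasPath_unit f h O hu a b
  | @hpr q i hq =>
    intro hD
    have hqi : Irreducible q := hq.irreducible
    rcases Nat.eq_zero_or_pos i with rfl | hi
    · exact hasPath_unit f h O (by rw [pow_zero]; exact isUnit_one) a b
    · have hqG : q ∣ G := (dvd_pow_self q hi.ne').trans hD
      rcases hloc q hqi hqG with ⟨v, hv, h3, h4⟩ | ⟨h3, h4⟩
      · refine hasPath_reg h2 hf hh (hD.trans haa) (hD.trans hbb) (hD.trans haO)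
          (hD.trans hbO) (by rw [hv]; exact dvd_zero _) ?_ ?_
        · exact ((Irreducible.coprime_iff_not_dvd hqi).2 h3).pow_left
        · exact ((Irreducible.coprime_iff_not_dvd hqi).2 h4).pow_left
      · have hi1 : i = 1 := by
          by_contra hne
          exact h3 ((pow_dvd_pow q (by omega)).trans hD)
        subst hi1
        rw [pow_one] at hD ⊢
        exact hasPath_lin hf hh (hD.trans haa) (hD.trans hbb) h4 (hD.trans haO) (hD.trans hbO)
  | @hcp x y hxy hx hy =>
    intro hD
    exact hasPath_mul hf hh hxy.isCoprime (hx ((dvd_mul_right x y).trans hD))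
      (hy ((dvd_mul_left y x).trans hD))

end Pool.Agent.Lib.MP_8ab79f_ag.Six
end
end
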