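import Pool.Agent.Lib.MP_8ab79f_ag.Mg.G001
import Pool.Agent.Lib.MP_8ab79f_ag.Mg.G003

section

/-!
# Smoothness of the intersection of the two quadrics
-/

set_option autoImplicit false
set_option linter.unusedSectionVars false

namespace Pool.Agent.Lib.MP_8ab79f_ag

/-- The computation with the Jacobian matrix, with `s = 1`. -/
theorem jacobian_one {L : Type*} [Field L] {π θ : L} (h2 : (2 : L) ≠ 0) (hπ : π ≠ 0)
    (hD : 1 - 4 * θ ≠ 0) (e1 : 16 * π ^ 2 ≠ (1 - 4 * θ) ^ 2)
    (e2 : ((1 - 4 * θ) - 4 * π) ^ 2 ≠ -(4 * π * (1 - 4 * θ) ^ 2))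
    (e3 : (4 * π - (1 - 4 * θ)) ^ 2 ≠ -(64 * π ^ 3))
    {a b c d z w t : L} (ht : t ≠ 0)
    (g0 : t * (2 * a + b) = 0) (g1 : -(2 * π * b) + t * (a + 2 * θ * b) = 0)
    (g2 : π * (2 * c + d) = 0) (g3 : π * (c + 2 * θ * d) - t * (2 * π ^ 2 * d) = 0)
    (g4 : 2 * z + w + t * w = 0) (g5 : z - 2 * π * w + t * z = 0)
    (hf : z ^ 2 + z * w + π * (c ^ 2 + c * d + θ * d ^ 2 - b ^ 2 - w ^ 2) = 0)
    (hg : a ^ 2 + a * b + θ * b ^ 2 + z * w - π ^ 2 * d ^ 2 = 0) :
    a = 0 ∧ b = 0 ∧ c = 0 ∧ d = 0 ∧ z = 0 ∧ w = 0 := by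
  have hb : b = -(2 * a) := by
    have := (mul_eq_zero.1 g0).resolve_left ht
    linear_combination this
  have hd : d = -(2 * c) := by
    have := (mul_eq_zero.1 g2).resolve_left hπ
    linear_combination this
  subst hb
  subst hd
  have ha' : a * (4 * π + t * (1 - 4 * θ)) = 0 := by linear_combination g1
  have hc' : c * ((1 - 4 * θ) + 4 * π * t) = 0 := by
    have : π * (c * ((1 - 4 * θ) + 4 * π * t)) = 0 := by linear_combination g3
    exact (mul_eq_zero.1 this).resolve_left hπ
  have hw' : w * ((1 + t) ^ 2 + 4 * π) = 0 := by linear_combination (1 + t) * g4 - 2 * g5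
  have h4π : (4 * π : L) ≠ 0 := by
    have : (4 : L) = 2 * 2 := by norm_num
    rw [this]
    exact mul_ne_zero (mul_ne_zero h2 h2) hπ
  by_cases ha : a = 0
  · subst ha
    by_cases hc : c = 0
    · subst hc
      by_cases hw : w = 0
      · subst hw
        have hz : z = 0 := by
          have : 2 * z = 0 := by linear_combination g4
          exact (mul_eq_zero.1 this).resolve_left h2
        refine ⟨rfl, ?_, rfl, ?_, hz, rfl⟩ <;> ring
      · exfalso
        have hz : z = 0 := by
          have : z * w = 0 := by linear_combination hg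
          exact (mul_eq_zero.1 this).resolve_right hw
        subst hz
        have : 2 * π * w = 0 := by linear_combination -g5
        exact mul_ne_zero (mul_ne_zero h2 hπ) hw this
    · exfalso
      have hc1 := (mul_eq_zero.1 hc').resolve_left hc
      by_cases hw : w = 0
      · subst hw
        have hz : z = 0 := by
          have : 2 * z = 0 := by linear_combination g4
          exact (mul_eq_zero.1 this).resolve_left h2
        subst hz
        have : π * c ^ 2 * (1 - 4 * θ) = 0 := by linear_combination -hf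
        exact mul_ne_zero (mul_ne_zero hπ (pow_ne_zero _ hc)) hD this
      · have hw1 := (mul_eq_zero.1 hw').resolve_left hw
        apply e3
        linear_combination (16 * π ^ 2) * hw1 -
          (4 * π * t + 8 * π - (1 - 4 * θ)) * hc1
  · exfalso
    have ha1 := (mul_eq_zero.1 ha').resolve_left ha
    by_cases hc : c = 0
    · subst hc
      by_cases hw : w = 0
      · subst hw
        have hz : z = 0 := by
          have : 2 * z = 0 := by linear_combination g4
          exact (mul_eq_zero.1 this).resolve_left h2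
        subst hz
        have : a ^ 2 * (1 - 4 * θ) = 0 := by linear_combination -hg
        exact mul_ne_zero (pow_ne_zero _ ha) hD this
      · have hw1 := (mul_eq_zero.1 hw').resolve_left hw
        apply e2
        linear_combination ((1 - 4 * θ) ^ 2) * hw1 -
          (t * (1 - 4 * θ) + 2 * (1 - 4 * θ) - 4 * π) * ha1
    · have hc1 := (mul_eq_zero.1 hc').resolve_left hc
      apply e1
      linear_combination (4 * π) * ha1 - (1 - 4 * θ) * hc1

/-- The computation with the Jacobian matrix. -/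
theorem jacobian {L : Type*} [Field L] {π θ : L} (h2 : (2 : L) ≠ 0) (hπ : π ≠ 0)
    (hD : 1 - 4 * θ ≠ 0) (h4 : 1 + 4 * π ≠ 0) (e1 : 16 * π ^ 2 ≠ (1 - 4 * θ) ^ 2)
    (e2 : ((1 - 4 * θ) - 4 * π) ^ 2 ≠ -(4 * π * (1 - 4 * θ) ^ 2))
    (e3 : (4 * π - (1 - 4 * θ)) ^ 2 ≠ -(64 * π ^ 3))
    {a b c d z w s t : L} (hst : ¬ (s = 0 ∧ t = 0))
    (g0 : t * (2 * a + b) = 0) (g1 : -(s * (2 * π * b)) + t * (a + 2 * θ * b) = 0)
    (g2 : s * (π * (2 * c + d)) = 0) (g3 : s * (π * (c + 2 * θ * d)) - t * (2 * π ^ 2 * d) = 0)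
    (g4 : s * (2 * z + w) + t * w = 0) (g5 : s * (z - 2 * π * w) + t * z = 0)
    (hf : z ^ 2 + z * w + π * (c ^ 2 + c * d + θ * d ^ 2 - b ^ 2 - w ^ 2) = 0)
    (hg : a ^ 2 + a * b + θ * b ^ 2 + z * w - π ^ 2 * d ^ 2 = 0) :
    a = 0 ∧ b = 0 ∧ c = 0 ∧ d = 0 ∧ z = 0 ∧ w = 0 := by
  by_cases hs : s = 0
  · subst hs
    have ht : t ≠ 0 := fun h => hst ⟨rfl, h⟩
    have hb : b = -(2 * a) := by
      have := (mul_eq_zero.1 g0).resolve_left ht
      linear_combination this
    subst hb
    have ha : a = 0 := by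
      have : t * a * (1 - 4 * θ) = 0 := by linear_combination g1
      exact (mul_eq_zero.1 ((mul_eq_zero.1 this).resolve_right hD)).resolve_left ht
    subst ha
    have hd : d = 0 := by
      have : t * (2 * π ^ 2) * d = 0 := by linear_combination -g3
      exact (mul_eq_zero.1 this).resolve_left
        (mul_ne_zero ht (mul_ne_zero h2 (pow_ne_zero _ hπ)))
    have hw : w = 0 := by
      have : t * w = 0 := by linear_combination g4
      exact (mul_eq_zero.1 this).resolve_left ht
    have hz : z = 0 := by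
      have : t * z = 0 := by linear_combination g5
      exact (mul_eq_zero.1 this).resolve_left ht
    subst hd
    subst hw
    subst hz
    have hc : c = 0 := by
      have : π * c ^ 2 = 0 := by linear_combination hf
      exact pow_eq_zero_iff two_ne_zero |>.1 ((mul_eq_zero.1 this).resolve_left hπ)
    subst hc
    exact ⟨rfl, by ring, rfl, rfl, rfl, rfl⟩
  by_cases ht : t = 0
  · subst ht
    have hb : b = 0 := by
      have : s * (2 * π) * b = 0 := by linear_combination -g1
      exact (mul_eq_zero.1 this).resolve_left (mul_ne_zero hs (mul_ne_zero h2 hπ))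
    subst hb
    have hd : d = -(2 * c) := by
      have := (mul_eq_zero.1 ((mul_eq_zero.1 g2).resolve_left hs)).resolve_left hπ
      linear_combination this
    subst hd
    have hc : c = 0 := by
      have : s * π * (1 - 4 * θ) * c = 0 := by linear_combination g3
      exact (mul_eq_zero.1 this).resolve_left (mul_ne_zero (mul_ne_zero hs hπ) hD)
    subst hc
    have hw : w = -(2 * z) := by
      have : s * (2 * z + w) = 0 := by linear_combination g4
      have := (mul_eq_zero.1 this).resolve_left hs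
      linear_combination this
    subst hw
    have hz : z = 0 := by
      have : s * (1 + 4 * π) * z = 0 := by linear_combination g5
      exact (mul_eq_zero.1 this).resolve_left (mul_ne_zero hs h4)
    subst hz
    have ha : a = 0 := by
      have : a ^ 2 = 0 := by linear_combination hg
      exact pow_eq_zero_iff two_ne_zero |>.1 this
    subst ha
    refine ⟨rfl, rfl, rfl, ?_, rfl, ?_⟩ <;> ring
  · -- divide by `s`
    have hcancel : ∀ x : L, s * x = 0 → x = 0 := fun x hx => (mul_eq_zero.1 hx).resolve_left hs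
    have hst' : s * (t / s) = t := mul_div_cancel₀ t hs
    refine jacobian_one h2 hπ hD e1 e2 e3 (t := t / s) (div_ne_zero ht hs) ?_ ?_ ?_ ?_ ?_ ?_ hf hg
    · apply hcancel
      linear_combination g0 + (2 * a + b) * hst'
    · apply hcancel
      linear_combination g1 + (a + 2 * θ * b) * hst'
    · apply hcancel
      linear_combination g2
    · apply hcancel
      linear_combination g3 - (2 * π ^ 2 * d) * hst'
    · apply hcancel
      linear_combination g4 + w * hst'
    · apply hcancel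
      linear_combination g5 + z * hst'

variable {O : Type*} [CommRing O] [IsDomain O] [IsNoetherianRing O] {π θ : O}
variable {k : Type*} [Field k] [Algebra O k] [IsFractionRing O k]

open MvPolynomial in
/-- Smoothness. -/
theorem smooth (h2 : (2 : O) ≠ 0) (hπ : Prime π)
    (hθ : Aniso (Ideal.Quotient.mk (Ideal.span {π}) θ)) :
    SmoothTwoQuadrics (n := 5) (fPoly (algebraMap O k π) (algebraMap O k θ))
      (gPoly (algebraMap O k π) (algebraMap O k θ)) := by
  have hdom := isDomain_quot hπ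
  have hD : ¬ π ∣ 1 - 4 * θ := by
    intro h
    rw [← Ideal.mem_span_singleton, ← Ideal.Quotient.eq_zero_iff_mem] at h
    rw [map_sub, map_one, map_mul, map_ofNat] at h
    have := (hθ 1 (-2) (by linear_combination -h)).1
    exact one_ne_zero this
  have hD2 : ∀ x y : O, π * x = (1 - 4 * θ + π * y) ^ 2 → False := by
    intro x y hxy
    have h1 : π ∣ 1 - 4 * θ + π * y := hπ.dvd_of_dvd_pow (Dvd.intro _ hxy)
    exact hD ((dvd_add_left (Dvd.intro _ rfl)).1 h1)
  have hinj : Function.Injective ((algebraMap k (AlgebraicClosure k)).comp (algebraMap O k)) := by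
    rw [RingHom.coe_comp]
    exact (algebraMap k (AlgebraicClosure k)).injective.comp (IsFractionRing.injective O k)
  set ι := (algebraMap k (AlgebraicClosure k)).comp (algebraMap O k) with hι
  have hιa : ∀ a : O, algebraMap k (AlgebraicClosure k) (algebraMap O k a) = ι a := fun a => rfl
  have hne : ∀ a : O, a ≠ 0 → ι a ≠ 0 := by
    intro a ha h
    exact ha (hinj (by rw [h, map_zero]))
  have c2 : (2 : AlgebraicClosure k) ≠ 0 := by
    have := hne 2 h2
    rwa [map_ofNat] at this
  have cπ := hne π hπ.ne_zero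
  have cD : (1 - 4 * ι θ : AlgebraicClosure k) ≠ 0 := by
    have := hne (1 - 4 * θ) (fun h => hD (h ▸ dvd_zero _))
    rwa [map_sub, map_one, map_mul, map_ofNat] at this
  have c4 : (1 + 4 * ι π : AlgebraicClosure k) ≠ 0 := by
    have := hne (1 + 4 * π) (fun h => hπ.not_isUnit (isUnit_of_dvd_one
      ⟨-4, by linear_combination h⟩))
    rwa [map_add, map_one, map_mul, map_ofNat] at this
  have d1 : 16 * (ι π) ^ 2 ≠ (1 - 4 * ι θ) ^ 2 := by
    intro h
    have : ι (16 * π ^ 2) = ι ((1 - 4 * θ) ^ 2) := by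
      simp only [map_mul, map_pow, map_sub, map_one, map_ofNat]
      exact h
    have := hinj this
    exact hD2 (16 * π) 0 (by linear_combination this)
  have d2 : ((1 - 4 * ι θ) - 4 * ι π) ^ 2 ≠ -(4 * ι π * (1 - 4 * ι θ) ^ 2) := by
    intro h
    have : ι (((1 - 4 * θ) - 4 * π) ^ 2) = ι (-(4 * π * (1 - 4 * θ) ^ 2)) := by
      simp only [map_mul, map_pow, map_sub, map_one, map_ofNat, map_neg]
      exact h
    have := hinj this
    exact hD2 (-(4 * (1 - 4 * θ) ^ 2)) (-4) (by linear_combination -this)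
  have d3 : (4 * ι π - (1 - 4 * ι θ)) ^ 2 ≠ -(64 * ι π ^ 3) := by
    intro h
    have : ι ((4 * π - (1 - 4 * θ)) ^ 2) = ι (-(64 * π ^ 3)) := by
      simp only [map_mul, map_pow, map_sub, map_one, map_ofNat, map_neg]
      exact h
    have := hinj this
    exact hD2 (-(64 * π ^ 2)) (-4) (by linear_combination -this)
  refine ⟨?_, ?_, ?_⟩
  · have hX : ∀ i j : Fin 6, (X i * X j : MvPolynomial (Fin 6) k).IsHomogeneous 2 := fun i j =>
      (isHomogeneous_X k i).mul (isHomogeneous_X k j)
    have hC : ∀ (c : k) (q : MvPolynomial (Fin 6) k), q.IsHomogeneous 2 →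
        (C c * q).IsHomogeneous 2 := fun c q hq => by
      have := (isHomogeneous_C (Fin 6) c).mul hq
      rwa [zero_add] at this
    unfold fPoly ff
    simp only [sq]
    exact ((hX 4 4).add (hX 4 5)).add (hC _ _ (((((hX 2 2).add (hX 2 3)).add
      (hC _ _ (hX 3 3))).sub (hX 1 1)).sub (hX 5 5)))
  · have hX : ∀ i j : Fin 6, (X i * X j : MvPolynomial (Fin 6) k).IsHomogeneous 2 := fun i j =>
      (isHomogeneous_X k i).mul (isHomogeneous_X k j)
    have hC : ∀ (c : k) (q : MvPolynomial (Fin 6) k), q.IsHomogeneous 2 →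
        (C c * q).IsHomogeneous 2 := fun c q hq => by
      have := (isHomogeneous_C (Fin 6) c).mul hq
      rwa [zero_add] at this
    unfold gPoly gg
    simp only [sq, ← map_mul]
    exact ((((hX 0 0).add (hX 0 1)).add (hC _ _ (hX 1 1))).add (hX 4 5)).sub (hC _ _ (hX 3 3))
  · intro v hv hf hg
    rw [aeval_fPoly] at hf
    rw [aeval_gPoly] at hg
    rw [LinearIndependent.pair_iff]
    intro s t hst
    by_contra hcon
    have g0 := congrFun hst 0
    have g1 := congrFun hst 1
    have g2 := congrFun hst 2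
    have g3 := congrFun hst 3
    have g4 := congrFun hst 4
    have g5 := congrFun hst 5
    simp [fPoly, gPoly, ff, gg, pderiv_X, Pi.single_apply] at g0 g1 g2 g3 g4 g5
    simp only [hιa] at g1 g3 g5 hf hg
    have g0' : t * (2 * v 0 + v 1) = 0 := by
      rcases g0 with h | h
      · rw [h, zero_mul]
      · rw [h, mul_zero]
    have g2' : s * (ι π * (2 * v 2 + v 3)) = 0 := by
      rcases g2 with h | h | h
      · rw [h, zero_mul]
      · exact absurd h hπ.ne_zero
      · rw [h, mul_zero, mul_zero]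
    obtain ⟨h0, h1, h2', h3, h4, h5⟩ := jacobian c2 cπ cD c4 d1 d2 d3 hcon g0'
      (by linear_combination g1) g2' (by linear_combination g3) g4 (by linear_combination g5)
      hf hg
    apply hv
    funext i
    fin_cases i
    · exact h0
    · exact h1
    · exact h2'
    · exact h3
    · exact h4
    · exact h5

end Pool.Agent.Lib.MP_8ab79f_ag
end

section

set_option autoImplicit false
set_option linter.unusedSectionVars false

noncomputable section

namespace Pool.Agent.Lib.MP_8ab79f_ag.Six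

open Polynomial

/-- The linear form `x ↦ bl A x O`. -/
def GInf_lin {κ : Type*} [Field κ] (A : Matrix (Fin 7) (Fin 7) κ) (O : Fin 7 → κ) :
    (Fin 7 → κ) →ₗ[κ] κ where
  toFun x := bl A x O
  map_add' x y := bl_add_left A x y O
  map_smul' c x := by rw [bl_smul_left]; rfl

theorem GInf_eq_zero_of_mulVec {κ : Type*} [Field κ] {A : Matrix (Fin 7) (Fin 7) κ}
    (hd : A.det ≠ 0) {v : Fin 7 → κ} (hv : A.mulVec v = 0) : v = 0 := by
  by_contra hne
  exact hd (Matrix.exists_mulVec_eq_zero_iff.mp ⟨v, hne, hv⟩)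

theorem GInf_polyLines_val {κ : Type*} [Field κ] (p : Submodule κ (Fin 7 → κ)) (i : Fin 7) :
    PolyLines (fun v : p => (v : Fin 7 → κ) i) :=
  PolyLines.linear ((LinearMap.proj i).comp p.subtype)

/-- A vector which is not a multiple of `O` pairs nontrivially with the orthogonal of `O`. -/
theorem GInf_exists_pair {κ : Type*} [Field κ] {A : Matrix (Fin 7) (Fin 7) κ} (hA : A.IsSymm)
    (hd : A.det ≠ 0) {O γ : Fin 7 → κ} (hγ : ∀ c : κ, γ ≠ c • O) :
    ∃ w, bl A w O = 0 ∧ bl A γ w ≠ 0 := by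
  by_contra hcon
  push Not at hcon
  obtain ⟨c, hc⟩ := exists_mulVec_eq_zero hA hcon
  exact hγ c (sub_eq_zero.mp (GInf_eq_zero_of_mulVec hd hc))

theorem GInf_rk {κ : Type*} [Field κ] {A : Matrix (Fin 7) (Fin 7) κ}
    (hd : A.det ≠ 0) (v w : Fin 7 → κ) (hv : A.mulVec v = 0) (_hw : A.mulVec w = 0) :
    ∃ s t : κ, (s ≠ 0 ∨ t ≠ 0) ∧ s • v + t • w = 0 :=
  ⟨1, 0, Or.inl one_ne_zero, by rw [GInf_eq_zero_of_mulVec hd hv]; simp⟩

theorem GInf_exists_aniso {κ : Type*} [Field κ] (h2 : (2 : κ) ≠ 0)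
    {A : Matrix (Fin 7) (Fin 7) κ} (hA : A.IsSymm)
    (hd : A.det ≠ 0) (O : Fin 7 → κ) : ∃ w, bl A w O = 0 ∧ bl A w w ≠ 0 := by
  obtain ⟨v, hv1, -, hv3⟩ := exists_anisotropic h2 hA (GInf_rk hd) (GInf_lin A O) 0
  exact ⟨v, hv1, hv3⟩

/-- The leading vector of the reflection vector. -/
theorem inf_w {κ : Type*} [Field κ] [CharZero κ] {f : Matrix (Fin 7) (Fin 7) κ}
    (hf : f.IsSymm) (hdf : f.det ≠ 0) {O α β : Fin 7 → κ} (hfO : bl f O O = 0)
    (hO : O ≠ 0) (hα : bl f α O = 0) (hβ : bl f β O = 0)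
    (hne : ¬ ((∃ c : κ, α = c • O) ∧ ∃ c : κ, β = c • O)) :
    ∃ (b : Fin 7 → κ) (s : κ), (s = 1 ∨ s = -1) ∧ bl f b O = 0 ∧ bl f b b ≠ 0 ∧
      s * bl f α b - bl f β b ≠ 0 := by
  have h2 : (2 : κ) ≠ 0 := two_ne_zero
  -- choice of the sign
  obtain ⟨s, hs, hγ⟩ : ∃ s : κ, (s = 1 ∨ s = -1) ∧ ∀ c : κ, s • α - β ≠ c • O := by
    by_contra hcon
    push Not at hcon
    obtain ⟨c1, hc1⟩ := hcon 1 (Or.inl rfl)
    obtain ⟨c2, hc2⟩ := hcon (-1) (Or.inr rfl)
    apply hne
    constructor
    · refine ⟨(c1 - c2) / 2, ?_⟩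
      funext i
      have e1 := congrFun hc1 i
      have e2 := congrFun hc2 i
      simp only [Pi.sub_apply, Pi.smul_apply, smul_eq_mul] at e1 e2 ⊢
      field_simp
      linear_combination e1 - e2
    · refine ⟨-(c1 + c2) / 2, ?_⟩
      funext i
      have e1 := congrFun hc1 i
      have e2 := congrFun hc2 i
      simp only [Pi.sub_apply, Pi.smul_apply, smul_eq_mul] at e1 e2 ⊢
      field_simp
      linear_combination -e1 - e2
  obtain ⟨w0, hw0, hw0'⟩ := GInf_exists_pair hf hdf hγ
  obtain ⟨w1, hw1, hw1'⟩ := GInf_exists_aniso h2 hf hdf O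
  set p := LinearMap.ker (GInf_lin f O) with hp
  have hval := GInf_polyLines_val (κ := κ) p
  obtain ⟨b, hb⟩ := exists_forall_ne_zero (κ := κ) (V := p) (ι := Bool)
    (fun j v => cond j (bl f (s • α - β) (v : Fin 7 → κ)) (bl f (v : Fin 7 → κ) v))
    (by
      rintro (_ | _)
      · exact PolyLines.bl f hval hval
      · exact PolyLines.bl f (fun i => PolyLines.const _) hval)
    (by
      rintro (_ | _)
      · exact ⟨⟨w1, hw1⟩, hw1'⟩
      · exact ⟨⟨w0, hw0⟩, hw0'⟩)
  refine ⟨b, s, hs, b.2, hb false, ?_⟩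
  have := hb true
  simp only [cond_true, bl_sub_left, bl_smul_left] at this
  exact this

end Pool.Agent.Lib.MP_8ab79f_ag.Six
end
end

section

set_option autoImplicit false
set_option linter.unusedSectionVars false

noncomputable section

namespace Pool.Agent.Lib.MP_8ab79f_ag.Six

open Polynomial

/-- The member `h - τ f` of the pencil over the algebraic closure. -/
def mem {κ : Type*} [Field κ] (f h : Matrix (Fin 7) (Fin 7) κ) (τ : AlgebraicClosure κ) :
    Matrix (Fin 7) (Fin 7) (AlgebraicClosure κ) :=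
  h.map (algebraMap κ (AlgebraicClosure κ)) - τ • f.map (algebraMap κ (AlgebraicClosure κ))

/-- The value of a polynomial vector at a point of the algebraic closure. -/
def ev {κ : Type*} [Field κ] {ι : Type*} (τ : AlgebraicClosure κ) (a : ι → κ[X]) :
    ι → AlgebraicClosure κ := fun i => aeval τ (a i)

/-- The base change of a vector to the algebraic closure. -/
def bar {κ : Type*} [Field κ] {ι : Type*} (a : ι → κ) : ι → AlgebraicClosure κ :=
  fun i => algebraMap κ (AlgebraicClosure κ) (a i)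

/-- Smoothness of the intersection `f = h = 0` in terms of symmetric matrices. -/
def Sm {κ : Type*} [Field κ] (f h : Matrix (Fin 7) (Fin 7) κ) : Prop :=
  ∀ (α β : AlgebraicClosure κ) (v : Fin 7 → AlgebraicClosure κ), v ≠ 0 → (α ≠ 0 ∨ β ≠ 0) →
    (α • f.map (algebraMap κ (AlgebraicClosure κ)) +
      β • h.map (algebraMap κ (AlgebraicClosure κ))).mulVec v = 0 →
    ¬ (bl (f.map (algebraMap κ (AlgebraicClosure κ))) v v = 0 ∧
      bl (h.map (algebraMap κ (AlgebraicClosure κ))) v v = 0)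

/-- The vector `α` is not in the radical of `h - τ f` restricted to the orthogonal of `O`. -/
def NonRad {κ : Type*} [Field κ] (f h : Matrix (Fin 7) (Fin 7) κ) (O : Fin 7 → κ)
    (τ : AlgebraicClosure κ) (α : Fin 7 → AlgebraicClosure κ) : Prop :=
  ∃ w, bl (mem f h τ) w (bar O) = 0 ∧ bl (mem f h τ) α w ≠ 0

section

variable {κ : Type*} [Field κ]

theorem aeval_bl_hT (f h : Matrix (Fin 7) (Fin 7) κ) (x y : Fin 7 → κ[X])
    (τ : AlgebraicClosure κ) :
    aeval τ (bl (hT f h) x y) = bl (mem f h τ) (ev τ x) (ev τ y) := by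
  have h1 := bl_map (aeval (R := κ) τ : κ[X] →+* AlgebraicClosure κ) (hT f h) x y
  have h2 : (hT f h).map (aeval (R := κ) τ : κ[X] →+* AlgebraicClosure κ) = mem f h τ := by
    ext i j
    simp only [hT, mem, Matrix.map_apply, Matrix.sub_apply, Matrix.smul_apply, smul_eq_mul,
      RingHom.coe_coe, map_sub, map_mul, aeval_C, aeval_X]
  rw [h2] at h1
  exact h1

theorem ev_cst (τ : AlgebraicClosure κ) (O : Fin 7 → κ) : ev τ (cst O) = bar O := by
  ext i
  simp [ev, cst, bar]

theorem isSymm_mem {f h : Matrix (Fin 7) (Fin 7) κ} (hf : f.IsSymm) (hh : h.IsSymm)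
    (τ : AlgebraicClosure κ) : (mem f h τ).IsSymm := by
  ext i j
  simp [mem, Matrix.transpose_apply, hf.apply i j, hh.apply i j]

end

end Pool.Agent.Lib.MP_8ab79f_ag.Six
end
end

section

set_option autoImplicit false
set_option linter.unusedSectionVars false

noncomputable section

namespace Pool.Agent.Lib.MP_8ab79f_ag.Six

open Polynomial

namespace GSmAAux

theorem bl_eq_dot {ι K : Type*} [Fintype ι] [CommRing K] (A : Matrix ι ι K) (x y : ι → K) :
    bl A x y = ∑ i, x i * A.mulVec y i := by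
  unfold bl
  refine Finset.sum_congr rfl fun i _ => ?_
  rw [Matrix.mulVec, dotProduct, Finset.mul_sum]
  refine Finset.sum_congr rfl fun j _ => ?_
  ring

theorem bl_eq_zero {ι K : Type*} [Fintype ι] [CommRing K] {A : Matrix ι ι K} {y : ι → K}
    (h : A.mulVec y = 0) (x : ι → K) : bl A x y = 0 := by
  rw [bl_eq_dot, h]
  simp

theorem exists_isotropic {ι K : Type*} [Fintype ι] [Field K] [IsAlgClosed K] [CharZero K]
    (A : Matrix ι ι K) (v w : ι → K) :
    ∃ s t : K, (s ≠ 0 ∨ t ≠ 0) ∧ bl A (s • v + t • w) (s • v + t • w) = 0 := by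
  have hexp : ∀ s t : K, bl A (s • v + t • w) (s • v + t • w) =
      s * s * bl A v v + s * t * (bl A v w + bl A w v) + t * t * bl A w w := by
    intro s t
    simp only [bl_add_left, bl_add_right, bl_smul_left, bl_smul_right]
    ring
  by_cases hw : bl A w w = 0
  · refine ⟨0, 1, Or.inr one_ne_zero, ?_⟩
    rw [hexp, hw]
    ring
  · obtain ⟨z, hz⟩ := IsAlgClosed.exists_eq_mul_self
      (discrim (bl A w w) (bl A v w + bl A w v) (bl A v v))
    obtain ⟨t, ht⟩ := exists_quadratic_eq_zero hw ⟨z, hz⟩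
    refine ⟨1, t, Or.inl one_ne_zero, ?_⟩
    rw [hexp]
    linear_combination ht

end GSmAAux

open GSmAAux

section

variable {κ : Type*} [Field κ] [CharZero κ]

/-- The kernel of every member of the pencil has dimension at most one. -/
theorem Sm.corank_gen {f h : Matrix (Fin 7) (Fin 7) κ} (hf : f.IsSymm)
    (hh : h.IsSymm) (hS : Sm f h) (α β : AlgebraicClosure κ) (hαβ : α ≠ 0 ∨ β ≠ 0)
    (v w : Fin 7 → AlgebraicClosure κ)
    (hv : (α • f.map (algebraMap κ (AlgebraicClosure κ)) +
      β • h.map (algebraMap κ (AlgebraicClosure κ))).mulVec v = 0)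
    (hw : (α • f.map (algebraMap κ (AlgebraicClosure κ)) +
      β • h.map (algebraMap κ (AlgebraicClosure κ))).mulVec w = 0) :
    ∃ s t : AlgebraicClosure κ, (s ≠ 0 ∨ t ≠ 0) ∧ s • v + t • w = 0 := by
  have : CharZero (AlgebraicClosure κ) :=
    charZero_of_injective_algebraMap (algebraMap κ (AlgebraicClosure κ)).injective
  by_contra hcon
  push Not at hcon
  have hn0 : ∀ s t : AlgebraicClosure κ,
      (α • f.map (algebraMap κ (AlgebraicClosure κ)) +
      β • h.map (algebraMap κ (AlgebraicClosure κ))).mulVec (s • v + t • w) = 0 := by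
    intro s t
    rw [Matrix.mulVec_add, Matrix.mulVec_smul, Matrix.mulVec_smul, hv, hw, smul_zero, smul_zero,
      add_zero]
  have hsum : ∀ s t : AlgebraicClosure κ,
      α * bl (f.map (algebraMap κ (AlgebraicClosure κ))) (s • v + t • w) (s • v + t • w) +
      β * bl (h.map (algebraMap κ (AlgebraicClosure κ))) (s • v + t • w) (s • v + t • w) = 0 := by
    intro s t
    have := bl_eq_zero (hn0 s t) (s • v + t • w)
    rw [bl_add_mat, bl_smul_mat, bl_smul_mat] at this
    exact this
  by_cases hβ : β = 0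
  · have hα : α ≠ 0 := by
      rcases hαβ with h1 | h1
      · exact h1
      · exact absurd hβ h1
    obtain ⟨s, t, hst, hq⟩ := exists_isotropic (h.map (algebraMap κ (AlgebraicClosure κ))) v w
    refine hS α β (s • v + t • w) (hcon s t hst) hαβ (hn0 s t) ⟨?_, hq⟩
    have h1 := hsum s t
    rw [hq, mul_zero, add_zero] at h1
    exact (mul_eq_zero.1 h1).resolve_left hα
  · obtain ⟨s, t, hst, hq⟩ := exists_isotropic (f.map (algebraMap κ (AlgebraicClosure κ))) v w
    refine hS α β (s • v + t • w) (hcon s t hst) hαβ (hn0 s t) ⟨hq, ?_⟩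
    have h1 := hsum s t
    rw [hq, mul_zero, zero_add] at h1
    exact (mul_eq_zero.1 h1).resolve_left hβ

theorem Sm.corank {f h : Matrix (Fin 7) (Fin 7) κ} (hf : f.IsSymm)
    (hh : h.IsSymm) (hS : Sm f h) (τ : AlgebraicClosure κ)
    (v w : Fin 7 → AlgebraicClosure κ) (hv : (mem f h τ).mulVec v = 0)
    (hw : (mem f h τ).mulVec w = 0) :
    ∃ s t : AlgebraicClosure κ, (s ≠ 0 ∨ t ≠ 0) ∧ s • v + t • w = 0 := by
  have h1 : mem f h τ = (-τ) • f.map (algebraMap κ (AlgebraicClosure κ)) +
      (1 : AlgebraicClosure κ) • h.map (algebraMap κ (AlgebraicClosure κ)) := by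
    rw [mem, one_smul, neg_smul]
    abel
  rw [h1] at hv hw
  exact hS.corank_gen hf hh (-τ) 1 (Or.inr one_ne_zero) v w hv hw

/-- The kernel of every rational member of the pencil has dimension at most one. -/
theorem Sm.corank_rat {f h : Matrix (Fin 7) (Fin 7) κ} (hf : f.IsSymm)
    (hh : h.IsSymm) (hS : Sm f h) (α β : κ) (hαβ : α ≠ 0 ∨ β ≠ 0)
    (v w : Fin 7 → κ) (hv : (α • f + β • h).mulVec v = 0)
    (hw : (α • f + β • h).mulVec w = 0) :
    ∃ s t : κ, (s ≠ 0 ∨ t ≠ 0) ∧ s • v + t • w = 0 := by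
  set φ := algebraMap κ (AlgebraicClosure κ) with hφ
  have hφi : Function.Injective φ := φ.injective
  have hmap : ∀ u : Fin 7 → κ, (α • f + β • h).mulVec u = 0 →
      (φ α • f.map φ + φ β • h.map φ).mulVec (bar u) = 0 := by
    intro u hu
    funext i
    have h1 := congrArg φ (congrFun hu i)
    rw [Pi.zero_apply, map_zero, Matrix.mulVec, dotProduct, map_sum] at h1
    rw [Pi.zero_apply, Matrix.mulVec, dotProduct, ← h1]
    refine Finset.sum_congr rfl fun j _ => ?_
    simp only [Matrix.add_apply, Matrix.smul_apply, Matrix.map_apply, smul_eq_mul, bar, map_mul,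
      map_add]
    rfl
  have hαβ' : φ α ≠ 0 ∨ φ β ≠ 0 := by
    rcases hαβ with h1 | h1
    · exact Or.inl ((map_ne_zero φ).2 h1)
    · exact Or.inr ((map_ne_zero φ).2 h1)
  obtain ⟨s, t, hst, hsum⟩ := hS.corank_gen hf hh (φ α) (φ β) hαβ' (bar v) (bar w) (hmap v hv)
    (hmap w hw)
  by_cases hv0 : v = 0
  · refine ⟨1, 0, Or.inl one_ne_zero, ?_⟩
    rw [hv0]
    simp
  · obtain ⟨i, hi⟩ := Function.ne_iff.1 hv0
    rw [Pi.zero_apply] at hi
    have hi' : φ (v i) ≠ 0 := (map_ne_zero φ).2 hi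
    have hcomp : ∀ j, s * φ (v j) + t * φ (w j) = 0 := fun j => congrFun hsum j
    have ht : t ≠ 0 := by
      intro ht0
      have h1 := hcomp i
      rw [ht0, zero_mul, add_zero] at h1
      rcases mul_eq_zero.1 h1 with h2 | h2
      · rcases hst with h3 | h3
        · exact h3 h2
        · exact h3 ht0
      · exact hi' h2
    refine ⟨-w i, v i, Or.inr hi, ?_⟩
    funext j
    apply hφi
    simp only [Pi.add_apply, Pi.smul_apply, smul_eq_mul, Pi.zero_apply, map_add, map_mul, map_neg,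
      map_zero]
    have h1 : t * (-φ (w i) * φ (v j) + φ (v i) * φ (w j)) = 0 := by
      linear_combination φ (v i) * hcomp j - φ (v j) * hcomp i
    exact (mul_eq_zero.1 h1).resolve_left ht

end

end Pool.Agent.Lib.MP_8ab79f_ag.Six
end
end

section

set_option autoImplicit false
set_option linter.unusedSectionVars false

noncomputable section

namespace Pool.Agent.Lib.MP_8ab79f_ag.Six

open Polynomial

/-- The linear form `x ↦ bl A x O`. -/
def GW_lin {κ : Type*} [Field κ] (A : Matrix (Fin 7) (Fin 7) κ) (O : Fin 7 → κ) :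
    (Fin 7 → κ) →ₗ[κ] κ where
  toFun x := bl A x O
  map_add' x y := bl_add_left A x y O
  map_smul' c x := by rw [bl_smul_left]; rfl

theorem GW_eq_zero_of_mulVec {κ : Type*} [Field κ] {A : Matrix (Fin 7) (Fin 7) κ}
    (hd : A.det ≠ 0) {v : Fin 7 → κ} (hv : A.mulVec v = 0) : v = 0 := by
  by_contra hne
  exact hd (Matrix.exists_mulVec_eq_zero_iff.mp ⟨v, hne, hv⟩)

theorem GW_polyLines_val {κ : Type*} [Field κ] (p : Submodule κ (Fin 7 → κ)) (i : Fin 7) :
    PolyLines (fun v : p => (v : Fin 7 → κ) i) :=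
  PolyLines.linear ((LinearMap.proj i).comp p.subtype)

/-- A vector which is not a multiple of `O` pairs nontrivially with the orthogonal of `O`. -/
theorem GW_exists_pair {κ : Type*} [Field κ] {A : Matrix (Fin 7) (Fin 7) κ} (hA : A.IsSymm)
    (hd : A.det ≠ 0) {O γ : Fin 7 → κ} (hγ : ∀ c : κ, γ ≠ c • O) :
    ∃ w, bl A w O = 0 ∧ bl A γ w ≠ 0 := by
  by_contra hcon
  push Not at hcon
  obtain ⟨c, hc⟩ := exists_mulVec_eq_zero hA hcon
  exact hγ c (sub_eq_zero.mp (GW_eq_zero_of_mulVec hd hc))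

theorem GW_rk {κ : Type*} [Field κ] {A : Matrix (Fin 7) (Fin 7) κ}
    (hd : A.det ≠ 0) (v w : Fin 7 → κ) (hv : A.mulVec v = 0) (_hw : A.mulVec w = 0) :
    ∃ s t : κ, (s ≠ 0 ∨ t ≠ 0) ∧ s • v + t • w = 0 :=
  ⟨1, 0, Or.inl one_ne_zero, by rw [GW_eq_zero_of_mulVec hd hv]; simp⟩

theorem GW_exists_aniso {κ : Type*} [Field κ] (h2 : (2 : κ) ≠ 0)
    {A : Matrix (Fin 7) (Fin 7) κ} (hA : A.IsSymm)
    (hd : A.det ≠ 0) (O : Fin 7 → κ) : ∃ w, bl A w O = 0 ∧ bl A w w ≠ 0 := by
  obtain ⟨v, hv1, -, hv3⟩ := exists_anisotropic h2 hA (GW_rk hd) (GW_lin A O) 0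
  exact ⟨v, hv1, hv3⟩

section lift

variable {κ : Type*} [Field κ] {f h : Matrix (Fin 7) (Fin 7) κ}

/-- The lift of a vector to a polynomial vector orthogonal to `O`. -/
def GW_lift (f h : Matrix (Fin 7) (Fin 7) κ) (O e' v : Fin 7 → κ) : Fin 7 → κ[X] :=
  cst v - bl (hT f h) (cst v) (cst O) • cst e'

theorem GW_lift_orth (hf : f.IsSymm) (hh : h.IsSymm) {O e' : Fin 7 → κ}
    (hfe : bl f O e' = 0) (hhe : bl h O e' = 1) (v : Fin 7 → κ) :
    bl (hT f h) (GW_lift f h O e' v) (cst O) = 0 := by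
  have h1 : bl (hT f h) (cst e') (cst O) = 1 := by
    rw [bl_hT, bl_cst, bl_cst, bl_comm hf, bl_comm hh, hfe, hhe]
    simp
  rw [GW_lift, bl_sub_left, bl_smul_left, h1, mul_one, sub_self]

theorem GW_lift_eval {O e' v : Fin 7 → κ} {τ : κ} (hv : bl (h - τ • f) v O = 0) :
    (fun i => (GW_lift f h O e' v i).eval τ) = v := by
  funext i
  have h1 : (bl (hT f h) (cst v) (cst O)).eval τ = 0 := by
    rw [eval_bl_hT]
    simpa [cst] using hv
  simp only [GW_lift, Pi.sub_apply, Pi.smul_apply, smul_eq_mul, eval_sub, eval_mul, h1, zero_mul,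
    sub_zero, cst, eval_C]

/-- The core construction. -/
theorem GW_core (h2 : (2 : κ) ≠ 0) (hf : f.IsSymm) (hh : h.IsSymm) {O e' : Fin 7 → κ}
    (hfe : bl f O e' = 0) (hhe : bl h O e' = 1) (τ : κ) (F₁ : κ[X]) {y w₂ y' : Fin 7 → κ}
    (hy : bl (h - τ • f) y y = 0) (hyO : bl (h - τ • f) y O = 0)
    (hw₂ : bl (h - τ • f) w₂ O = 0) (hy'O : bl (h - τ • f) y' O = 0)
    (hyy' : bl (h - τ • f) y y' ≠ 0) :
    ∃ wa wb : Fin 7 → κ[X], bl (hT f h) wa (cst O) = 0 ∧ bl (hT f h) wb (cst O) = 0 ∧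
      (X - C τ) ^ 2 ∣ bl (hT f h) wa wa - (X - C τ) * F₁ * bl (hT f h) wb wb ∧
      (fun i => (wa i).eval τ) = y ∧ (fun i => (wb i).eval τ) = w₂ := by
  set A := h - τ • f with hAdef
  have hsym := isSymm_hT hf hh
  set ly := GW_lift f h O e' y with hly
  have hly_ev : (fun i => (ly i).eval τ) = y := GW_lift_eval hyO
  obtain ⟨K, hK⟩ : X - C τ ∣ bl (hT f h) ly ly := by
    rw [dvd_iff_isRoot, IsRoot, eval_bl_hT, hly_ev]
    exact hy
  set wb := GW_lift f h O e' w₂ with hwb
  have hwb_ev : (fun i => (wb i).eval τ) = w₂ := GW_lift_eval hw₂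
  set t : κ := (F₁.eval τ * bl A w₂ w₂ - K.eval τ) / (2 * bl A y y') with ht
  set l1 := GW_lift f h O e' (t • y') with hl1
  have hl1_ev : (fun i => (l1 i).eval τ) = t • y' :=
    GW_lift_eval (by rw [bl_smul_left, hy'O, mul_zero])
  set wa := ly + (X - C τ) • l1 with hwa
  have hbr : X - C τ ∣ K + 2 * bl (hT f h) ly l1 - F₁ * bl (hT f h) wb wb := by
    rw [dvd_iff_isRoot, IsRoot]
    simp only [eval_sub, eval_add, eval_mul, eval_ofNat]
    rw [eval_bl_hT, eval_bl_hT, hly_ev, hl1_ev, hwb_ev, bl_smul_right]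
    rw [← hAdef, ht]
    field_simp
    ring
  obtain ⟨Q, hQ⟩ := hbr
  refine ⟨wa, wb, ?_, GW_lift_orth hf hh hfe hhe _, ?_, ?_, hwb_ev⟩
  · rw [hwa, bl_add_left, bl_smul_left, GW_lift_orth hf hh hfe hhe,
      GW_lift_orth hf hh hfe hhe]
    simp
  · have e : bl (hT f h) wa wa = bl (hT f h) ly ly + 2 * (X - C τ) * bl (hT f h) ly l1
        + (X - C τ) ^ 2 * bl (hT f h) l1 l1 := by
      rw [hwa, bl_add_left, bl_add_right, bl_add_right, bl_smul_left, bl_smul_left,
        bl_smul_right, bl_smul_right, bl_comm hsym l1 ly]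
      ring
    refine ⟨Q + bl (hT f h) l1 l1, ?_⟩
    rw [e, hK]
    linear_combination (X - C τ) * hQ
  · funext i
    have := congrFun hly_ev i
    simp only [hwa, Pi.add_apply, Pi.smul_apply, smul_eq_mul, eval_add, eval_mul, eval_sub,
      eval_X, eval_C, sub_self, zero_mul, add_zero]
    exact this

end lift

section

variable {κ : Type*} [Field κ] [CharZero κ]

/-- The reflection vector near a nondegenerate rational member of the pencil. -/
theorem local_w {f h : Matrix (Fin 7) (Fin 7) κ} (hf : f.IsSymm) (hh : h.IsSymm)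
    {O e' : Fin 7 → κ} (hfO : bl f O O = 0) (hhO : bl h O O = 0) (hfe : bl f O e' = 0)
    (hhe : bl h O e' = 1) (τ : κ) (hdet : (h - τ • f).det ≠ 0) (F₁ : κ[X])
    (hF₁ : F₁.eval τ ≠ 0) {y₀ : Fin 7 → κ} (hy₀ : bl (h - τ • f) y₀ y₀ = 0)
    (hy₀O : bl (h - τ • f) y₀ O = 0) (hy₀n : ∀ c : κ, y₀ ≠ c • O) {a₀ b₀ : Fin 7 → κ[X]}
    (ha₀ : bl (hT f h) a₀ (cst O) = 0) (hb₀ : bl (hT f h) b₀ (cst O) = 0)
    (hΦ : bl (hT f h) a₀ a₀ = (X - C τ) * F₁ * bl (hT f h) b₀ b₀)
    (hne : ¬ ((∃ c : κ, (fun i => (a₀ i).eval τ) = c • O) ∧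
      ∃ c : κ, (fun i => (b₀ i).eval τ) = c • O)) :
    ∃ wa wb : Fin 7 → κ[X], bl (hT f h) wa (cst O) = 0 ∧ bl (hT f h) wb (cst O) = 0 ∧
      (X - C τ) ^ 2 ∣ bl (hT f h) wa wa - (X - C τ) * F₁ * bl (hT f h) wb wb ∧
      (bl (hT f h) wb wb).eval τ ≠ 0 ∧
      ¬ (X - C τ) ^ 2 ∣ bl (hT f h) a₀ wa - (X - C τ) * F₁ * bl (hT f h) b₀ wb := by
  have h2 : (2 : κ) ≠ 0 := two_ne_zero
  set A := h - τ • f with hAdef
  have hA : A.IsSymm := by
    ext i j
    simp [hAdef, Matrix.transpose_apply, hf.apply i j, hh.apply i j]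
  have hsym := isSymm_hT hf hh
  have hcO : (fun i => (cst O i).eval τ) = O := by
    funext i
    simp [cst]
  have hAOO : bl A O O = 0 := by
    rw [hAdef, bl_sub_mat, bl_smul_mat, hfO, hhO]
    simp
  have hHOO : bl (hT f h) (cst O) (cst O) = 0 := by
    rw [bl_hT, bl_cst, bl_cst, hfO, hhO]
    simp
  set χ : Fin 7 → κ := fun i => (a₀ i).eval τ with hχ
  set β : Fin 7 → κ := fun i => (b₀ i).eval τ with hβ
  have hχO : bl A χ O = 0 := by
    have := eval_bl_hT f h a₀ (cst O) τ
    rw [ha₀, eval_zero, hcO] at this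
    exact this.symm
  have hβO : bl A β O = 0 := by
    have := eval_bl_hT f h b₀ (cst O) τ
    rw [hb₀, eval_zero, hcO] at this
    exact this.symm
  by_cases hc : ∃ c : κ, χ = c • O
  · -- second case
    have hβn : ∀ c : κ, β ≠ c • O := fun c hcβ => hne ⟨hc, ⟨c, hcβ⟩⟩
    obtain ⟨c, hc⟩ := hc
    have hdvd : ∀ i, X - C τ ∣ a₀ i - C c * cst O i := by
      intro i
      rw [dvd_iff_isRoot, IsRoot]
      have := congrFun hc i
      simp only [hχ, Pi.smul_apply, smul_eq_mul] at this
      simp [cst, this]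
    choose a' ha' using hdvd
    have hsplit : a₀ = C c • cst O + (X - C τ) • a' := by
      funext i
      have := ha' i
      simp only [Pi.add_apply, Pi.smul_apply, smul_eq_mul]
      linear_combination this
    set χ' : Fin 7 → κ := fun i => (a' i).eval τ with hχ'
    obtain ⟨y', hy'O, hyy'⟩ := GW_exists_pair hA hdet hy₀n
    obtain ⟨w0, hw0, hw0'⟩ := GW_exists_pair hA hdet hβn
    obtain ⟨w1, hw1, hw1'⟩ := GW_exists_aniso h2 hA hdet O
    set p := LinearMap.ker (GW_lin A O) with hp
    have hval := GW_polyLines_val (κ := κ) p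
    obtain ⟨w₂, hw₂⟩ := exists_forall_ne_zero (κ := κ) (V := p) (ι := Bool)
      (fun j v => cond j (bl A χ' y₀ - F₁.eval τ * bl A β (v : Fin 7 → κ))
        (bl A (v : Fin 7 → κ) v))
      (by
        rintro (_ | _)
        · exact PolyLines.bl A hval hval
        · exact (PolyLines.const _).sub ((PolyLines.const _).mul
            (PolyLines.bl A (fun i => PolyLines.const _) hval)))
      (by
        rintro (_ | _)
        · exact ⟨⟨w1, hw1⟩, hw1'⟩
        · by_cases h0 : bl A χ' y₀ = 0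
          · refine ⟨⟨w0, hw0⟩, ?_⟩
            simp only [cond_true, h0, zero_sub, neg_ne_zero]
            exact mul_ne_zero hF₁ hw0'
          · refine ⟨0, ?_⟩
            simp only [cond_true, ZeroMemClass.coe_zero, bl_zero_right, mul_zero, sub_zero]
            exact h0)
    have hw₂1 : bl A (w₂ : Fin 7 → κ) w₂ ≠ 0 := hw₂ false
    have hw₂2 : bl A χ' y₀ - F₁.eval τ * bl A β (w₂ : Fin 7 → κ) ≠ 0 := hw₂ true
    obtain ⟨wa, wb, hwa, hwb, hdiv, hea, heb⟩ := GW_core h2 hf hh hfe hhe τ F₁ hy₀ hy₀O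
      (w₂ := w₂) w₂.2 hy'O hyy'
    refine ⟨wa, wb, hwa, hwb, hdiv, ?_, ?_⟩
    · rw [eval_bl_hT, heb]
      exact hw₂1
    · intro hcon
      have e : bl (hT f h) a₀ wa - (X - C τ) * F₁ * bl (hT f h) b₀ wb =
          (X - C τ) * (bl (hT f h) a' wa - F₁ * bl (hT f h) b₀ wb) := by
        rw [hsplit, bl_add_left, bl_smul_left, bl_smul_left, bl_comm hsym (cst O) wa, hwa]
        ring
      rw [e, sq, mul_dvd_mul_iff_left (X_sub_C_ne_zero τ), dvd_iff_isRoot, IsRoot, eval_sub,
        eval_mul, eval_bl_hT, eval_bl_hT, hea, heb] at hcon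
      exact hw₂2 hcon
  · -- first case
    push Not at hc
    obtain ⟨w, hwO, hw1, hw2⟩ := exists_v_field h2 hA (GW_rk hdet)
      (GW_exists_pair hA hdet hy₀n) (GW_exists_pair hA hdet hc)
    set y : Fin 7 → κ := (2 * bl A y₀ w) • w - (bl A w w) • y₀ with hy
    have hyO : bl A y O = 0 := by
      rw [hy, bl_sub_left, bl_smul_left, bl_smul_left, hwO, hy₀O]
      simp
    have hyy : bl A y y = 0 := by
      rw [hy, bl_sub_left, bl_sub_right, bl_sub_right, bl_smul_left, bl_smul_left,
        bl_smul_right, bl_smul_right, bl_smul_left, bl_smul_right, bl_smul_left, bl_smul_right,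
        bl_comm hA w y₀, hy₀]
      ring
    have hχy : bl A χ y ≠ 0 := by
      rw [hy, bl_sub_right, bl_smul_right, bl_smul_right]
      intro h0
      apply hw2
      rw [bl_comm hA y₀ χ]
      linear_combination h0
    have hyn : ∀ c : κ, y ≠ c • O := by
      intro c h0
      apply hχy
      rw [h0, bl_smul_right, hχO, mul_zero]
    obtain ⟨y', hy'O, hyy'⟩ := GW_exists_pair hA hdet hyn
    obtain ⟨w1, hw1O, hw1'⟩ := GW_exists_aniso h2 hA hdet O
    obtain ⟨wa, wb, hwa, hwb, hdiv, hea, heb⟩ := GW_core h2 hf hh hfe hhe τ F₁ hyy hyO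
      hw1O hy'O hyy'
    refine ⟨wa, wb, hwa, hwb, hdiv, ?_, ?_⟩
    · rw [eval_bl_hT, heb]
      exact hw1'
    · intro hcon
      have h1 : X - C τ ∣ bl (hT f h) a₀ wa - (X - C τ) * F₁ * bl (hT f h) b₀ wb :=
        (dvd_pow_self _ two_ne_zero).trans hcon
      rw [dvd_iff_isRoot, IsRoot, eval_sub, eval_mul, eval_mul, eval_bl_hT, hea] at h1
      simp only [eval_sub, eval_X, eval_C, sub_self, zero_mul, sub_zero] at h1
      exact hχy h1

end

end Pool.Agent.Lib.MP_8ab79f_ag.Six
end
end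

section

set_option autoImplicit false
set_option linter.unusedSectionVars false

noncomputable section

namespace Pool.Agent.Lib.MP_8ab79f_ag.Six

open Polynomial

/-- Division by the content. -/
theorem exists_primitive {κ : Type*} [Field κ] {ι : Type*} [Finite ι] {v : ι → κ[X]}
    (hv : v ≠ 0) : ∃ (c : κ[X]) (v' : ι → κ[X]), c ≠ 0 ∧ (∀ i, v i = c * v' i) ∧
      ∀ τ : AlgebraicClosure κ, ∃ i, aeval τ (v' i) ≠ 0 := by
  classical
  cases nonempty_fintype ι
  obtain ⟨c, hc⟩ := (IsPrincipalIdealRing.principal (Ideal.span (Set.range v))).principal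
  have hdvd : ∀ i, ∃ w, v i = c * w := by
    intro i
    have h1 : v i ∈ Ideal.span (Set.range v) := Ideal.subset_span (Set.mem_range_self i)
    rw [hc] at h1
    obtain ⟨w, hw⟩ := Submodule.mem_span_singleton.1 h1
    exact ⟨w, by rw [← hw, smul_eq_mul, mul_comm]⟩
  choose v' hv' using hdvd
  have hc0 : c ≠ 0 := by
    intro h0
    apply hv
    funext i
    rw [hv' i, h0, zero_mul]
    rfl
  refine ⟨c, v', hc0, hv', fun τ => ?_⟩
  by_contra hcon
  push Not at hcon
  have h2 : c ∈ Ideal.span (Set.range v) := by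
    rw [hc]
    exact Submodule.mem_span_singleton_self c
  obtain ⟨r, hr⟩ := (Ideal.mem_span_range_iff_exists_fun (R := κ[X])).1 h2
  have h3 : c * ∑ i, r i * v' i = c * 1 := by
    rw [mul_one, Finset.mul_sum]
    conv_rhs => rw [← hr]
    refine Finset.sum_congr rfl fun i _ => ?_
    rw [hv' i]
    ring
  have h4 : ∑ i, r i * v' i = 1 := mul_left_cancel₀ hc0 h3
  have h5 := congrArg (aeval τ) h4
  rw [map_sum, map_one] at h5
  apply zero_ne_one (α := AlgebraicClosure κ)
  rw [← h5]
  symm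
  refine Finset.sum_eq_zero fun i _ => ?_
  rw [map_mul, hcon i, mul_zero]

end Pool.Agent.Lib.MP_8ab79f_ag.Six
end
end

section

set_option autoImplicit false
set_option linter.unusedSectionVars false

noncomputable section

namespace Pool.Agent.Lib.MP_8ab79f_ag.Six

open Polynomial

section

variable {κ : Type*} [Field κ]

theorem GSmB_bl_mulVec {ι S : Type*} [Fintype ι] [CommRing S] (A : Matrix ι ι S) (x y : ι → S)
    (h : A.mulVec y = 0) : bl A x y = 0 := by
  unfold bl
  refine Finset.sum_eq_zero fun i _ => ?_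
  have h1 := congrFun h i
  simp only [Matrix.mulVec, dotProduct, Pi.zero_apply] at h1
  calc ∑ j, A i j * x i * y j = x i * ∑ j, A i j * y j := by
        rw [Finset.mul_sum]
        exact Finset.sum_congr rfl fun j _ => by ring
    _ = 0 := by rw [h1, mul_zero]

theorem GSmB_exists {f h : Matrix (Fin 7) (Fin 7) κ} (hf : f.IsSymm) (hh : h.IsSymm)
    {O : Fin 7 → κ} {τ : AlgebraicClosure κ} {α : Fin 7 → AlgebraicClosure κ}
    (hr : ¬ NonRad f h O τ α) :
    ∃ c : AlgebraicClosure κ, (mem f h τ).mulVec (α - c • bar O) = 0 := by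
  apply exists_mulVec_eq_zero (isSymm_mem hf hh τ)
  intro w hw
  by_contra h1
  exact hr ⟨w, hw, h1⟩

/-- A vector which is not a multiple of `O` is not in the radical if the member of the pencil is
nondegenerate at `τ`. -/
theorem nonRad_of_det {f h : Matrix (Fin 7) (Fin 7) κ} (hf : f.IsSymm) (hh : h.IsSymm)
    {O : Fin 7 → κ} {τ : AlgebraicClosure κ} (hdet : (mem f h τ).det ≠ 0)
    {α : Fin 7 → AlgebraicClosure κ} (hα : ∀ c : AlgebraicClosure κ, α ≠ c • bar O) :
    NonRad f h O τ α := by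
  by_contra hr
  obtain ⟨c, hc⟩ := GSmB_exists hf hh hr
  exact hα c (sub_eq_zero.1 (Matrix.eq_zero_of_mulVec_eq_zero hdet hc))

theorem GSmB_derivative {f h : Matrix (Fin 7) (Fin 7) κ} (x y : Fin 7 → κ[X]) :
    derivative (bl (hT f h) x y) = bl (hT f h) (fun i => derivative (x i)) y +
      bl (hT f h) x (fun i => derivative (y i)) - bl (f.map C) x y := by
  unfold bl
  simp only [derivative_sum]
  rw [← Finset.sum_add_distrib, ← Finset.sum_sub_distrib]
  refine Finset.sum_congr rfl fun i _ => ?_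
  rw [← Finset.sum_add_distrib, ← Finset.sum_sub_distrib]
  refine Finset.sum_congr rfl fun j _ => ?_
  simp only [hT, Matrix.sub_apply, Matrix.map_apply, Matrix.smul_apply, smul_eq_mul,
    derivative_mul, derivative_sub, derivative_C, derivative_X]
  ring

theorem GSmB_aeval_bl (f : Matrix (Fin 7) (Fin 7) κ) (x y : Fin 7 → κ[X])
    (τ : AlgebraicClosure κ) :
    aeval τ (bl (f.map C) x y) =
      bl (f.map (algebraMap κ (AlgebraicClosure κ))) (ev τ x) (ev τ y) := by
  have h1 := bl_map (aeval (R := κ) τ : κ[X] →+* AlgebraicClosure κ) (f.map C) x y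
  have h2 : (f.map C).map (aeval (R := κ) τ : κ[X] →+* AlgebraicClosure κ) =
      f.map (algebraMap κ (AlgebraicClosure κ)) := by
    ext i j
    simp only [Matrix.map_apply, RingHom.coe_coe, aeval_C]
  rw [h2] at h1
  exact h1

/-- The simple root lemma. -/
theorem derivative_ne_zero {f h : Matrix (Fin 7) (Fin 7) κ} (hf : f.IsSymm)
    (hh : h.IsSymm) (hS : Sm f h) {O : Fin 7 → κ} (hfO : bl f O O = 0) (hhO : bl h O O = 0)
    {τ : AlgebraicClosure κ} {b : Fin 7 → κ[X]} (hbO : bl (hT f h) b (cst O) = 0)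
    (hb : ∀ c : AlgebraicClosure κ, ev τ b ≠ c • bar O) (hr : ¬ NonRad f h O τ (ev τ b)) :
    aeval τ (derivative (bl (hT f h) b b)) ≠ 0 := by
  obtain ⟨c, hc⟩ := GSmB_exists hf hh hr
  set A := mem f h τ with hA
  have hAs : A.IsSymm := isSymm_mem hf hh τ
  set F := f.map (algebraMap κ (AlgebraicClosure κ)) with hF
  set Hm := h.map (algebraMap κ (AlgebraicClosure κ)) with hHm
  have hFs : F.IsSymm := isSymm_map hf _
  set n : Fin 7 → AlgebraicClosure κ := ev τ b - c • bar O with hn
  have hn0 : n ≠ 0 := fun h0 => hb c (sub_eq_zero.1 h0)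
  have hβ : ev τ b = n + c • bar O := by rw [hn]; abel
  have hFO : bl F (bar O) (bar O) = 0 := by
    have h1 := bl_map (algebraMap κ (AlgebraicClosure κ)) f O O
    rw [hfO, map_zero] at h1
    exact h1.symm
  set b' : Fin 7 → κ[X] := fun i => derivative (b i) with hb'
  -- derivative of `H(b, O) = 0`
  have e1 : bl A (ev τ b') (bar O) = bl F (ev τ b) (bar O) := by
    have h1 := congrArg (fun p => aeval τ (derivative p)) hbO
    simp only [map_zero] at h1
    rw [GSmB_derivative, map_sub, map_add, aeval_bl_hT, aeval_bl_hT, GSmB_aeval_bl, ev_cst] at h1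
    have h2 : ev τ (fun i => derivative (cst O i)) = 0 := by
      funext i
      simp [ev, cst]
    rw [h2, bl_zero_right, add_zero, sub_eq_zero] at h1
    exact h1
  have e2 : bl F (ev τ b) (bar O) = bl F n (bar O) := by
    rw [hβ, bl_add_left, bl_smul_left, hFO, mul_zero, add_zero]
  have e3 : bl A (ev τ b) (ev τ b') = c * bl F n (bar O) := by
    rw [bl_comm hAs, hβ, bl_add_right, bl_smul_right, GSmB_bl_mulVec A _ n hc, zero_add, e1, e2]
  have e4 : bl F (ev τ b) (ev τ b) = bl F n n + 2 * c * bl F n (bar O) := by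
    rw [hβ, bl_add_left, bl_add_right, bl_add_right, bl_smul_left, bl_smul_left, bl_smul_right,
      bl_smul_right, hFO, bl_comm hFs (bar O) n]
    ring
  have e5 : aeval τ (derivative (bl (hT f h) b b)) = -bl F n n := by
    rw [GSmB_derivative, map_sub, map_add, aeval_bl_hT, aeval_bl_hT, GSmB_aeval_bl, ← hb', ← hA,
      ← hF, bl_comm hAs (ev τ b') (ev τ b), e3, e4]
    ring
  rw [e5, neg_ne_zero]
  intro hnn
  have hmem : (-τ) • F + (1 : AlgebraicClosure κ) • Hm = A := by
    rw [hA, mem, ← hF, ← hHm, neg_smul, one_smul]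
    abel
  apply hS (-τ) 1 n hn0 (Or.inr one_ne_zero)
  · rw [← hF, ← hHm, hmem]
    exact hc
  · refine ⟨hnn, ?_⟩
    have h1 : bl A n n = 0 := GSmB_bl_mulVec A n n hc
    rw [← hmem, bl_add_mat, bl_smul_mat, bl_smul_mat, hnn, mul_zero, zero_add, one_mul] at h1
    exact h1

end

end Pool.Agent.Lib.MP_8ab79f_ag.Six
end
end

section

set_option autoImplicit false
set_option linter.unusedSectionVars false

noncomputable section

namespace Pool.Agent.Lib.MP_8ab79f_ag.Six

open Polynomial

theorem gsc_dual {κ V : Type*} [Field κ] [AddCommGroup V] [Module κ V] {l m : V → κ}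
    (hls : ∀ v w, l (v - w) = l v - l w) (hlc : ∀ (c : κ) v, l (c • v) = c * l v)
    (hms : ∀ v w, m (v - w) = m v - m w) (hmc : ∀ (c : κ) v, m (c • v) = c * m v)
    (hi : ∀ a b : κ, (∀ v, a * l v + b * m v = 0) → a = 0 ∧ b = 0) :
    ∃ e, l e = 1 ∧ m e = 0 := by
  by_contra hcon
  push Not at hcon
  have h1 : ∀ v, m v = 0 → l v = 0 := by
    intro v hv
    by_contra hl
    refine hcon ((l v)⁻¹ • v) ?_ ?_
    · rw [hlc, inv_mul_cancel₀ hl]
    · rw [hmc, hv, mul_zero]
  by_cases h2 : ∀ v, m v = 0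
  · have := (hi 0 1 fun v => by rw [h2 v]; ring).2
    exact one_ne_zero this
  · push Not at h2
    obtain ⟨w, hw⟩ := h2
    refine hw (hi (m w) (-l w) fun v => ?_).1
    have h3 := h1 (v - (m v / m w) • w) (by
      rw [hms, hmc, div_mul_cancel₀ _ hw, sub_self])
    rw [hls, hlc] at h3
    have h4 : l v = m v / m w * l w := sub_eq_zero.1 h3
    rw [h4]
    field_simp
    ring

theorem gsc_mulVec {κ : Type*} [CommRing κ] {A : Matrix (Fin 7) (Fin 7) κ} (v : Fin 7 → κ)
    (hA : A.IsSymm) (i : Fin 7) : A.mulVec v i = bl A v (Pi.single i 1) := by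
  unfold bl Matrix.mulVec dotProduct
  refine Finset.sum_congr rfl fun k _ => ?_
  rw [Finset.sum_eq_single i]
  · rw [Pi.single_eq_same, mul_one, hA.apply i k]
  · intro j _ hj
    rw [Pi.single_eq_of_ne hj, mul_zero]
  · intro hi
    exact absurd (Finset.mem_univ i) hi

theorem gsc_indep {κ : Type*} [Field κ] {f h : Matrix (Fin 7) (Fin 7) κ}
    (hf : f.IsSymm) (hh : h.IsSymm) (hS : Sm f h) {O : Fin 7 → κ} (hO : O ≠ 0)
    (hfO : bl f O O = 0) (hhO : bl h O O = 0) (a b : κ)
    (hab : ∀ v, a * bl f O v + b * bl h O v = 0) : a = 0 ∧ b = 0 := by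
  by_contra hcon
  have hne : algebraMap κ (AlgebraicClosure κ) a ≠ 0 ∨
      algebraMap κ (AlgebraicClosure κ) b ≠ 0 := by
    by_contra h1
    push Not at h1
    apply hcon
    exact ⟨(map_eq_zero _).1 h1.1, (map_eq_zero _).1 h1.2⟩
  have hO' : bar O ≠ 0 := by
    intro h1
    apply hO
    funext i
    have h2 := congrFun h1 i
    exact (map_eq_zero _).1 h2
  refine hS _ _ (bar O) hO' hne ?_ ⟨?_, ?_⟩
  · have h1 : ∀ (A : Matrix (Fin 7) (Fin 7) κ) (i : Fin 7),
        (A.map (algebraMap κ (AlgebraicClosure κ))).mulVec (bar O) i =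
          algebraMap κ (AlgebraicClosure κ) (A.mulVec O i) := by
      intro A i
      unfold Matrix.mulVec dotProduct
      rw [map_sum]
      refine Finset.sum_congr rfl fun j _ => ?_
      rw [map_mul]
      rfl
    funext i
    rw [Matrix.add_mulVec, Matrix.smul_mulVec, Matrix.smul_mulVec, Pi.add_apply, Pi.smul_apply,
      Pi.smul_apply, h1, h1, gsc_mulVec O hf, gsc_mulVec O hh, smul_eq_mul, smul_eq_mul,
      ← map_mul, ← map_mul, ← map_add, hab, map_zero]
    rfl
  · have h1 := bl_map (algebraMap κ (AlgebraicClosure κ)) f O O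
    rw [hfO, map_zero] at h1
    exact h1.symm
  · have h1 := bl_map (algebraMap κ (AlgebraicClosure κ)) h O O
    rw [hhO, map_zero] at h1
    exact h1.symm

/-- The two linear forms `f(O, ·)` and `h(O, ·)` are independent at a point of the
intersection. -/
theorem Sm.exists_dual {κ : Type*} [Field κ] {f h : Matrix (Fin 7) (Fin 7) κ}
    (hf : f.IsSymm) (hh : h.IsSymm) (hS : Sm f h) {O : Fin 7 → κ} (hO : O ≠ 0)
    (hfO : bl f O O = 0) (hhO : bl h O O = 0) :
    ∃ e e' : Fin 7 → κ, bl f O e = 1 ∧ bl h O e = 0 ∧ bl f O e' = 0 ∧ bl h O e' = 1 := by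
  have hi := gsc_indep hf hh hS hO hfO hhO
  obtain ⟨e, h1, h2⟩ := gsc_dual (l := fun v => bl f O v) (m := fun v => bl h O v)
    (fun v w => bl_sub_right f O v w) (fun c v => bl_smul_right f c O v)
    (fun v w => bl_sub_right h O v w) (fun c v => bl_smul_right h c O v) hi
  obtain ⟨e', h3, h4⟩ := gsc_dual (l := fun v => bl h O v) (m := fun v => bl f O v)
    (fun v w => bl_sub_right h O v w) (fun c v => bl_smul_right h c O v)
    (fun v w => bl_sub_right f O v w) (fun c v => bl_smul_right f c O v)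
    (fun a b hab => (hi b a fun v => by rw [add_comm]; exact hab v).symm)
  exact ⟨e, e', h1, h2, h4, h3⟩

end Pool.Agent.Lib.MP_8ab79f_ag.Six
end
end

section

set_option autoImplicit false
set_option linter.unusedSectionVars false

noncomputable section

namespace Pool.Agent.Lib.MP_8ab79f_ag.Six

open Polynomial

/-- The choice of `u`, and thereby of the second rational member of the pencil. -/
theorem exists_u {κ : Type*} [Field κ] [CharZero κ] {f h : Matrix (Fin 7) (Fin 7) κ}
    (hf : f.IsSymm) (hh : h.IsSymm) (hS : Sm f h) (hdf : f.det ≠ 0) (O : Fin 7 → κ)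
    (S : Finset κ) :
    ∃ (u : Fin 7 → κ) (t : κ), bl f u O = 0 ∧ bl h u O = 0 ∧ bl f u u ≠ 0 ∧
      bl h u u = t * bl f u u ∧ (h - t • f).det ≠ 0 ∧ t ∉ S := by
  classical
  have h2 : (2 : κ) ≠ 0 := two_ne_zero
  have hfu : IsUnit f.det := isUnit_iff_ne_zero.2 hdf
  have key : ∀ t : κ, (h - t • f).det = (-1) ^ 7 * (f.det * (f⁻¹ * h).charpoly.eval t) := by
    intro t
    have h3 : h - t • f = -(f * (Matrix.scalar (Fin 7) t - f⁻¹ * h)) := by
      rw [mul_sub, ← mul_assoc, Matrix.mul_nonsing_inv _ hfu, one_mul]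
      have h4 : f * Matrix.scalar (Fin 7) t = t • f := by
        rw [Matrix.scalar_apply, ← Matrix.smul_one_eq_diagonal, Matrix.mul_smul, mul_one]
      rw [h4]
      abel
    rw [Matrix.eval_charpoly, ← Matrix.det_mul, h3, Matrix.det_neg, Fintype.card_fin]
  have hmon := Matrix.charpoly_monic (f⁻¹ * h)
  let Bad : Finset κ := S ∪ (f⁻¹ * h).charpoly.roots.toFinset
  let φ : (Fin 7 → κ) →ₗ[κ] κ :=
    { toFun := fun v => bl f v O
      map_add' := fun x y => bl_add_left f x y O
      map_smul' := fun c x => bl_smul_left f c x O }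
  let ψ : (Fin 7 → κ) →ₗ[κ] κ :=
    { toFun := fun v => bl h v O
      map_add' := fun x y => bl_add_left h x y O
      map_smul' := fun c x => bl_smul_left h c x O }
  let T : Submodule κ (Fin 7 → κ) := LinearMap.ker φ ⊓ LinearMap.ker ψ
  have hquad : ∀ α β : κ, (α ≠ 0 ∨ β ≠ 0) → ∃ v : T, bl (α • f + β • h) v.1 v.1 ≠ 0 := by
    intro α β hαβ
    have hsymm : (α • f + β • h).IsSymm := by
      ext i j
      simp [Matrix.transpose_apply, hf.apply i j, hh.apply i j]
    obtain ⟨v, hv1, hv2, hv3⟩ := exists_anisotropic h2 hsymm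
      (fun v w hv hw => hS.corank_rat hf hh α β hαβ v w hv hw) φ ψ
    exact ⟨⟨v, hv1, hv2⟩, hv3⟩
  let F : Option {x // x ∈ Bad} → T → κ := fun o v =>
    match o with
    | none => bl f v.1 v.1
    | some t => bl (-t.1 • f + (1 : κ) • h) v.1 v.1
  have hF : ∀ i, PolyLines (F i) := by
    have hcoord : ∀ i : Fin 7, PolyLines (fun v : T => v.1 i) := by
      intro i
      exact PolyLines.linear ((LinearMap.proj i).comp T.subtype)
    intro i
    cases i with
    | none => exact PolyLines.bl f hcoord hcoord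
    | some t => exact PolyLines.bl (-t.1 • f + (1 : κ) • h) hcoord hcoord
  have hne : ∀ i, ∃ v, F i v ≠ 0 := by
    intro i
    cases i with
    | none =>
      obtain ⟨v, hv⟩ := hquad 1 0 (Or.inl one_ne_zero)
      refine ⟨v, ?_⟩
      rw [one_smul, zero_smul, add_zero] at hv
      exact hv
    | some t => exact hquad (-t.1) 1 (Or.inr one_ne_zero)
  obtain ⟨u, hu⟩ := exists_forall_ne_zero F hF hne
  have hu0 : bl f u.1 u.1 ≠ 0 := hu none
  have ht : bl h u.1 u.1 / bl f u.1 u.1 ∉ Bad := by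
    intro hmem
    have h5 := hu (some ⟨_, hmem⟩)
    apply h5
    change bl (-(bl h u.1 u.1 / bl f u.1 u.1) • f + (1 : κ) • h) u.1 u.1 = 0
    rw [bl_add_mat, bl_smul_mat, bl_smul_mat]
    field_simp
    ring
  refine ⟨u.1, bl h u.1 u.1 / bl f u.1 u.1, u.2.1, u.2.2, hu0, ?_, ?_, ?_⟩
  · field_simp
  · rw [key]
    have h6 : (f⁻¹ * h).charpoly.eval (bl h u.1 u.1 / bl f u.1 u.1) ≠ 0 := by
      intro h7
      apply ht
      refine Finset.mem_union_right _ ?_
      rw [Multiset.mem_toFinset, mem_roots hmon.ne_zero]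
      exact h7
    exact mul_ne_zero (pow_ne_zero _ (neg_ne_zero.2 one_ne_zero)) (mul_ne_zero hdf h6)
  · intro h8
    exact ht (Finset.mem_union_left _ h8)

end Pool.Agent.Lib.MP_8ab79f_ag.Six
end
end

section

set_option autoImplicit false
set_option linter.unusedSectionVars false

noncomputable section

namespace Pool.Agent.Lib.MP_8ab79f_ag.Six

open Polynomial

variable {κ : Type*} [Field κ] [CharZero κ]

/-- A polynomial which does not vanish somewhere over the algebraic closure does not vanish at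
some rational point. -/
theorem exists_rat_eval_ne_zero {n : ℕ} (P : MvPolynomial (Fin n) (AlgebraicClosure κ))
    (hP : P ≠ 0) : ∃ v : Fin n → κ, MvPolynomial.eval (bar v) P ≠ 0 := by
  by_contra hcon
  push Not at hcon
  apply hP
  refine MvPolynomial.funext_set
    (fun _ => Set.range (algebraMap κ (AlgebraicClosure κ))) (fun _ => ?_) ?_
  · exact Set.infinite_range_of_injective (algebraMap κ (AlgebraicClosure κ)).injective
  · intro x hx
    have h1 : ∀ i, ∃ a, algebraMap κ (AlgebraicClosure κ) a = x i := fun i => hx i (Set.mem_univ i)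
    choose v hv using h1
    have h2 : bar v = x := funext hv
    rw [map_zero, ← h2]
    exact hcon v

section GVA_aux

variable {E : Type*} [Field E] (A : Matrix (Fin 7) (Fin 7) E) (O e' α χ : Fin 7 → E)

/-- The reflection vector as a vector of polynomials in the coordinates of `v`. -/
def GVA_W : Fin 7 → MvPolynomial (Fin 7) E := fun i =>
  MvPolynomial.X i - bl (A.map MvPolynomial.C) (fun i => MvPolynomial.X i)
    (fun i => MvPolynomial.C (O i)) * MvPolynomial.C (e' i)

/-- The product of the two conditions. -/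
def GVA_P : MvPolynomial (Fin 7) E :=
  bl (A.map MvPolynomial.C) (fun i => MvPolynomial.C (α i)) (GVA_W A O e') *
    (2 * bl (A.map MvPolynomial.C) (fun i => MvPolynomial.C (α i)) (GVA_W A O e') *
      bl (A.map MvPolynomial.C) (fun i => MvPolynomial.C (χ i)) (GVA_W A O e') -
      bl (A.map MvPolynomial.C) (GVA_W A O e') (GVA_W A O e') * MvPolynomial.C (bl A α χ))

theorem GVA_eval_bl (v : Fin 7 → E) (x y : Fin 7 → MvPolynomial (Fin 7) E) :
    MvPolynomial.eval v (bl (A.map MvPolynomial.C) x y) =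
      bl A (fun i => MvPolynomial.eval v (x i)) (fun i => MvPolynomial.eval v (y i)) := by
  have h1 := bl_map (MvPolynomial.eval v) (A.map MvPolynomial.C) x y
  have h2 : (A.map (MvPolynomial.C (σ := Fin 7))).map (MvPolynomial.eval v) = A := by
    ext i j
    simp only [Matrix.map_apply, MvPolynomial.eval_C]
  rw [h2] at h1
  exact h1

theorem GVA_eval_W (v : Fin 7 → E) :
    (fun i => MvPolynomial.eval v (GVA_W A O e' i)) = v - bl A v O • e' := by
  funext i
  simp only [GVA_W, map_sub, map_mul, GVA_eval_bl, MvPolynomial.eval_X, MvPolynomial.eval_C,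
    Pi.sub_apply, Pi.smul_apply, smul_eq_mul]

theorem GVA_eval_P (v : Fin 7 → E) :
    MvPolynomial.eval v (GVA_P A O e' α χ) = bl A α (v - bl A v O • e') *
      (2 * bl A α (v - bl A v O • e') * bl A χ (v - bl A v O • e') -
        bl A (v - bl A v O • e') (v - bl A v O • e') * bl A α χ) := by
  unfold GVA_P
  simp only [map_sub, map_mul, GVA_eval_bl, MvPolynomial.eval_C, GVA_eval_W, map_ofNat]

end GVA_aux

/-- The choice of a rational reflection vector. -/
theorem exists_v_rat {f h : Matrix (Fin 7) (Fin 7) κ} (hf : f.IsSymm) (hh : h.IsSymm)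
    (hS : Sm f h) {O e' : Fin 7 → κ} (hfe : bl f O e' = 0) (hhe : bl h O e' = 1)
    (τ : AlgebraicClosure κ) {α χ : Fin 7 → AlgebraicClosure κ} (hα : NonRad f h O τ α)
    (hχ : NonRad f h O τ χ) :
    ∃ v : Fin 7 → κ, ∀ w, w = bar v - bl (mem f h τ) (bar v) (bar O) • bar e' →
      bl (mem f h τ) α w ≠ 0 ∧
      2 * bl (mem f h τ) α w * bl (mem f h τ) χ w -
        bl (mem f h τ) w w * bl (mem f h τ) α χ ≠ 0 := by
  have : CharZero (AlgebraicClosure κ) :=
    charZero_of_injective_algebraMap (algebraMap κ (AlgebraicClosure κ)).injective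
  obtain ⟨w0, h0, h1, h2⟩ := exists_v_field (E := AlgebraicClosure κ) two_ne_zero
    (isSymm_mem hf hh τ) (hS.corank hf hh τ) (O := bar O) (α := α) (χ := χ) hα hχ
  have hP : GVA_P (mem f h τ) (bar O) (bar e') α χ ≠ 0 := by
    intro h3
    have h4 := GVA_eval_P (mem f h τ) (bar O) (bar e') α χ w0
    rw [h3, map_zero, h0, zero_smul, sub_zero] at h4
    exact mul_ne_zero h1 h2 h4.symm
  obtain ⟨v, hv⟩ := exists_rat_eval_ne_zero _ hP
  rw [GVA_eval_P] at hv
  refine ⟨v, ?_⟩
  rintro w rfl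
  exact ⟨left_ne_zero_of_mul hv, right_ne_zero_of_mul hv⟩

end Pool.Agent.Lib.MP_8ab79f_ag.Six
end
end

section

set_option autoImplicit false
set_option linter.unusedSectionVars false

noncomputable section

namespace Pool.Agent.Lib.MP_8ab79f_ag.Six

open Polynomial

variable {κ : Type*} [Field κ] [CharZero κ]

/-- The choice of a reflection vector modulo an irreducible polynomial. -/
theorem exists_v_prime {f h : Matrix (Fin 7) (Fin 7) κ} (hf : f.IsSymm) (hh : h.IsSymm)
    (hS : Sm f h) {O e' : Fin 7 → κ} (hfe : bl f O e' = 0) (hhe : bl h O e' = 1)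
    {q : κ[X]} (τ : AlgebraicClosure κ) (hτ : aeval τ q = 0) {a b : Fin 7 → κ[X]}
    (ha : NonRad f h O τ (ev τ a)) (hb : NonRad f h O τ (ev τ b)) :
    ∃ v : Fin 7 → κ[X], bl (hT f h) v (cst O) = 0 ∧ ¬ q ∣ bl (hT f h) a v ∧
      ¬ q ∣ 2 * bl (hT f h) a v * bl (hT f h) b v - bl (hT f h) v v * bl (hT f h) a b := by
  obtain ⟨v0, hv0⟩ := exists_v_rat hf hh hS hfe hhe τ ha hb
  set v : Fin 7 → κ[X] := cst v0 - bl (hT f h) (cst v0) (cst O) • cst e' with hv
  have he : bl (hT f h) (cst e') (cst O) = 1 := by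
    rw [bl_hT, bl_cst, bl_cst, bl_comm hh e' O, bl_comm hf e' O, hfe, hhe]
    simp
  have h1 : bl (hT f h) v (cst O) = 0 := by
    rw [hv, bl_sub_left, bl_smul_left, he, mul_one, sub_self]
  have h2 : ev τ v = bar v0 - bl (mem f h τ) (bar v0) (bar O) • bar e' := by
    have h3 : aeval τ (bl (hT f h) (cst v0) (cst O)) = bl (mem f h τ) (bar v0) (bar O) := by
      rw [aeval_bl_hT, ev_cst, ev_cst]
    funext i
    have h4 : ev τ v i = aeval τ (cst v0 i - bl (hT f h) (cst v0) (cst O) * cst e' i) := rfl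
    rw [h4, map_sub, map_mul, h3]
    have h5 := congrFun (ev_cst τ v0) i
    have h6 := congrFun (ev_cst τ e') i
    simp only [ev] at h5 h6
    rw [h5, h6]
    rfl
  obtain ⟨h7, h8⟩ := hv0 _ h2
  refine ⟨v, h1, ?_, ?_⟩
  · rintro ⟨p, hp⟩
    apply h7
    rw [← aeval_bl_hT, hp, map_mul, hτ, zero_mul]
  · rintro ⟨p, hp⟩
    apply h8
    have h9 : aeval τ (2 * bl (hT f h) a v * bl (hT f h) b v -
        bl (hT f h) v v * bl (hT f h) a b) = 0 := by
      rw [hp, map_mul, hτ, zero_mul]
    rw [map_sub, map_mul, map_mul, map_mul, aeval_bl_hT, aeval_bl_hT, aeval_bl_hT, aeval_bl_hT] at h9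
    have h10 : aeval τ (2 : κ[X]) = 2 := by
      rw [map_ofNat]
    rw [h10] at h9
    exact h9

end Pool.Agent.Lib.MP_8ab79f_ag.Six
end
end

section

set_option autoImplicit false
set_option linter.unusedSectionVars false

noncomputable section

namespace Pool.Agent.Lib.MP_8ab79f_ag.Six

open Polynomial

section

variable {κ : Type*} [Field κ]

/-- The point of the intersection attached to `v`: with `A = h - s f`, `y = 2 A(u,v) v - A(v,v) u`
it is `f(y,y) O - 2 f(O,y) y`. -/
def ptY (f h : Matrix (Fin 7) (Fin 7) κ) (s : κ) (u v : Fin 7 → κ) : Fin 7 → κ :=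
  (2 * bl (h - s • f) u v) • v - (bl (h - s • f) v v) • u

def ptR (f h : Matrix (Fin 7) (Fin 7) κ) (s : κ) (O u v : Fin 7 → κ) : Fin 7 → κ :=
  (bl f (ptY f h s u v) (ptY f h s u v)) • O - (2 * bl f O (ptY f h s u v)) • ptY f h s u v

end

end Pool.Agent.Lib.MP_8ab79f_ag.Six
end
end

section

set_option autoImplicit false
set_option linter.unusedSectionVars false

noncomputable section

namespace Pool.Agent.Lib.MP_8ab79f_ag.Six

open Polynomial

variable {κ : Type*} [Field κ] [CharZero κ]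

theorem ptR_mem {f h : Matrix (Fin 7) (Fin 7) κ} (hf : f.IsSymm) (hh : h.IsSymm) {s : κ}
    {O u v : Fin 7 → κ} (hfO : bl f O O = 0) (hhO : bl h O O = 0) (hfu : bl f u O = 0)
    (hhu : bl h u O = 0) (hu : bl h u u = s * bl f u u) (hv : bl (h - s • f) v O = 0) :
    bl f (ptR f h s O u v) (ptR f h s O u v) = 0 ∧
      bl h (ptR f h s O u v) (ptR f h s O u v) = 0 ∧
      bl h O (ptR f h s O u v) = s * bl f O (ptR f h s O u v) := by
  have hA : (h - s • f).IsSymm := by
    ext i j
    simp [Matrix.transpose_apply, hf.apply i j, hh.apply i j]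
  have hAuO : bl (h - s • f) u O = 0 := by
    rw [bl_sub_mat, bl_smul_mat, hhu, hfu]; ring
  have hAOO : bl (h - s • f) O O = 0 := by
    rw [bl_sub_mat, bl_smul_mat, hhO, hfO]; ring
  have hAuu : bl (h - s • f) u u = 0 := by
    rw [bl_sub_mat, bl_smul_mat, hu]; ring
  set y := ptY f h s u v with hy
  have hAyO : bl (h - s • f) y O = 0 := by
    rw [hy, ptY, bl_sub_left, bl_smul_left, bl_smul_left, hv, hAuO]; ring
  have hAyy : bl (h - s • f) y y = 0 := by
    rw [hy, ptY, bl_sub_left, bl_smul_left, bl_smul_left, bl_sub_right, bl_sub_right,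
      bl_smul_right, bl_smul_right, bl_smul_right, bl_smul_right, hAuu, bl_comm hA v u]
    ring
  have hR : ptR f h s O u v = (bl f y y) • O - (2 * bl f O y) • y := rfl
  have h1 : bl f (ptR f h s O u v) (ptR f h s O u v) = 0 := by
    rw [hR, bl_sub_left, bl_smul_left, bl_smul_left, bl_sub_right, bl_sub_right,
      bl_smul_right, bl_smul_right, bl_smul_right, bl_smul_right, hfO, bl_comm hf y O]
    ring
  have h2 : bl (h - s • f) (ptR f h s O u v) (ptR f h s O u v) = 0 := by
    rw [hR, bl_sub_left, bl_smul_left, bl_smul_left, bl_sub_right, bl_sub_right,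
      bl_smul_right, bl_smul_right, bl_smul_right, bl_smul_right, hAOO, bl_comm hA O y, hAyO, hAyy]
    ring
  have h3 : bl (h - s • f) O (ptR f h s O u v) = 0 := by
    rw [hR, bl_sub_right, bl_smul_right, bl_smul_right, hAOO, bl_comm hA O y, hAyO]
    ring
  rw [bl_sub_mat, bl_smul_mat] at h2 h3
  refine ⟨h1, ?_, ?_⟩
  · rw [h1] at h2
    linear_combination h2
  · linear_combination h3

end Pool.Agent.Lib.MP_8ab79f_ag.Six
end
end
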