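import Pool.Agent.Lib.MP_8ab79f_ag.Mg.G002

section

set_option autoImplicit false
set_option linter.unusedSectionVars false

noncomputable section

namespace Pool.Agent.Lib.MP_8ab79f_ag.Six

open Polynomial

section degrees

variable {κ : Type*} [Field κ]

private theorem exC_natDegree_le (A : Matrix (Fin 7) (Fin 7) κ) {x y : Fin 7 → κ[X]} {m n : ℕ}
    (hx : ∀ i, (x i).natDegree ≤ m) (hy : ∀ i, (y i).natDegree ≤ n) :
    (bl (A.map C) x y).natDegree ≤ m + n := by
  unfold bl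
  refine natDegree_sum_le_of_forall_le _ _ fun i _ => ?_
  refine natDegree_sum_le_of_forall_le _ _ fun j _ => ?_
  refine natDegree_mul_le_of_le ?_ (hy j)
  rw [Matrix.map_apply]
  exact (natDegree_C_mul_le _ _).trans (hx i)

private theorem exC_coeff (A : Matrix (Fin 7) (Fin 7) κ) {x y : Fin 7 → κ[X]} {m n : ℕ}
    (hx : ∀ i, (x i).natDegree ≤ m) (hy : ∀ i, (y i).natDegree ≤ n) :
    (bl (A.map C) x y).coeff (m + n) =
      bl A (fun i => (x i).coeff m) (fun i => (y i).coeff n) := by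
  unfold bl
  rw [finsetSum_coeff]
  refine Finset.sum_congr rfl fun i _ => ?_
  rw [finsetSum_coeff]
  refine Finset.sum_congr rfl fun j _ => ?_
  rw [Matrix.map_apply, mul_assoc, coeff_C_mul, coeff_mul_add_eq_of_natDegree_le (hx i) (hy j)]
  ring

private theorem exT_natDegree_le (f h : Matrix (Fin 7) (Fin 7) κ) {x y : Fin 7 → κ[X]} {m n : ℕ}
    (hx : ∀ i, (x i).natDegree ≤ m) (hy : ∀ i, (y i).natDegree ≤ n) :
    (bl (hT f h) x y).natDegree ≤ m + n + 1 := by
  rw [bl_hT]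
  refine (natDegree_sub_le _ _).trans (max_le ?_ ?_)
  · exact (exC_natDegree_le h hx hy).trans (Nat.le_succ _)
  · have := natDegree_mul_le_of_le (natDegree_X_le (R := κ)) (exC_natDegree_le f hx hy)
    omega

private theorem exT_coeff (f h : Matrix (Fin 7) (Fin 7) κ) {x y : Fin 7 → κ[X]} {m n : ℕ}
    (hx : ∀ i, (x i).natDegree ≤ m) (hy : ∀ i, (y i).natDegree ≤ n) :
    (bl (hT f h) x y).coeff (m + n + 1) =
      - bl f (fun i => (x i).coeff m) (fun i => (y i).coeff n) := by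
  rw [bl_hT, coeff_sub, coeff_X_mul, exC_coeff f hx hy,
    coeff_eq_zero_of_natDegree_lt (lt_of_le_of_lt (exC_natDegree_le h hx hy) (Nat.lt_succ_self _)),
    zero_sub]

private theorem exF_natDegree_le (t₁ : κ) : (X * (X - C t₁) : κ[X]).natDegree ≤ 2 :=
  natDegree_mul_le_of_le natDegree_X_le (natDegree_X_sub_C_le _)

private theorem exF_coeff (t₁ : κ) : (X * (X - C t₁) : κ[X]).coeff 2 = 1 := by
  rw [coeff_X_mul, coeff_sub, coeff_X_one, coeff_C_succ, sub_zero]

end degrees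

/-- The normalized lattice: vectors orthogonal to `O` for all members of the pencil, in the kernel
of a fixed linear form. -/
def N0 {κ : Type*} [Field κ] (f h : Matrix (Fin 7) (Fin 7) κ) (O ω : Fin 7 → κ)
    (a : Fin 7 → κ[X]) : Prop :=
  bl (hT f h) a (cst O) = 0 ∧ ∑ i, C (ω i) * a i = 0

section normalize

variable {κ : Type*} [Field κ]

/-- Normalization of a vector of the lattice. -/
private def exN (O ω : Fin 7 → κ) (W : Fin 7 → κ[X]) : Fin 7 → κ[X] :=
  W - (∑ j, C (ω j) * W j) • cst O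

private theorem hOO {f h : Matrix (Fin 7) (Fin 7) κ} {O : Fin 7 → κ} (hfO : bl f O O = 0)
    (hhO : bl h O O = 0) : bl (hT f h) (cst O) (cst O) = 0 := by
  rw [bl_hT, bl_cst, bl_cst, hfO, hhO]
  simp

private theorem exN_N0 {f h : Matrix (Fin 7) (Fin 7) κ} {O ω : Fin 7 → κ} (hfO : bl f O O = 0)
    (hhO : bl h O O = 0) (hω : ∑ i, ω i * O i = 1) {W : Fin 7 → κ[X]}
    (hW : bl (hT f h) W (cst O) = 0) : N0 f h O ω (exN O ω W) := by
  constructor
  · rw [exN, bl_sub_left, bl_smul_left, hW, hOO hfO hhO]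
    ring
  · have e1 : ∑ i, C (ω i) * (exN O ω W) i =
        ∑ i, C (ω i) * W i - (∑ j, C (ω j) * W j) * ∑ i, C (ω i) * C (O i) := by
      rw [Finset.mul_sum, ← Finset.sum_sub_distrib]
      refine Finset.sum_congr rfl fun i _ => ?_
      simp only [exN, Pi.sub_apply, Pi.smul_apply, smul_eq_mul, cst]
      ring
    have e2 : ∑ i, C (ω i) * C (O i) = 1 := by
      rw [← C_1, ← hω, map_sum]
      refine Finset.sum_congr rfl fun i _ => ?_
      rw [C_mul]
    rw [e1, e2]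
    ring

private theorem exN_self {f h : Matrix (Fin 7) (Fin 7) κ} (hf : f.IsSymm) (hh : h.IsSymm)
    {O ω : Fin 7 → κ} (hfO : bl f O O = 0)
    (hhO : bl h O O = 0) {W : Fin 7 → κ[X]}
    (hW : bl (hT f h) W (cst O) = 0) :
    bl (hT f h) (exN O ω W) (exN O ω W) = bl (hT f h) W W := by
  rw [exN, bl_sub_left, bl_sub_right, bl_sub_right, bl_smul_left, bl_smul_left, bl_smul_right,
    bl_smul_right, hOO hfO hhO, hW, bl_comm (isSymm_hT hf hh) (cst O) W, hW]
  ring

private theorem exN_right {f h : Matrix (Fin 7) (Fin 7) κ} {O ω : Fin 7 → κ}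
    {x W : Fin 7 → κ[X]} (hx : bl (hT f h) x (cst O) = 0) :
    bl (hT f h) x (exN O ω W) = bl (hT f h) x W := by
  rw [exN, bl_sub_right, bl_smul_right, hx]
  ring

private theorem exN_natDegree (O ω : Fin 7 → κ) {W : Fin 7 → κ[X]} {E : ℕ}
    (hW : ∀ i, (W i).natDegree ≤ E) (i : Fin 7) : (exN O ω W i).natDegree ≤ E := by
  have e : exN O ω W i = W i - (∑ j, C (ω j) * W j) * C (O i) := rfl
  rw [e]
  refine (natDegree_sub_le _ _).trans (max_le (hW i) ?_)
  refine (natDegree_mul_C_le _ _).trans ?_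
  exact natDegree_sum_le_of_forall_le _ _ fun j _ => (natDegree_C_mul_le _ _).trans (hW j)

private theorem exN_coeff (O ω : Fin 7 → κ) (W : Fin 7 → κ[X]) (E : ℕ) :
    (fun i => (exN O ω W i).coeff E) =
      (fun i => (W i).coeff E) - (∑ j, ω j * (W j).coeff E) • O := by
  ext i
  have e : exN O ω W i = W i - (∑ j, C (ω j) * W j) * C (O i) := rfl
  rw [e, coeff_sub, coeff_mul_C, finsetSum_coeff]
  simp only [coeff_C_mul, Pi.sub_apply, Pi.smul_apply, smul_eq_mul]

private theorem X_exN (O ω : Fin 7 → κ) (W : Fin 7 → κ[X]) (i : Fin 7) :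
    X * exN O ω W i = exN O ω (fun i => X * W i) i := by
  have e : exN O ω W i = W i - (∑ j, C (ω j) * W j) * C (O i) := rfl
  have e' : exN O ω (fun i => X * W i) i =
    X * W i - (∑ j, C (ω j) * (X * W j)) * C (O i) := rfl
  have e2 : ∑ j, C (ω j) * (X * W j) = X * ∑ j, C (ω j) * W j := by
    rw [Finset.mul_sum]
    refine Finset.sum_congr rfl fun j _ => ?_
    ring
  rw [e, e', e2]
  ring

private theorem transfer (A : Matrix (Fin 7) (Fin 7) κ[X]) (F ℓ : κ[X])
    (a₀ b₀ : Fin 7 → κ[X]) {wa wb wa' wb' : Fin 7 → κ[X]}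
    (h1 : ∀ i, ℓ ∣ wa i - wa' i) (h2 : ∀ i, ℓ ∣ wb i - wb' i) :
    ℓ ∣ (bl A wa wa - F * bl A wb wb) - (bl A wa' wa' - F * bl A wb' wb') ∧
    ℓ ∣ (bl A a₀ wa - F * bl A b₀ wb) - (bl A a₀ wa' - F * bl A b₀ wb') ∧
    ℓ ∣ bl A wb wb - bl A wb' wb' := by
  refine ⟨?_, ?_, bl_dvd A h2 h2⟩
  · have := dvd_sub (bl_dvd A h1 h1) (Dvd.dvd.mul_left (bl_dvd A h2 h2) F)
    convert this using 1
    ring
  · have := dvd_sub (bl_dvd_right A h1 a₀) (Dvd.dvd.mul_left (bl_dvd_right A h2 b₀) F)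
    convert this using 1
    ring

private theorem transfer' (A : Matrix (Fin 7) (Fin 7) κ[X]) (F : κ[X]) (τ : κ)
    (a₀ b₀ : Fin 7 → κ[X]) {wa wb wa' wb' : Fin 7 → κ[X]}
    (h1 : ∀ i, (X - C τ) ^ 2 ∣ wa i - wa' i) (h2 : ∀ i, (X - C τ) ^ 2 ∣ wb i - wb' i)
    (h3 : (X - C τ) ^ 2 ∣ bl A wa' wa' - F * bl A wb' wb')
    (h4 : (bl A wb' wb').eval τ ≠ 0)
    (h5 : ¬ (X - C τ) ^ 2 ∣ bl A a₀ wa' - F * bl A b₀ wb') :
    (X - C τ) ^ 2 ∣ bl A wa wa - F * bl A wb wb ∧ (bl A wb wb).eval τ ≠ 0 ∧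
    ¬ (X - C τ) ^ 2 ∣ bl A a₀ wa - F * bl A b₀ wb := by
  obtain ⟨t1, t2, t3⟩ := transfer A F ((X - C τ) ^ 2) a₀ b₀ h1 h2
  refine ⟨(dvd_sub_left h3).1 t1 |>.trans dvd_rfl, ?_, ?_⟩
  · have h6 : (X - C τ) ∣ bl A wb wb - bl A wb' wb' :=
      (dvd_pow_self _ two_ne_zero).trans t3
    rw [dvd_iff_isRoot, IsRoot.def, eval_sub, sub_eq_zero] at h6
    rw [h6]
    exact h4
  · intro h6
    exact h5 ((dvd_sub_right h6).1 t2)

end normalize

section

variable {κ : Type*} [Field κ] [CharZero κ]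

/-- The global reflection vector. -/
theorem exists_w {f h : Matrix (Fin 7) (Fin 7) κ} (hf : f.IsSymm) (hh : h.IsSymm)
    (hdf : f.det ≠ 0) (hdh : h.det ≠ 0) {O e e' ω : Fin 7 → κ} (hfO : bl f O O = 0)
    (hhO : bl h O O = 0) (hfe : bl f O e = 1) (hhe : bl h O e = 0) (hfe' : bl f O e' = 0)
    (hhe' : bl h O e' = 1) (hω : ∑ i, ω i * O i = 1) {t₁ : κ} (ht₁ : t₁ ≠ 0)
    (hdt : (h - t₁ • f).det ≠ 0) {P u : Fin 7 → κ} (hP : bl h P P = 0) (hPO : bl h P O = 0)
    (hPn : ∀ c : κ, P ≠ c • O) (hu : bl h u u = t₁ * bl f u u) (hfu : bl f u O = 0)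
    (hhu : bl h u O = 0) (hun : ∀ c : κ, u ≠ c • O) {a₀ b₀ : Fin 7 → κ[X]}
    (ha₀ : N0 f h O ω a₀) (hb₀ : N0 f h O ω b₀)
    (hΦ : bl (hT f h) a₀ a₀ = X * (X - C t₁) * bl (hT f h) b₀ b₀)
    (hprim : ∀ τ : κ, (∃ i, (a₀ i).eval τ ≠ 0) ∨ ∃ i, (b₀ i).eval τ ≠ 0)
    (D₀ : ℕ) (ha₀d : ∀ i, (a₀ i).natDegree ≤ D₀) (hb₀d : ∀ i, (X * b₀ i).natDegree ≤ D₀)
    (hD₀ : (∃ i, (a₀ i).coeff D₀ ≠ 0) ∨ ∃ i, (X * b₀ i).coeff D₀ ≠ 0) :
    ∃ (wa wb : Fin 7 → κ[X]) (E : ℕ), N0 f h O ω wa ∧ N0 f h O ω wb ∧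
      X ^ 2 ∣ bl (hT f h) wa wa - X * (X - C t₁) * bl (hT f h) wb wb ∧
      (bl (hT f h) wb wb).eval 0 ≠ 0 ∧
      ¬ X ^ 2 ∣ bl (hT f h) a₀ wa - X * (X - C t₁) * bl (hT f h) b₀ wb ∧
      (X - C t₁) ^ 2 ∣ bl (hT f h) wa wa - X * (X - C t₁) * bl (hT f h) wb wb ∧
      (bl (hT f h) wb wb).eval t₁ ≠ 0 ∧
      ¬ (X - C t₁) ^ 2 ∣ bl (hT f h) a₀ wa - X * (X - C t₁) * bl (hT f h) b₀ wb ∧
      (∀ i, (wa i).natDegree ≤ E) ∧ (∀ i, (X * wb i).natDegree ≤ E) ∧
      bl f (fun i => (wa i).coeff E) (fun i => (wa i).coeff E) =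
        bl f (fun i => (X * wb i).coeff E) (fun i => (X * wb i).coeff E) ∧
      bl f (fun i => (wa i).coeff E) (fun i => (wa i).coeff E) ≠ 0 ∧
      bl f (fun i => (a₀ i).coeff D₀) (fun i => (wa i).coeff E) -
        bl f (fun i => (X * b₀ i).coeff D₀) (fun i => (X * wb i).coeff E) ≠ 0 := by
  have hHs : (hT f h).IsSymm := isSymm_hT hf hh
  set H := hT f h with hH
  have hO : O ≠ 0 := by
    rintro rfl
    simp at hω
  -- local vectors
  have hne : ∀ τ : κ, ¬ ((∃ c : κ, (fun i => (a₀ i).eval τ) = c • O) ∧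
      ∃ c : κ, (fun i => (b₀ i).eval τ) = c • O) := by
    rintro τ ⟨⟨c, hc⟩, ⟨d, hd⟩⟩
    have key : ∀ (x : Fin 7 → κ[X]) (c : κ), ∑ i, C (ω i) * x i = 0 →
        (fun i => (x i).eval τ) = c • O → ∀ i, (x i).eval τ = 0 := by
      intro x c hx hc
      have e1 : ∑ i, ω i * (x i).eval τ = 0 := by
        have := congrArg (eval τ) hx
        rw [eval_finsetSum, eval_zero] at this
        simpa only [eval_mul, eval_C] using this
      have e2 : ∀ i, (x i).eval τ = c * O i := fun i => congrFun hc i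
      have e3 : c = 0 := by
        simp only [e2] at e1
        have e4 : ∑ i, ω i * (c * O i) = c * ∑ i, ω i * O i := by
          rw [Finset.mul_sum]
          refine Finset.sum_congr rfl fun i _ => ?_
          ring
        rw [e4, hω, mul_one] at e1
        exact e1
      intro i
      rw [e2, e3, zero_mul]
    rcases hprim τ with ⟨i, hi⟩ | ⟨i, hi⟩
    · exact hi (key a₀ c ha₀.2 hc i)
    · exact hi (key b₀ d hb₀.2 hd i)
  obtain ⟨wa0, wb0, p1, p2, p3, p4, p5⟩ := local_w hf hh hfO hhO hfe' hhe' (0 : κ)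
    (by rw [zero_smul, sub_zero]; exact hdh) (X - C t₁)
    (by rw [eval_sub, eval_X, eval_C, zero_sub]; exact neg_ne_zero.2 ht₁) (y₀ := P)
    (by rw [zero_smul, sub_zero]; exact hP) (by rw [zero_smul, sub_zero]; exact hPO) hPn
    ha₀.1 hb₀.1 (by rw [C_0, sub_zero]; exact hΦ) (hne 0)
  obtain ⟨wa1, wb1, q1, q2, q3, q4, q5⟩ := local_w hf hh hfO hhO hfe' hhe' t₁ hdt X
    (by rw [eval_X]; exact ht₁) (y₀ := u)
    (by rw [bl_sub_mat, bl_smul_mat, hu]; ring)
    (by rw [bl_sub_mat, bl_smul_mat, hfu, hhu]; ring) hun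
    ha₀.1 hb₀.1 (by rw [mul_comm (X - C t₁) X]; exact hΦ) (hne t₁)
  rw [mul_comm (X - C t₁) X] at q3 q5
  rw [C_0, sub_zero] at p3 p5
  -- the vector at infinity
  set α : Fin 7 → κ := fun i => (a₀ i).coeff D₀ with hα
  set β : Fin 7 → κ := fun i => (X * b₀ i).coeff D₀ with hβ
  have hcst : ∀ i, (cst O i).natDegree ≤ 0 := fun i => (natDegree_C _).le
  have hfα : bl f α O = 0 := by
    have e1 := exT_coeff f h ha₀d hcst
    rw [← hH, ha₀.1, coeff_zero] at e1
    have e2 : (fun i => (cst O i).coeff 0) = O := by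
      ext i
      exact coeff_C_zero
    rw [e2] at e1
    exact neg_eq_zero.1 e1.symm
  have hfβ : bl f β O = 0 := by
    have e1 := exT_coeff f h hb₀d hcst
    have e3 : bl (hT f h) (fun i => X * b₀ i) (cst O) = 0 := by
      have e4 : (fun i => X * b₀ i) = (X : κ[X]) • b₀ := rfl
      rw [e4, bl_smul_left, hb₀.1, mul_zero]
    rw [e3, coeff_zero] at e1
    have e2 : (fun i => (cst O i).coeff 0) = O := by
      ext i
      exact coeff_C_zero
    rw [e2] at e1
    exact neg_eq_zero.1 e1.symm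
  have hneI : ¬ ((∃ c : κ, α = c • O) ∧ ∃ c : κ, β = c • O) := by
    rintro ⟨⟨c, hc⟩, ⟨d, hd⟩⟩
    have key : ∀ (x : Fin 7 → κ[X]) (c : κ), ∑ i, C (ω i) * x i = 0 →
        (fun i => (x i).coeff D₀) = c • O → ∀ i, (x i).coeff D₀ = 0 := by
      intro x c hx hc
      have e1 : ∑ i, ω i * (x i).coeff D₀ = 0 := by
        have := congrArg (fun p : κ[X] => p.coeff D₀) hx
        simp only [finsetSum_coeff, coeff_C_mul, coeff_zero] at this
        exact this
      have e2 : ∀ i, (x i).coeff D₀ = c * O i := fun i => congrFun hc i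
      have e3 : c = 0 := by
        simp only [e2] at e1
        have e4 : ∑ i, ω i * (c * O i) = c * ∑ i, ω i * O i := by
          rw [Finset.mul_sum]
          refine Finset.sum_congr rfl fun i _ => ?_
          ring
        rw [e4, hω, mul_one] at e1
        exact e1
      intro i
      rw [e2, e3, zero_mul]
    have hb₀2 : ∑ i, C (ω i) * (X * b₀ i) = 0 := by
      have : ∑ i, C (ω i) * (X * b₀ i) = X * ∑ i, C (ω i) * b₀ i := by
        rw [Finset.mul_sum]
        refine Finset.sum_congr rfl fun i _ => ?_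
        ring
      rw [this, hb₀.2, mul_zero]
    rcases hD₀ with ⟨i, hi⟩ | ⟨i, hi⟩
    · exact hi (key a₀ c ha₀.2 hc i)
    · exact hi (key (fun i => X * b₀ i) d hb₀2 hd i)
  obtain ⟨b, s, hs, hbO, hbb, hsb⟩ := inf_w hf hdf hfO hO hfα hfβ hneI
  -- the pieces
  set γ : κ := bl h b O with hγ
  set g : Fin 7 → κ[X] := (X : κ[X]) • cst b + C γ • cst e with hg
  have hgO : bl H g (cst O) = 0 := by
    rw [hg, bl_add_left, bl_smul_left, bl_smul_left, hH, bl_hT, bl_hT]
    simp only [bl_cst]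
    rw [bl_comm hf e O, bl_comm hh e O, hfe, hhe, hbO, ← hγ]
    simp only [C_0, C_1]
    ring
  set F : κ[X] := X * (X - C t₁) with hF
  have hF2 : (F ^ 2).natDegree ≤ 4 := by
    have := natDegree_pow_le_of_le 2 (exF_natDegree_le t₁)
    exact this
  have hF2c : (F ^ 2).coeff 4 = 1 := by
    rw [pow_two]
    have e1 := coeff_mul_add_eq_of_natDegree_le (exF_natDegree_le t₁) (exF_natDegree_le t₁)
    rw [exF_coeff, mul_one] at e1
    exact e1
  have hgd : ∀ i, (g i).natDegree ≤ 1 := by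
    intro i
    have e1 : g i = X * C (b i) + C γ * C (e i) := rfl
    rw [e1]
    refine (natDegree_add_le _ _).trans (max_le ?_ ?_)
    · exact (natDegree_mul_C_le _ _).trans natDegree_X_le
    · rw [← C_mul, natDegree_C]
      exact Nat.zero_le _
  have hgc : ∀ i, (g i).coeff 1 = b i := by
    intro i
    have e1 : g i = X * C (b i) + C γ * C (e i) := rfl
    rw [e1, coeff_add, coeff_X_mul, coeff_C_zero, ← C_mul, coeff_C_succ, add_zero]
  have hGd : ∀ i, (F ^ 2 * g i).natDegree ≤ 4 + 1 := fun i => natDegree_mul_le_of_le hF2 (hgd i)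
  have hGc : ∀ i, (F ^ 2 * g i).coeff (4 + 1) = b i := by
    intro i
    rw [coeff_mul_add_eq_of_natDegree_le hF2 (hgd i), hF2c, hgc, one_mul]
  -- Bezout
  have hcop : IsCoprime ((X : κ[X]) ^ 2) ((X - C t₁) ^ 2) := by
    apply IsCoprime.pow
    have h12 : IsCoprime (X - C (0 : κ)) (X - C t₁) :=
      isCoprime_X_sub_C_of_isUnit_sub (by
        rw [isUnit_iff_ne_zero, zero_sub]
        exact neg_ne_zero.2 ht₁)
    rwa [C_0, sub_zero] at h12
  obtain ⟨r, w, hrw⟩ := hcop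
  set E0 : κ[X] := w * (X - C t₁) ^ 2 with hE0
  set E1 : κ[X] := r * X ^ 2 with hE1
  have hE01 : E0 = 1 - E1 := by rw [hE0, hE1, ← hrw]; ring
  set A : Fin 7 → κ[X] := E0 • wa0 + E1 • wa1 with hA
  set B : Fin 7 → κ[X] := E0 • wb0 + E1 • wb1 with hB
  obtain ⟨k, hkA, hkB⟩ : ∃ k, (∀ i, (A i).natDegree ≤ k) ∧ ∀ i, (B i).natDegree ≤ k := by
    refine ⟨(∑ i, (A i).natDegree) + ∑ i, (B i).natDegree, fun i => ?_, fun i => ?_⟩
    · exact (Finset.single_le_sum (f := fun i => (A i).natDegree) (fun _ _ => Nat.zero_le _)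
        (Finset.mem_univ i)).trans (Nat.le_add_right _ _)
    · exact (Finset.single_le_sum (f := fun i => (B i).natDegree) (fun _ _ => Nat.zero_le _)
        (Finset.mem_univ i)).trans (Nat.le_add_left _ _)
  set Wa : Fin 7 → κ[X] := A + (F ^ 2 * X ^ (k + 1) * C s) • g with hWa
  set Wb : Fin 7 → κ[X] := B + (F ^ 2 * X ^ k) • g with hWb
  have hWaO : bl H Wa (cst O) = 0 := by
    rw [hWa, hA, bl_add_left, bl_add_left, bl_smul_left, bl_smul_left, bl_smul_left, hgO, p1, q1]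
    ring
  have hWbO : bl H Wb (cst O) = 0 := by
    rw [hWb, hB, bl_add_left, bl_add_left, bl_smul_left, bl_smul_left, bl_smul_left, hgO, p2, q2]
    ring
  have hWai : ∀ i, Wa i = A i + X ^ (k + 1) * (C s * (F ^ 2 * g i)) := by
    intro i
    have e1 : Wa i = A i + (F ^ 2 * X ^ (k + 1) * C s) * g i := rfl
    rw [e1]
    ring
  have hWbi : ∀ i, X * Wb i = X * B i + X ^ (k + 1) * (F ^ 2 * g i) := by
    intro i
    have e1 : Wb i = B i + (F ^ 2 * X ^ k) * g i := rfl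
    rw [e1]
    ring
  have dWa : ∀ i, (Wa i).natDegree ≤ k + 6 := by
    intro i
    rw [hWai]
    refine (natDegree_add_le _ _).trans (max_le ((hkA i).trans (by omega)) ?_)
    have e1 := natDegree_mul_le_of_le (natDegree_X_pow_le (R := κ) (k + 1))
      ((natDegree_C_mul_le s (F ^ 2 * g i)).trans (hGd i))
    omega
  have dWb : ∀ i, (X * Wb i).natDegree ≤ k + 6 := by
    intro i
    rw [hWbi]
    refine (natDegree_add_le _ _).trans (max_le ?_ ?_)
    · have e1 := natDegree_mul_le_of_le (natDegree_X_le (R := κ)) (hkB i)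
      omega
    · have e1 := natDegree_mul_le_of_le (natDegree_X_pow_le (R := κ) (k + 1)) (hGd i)
      omega
  have cWa : ∀ i, (Wa i).coeff (k + 6) = s * b i := by
    intro i
    rw [hWai, coeff_add, coeff_eq_zero_of_natDegree_lt (lt_of_le_of_lt (hkA i) (by omega)),
      show k + 6 = (4 + 1) + (k + 1) by omega, coeff_X_pow_mul, coeff_C_mul, hGc, zero_add]
  have cWb : ∀ i, (X * Wb i).coeff (k + 6) = b i := by
    intro i
    rw [hWbi, coeff_add]
    have e1 := natDegree_mul_le_of_le (natDegree_X_le (R := κ)) (hkB i)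
    rw [coeff_eq_zero_of_natDegree_lt (lt_of_le_of_lt e1 (by omega)),
      show k + 6 = (4 + 1) + (k + 1) by omega, coeff_X_pow_mul, hGc, zero_add]
  -- congruences
  have hF2a : (X : κ[X]) ^ 2 ∣ F ^ 2 := pow_dvd_pow_of_dvd (Dvd.intro _ rfl) 2
  have hF2b : (X - C t₁ : κ[X]) ^ 2 ∣ F ^ 2 := pow_dvd_pow_of_dvd (Dvd.intro_left _ rfl) 2
  have cong0 : ∀ (x y z : Fin 7 → κ[X]) (m : κ[X]), ∀ i,
      (X - C (0 : κ)) ^ 2 ∣ (E0 • x + E1 • y + (F ^ 2 * m) • z) i - x i := by
    intro x y z m i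
    rw [C_0, sub_zero]
    have e1 : (E0 • x + E1 • y + (F ^ 2 * m) • z) i - x i =
        X ^ 2 * (r * (y i - x i)) + F ^ 2 * (m * z i) := by
      simp only [Pi.add_apply, Pi.smul_apply, smul_eq_mul]
      rw [hE01, hE1]
      ring
    rw [e1]
    exact dvd_add (Dvd.intro _ rfl) (Dvd.dvd.mul_right hF2a _)
  have cong1 : ∀ (x y z : Fin 7 → κ[X]) (m : κ[X]), ∀ i,
      (X - C t₁) ^ 2 ∣ (E0 • x + E1 • y + (F ^ 2 * m) • z) i - y i := by
    intro x y z m i
    have hE10 : E1 = 1 - E0 := by rw [hE01]; ring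
    have e1 : (E0 • x + E1 • y + (F ^ 2 * m) • z) i - y i =
        (X - C t₁) ^ 2 * (w * (x i - y i)) + F ^ 2 * (m * z i) := by
      simp only [Pi.add_apply, Pi.smul_apply, smul_eq_mul]
      rw [hE10, hE0]
      ring
    rw [e1]
    exact dvd_add (Dvd.intro _ rfl) (Dvd.dvd.mul_right hF2b _)
  have hWa' : Wa = E0 • wa0 + E1 • wa1 + (F ^ 2 * (X ^ (k + 1) * C s)) • g := by
    rw [hWa, hA, mul_assoc]
  have hWb' : Wb = E0 • wb0 + E1 • wb1 + (F ^ 2 * X ^ k) • g := by
    rw [hWb, hB]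
  have tr0 := transfer' H F 0 a₀ b₀ (wa := Wa) (wb := Wb) (wa' := wa0) (wb' := wb0)
    (by rw [hWa']; exact cong0 _ _ _ _) (by rw [hWb']; exact cong0 _ _ _ _)
    (by rw [C_0, sub_zero]; exact p3) p4 (by rw [C_0, sub_zero]; exact p5)
  have tr1 := transfer' H F t₁ a₀ b₀ (wa := Wa) (wb := Wb) (wa' := wa1) (wb' := wb1)
    (by rw [hWa']; exact cong1 _ _ _ _) (by rw [hWb']; exact cong1 _ _ _ _) q3 q4 q5
  rw [C_0, sub_zero] at tr0
  -- normalization
  have n1 := exN_self (ω := ω) hf hh hfO hhO hWaO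
  have n2 := exN_self (ω := ω) hf hh hfO hhO hWbO
  have n3 := exN_right (ω := ω) (W := Wa) ha₀.1
  have n4 := exN_right (ω := ω) (W := Wb) hb₀.1
  have hcWa : (fun i => (Wa i).coeff (k + 6)) = s • b := funext cWa
  have hcWb : (fun i => (X * Wb i).coeff (k + 6)) = b := funext cWb
  have va : (fun i => (exN O ω Wa i).coeff (k + 6)) =
      s • b - (∑ j, ω j * (Wa j).coeff (k + 6)) • O := by
    rw [exN_coeff, hcWa]
  have vb : (fun i => (X * exN O ω Wb i).coeff (k + 6)) =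
      b - (∑ j, ω j * (X * Wb j).coeff (k + 6)) • O := by
    simp only [X_exN]
    rw [exN_coeff, hcWb]
  have hOb : bl f O b = 0 := by rw [bl_comm hf, hbO]
  have hss : s * s = 1 := by
    rcases hs with rfl | rfl <;> ring
  have va2 : bl f (s • b - (∑ j, ω j * (Wa j).coeff (k + 6)) • O)
      (s • b - (∑ j, ω j * (Wa j).coeff (k + 6)) • O) = bl f b b := by
    simp only [bl_sub_left, bl_sub_right, bl_smul_left, bl_smul_right, hbO, hOb, hfO]
    linear_combination (bl f b b) * hss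
  have vb2 : bl f (b - (∑ j, ω j * (X * Wb j).coeff (k + 6)) • O)
      (b - (∑ j, ω j * (X * Wb j).coeff (k + 6)) • O) = bl f b b := by
    simp only [bl_sub_left, bl_sub_right, bl_smul_left, bl_smul_right, hbO, hOb, hfO]
    ring
  refine ⟨exN O ω Wa, exN O ω Wb, k + 6, exN_N0 hfO hhO hω hWaO, exN_N0 hfO hhO hω hWbO,
    ?_, ?_, ?_, ?_, ?_, ?_, exN_natDegree O ω dWa, ?_, ?_, ?_, ?_⟩
  · rw [n1, n2]; exact tr0.1
  · rw [n2]; exact tr0.2.1
  · rw [n3, n4]; exact tr0.2.2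
  · rw [n1, n2]; exact tr1.1
  · rw [n2]; exact tr1.2.1
  · rw [n3, n4]; exact tr1.2.2
  · intro i
    rw [X_exN]
    exact exN_natDegree O ω dWb i
  · rw [va, vb, va2, vb2]
  · rw [va, va2]; exact hbb
  · rw [va, vb]
    simp only [bl_sub_right, bl_smul_right, hfα, hfβ, mul_zero, sub_zero]
    exact hsb

end

end Pool.Agent.Lib.MP_8ab79f_ag.Six
end
end

section

set_option autoImplicit false
set_option linter.unusedSectionVars false

noncomputable section

namespace Pool.Agent.Lib.MP_8ab79f_ag.Six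

open Polynomial

/-- The four linear conditions on a pair of vectors. -/
def isoCond {κ : Type*} [Field κ] (f h : Matrix (Fin 7) (Fin 7) κ) (O ω : Fin 7 → κ) :
    ((Fin 7 → κ[X]) × (Fin 7 → κ[X])) →ₗ[κ[X]] (Fin 4 → κ[X]) where
  toFun p := ![bl (hT f h) p.1 (cst O), ∑ i, C (ω i) * p.1 i, bl (hT f h) p.2 (cst O),
    ∑ i, C (ω i) * p.2 i]
  map_add' p q := by
    ext i : 1
    fin_cases i <;> simp [bl_add_left, mul_add, Finset.sum_add_distrib]
  map_smul' c p := by
    ext i : 1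
    fin_cases i <;> simp [bl_smul_left, Finset.mul_sum, mul_left_comm]

theorem isoCond_eq_zero {κ : Type*} [Field κ] (f h : Matrix (Fin 7) (Fin 7) κ)
    (O ω : Fin 7 → κ) (p : (Fin 7 → κ[X]) × (Fin 7 → κ[X])) (hp : isoCond f h O ω p = 0) :
    N0 f h O ω p.1 ∧ N0 f h O ω p.2 := by
  have h0 := congrFun hp 0
  have h1 := congrFun hp 1
  have h2 := congrFun hp 2
  have h3 := congrFun hp 3
  simp only [isoCond, LinearMap.coe_mk, AddHom.coe_mk, Pi.zero_apply] at h0 h1 h2 h3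
  exact ⟨⟨by simpa using h0, by simpa using h1⟩, ⟨by simpa using h2, by simpa using h3⟩⟩

theorem bl_sum_smul {S : Type*} [CommRing S] {ι η : Type*} [Fintype ι] [Fintype η]
    (A : Matrix ι ι S) (v : η → S) (x : η → ι → S) :
    bl A (∑ i, v i • x i) (∑ j, v j • x j) = ∑ i, ∑ j, bl A (x i) (x j) * v i * v j := by
  have hl : ∀ (s : Finset η) (y : ι → S),
      bl A (∑ i ∈ s, v i • x i) y = ∑ i ∈ s, v i * bl A (x i) y := by
    classical
    intro s y
    induction s using Finset.induction_on with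
    | empty => simp [bl_zero_left]
    | insert a s ha ih =>
      rw [Finset.sum_insert ha, Finset.sum_insert ha, bl_add_left, bl_smul_left, ih]
  have hr : ∀ (s : Finset η) (y : ι → S),
      bl A y (∑ i ∈ s, v i • x i) = ∑ i ∈ s, v i * bl A y (x i) := by
    classical
    intro s y
    induction s using Finset.induction_on with
    | empty => simp [bl_zero_right]
    | insert a s ha ih =>
      rw [Finset.sum_insert ha, Finset.sum_insert ha, bl_add_right, bl_smul_right, ih]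
  rw [hl]
  refine Finset.sum_congr rfl fun i _ => ?_
  rw [hr, Finset.mul_sum]
  refine Finset.sum_congr rfl fun j _ => ?_
  ring

/-- The form `⟨1, -t (t - t₁)⟩ ⊗ q` is isotropic over the lattice. -/
theorem exists_ab₀ {κ : Type*} [Field κ] [CharZero κ]
    (h10 : ∀ M : Matrix (Fin 10) (Fin 10) κ[X], ∃ v : Fin 10 → κ[X], v ≠ 0 ∧ bl M v v = 0)
    {f h : Matrix (Fin 7) (Fin 7) κ} {O ω : Fin 7 → κ} (F : κ[X]) :
    ∃ a₀ b₀ : Fin 7 → κ[X], N0 f h O ω a₀ ∧ N0 f h O ω b₀ ∧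
      bl (hT f h) a₀ a₀ = F * bl (hT f h) b₀ b₀ ∧
      ∀ τ : AlgebraicClosure κ, (∃ i, aeval τ (a₀ i) ≠ 0) ∨ ∃ i, aeval τ (b₀ i) ≠ 0 := by
  set L := isoCond f h O ω with hL
  have hk : 10 ≤ Module.finrank κ[X] (LinearMap.ker L) := by
    have h1 := (LinearMap.ker L).finrank_quotient_add_finrank
    rw [LinearEquiv.finrank_eq L.quotKerEquivRange] at h1
    have h2 : Module.finrank κ[X] (LinearMap.range L) ≤ Module.finrank κ[X] (Fin 4 → κ[X]) :=
      Submodule.finrank_le _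
    have h3 : Module.finrank κ[X] (Fin 4 → κ[X]) = 4 := by simp
    have h4 : Module.finrank κ[X] ((Fin 7 → κ[X]) × (Fin 7 → κ[X])) = 14 := by simp
    omega
  obtain ⟨u, hu⟩ := exists_linearIndependent_of_le_finrank hk
  obtain ⟨v, hv0, hv⟩ := h10 (Matrix.of fun i j =>
    bl (hT f h) (u i).1.1 (u j).1.1 - F * bl (hT f h) (u i).1.2 (u j).1.2)
  set w : LinearMap.ker L := ∑ i, v i • u i with hw
  have hw0 : w ≠ 0 := by
    intro h0
    apply hv0
    have := Fintype.linearIndependent_iff.1 hu v h0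
    ext1 i
    exact this i
  have hw1 : (w.1).1 = ∑ i, v i • (u i).1.1 := by
    rw [hw]
    simp [Prod.fst_sum]
  have hw2 : (w.1).2 = ∑ i, v i • (u i).1.2 := by
    rw [hw]
    simp [Prod.snd_sum]
  have hbl : bl (hT f h) (w.1).1 (w.1).1 - F * bl (hT f h) (w.1).2 (w.1).2 = 0 := by
    rw [hw1, hw2, bl_sum_smul, bl_sum_smul, ← hv]
    change _ = ∑ i, ∑ j, (bl (hT f h) (u i).1.1 (u j).1.1 -
      F * bl (hT f h) (u i).1.2 (u j).1.2) * v i * v j
    rw [Finset.mul_sum, ← Finset.sum_sub_distrib]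
    refine Finset.sum_congr rfl fun i _ => ?_
    rw [Finset.mul_sum, ← Finset.sum_sub_distrib]
    refine Finset.sum_congr rfl fun j _ => ?_
    ring
  have hwk : N0 f h O ω (w.1).1 ∧ N0 f h O ω (w.1).2 :=
    isoCond_eq_zero f h O ω w.1 (LinearMap.mem_ker.1 w.2)
  have hs0 : (Sum.elim (w.1).1 (w.1).2 : Fin 7 ⊕ Fin 7 → κ[X]) ≠ 0 := by
    intro h0
    apply hw0
    have h1 : (w.1).1 = 0 := by
      ext1 i
      exact congrFun h0 (Sum.inl i)
    have h2 : (w.1).2 = 0 := by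
      ext1 i
      exact congrFun h0 (Sum.inr i)
    apply Subtype.ext
    exact Prod.ext h1 h2
  obtain ⟨c, w', hc, hcw, hprim⟩ := exists_primitive hs0
  have ha : (w.1).1 = c • fun i => w' (Sum.inl i) := by
    ext1 i
    exact hcw (Sum.inl i)
  have hb : (w.1).2 = c • fun i => w' (Sum.inr i) := by
    ext1 i
    exact hcw (Sum.inr i)
  have hN : ∀ x : Fin 7 → κ[X], N0 f h O ω (c • x) → N0 f h O ω x := by
    intro x hx
    refine ⟨?_, ?_⟩
    · have := hx.1
      rw [bl_smul_left] at this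
      exact (mul_eq_zero.1 this).resolve_left hc
    · have := hx.2
      have h1 : ∑ i, C (ω i) * (c • x) i = c * ∑ i, C (ω i) * x i := by
        rw [Finset.mul_sum]
        refine Finset.sum_congr rfl fun i _ => ?_
        rw [Pi.smul_apply, smul_eq_mul]
        ring
      rw [h1] at this
      exact (mul_eq_zero.1 this).resolve_left hc
  refine ⟨fun i => w' (Sum.inl i), fun i => w' (Sum.inr i), hN _ (ha ▸ hwk.1), hN _ (hb ▸ hwk.2),
    ?_, ?_⟩
  · rw [ha, hb, bl_smul_left, bl_smul_right, bl_smul_left, bl_smul_right] at hbl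
    have h1 : (c * c) * (bl (hT f h) (fun i => w' (Sum.inl i)) (fun i => w' (Sum.inl i)) -
        F * bl (hT f h) (fun i => w' (Sum.inr i)) (fun i => w' (Sum.inr i))) = 0 := by
      rw [← hbl]
      ring
    have h2 := (mul_eq_zero.1 h1).resolve_left (mul_ne_zero hc hc)
    exact sub_eq_zero.1 h2
  · intro τ
    obtain ⟨i, hi⟩ := hprim τ
    rcases i with i | i
    · exact Or.inl ⟨i, hi⟩
    · exact Or.inr ⟨i, hi⟩

end Pool.Agent.Lib.MP_8ab79f_ag.Six
end
end

section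

set_option autoImplicit false
set_option linter.unusedSectionVars false

noncomputable section

namespace Pool.Agent.Lib.MP_8ab79f_ag.Six

open Polynomial

variable {κ : Type*} [Field κ] [CharZero κ]

omit [CharZero κ] in
theorem GReflA_aux {f h : Matrix (Fin 7) (Fin 7) κ} (τ : κ) {wb b₁ : Fin 7 → κ[X]}
    (hwb : (bl (hT f h) wb wb).eval τ ≠ 0) {r e : κ} (hr : r ≠ 0)
    (hre : ∀ i, r * (wb i).eval τ = e * (b₁ i).eval τ) :
    (bl (hT f h) b₁ b₁).eval τ ≠ 0 := by
  rw [eval_bl_hT] at hwb ⊢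
  intro h0
  have h1 : (r • fun i => (wb i).eval τ) = e • fun i => (b₁ i).eval τ := by
    ext i
    simpa using hre i
  have h2 : bl (h - τ • f) (r • fun i => (wb i).eval τ) (r • fun i => (wb i).eval τ) = 0 := by
    rw [h1, bl_smul_left, bl_smul_right, h0, mul_zero, mul_zero]
  rw [bl_smul_left, bl_smul_right] at h2
  exact hwb ((mul_eq_zero.1 ((mul_eq_zero.1 h2).resolve_left hr)).resolve_left hr)

/-- The values of the form at a point after division by the content. -/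
theorem reflect_local {f h : Matrix (Fin 7) (Fin 7) κ} (τ : κ) {a₀ b₀ wa wb : Fin 7 → κ[X]}
    {Φw Φvw c : κ[X]} {a₁ b₁ : Fin 7 → κ[X]} (hΦw : (X - C τ) ^ 2 ∣ Φw)
    (hΦvw : ¬ (X - C τ) ^ 2 ∣ Φvw) (hwb : (bl (hT f h) wb wb).eval τ ≠ 0)
    (ha : ∀ i, Φw * a₀ i - 2 * Φvw * wa i = c * a₁ i)
    (hb : ∀ i, Φw * b₀ i - 2 * Φvw * wb i = c * b₁ i)
    (hprim : (∃ i, (a₁ i).eval τ ≠ 0) ∨ ∃ i, (b₁ i).eval τ ≠ 0) :
    (bl (hT f h) b₁ b₁).eval τ ≠ 0 := by
  have h2 : (2 : κ) ≠ 0 := two_ne_zero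
  obtain ⟨σ, hσ⟩ := hΦw
  have hΦw0 : Φw.eval τ = 0 := by
    rw [hσ]
    simp
  by_cases hk : (X - C τ) ∣ Φvw
  · obtain ⟨ρ, hρ⟩ := hk
    have hρ0 : ρ.eval τ ≠ 0 := by
      intro h0
      have h1 : (X - C τ) ∣ ρ := dvd_iff_isRoot.2 h0
      obtain ⟨ρ', hρ'⟩ := h1
      exact hΦvw ⟨ρ', by rw [hρ, hρ']; ring⟩
    have hΦvw0 : Φvw.eval τ = 0 := by
      rw [hρ]
      simp
    have hc0 : c.eval τ = 0 := by
      rcases hprim with ⟨i, hi⟩ | ⟨i, hi⟩
      · have h3 := congrArg (eval τ) (ha i)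
        rw [eval_sub, eval_mul, eval_mul, eval_mul, eval_mul, hΦw0, hΦvw0] at h3
        have h4 : c.eval τ * (a₁ i).eval τ = 0 := by rw [← h3]; ring
        exact (mul_eq_zero.1 h4).resolve_right hi
      · have h3 := congrArg (eval τ) (hb i)
        rw [eval_sub, eval_mul, eval_mul, eval_mul, eval_mul, hΦw0, hΦvw0] at h3
        have h4 : c.eval τ * (b₁ i).eval τ = 0 := by rw [← h3]; ring
        exact (mul_eq_zero.1 h4).resolve_right hi
    obtain ⟨c', hc'⟩ : (X - C τ) ∣ c := dvd_iff_isRoot.2 hc0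
    have hX : (X - C τ : κ[X]) ≠ 0 := X_sub_C_ne_zero τ
    refine GReflA_aux τ hwb (r := -(2 * ρ.eval τ)) (e := c'.eval τ)
      (neg_ne_zero.2 (mul_ne_zero h2 hρ0)) (fun i => ?_)
    have h3 : (X - C τ) * ((X - C τ) * σ * b₀ i - 2 * ρ * wb i) = (X - C τ) * (c' * b₁ i) := by
      have := hb i
      rw [hσ, hρ, hc'] at this
      linear_combination this
    have h4 := mul_left_cancel₀ hX h3
    have h5 := congrArg (eval τ) h4
    simp only [eval_sub, eval_mul, eval_X, eval_C, sub_self, zero_mul, zero_sub] at h5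
    rw [← h5]
    have h6 : (2 : κ[X]).eval τ = 2 := by simp
    rw [h6]
    ring
  · have hρ0 : Φvw.eval τ ≠ 0 := fun h0 => hk (dvd_iff_isRoot.2 h0)
    refine GReflA_aux τ hwb (r := -(2 * Φvw.eval τ)) (e := c.eval τ)
      (neg_ne_zero.2 (mul_ne_zero h2 hρ0)) (fun i => ?_)
    have h5 := congrArg (eval τ) (hb i)
    simp only [eval_sub, eval_mul, hΦw0, zero_mul, zero_sub] at h5
    rw [← h5]
    have h6 : (2 : κ[X]).eval τ = 2 := by simp
    rw [h6]
    ring

end Pool.Agent.Lib.MP_8ab79f_ag.Six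
end
end

section

set_option autoImplicit false
set_option linter.unusedSectionVars false

noncomputable section

namespace Pool.Agent.Lib.MP_8ab79f_ag.Six

open Polynomial

section degrees

variable {κ : Type*} [Field κ]

private theorem blC_natDegree_le (A : Matrix (Fin 7) (Fin 7) κ) {x y : Fin 7 → κ[X]} {m n : ℕ}
    (hx : ∀ i, (x i).natDegree ≤ m) (hy : ∀ i, (y i).natDegree ≤ n) :
    (bl (A.map C) x y).natDegree ≤ m + n := by
  unfold bl
  refine natDegree_sum_le_of_forall_le _ _ fun i _ => ?_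
  refine natDegree_sum_le_of_forall_le _ _ fun j _ => ?_
  refine natDegree_mul_le_of_le ?_ (hy j)
  rw [Matrix.map_apply]
  exact (natDegree_C_mul_le _ _).trans (hx i)

private theorem blC_coeff (A : Matrix (Fin 7) (Fin 7) κ) {x y : Fin 7 → κ[X]} {m n : ℕ}
    (hx : ∀ i, (x i).natDegree ≤ m) (hy : ∀ i, (y i).natDegree ≤ n) :
    (bl (A.map C) x y).coeff (m + n) =
      bl A (fun i => (x i).coeff m) (fun i => (y i).coeff n) := by
  unfold bl
  rw [finsetSum_coeff]
  refine Finset.sum_congr rfl fun i _ => ?_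
  rw [finsetSum_coeff]
  refine Finset.sum_congr rfl fun j _ => ?_
  rw [Matrix.map_apply, mul_assoc, coeff_C_mul, coeff_mul_add_eq_of_natDegree_le (hx i) (hy j)]
  ring

private theorem blT_natDegree_le (f h : Matrix (Fin 7) (Fin 7) κ) {x y : Fin 7 → κ[X]} {m n : ℕ}
    (hx : ∀ i, (x i).natDegree ≤ m) (hy : ∀ i, (y i).natDegree ≤ n) :
    (bl (hT f h) x y).natDegree ≤ m + n + 1 := by
  rw [bl_hT]
  refine (natDegree_sub_le _ _).trans (max_le ?_ ?_)
  · exact (blC_natDegree_le h hx hy).trans (Nat.le_succ _)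
  · have := natDegree_mul_le_of_le (natDegree_X_le (R := κ)) (blC_natDegree_le f hx hy)
    omega

private theorem blT_coeff (f h : Matrix (Fin 7) (Fin 7) κ) {x y : Fin 7 → κ[X]} {m n : ℕ}
    (hx : ∀ i, (x i).natDegree ≤ m) (hy : ∀ i, (y i).natDegree ≤ n) :
    (bl (hT f h) x y).coeff (m + n + 1) =
      - bl f (fun i => (x i).coeff m) (fun i => (y i).coeff n) := by
  rw [bl_hT, coeff_sub, coeff_X_mul, blC_coeff f hx hy,
    coeff_eq_zero_of_natDegree_lt (lt_of_le_of_lt (blC_natDegree_le h hx hy) (Nat.lt_succ_self _)),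
    zero_sub]

private theorem F_natDegree_le (t₁ : κ) : (X * (X - C t₁) : κ[X]).natDegree ≤ 2 :=
  natDegree_mul_le_of_le natDegree_X_le (natDegree_X_sub_C_le _)

private theorem F_coeff (t₁ : κ) : (X * (X - C t₁) : κ[X]).coeff 2 = 1 := by
  rw [coeff_X_mul, coeff_sub, coeff_X_one, coeff_C_succ, sub_zero]

private theorem FT_eq (f h : Matrix (Fin 7) (Fin 7) κ) (t₁ : κ) (x y : Fin 7 → κ[X]) :
    X ^ 2 * (X * (X - C t₁) * bl (hT f h) x y) =
      X * (X - C t₁) * bl (hT f h) (fun i => X * x i) (fun i => X * y i) := by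
  have h1 : (fun i => X * x i) = (X : κ[X]) • x := rfl
  have h2 : (fun i => X * y i) = (X : κ[X]) • y := rfl
  rw [h1, h2, bl_smul_left, bl_smul_right]
  ring

private theorem FT_natDegree_le (f h : Matrix (Fin 7) (Fin 7) κ) (t₁ : κ) {x y : Fin 7 → κ[X]}
    {m n : ℕ} (hx : ∀ i, (X * x i).natDegree ≤ m) (hy : ∀ i, (X * y i).natDegree ≤ n) :
    (X * (X - C t₁) * bl (hT f h) x y).natDegree ≤ m + n + 1 := by
  rw [natDegree_le_iff_coeff_eq_zero]
  intro N hN
  rw [← coeff_X_pow_mul _ 2 N, FT_eq]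
  apply coeff_eq_zero_of_natDegree_lt
  have := natDegree_mul_le_of_le (F_natDegree_le t₁) (blT_natDegree_le f h hx hy)
  omega

private theorem FT_coeff (f h : Matrix (Fin 7) (Fin 7) κ) (t₁ : κ) {x y : Fin 7 → κ[X]}
    {m n : ℕ} (hx : ∀ i, (X * x i).natDegree ≤ m) (hy : ∀ i, (X * y i).natDegree ≤ n) :
    (X * (X - C t₁) * bl (hT f h) x y).coeff (m + n + 1) =
      - bl f (fun i => (X * x i).coeff m) (fun i => (X * y i).coeff n) := by
  rw [← coeff_X_pow_mul _ 2 (m + n + 1), FT_eq, add_comm (m + n + 1) 2,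
    coeff_mul_add_eq_of_natDegree_le (F_natDegree_le t₁) (blT_natDegree_le f h hx hy), F_coeff,
    blT_coeff f h hx hy, one_mul]

end degrees

variable {κ : Type*} [Field κ] [CharZero κ]

/-- The reflected vector, made primitive. -/
theorem exists_ab₁ {f h : Matrix (Fin 7) (Fin 7) κ} (hf : f.IsSymm) (hh : h.IsSymm)
    {O ω : Fin 7 → κ} {t₁ : κ} {a₀ b₀ wa wb : Fin 7 → κ[X]} {D₀ E : ℕ}
    (ha₀ : N0 f h O ω a₀) (hb₀ : N0 f h O ω b₀) (hwa : N0 f h O ω wa) (hwb : N0 f h O ω wb)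
    (hΦ : bl (hT f h) a₀ a₀ = X * (X - C t₁) * bl (hT f h) b₀ b₀)
    (ha₀d : ∀ i, (a₀ i).natDegree ≤ D₀) (hb₀d : ∀ i, (X * b₀ i).natDegree ≤ D₀)
    (h1 : X ^ 2 ∣ bl (hT f h) wa wa - X * (X - C t₁) * bl (hT f h) wb wb)
    (h2 : (bl (hT f h) wb wb).eval 0 ≠ 0)
    (h3 : ¬ X ^ 2 ∣ bl (hT f h) a₀ wa - X * (X - C t₁) * bl (hT f h) b₀ wb)
    (h4 : (X - C t₁) ^ 2 ∣ bl (hT f h) wa wa - X * (X - C t₁) * bl (hT f h) wb wb)
    (h5 : (bl (hT f h) wb wb).eval t₁ ≠ 0)
    (h6 : ¬ (X - C t₁) ^ 2 ∣ bl (hT f h) a₀ wa - X * (X - C t₁) * bl (hT f h) b₀ wb)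
    (h7 : ∀ i, (wa i).natDegree ≤ E) (h8 : ∀ i, (X * wb i).natDegree ≤ E)
    (h9 : bl f (fun i => (wa i).coeff E) (fun i => (wa i).coeff E) =
      bl f (fun i => (X * wb i).coeff E) (fun i => (X * wb i).coeff E))
    (h10 : bl f (fun i => (wa i).coeff E) (fun i => (wa i).coeff E) ≠ 0)
    (h11 : bl f (fun i => (a₀ i).coeff D₀) (fun i => (wa i).coeff E) -
      bl f (fun i => (X * b₀ i).coeff D₀) (fun i => (X * wb i).coeff E) ≠ 0) :
    ∃ (a₁ b₁ : Fin 7 → κ[X]) (m : ℕ), N0 f h O ω a₁ ∧ N0 f h O ω b₁ ∧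
      bl (hT f h) a₁ a₁ = X * (X - C t₁) * bl (hT f h) b₁ b₁ ∧
      (∀ τ : AlgebraicClosure κ, (∃ i, aeval τ (a₁ i) ≠ 0) ∨ ∃ i, aeval τ (b₁ i) ≠ 0) ∧
      (bl (hT f h) b₁ b₁).eval 0 ≠ 0 ∧ (bl (hT f h) b₁ b₁).eval t₁ ≠ 0 ∧
      (∀ i, (b₁ i).natDegree ≤ m) ∧ (∀ i, (a₁ i).natDegree ≤ m + 1) ∧
      bl f (fun i => (a₁ i).coeff (m + 1)) (fun i => (a₁ i).coeff (m + 1)) ≠ 0 := by
  set H := hT f h with hH
  have hHs : H.IsSymm := isSymm_hT hf hh
  set F : κ[X] := X * (X - C t₁) with hF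
  set Φw := bl H wa wa - F * bl H wb wb with hΦw
  set Φvw := bl H a₀ wa - F * bl H b₀ wb with hΦvw
  set a' : Fin 7 → κ[X] := Φw • a₀ - (2 * Φvw) • wa with ha'
  set b' : Fin 7 → κ[X] := Φw • b₀ - (2 * Φvw) • wb with hb'
  -- degrees
  have dΦw : Φw.natDegree ≤ E + E := by
    rw [natDegree_le_iff_coeff_eq_zero]
    intro N hN
    rw [hΦw, coeff_sub]
    rcases Nat.lt_or_ge (E + E + 1) N with h12 | h12
    · rw [coeff_eq_zero_of_natDegree_lt (lt_of_le_of_lt (blT_natDegree_le f h h7 h7) h12),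
        coeff_eq_zero_of_natDegree_lt (lt_of_le_of_lt (FT_natDegree_le f h t₁ h8 h8) h12), sub_zero]
    · obtain rfl : N = E + E + 1 := by omega
      rw [blT_coeff f h h7 h7, FT_coeff f h t₁ h8 h8, h9]
      ring
  have dΦvw : Φvw.natDegree ≤ D₀ + E + 1 :=
    (natDegree_sub_le _ _).trans (max_le (blT_natDegree_le f h ha₀d h7)
      (FT_natDegree_le f h t₁ hb₀d h8))
  have cΦvw : Φvw.coeff (D₀ + E + 1) = -(bl f (fun i => (a₀ i).coeff D₀) (fun i => (wa i).coeff E) -
      bl f (fun i => (X * b₀ i).coeff D₀) (fun i => (X * wb i).coeff E)) := by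
    rw [hΦvw, coeff_sub, blT_coeff f h ha₀d h7, FT_coeff f h t₁ hb₀d h8]
    ring
  set L := bl f (fun i => (a₀ i).coeff D₀) (fun i => (wa i).coeff E) -
      bl f (fun i => (X * b₀ i).coeff D₀) (fun i => (X * wb i).coeff E) with hL
  obtain ⟨M, hM⟩ : ∃ M, M = D₀ + E + 1 + E := ⟨_, rfl⟩
  have d2 : (2 * Φvw).natDegree ≤ D₀ + E + 1 := by
    have : (2 : κ[X]) = C 2 := (map_ofNat C 2).symm
    rw [this]
    exact (natDegree_C_mul_le _ _).trans dΦvw
  have c2 : (2 * Φvw).coeff (D₀ + E + 1) = -(2 * L) := by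
    have : (2 : κ[X]) = C 2 := (map_ofNat C 2).symm
    rw [this, coeff_C_mul, cΦvw]
    ring
  have da' : ∀ i, (a' i).natDegree ≤ M := by
    intro i
    have e : a' i = Φw * a₀ i - 2 * Φvw * wa i := rfl
    rw [e]
    refine (natDegree_sub_le _ _).trans (max_le ?_ ?_)
    · exact (natDegree_mul_le_of_le dΦw (ha₀d i)).trans (by omega)
    · exact (natDegree_mul_le_of_le d2 (h7 i)).trans (by omega)
  have ca' : ∀ i, (a' i).coeff M = 2 * L * (wa i).coeff E := by
    intro i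
    have e : a' i = Φw * a₀ i - 2 * Φvw * wa i := rfl
    rw [e, coeff_sub, coeff_eq_zero_of_natDegree_lt (lt_of_le_of_lt
      (natDegree_mul_le_of_le dΦw (ha₀d i)) (by omega : E + E + D₀ < M)), hM,
      coeff_mul_add_eq_of_natDegree_le d2 (h7 i), c2]
    ring
  have db' : ∀ i, (X * b' i).natDegree ≤ M := by
    intro i
    have e : X * b' i = Φw * (X * b₀ i) - 2 * Φvw * (X * wb i) := by
      have e' : b' i = Φw * b₀ i - 2 * Φvw * wb i := rfl
      rw [e']
      ring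
    rw [e]
    refine (natDegree_sub_le _ _).trans (max_le ?_ ?_)
    · exact (natDegree_mul_le_of_le dΦw (hb₀d i)).trans (by omega)
    · exact (natDegree_mul_le_of_le d2 (h8 i)).trans (by omega)
  -- nonzero
  obtain ⟨i₀, hi₀⟩ : ∃ i, (wa i).coeff E ≠ 0 := by
    by_contra hcon
    push Not at hcon
    apply h10
    have : (fun i => (wa i).coeff E) = 0 := funext hcon
    rw [this, bl_zero_left]
  have h2L : 2 * L ≠ 0 := mul_ne_zero two_ne_zero h11
  have ha'0 : (a' i₀).coeff M ≠ 0 := by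
    rw [ca']
    exact mul_ne_zero h2L hi₀
  have hv : Sum.elim a' b' ≠ 0 := by
    intro hcon
    have := congrFun hcon (Sum.inl i₀)
    simp only [Sum.elim_inl, Pi.zero_apply] at this
    rw [this, coeff_zero] at ha'0
    exact ha'0 rfl
  obtain ⟨c, v', hc, hcv, hpr⟩ := exists_primitive hv
  set a₁ : Fin 7 → κ[X] := fun i => v' (Sum.inl i) with ha₁
  set b₁ : Fin 7 → κ[X] := fun i => v' (Sum.inr i) with hb₁
  have hca : ∀ i, a' i = c * a₁ i := fun i => hcv (Sum.inl i)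
  have hcb : ∀ i, b' i = c * b₁ i := fun i => hcv (Sum.inr i)
  have hca' : a' = c • a₁ := funext hca
  have hcb' : b' = c • b₁ := funext hcb
  have hprim : ∀ τ : AlgebraicClosure κ, (∃ i, aeval τ (a₁ i) ≠ 0) ∨ ∃ i, aeval τ (b₁ i) ≠ 0 := by
    intro τ
    obtain ⟨i | i, hi⟩ := hpr τ
    · exact Or.inl ⟨i, hi⟩
    · exact Or.inr ⟨i, hi⟩
  have hprim' : ∀ τ : κ, (∃ i, (a₁ i).eval τ ≠ 0) ∨ ∃ i, (b₁ i).eval τ ≠ 0 := by
    intro τ
    have key : ∀ p : κ[X], aeval (algebraMap κ (AlgebraicClosure κ) τ) p ≠ 0 → p.eval τ ≠ 0 := by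
      intro p hp hcon
      apply hp
      rw [aeval_algebraMap_apply, coe_aeval_eq_eval, hcon, map_zero]
    rcases hprim (algebraMap κ (AlgebraicClosure κ) τ) with ⟨i, hi⟩ | ⟨i, hi⟩
    · exact Or.inl ⟨i, key _ hi⟩
    · exact Or.inr ⟨i, key _ hi⟩
  -- the form
  have hform : bl H a₁ a₁ = F * bl H b₁ b₁ := by
    have e1 : bl H a' a' = Φw ^ 2 * bl H a₀ a₀ - 4 * Φw * Φvw * bl H a₀ wa +
        4 * Φvw ^ 2 * bl H wa wa := by
      rw [ha']
      simp only [bl_sub_left, bl_sub_right, bl_smul_left, bl_smul_right]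
      rw [bl_comm hHs wa a₀]
      ring
    have e2 : bl H b' b' = Φw ^ 2 * bl H b₀ b₀ - 4 * Φw * Φvw * bl H b₀ wb +
        4 * Φvw ^ 2 * bl H wb wb := by
      rw [hb']
      simp only [bl_sub_left, bl_sub_right, bl_smul_left, bl_smul_right]
      rw [bl_comm hHs wb b₀]
      ring
    have e3 : bl H a' a' = F * bl H b' b' := by
      rw [e1, e2, hΦ]
      have e4 : bl H a₀ wa = Φvw + F * bl H b₀ wb := by rw [hΦvw]; ring
      have e5 : bl H wa wa = Φw + F * bl H wb wb := by rw [hΦw]; ring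
      rw [e4, e5]
      ring
    rw [hca', hcb'] at e3
    simp only [bl_smul_left, bl_smul_right] at e3
    have e6 : c * c * (bl H a₁ a₁ - F * bl H b₁ b₁) = 0 := by
      linear_combination e3
    rcases mul_eq_zero.1 e6 with h12 | h12
    · exact absurd h12 (mul_ne_zero hc hc)
    · exact sub_eq_zero.1 h12
  have hN : ∀ (x w : Fin 7 → κ[X]) (y : Fin 7 → κ[X]), N0 f h O ω x → N0 f h O ω w →
      Φw • x - (2 * Φvw) • w = c • y → N0 f h O ω y := by
    intro x w y hx hw hy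
    constructor
    · have e1 : bl H (c • y) (cst O) = 0 := by
        rw [← hy, bl_sub_left, bl_smul_left, bl_smul_left, hx.1, hw.1]
        ring
      rw [bl_smul_left] at e1
      exact (mul_eq_zero.1 e1).resolve_left hc
    · have e1 : c * ∑ i, C (ω i) * y i = 0 := by
        have e2 : c * ∑ i, C (ω i) * y i = ∑ i, C (ω i) * (c • y) i := by
          rw [Finset.mul_sum]
          refine Finset.sum_congr rfl fun i _ => ?_
          rw [Pi.smul_apply, smul_eq_mul]
          ring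
        rw [e2, ← hy]
        have e3 : ∑ i, C (ω i) * (Φw • x - (2 * Φvw) • w) i =
            Φw * ∑ i, C (ω i) * x i - 2 * Φvw * ∑ i, C (ω i) * w i := by
          rw [Finset.mul_sum, Finset.mul_sum, ← Finset.sum_sub_distrib]
          refine Finset.sum_congr rfl fun i _ => ?_
          simp only [Pi.sub_apply, Pi.smul_apply, smul_eq_mul]
          ring
        rw [e3, hx.2, hw.2]
        ring
      exact (mul_eq_zero.1 e1).resolve_left hc
  have h0 : (bl H b₁ b₁).eval 0 ≠ 0 := by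
    refine reflect_local (f := f) (h := h) 0 (a₀ := a₀) (b₀ := b₀) (wa := wa) (wb := wb)
      (Φw := Φw) (Φvw := Φvw) (c := c) (a₁ := a₁) (b₁ := b₁) ?_ ?_ h2 hca hcb (hprim' 0)
    · rw [C_0, sub_zero]
      exact h1
    · rw [C_0, sub_zero]
      exact h3
  have ht : (bl H b₁ b₁).eval t₁ ≠ 0 :=
    reflect_local (f := f) (h := h) t₁ (a₀ := a₀) (b₀ := b₀) (wa := wa) (wb := wb)
      (Φw := Φw) (Φvw := Φvw) (c := c) (a₁ := a₁) (b₁ := b₁) h4 h6 h5 hca hcb (hprim' t₁)
  -- final degrees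
  have hb₁0 : ∃ i, b₁ i ≠ 0 := by
    by_contra hcon
    push Not at hcon
    apply h0
    have : b₁ = 0 := funext hcon
    rw [this, bl_zero_left, eval_zero]
  obtain ⟨j₀, hj₀⟩ := hb₁0
  have hdb : ∀ i, b₁ i ≠ 0 → c.natDegree + (1 + (b₁ i).natDegree) ≤ M := by
    intro i hi
    have e1 := db' i
    rw [hcb i] at e1
    have e2 : X * (c * b₁ i) = c * (X * b₁ i) := by ring
    rw [e2, natDegree_mul hc (mul_ne_zero X_ne_zero hi), natDegree_mul X_ne_zero hi,
      natDegree_X] at e1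
    exact e1
  have hda : ∀ i, c.natDegree + (a₁ i).natDegree ≤ M ∨ a₁ i = 0 := by
    intro i
    by_cases hi : a₁ i = 0
    · exact Or.inr hi
    · left
      have e1 := da' i
      rw [hca i, natDegree_mul hc hi] at e1
      exact e1
  have hkM : c.natDegree + 1 ≤ M := by
    have := hdb j₀ hj₀
    omega
  refine ⟨a₁, b₁, M - c.natDegree - 1, hN a₀ wa a₁ ha₀ hwa hca', hN b₀ wb b₁ hb₀ hwb hcb', hform,
    hprim, h0, ht, ?_, ?_, ?_⟩
  · intro i
    by_cases hi : b₁ i = 0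
    · rw [hi, natDegree_zero]
      exact Nat.zero_le _
    · have := hdb i hi
      omega
  · intro i
    rcases hda i with h12 | h12
    · omega
    · rw [h12, natDegree_zero]
      exact Nat.zero_le _
  · have e1 : M - c.natDegree - 1 + 1 = M - c.natDegree := by omega
    have e2 : ∀ i, c.leadingCoeff * (a₁ i).coeff (M - c.natDegree) = 2 * L * (wa i).coeff E := by
      intro i
      have hle : (a₁ i).natDegree ≤ M - c.natDegree := by
        rcases hda i with h12 | h12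
        · omega
        · rw [h12, natDegree_zero]
          exact Nat.zero_le _
      have e3 := coeff_mul_add_eq_of_natDegree_le (le_refl c.natDegree) hle
      rw [← ca' i, hca i, leadingCoeff, ← e3]
      congr 1
      omega
    have hlc : c.leadingCoeff ≠ 0 := leadingCoeff_ne_zero.2 hc
    rw [e1]
    intro hcon
    have e4 : c.leadingCoeff • (fun i => (a₁ i).coeff (M - c.natDegree)) =
        (2 * L) • (fun i => (wa i).coeff E) := by
      ext i
      simp only [Pi.smul_apply, smul_eq_mul]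
      exact e2 i
    have e5 := congrArg (fun x => bl f x x) e4
    simp only [bl_smul_left, bl_smul_right] at e5
    rw [hcon, mul_zero, mul_zero] at e5
    exact (mul_ne_zero h2L (mul_ne_zero h2L h10)) e5.symm

end Pool.Agent.Lib.MP_8ab79f_ag.Six
end
end

section

set_option autoImplicit false
set_option linter.unusedSectionVars false

noncomputable section

namespace Pool.Agent.Lib.MP_8ab79f_ag.Six

open Polynomial

section

variable {κ : Type*} [Field κ]

/-- The first vector of the rotated pair. -/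
def rotA (t₁ : κ) (a b : Fin 7 → κ[X]) (s : κ) : Fin 7 → κ[X] :=
  C s • a + (X * (X - C t₁)) • b

/-- The second vector of the rotated pair. -/
def rotB (a b : Fin 7 → κ[X]) (s : κ) : Fin 7 → κ[X] := a + C s • b

/-- The pair of polynomial vectors from which the rational curve is constructed. -/
structure GoodPair (f h : Matrix (Fin 7) (Fin 7) κ) (O ω : Fin 7 → κ) (t₁ : κ)
    (a b : Fin 7 → κ[X]) (m : ℕ) : Prop where
  ha : N0 f h O ω a
  hb : N0 f h O ω b
  hΦ : bl (hT f h) a a = X * (X - C t₁) * bl (hT f h) b b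
  had : ∀ i, (a i).natDegree ≤ m + 1
  hbd : ∀ i, (b i).natDegree ≤ m
  hlead : bl f (fun i => (b i).coeff m) (fun i => (b i).coeff m) ≠ 0
  h0 : (bl (hT f h) b b).eval 0 ≠ 0
  h1 : (bl (hT f h) b b).eval t₁ ≠ 0
  hane : ∀ τ : AlgebraicClosure κ, ev τ a ≠ 0
  hbne : ∀ τ : AlgebraicClosure κ, ev τ b ≠ 0
  hloc : ∀ τ : AlgebraicClosure κ,
    (NonRad f h O τ (ev τ a) ∧ NonRad f h O τ (ev τ b)) ∨
      (¬ NonRad f h O τ (ev τ a) ∧ ¬ NonRad f h O τ (ev τ b) ∧
        aeval τ (derivative (bl (hT f h) b b)) ≠ 0)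

theorem det_mem (f h : Matrix (Fin 7) (Fin 7) κ) (τ : AlgebraicClosure κ) :
    (mem f h τ).det = aeval τ (hT f h).det := by
  have h1 : (hT f h).map (aeval (R := κ) τ : κ[X] →+* AlgebraicClosure κ) = mem f h τ := by
    ext i j
    simp only [hT, mem, Matrix.map_apply, Matrix.sub_apply, Matrix.smul_apply, smul_eq_mul,
      RingHom.coe_coe, map_sub, map_mul, aeval_C, aeval_X]
  rw [← h1]
  exact ((aeval (R := κ) τ : κ[X] →+* AlgebraicClosure κ).map_det (hT f h)).symm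

end

end Pool.Agent.Lib.MP_8ab79f_ag.Six
end
end

section

set_option autoImplicit false
set_option linter.unusedSectionVars false

noncomputable section

namespace Pool.Agent.Lib.MP_8ab79f_ag.Six

open Polynomial

section GSA

variable {κ : Type*} [Field κ]

/-- `X (X - t₁)` times a square is not a square. -/
theorem gsa_parity {t₁ : κ} (ht₁ : t₁ ≠ 0) {p q : κ[X]} (hp : p ≠ 0)
    (h : p ^ 2 * (X * (X - C t₁)) = q ^ 2) : False := by
  have hF : (X * (X - C t₁) : κ[X]) ≠ 0 := mul_ne_zero X_ne_zero (X_sub_C_ne_zero t₁)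
  have hq : q ≠ 0 := by
    rintro rfl
    rw [zero_pow two_ne_zero] at h
    exact mul_ne_zero (pow_ne_zero 2 hp) hF h
  have h1 : rootMultiplicity 0 (p ^ 2 * (X * (X - C t₁))) = rootMultiplicity 0 (q ^ 2) := by
    rw [h]
  have h2 : ∀ r : κ[X], r ≠ 0 → rootMultiplicity 0 (r ^ 2) = 2 * rootMultiplicity 0 r := by
    intro r hr
    rw [pow_two, rootMultiplicity_mul (mul_ne_zero hr hr)]
    ring
  have h3 : rootMultiplicity 0 (X * (X - C t₁) : κ[X]) = 1 := by
    rw [rootMultiplicity_mul hF]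
    have e1 : rootMultiplicity 0 (X : κ[X]) = 1 := by
      have := rootMultiplicity_X_sub_C_self (x := (0 : κ))
      rwa [C_0, sub_zero] at this
    have e2 : rootMultiplicity 0 (X - C t₁ : κ[X]) = 0 := by
      apply rootMultiplicity_eq_zero
      rw [IsRoot, eval_sub, eval_X, eval_C, zero_sub, neg_eq_zero]
      exact ht₁
    rw [e1, e2]
  rw [rootMultiplicity_mul (mul_ne_zero (pow_ne_zero 2 hp) hF), h2 p hp, h2 q hq, h3] at h1
  omega

/-- some minor of the pair is not zero -/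
theorem gsa_minor {f h : Matrix (Fin 7) (Fin 7) κ} {t₁ : κ} (ht₁ : t₁ ≠ 0)
    {a b : Fin 7 → κ[X]} (hΦ : bl (hT f h) a a = X * (X - C t₁) * bl (hT f h) b b)
    (h0 : (bl (hT f h) b b).eval 0 ≠ 0) : ∃ i j, a i * b j - a j * b i ≠ 0 := by
  by_contra hcon
  push Not at hcon
  have hH : bl (hT f h) b b ≠ 0 := by
    intro e
    rw [e] at h0
    exact h0 eval_zero
  have hb : ∃ j, b j ≠ 0 := by
    by_contra hb
    push Not at hb
    apply hH
    have : b = 0 := funext hb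
    rw [this, bl_zero_left]
  obtain ⟨j, hj⟩ := hb
  have h1 : b j • a = a j • b := by
    funext i
    rw [Pi.smul_apply, Pi.smul_apply, smul_eq_mul, smul_eq_mul]
    linear_combination hcon i j
  have h2 : bl (hT f h) (b j • a) (b j • a) = bl (hT f h) (a j • b) (a j • b) := by rw [h1]
  rw [bl_smul_left, bl_smul_right, bl_smul_left, bl_smul_right, hΦ] at h2
  refine gsa_parity ht₁ hj (q := a j) (mul_right_cancel₀ hH ?_)
  linear_combination h2

/-- the first vector of the pair does not vanish at the roots of `F` -/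
theorem gsa_ne {f h : Matrix (Fin 7) (Fin 7) κ} {t₁ : κ} (ht₁ : t₁ ≠ 0)
    {a b : Fin 7 → κ[X]} (hΦ : bl (hT f h) a a = X * (X - C t₁) * bl (hT f h) b b)
    (h0 : (bl (hT f h) b b).eval 0 ≠ 0) (h1 : (bl (hT f h) b b).eval t₁ ≠ 0) {t : κ}
    (ht : t = 0 ∨ t = t₁) (ha : ∀ i, (a i).eval t = 0) : False := by
  have hd : ∀ i, ∃ w, a i = (X - C t) * w := fun i => dvd_iff_isRoot.2 (ha i)
  choose a' ha' using hd
  have e1 : a = (X - C t) • a' := by
    funext i
    rw [Pi.smul_apply, smul_eq_mul]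
    exact ha' i
  rw [e1, bl_smul_left, bl_smul_right] at hΦ
  rcases ht with rfl | rfl
  · rw [C_0, sub_zero] at hΦ
    have h2 : X * bl (hT f h) a' a' = (X - C t₁) * bl (hT f h) b b :=
      mul_left_cancel₀ X_ne_zero (by linear_combination hΦ)
    have h3 := congrArg (eval 0) h2
    rw [eval_mul, eval_mul, eval_X, eval_sub, eval_X, eval_C, zero_mul, zero_sub] at h3
    exact mul_ne_zero (neg_ne_zero.2 ht₁) h0 h3.symm
  · have h2 : (X - C t) * bl (hT f h) a' a' = X * bl (hT f h) b b :=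
      mul_left_cancel₀ (X_sub_C_ne_zero t) (by linear_combination hΦ)
    have h3 := congrArg (eval t) h2
    rw [eval_mul, eval_mul, eval_X, eval_sub, eval_X, eval_C, sub_self, zero_mul] at h3
    exact mul_ne_zero ht₁ h1 h3.symm

theorem gsa_rotA {t₁ : κ} {a b : Fin 7 → κ[X]} {s : κ} {τ : AlgebraicClosure κ}
    (h : ev τ (rotA t₁ a b s) = 0) (i : Fin 7) :
    algebraMap κ (AlgebraicClosure κ) s * aeval τ (a i) +
      τ * (τ - algebraMap κ (AlgebraicClosure κ) t₁) * aeval τ (b i) = 0 := by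
  have h1 := congrFun h i
  have h2 : ev τ (rotA t₁ a b s) i = algebraMap κ (AlgebraicClosure κ) s * aeval τ (a i) +
      τ * (τ - algebraMap κ (AlgebraicClosure κ) t₁) * aeval τ (b i) := by
    simp only [ev, rotA, Pi.add_apply, Pi.smul_apply, smul_eq_mul, map_add, map_mul, map_sub,
      aeval_C, aeval_X]
  rw [← h2]
  exact h1

theorem gsa_rotB {a b : Fin 7 → κ[X]} {s : κ} {τ : AlgebraicClosure κ}
    (h : ev τ (rotB a b s) = 0) (i : Fin 7) :
    aeval τ (a i) + algebraMap κ (AlgebraicClosure κ) s * aeval τ (b i) = 0 := by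
  have h1 := congrFun h i
  have h2 : ev τ (rotB a b s) i =
      aeval τ (a i) + algebraMap κ (AlgebraicClosure κ) s * aeval τ (b i) := by
    simp only [ev, rotB, Pi.add_apply, Pi.smul_apply, smul_eq_mul, map_add, map_mul, aeval_C]
  rw [← h2]
  exact h1

end GSA

/-- For almost all `s` the rotated vectors vanish nowhere. -/
theorem finite_bad_zero {κ : Type*} [Field κ] [CharZero κ] {f h : Matrix (Fin 7) (Fin 7) κ}
    (hf : f.IsSymm) (hh : h.IsSymm) {t₁ : κ} (ht₁ : t₁ ≠ 0) {a b : Fin 7 → κ[X]}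
    (hΦ : bl (hT f h) a a = X * (X - C t₁) * bl (hT f h) b b)
    (hprim : ∀ τ : AlgebraicClosure κ, (∃ i, aeval τ (a i) ≠ 0) ∨ ∃ i, aeval τ (b i) ≠ 0)
    (h0 : (bl (hT f h) b b).eval 0 ≠ 0) (h1 : (bl (hT f h) b b).eval t₁ ≠ 0) :
    {s : κ | ∃ τ : AlgebraicClosure κ,
      ev τ (rotA t₁ a b s) = 0 ∨ ev τ (rotB a b s) = 0}.Finite := by
  classical
  obtain ⟨i₀, j₀, hM⟩ := gsa_minor ht₁ hΦ h0
  obtain ⟨M, hMdef⟩ : ∃ M, M = a i₀ * b j₀ - a j₀ * b i₀ := ⟨_, rfl⟩
  rw [← hMdef] at hM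
  have hMev : ∀ τ : AlgebraicClosure κ, aeval τ M =
      aeval τ (a i₀) * aeval τ (b j₀) - aeval τ (a j₀) * aeval τ (b i₀) := by
    intro τ
    rw [hMdef, map_sub, map_mul, map_mul]
  have hinj : Function.Injective (algebraMap κ (AlgebraicClosure κ)) :=
    (algebraMap κ (AlgebraicClosure κ)).injective
  -- the first vector does not vanish where the rotated vectors do
  have hA : ∀ (τ : AlgebraicClosure κ) (s : κ), ev τ (rotA t₁ a b s) = 0 →
      ∃ i, aeval τ (a i) ≠ 0 := by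
    intro τ s hs
    by_contra hcon
    push Not at hcon
    rcases hprim τ with h2 | ⟨i, hi⟩
    · obtain ⟨i, hi⟩ := h2
      exact hi (hcon i)
    · have h3 := gsa_rotA hs i
      rw [hcon i, mul_zero, zero_add] at h3
      have h4 : τ * (τ - algebraMap κ (AlgebraicClosure κ) t₁) = 0 :=
        (mul_eq_zero.1 h3).resolve_right hi
      have h5 : ∃ t : κ, (t = 0 ∨ t = t₁) ∧ τ = algebraMap κ (AlgebraicClosure κ) t := by
        rcases mul_eq_zero.1 h4 with h5 | h5
        · exact ⟨0, Or.inl rfl, by rw [h5, map_zero]⟩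
        · exact ⟨t₁, Or.inr rfl, sub_eq_zero.1 h5⟩
      obtain ⟨t, ht, hτ⟩ := h5
      refine gsa_ne ht₁ hΦ h0 h1 ht fun i => ?_
      have h6 := hcon i
      rw [hτ, aeval_algebraMap_apply] at h6
      have h7 := hinj (h6.trans (map_zero (algebraMap κ (AlgebraicClosure κ))).symm)
      rwa [coe_aeval_eq_eval] at h7
  have hB : ∀ (τ : AlgebraicClosure κ) (s : κ), ev τ (rotB a b s) = 0 →
      ∃ i, aeval τ (b i) ≠ 0 := by
    intro τ s hs
    by_contra hcon
    push Not at hcon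
    rcases hprim τ with ⟨i, hi⟩ | h2
    · have h3 := gsa_rotB hs i
      rw [hcon i, mul_zero, add_zero] at h3
      exact hi h3
    · obtain ⟨i, hi⟩ := h2
      exact hi (hcon i)
  have hfin : (({0} : Set κ) ∪ ⋃ τ ∈ M.rootSet (AlgebraicClosure κ),
      ({s : κ | ev τ (rotA t₁ a b s) = 0} ∪ {s : κ | ev τ (rotB a b s) = 0})).Finite := by
    refine (Set.finite_singleton 0).union ((rootSet_finite M _).biUnion fun τ _ => ?_)
    refine Set.Finite.union ?_ ?_
    · apply Set.Subsingleton.finite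
      intro s hs s' hs'
      obtain ⟨i, hi⟩ := hA τ s hs
      have e1 := gsa_rotA hs i
      have e2 := gsa_rotA hs' i
      apply hinj
      apply mul_right_cancel₀ hi
      linear_combination e1 - e2
    · apply Set.Subsingleton.finite
      intro s hs s' hs'
      obtain ⟨i, hi⟩ := hB τ s hs
      have e1 := gsa_rotB hs i
      have e2 := gsa_rotB hs' i
      apply hinj
      apply mul_right_cancel₀ hi
      linear_combination e1 - e2
  refine hfin.subset ?_
  rintro s ⟨τ, hs⟩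
  by_cases hs0 : s = 0
  · exact Or.inl hs0
  · right
    rw [Set.mem_iUnion₂]
    refine ⟨τ, ?_, hs⟩
    rw [mem_rootSet]
    refine ⟨hM, ?_⟩
    rw [hMev]
    rcases hs with hs | hs
    · have hsne : algebraMap κ (AlgebraicClosure κ) s ≠ 0 := by
        intro e
        exact hs0 (hinj (e.trans (map_zero (algebraMap κ (AlgebraicClosure κ))).symm))
      have e1 := gsa_rotA hs i₀
      have e2 := gsa_rotA hs j₀
      apply mul_left_cancel₀ hsne
      rw [mul_zero]
      linear_combination aeval τ (b j₀) * e1 - aeval τ (b i₀) * e2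
    · have e1 := gsa_rotB hs i₀
      have e2 := gsa_rotB hs j₀
      linear_combination aeval τ (b j₀) * e1 - aeval τ (b i₀) * e2

end Pool.Agent.Lib.MP_8ab79f_ag.Six
end
end

section

set_option autoImplicit false
set_option linter.unusedSectionVars false

noncomputable section

namespace Pool.Agent.Lib.MP_8ab79f_ag.Six

open Polynomial

/-- The radical, as a submodule. -/
def radSub {κ : Type*} [Field κ] (f h : Matrix (Fin 7) (Fin 7) κ) (O : Fin 7 → κ)
    (τ : AlgebraicClosure κ) :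
    Submodule (AlgebraicClosure κ) (Fin 7 → AlgebraicClosure κ) where
  carrier := {α | ∀ w, bl (mem f h τ) w (bar O) = 0 → bl (mem f h τ) α w = 0}
  add_mem' := by
    intro x y hx hy w hw
    rw [bl_add_left, hx w hw, hy w hw, add_zero]
  zero_mem' := fun w _ => bl_zero_left _ w
  smul_mem' := by
    intro c x hx w hw
    rw [bl_smul_left, hx w hw, mul_zero]

theorem not_nonRad_iff {κ : Type*} [Field κ] (f h : Matrix (Fin 7) (Fin 7) κ) (O : Fin 7 → κ)
    (τ : AlgebraicClosure κ) (α : Fin 7 → AlgebraicClosure κ) :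
    ¬ NonRad f h O τ α ↔ α ∈ radSub f h O τ := by
  unfold NonRad
  push Not
  exact Iff.rfl

theorem ev_rotA {κ : Type*} [Field κ] (t₁ : κ) (a b : Fin 7 → κ[X]) (s : κ)
    (τ : AlgebraicClosure κ) : ev τ (rotA t₁ a b s) =
      algebraMap κ (AlgebraicClosure κ) s • ev τ a +
        (τ * (τ - algebraMap κ (AlgebraicClosure κ) t₁)) • ev τ b := by
  ext i
  simp [ev, rotA, Algebra.smul_def]

theorem ev_rotB {κ : Type*} [Field κ] (a b : Fin 7 → κ[X]) (s : κ)
    (τ : AlgebraicClosure κ) : ev τ (rotB a b s) =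
      ev τ a + algebraMap κ (AlgebraicClosure κ) s • ev τ b := by
  ext i
  simp [ev, rotB, Algebra.smul_def]

/-- For almost all `s` the rotated vectors are both radical or both not radical at every degenerate
member of the pencil. -/
theorem finite_bad_rad {κ : Type*} [Field κ] [CharZero κ] {f h : Matrix (Fin 7) (Fin 7) κ}
    (hf : f.IsSymm) (hh : h.IsSymm) (hdf : f.det ≠ 0) (hdh : h.det ≠ 0) {t₁ : κ}
    (hdt : (h - t₁ • f).det ≠ 0) (O : Fin 7 → κ) (a b : Fin 7 → κ[X]) :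
    {s : κ | ∃ τ : AlgebraicClosure κ, (mem f h τ).det = 0 ∧
      ¬ ((NonRad f h O τ (ev τ (rotA t₁ a b s)) ∧ NonRad f h O τ (ev τ (rotB a b s))) ∨
        (¬ NonRad f h O τ (ev τ (rotA t₁ a b s)) ∧
          ¬ NonRad f h O τ (ev τ (rotB a b s))))}.Finite := by
  have hinj : Function.Injective (algebraMap κ (AlgebraicClosure κ)) :=
    (algebraMap κ (AlgebraicClosure κ)).injective
  have hmem : ∀ t : κ, (mem f h (algebraMap κ (AlgebraicClosure κ) t)).det =
      algebraMap κ (AlgebraicClosure κ) (h - t • f).det := by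
    intro t
    have h1 : mem f h (algebraMap κ (AlgebraicClosure κ) t) =
        (algebraMap κ (AlgebraicClosure κ)).mapMatrix (h - t • f) := by
      ext i j
      simp only [mem, RingHom.mapMatrix_apply, Matrix.map_apply, Matrix.sub_apply,
        Matrix.smul_apply, smul_eq_mul, map_sub, map_mul]
    rw [h1, ← RingHom.map_det]
  have hne : ∀ τ : AlgebraicClosure κ, (mem f h τ).det = 0 →
      τ * (τ - algebraMap κ (AlgebraicClosure κ) t₁) ≠ 0 := by
    intro τ hτ
    refine mul_ne_zero ?_ ?_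
    · rintro rfl
      have h1 := hmem 0
      rw [map_zero, hτ, zero_smul, sub_zero] at h1
      exact hdh ((map_eq_zero _).1 h1.symm)
    · intro h0
      rw [sub_eq_zero] at h0
      rw [h0, hmem] at hτ
      exact hdt ((map_eq_zero _).1 hτ)
  have hpol : (hT f h).det ≠ 0 := by
    intro h0
    have h1 := det_mem f h (algebraMap κ (AlgebraicClosure κ) 0)
    rw [h0, hmem, map_zero, map_eq_zero, zero_smul, sub_zero] at h1
    exact hdh h1
  have hroots : {τ : AlgebraicClosure κ | (mem f h τ).det = 0}.Finite := by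
    have h1 : {τ : AlgebraicClosure κ | (mem f h τ).det = 0} =
        (hT f h).det.rootSet (AlgebraicClosure κ) := by
      ext τ
      rw [Set.mem_ofPred_eq, det_mem, mem_rootSet]
      exact ⟨fun hx => ⟨hpol, hx⟩, fun hx => hx.2⟩
    rw [h1]
    exact rootSet_finite _ _
  refine Set.Finite.subset (hroots.biUnion (t := fun τ =>
    {s : κ | ¬ ((NonRad f h O τ (ev τ (rotA t₁ a b s)) ∧ NonRad f h O τ (ev τ (rotB a b s))) ∨
        (¬ NonRad f h O τ (ev τ (rotA t₁ a b s)) ∧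
          ¬ NonRad f h O τ (ev τ (rotB a b s))))}) ?_) ?_
  swap
  · rintro s ⟨τ, h1, h2⟩
    rw [Set.mem_iUnion₂]
    exact ⟨τ, h1, h2⟩
  intro τ hτ
  have hF := hne τ hτ
  by_cases hab : ev τ a ∈ radSub f h O τ ∧ ev τ b ∈ radSub f h O τ
  · convert Set.finite_empty
    rw [Set.eq_empty_iff_forall_notMem]
    intro s hs
    apply hs
    right
    rw [not_nonRad_iff, not_nonRad_iff, ev_rotA, ev_rotB]
    exact ⟨Submodule.add_mem _ (Submodule.smul_mem _ _ hab.1) (Submodule.smul_mem _ _ hab.2),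
      Submodule.add_mem _ hab.1 (Submodule.smul_mem _ _ hab.2)⟩
  · have hA : {s : κ | ev τ (rotA t₁ a b s) ∈ radSub f h O τ}.Subsingleton := by
      intro s hs s' hs'
      by_contra hss
      apply hab
      rw [Set.mem_ofPred_eq, ev_rotA] at hs hs'
      have h1 := Submodule.sub_mem _ hs hs'
      rw [add_sub_add_right_eq_sub, ← sub_smul] at h1
      have h2 : algebraMap κ (AlgebraicClosure κ) s - algebraMap κ (AlgebraicClosure κ) s' ≠ 0 :=
        sub_ne_zero.2 fun h3 => hss (hinj h3)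
      have ha := (Submodule.smul_mem_iff _ h2).1 h1
      refine ⟨ha, ?_⟩
      have h3 := (Submodule.add_mem_iff_right _ (Submodule.smul_mem _ _ ha)).1 hs
      exact (Submodule.smul_mem_iff _ hF).1 h3
    have hB : {s : κ | ev τ (rotB a b s) ∈ radSub f h O τ}.Subsingleton := by
      intro s hs s' hs'
      by_contra hss
      apply hab
      rw [Set.mem_ofPred_eq, ev_rotB] at hs hs'
      have h1 := Submodule.sub_mem _ hs hs'
      rw [add_sub_add_left_eq_sub, ← sub_smul] at h1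
      have h2 : algebraMap κ (AlgebraicClosure κ) s - algebraMap κ (AlgebraicClosure κ) s' ≠ 0 :=
        sub_ne_zero.2 fun h3 => hss (hinj h3)
      have hb := (Submodule.smul_mem_iff _ h2).1 h1
      exact ⟨(Submodule.add_mem_iff_left _ (Submodule.smul_mem _ _ hb)).1 hs, hb⟩
    refine (hA.finite.union hB.finite).subset ?_
    intro s hs
    by_contra hn
    rw [Set.mem_union, not_or] at hn
    apply hs
    left
    refine ⟨?_, ?_⟩
    · by_contra h1
      exact hn.1 ((not_nonRad_iff f h O τ _).1 h1)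
    · by_contra h1
      exact hn.2 ((not_nonRad_iff f h O τ _).1 h1)

end Pool.Agent.Lib.MP_8ab79f_ag.Six
end
end

section

set_option autoImplicit false
set_option linter.unusedSectionVars false

noncomputable section

namespace Pool.Agent.Lib.MP_8ab79f_ag.Six

open Polynomial

section

variable {κ : Type*} [Field κ]

theorem GSC_rotB_bl {f h : Matrix (Fin 7) (Fin 7) κ} (hf : f.IsSymm) (hh : h.IsSymm)
    (a b : Fin 7 → κ[X]) (s : κ) : bl (hT f h) (rotB a b s) (rotB a b s) =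
      bl (hT f h) a a + C s * (2 * bl (hT f h) a b + C s * bl (hT f h) b b) := by
  unfold rotB
  rw [bl_add_left, bl_add_right, bl_add_right, bl_smul_left, bl_smul_left, bl_smul_right,
    bl_smul_right, bl_comm (isSymm_hT hf hh) b a]
  ring

theorem GSC_rotA_bl {f h : Matrix (Fin 7) (Fin 7) κ} (hf : f.IsSymm) (hh : h.IsSymm)
    {t₁ : κ} {a b : Fin 7 → κ[X]}
    (hΦ : bl (hT f h) a a = X * (X - C t₁) * bl (hT f h) b b) (s : κ) :
    bl (hT f h) (rotA t₁ a b s) (rotA t₁ a b s) =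
      X * (X - C t₁) * bl (hT f h) (rotB a b s) (rotB a b s) := by
  rw [GSC_rotB_bl hf hh]
  unfold rotA
  simp only [bl_add_left, bl_add_right, bl_smul_left, bl_smul_right,
    bl_comm (isSymm_hT hf hh) b a, hΦ]
  ring

theorem GSC_N0_add {f h : Matrix (Fin 7) (Fin 7) κ} {O ω : Fin 7 → κ} {a b : Fin 7 → κ[X]}
    (ha : N0 f h O ω a) (hb : N0 f h O ω b) (p q : κ[X]) : N0 f h O ω (p • a + q • b) := by
  refine ⟨?_, ?_⟩
  · rw [bl_add_left, bl_smul_left, bl_smul_left, ha.1, hb.1, mul_zero, mul_zero, add_zero]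
  · have h1 : ∑ i, C (ω i) * (p • a + q • b) i =
        p * ∑ i, C (ω i) * a i + q * ∑ i, C (ω i) * b i := by
      rw [Finset.mul_sum, Finset.mul_sum, ← Finset.sum_add_distrib]
      refine Finset.sum_congr rfl fun i _ => ?_
      simp only [Pi.add_apply, Pi.smul_apply, smul_eq_mul]
      ring
    rw [h1, ha.2, hb.2, mul_zero, mul_zero, add_zero]

theorem GSC_ne_smul {f h : Matrix (Fin 7) (Fin 7) κ} {O ω : Fin 7 → κ} {a : Fin 7 → κ[X]}
    (ha : N0 f h O ω a) (hω : ∑ i, ω i * O i = 1) {τ : AlgebraicClosure κ} (hne : ev τ a ≠ 0)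
    (c : AlgebraicClosure κ) : ev τ a ≠ c • bar O := by
  intro h0
  apply hne
  have h1 : ∑ i, algebraMap κ (AlgebraicClosure κ) (ω i) * ev τ a i = 0 := by
    have h2 := congrArg (aeval τ) ha.2
    rw [map_sum, map_zero] at h2
    rw [← h2]
    refine Finset.sum_congr rfl fun i _ => ?_
    rw [map_mul, aeval_C]
    rfl
  rw [h0] at h1
  have h3 : ∑ i, algebraMap κ (AlgebraicClosure κ) (ω i) * (c • bar O) i = c := by
    have h4 : ∑ i, algebraMap κ (AlgebraicClosure κ) (ω i) * (c • bar O) i =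
        c * algebraMap κ (AlgebraicClosure κ) (∑ i, ω i * O i) := by
      rw [map_sum, Finset.mul_sum]
      refine Finset.sum_congr rfl fun i _ => ?_
      simp only [Pi.smul_apply, smul_eq_mul, bar, map_mul]
      ring
    rw [h4, hω, map_one, mul_one]
  rw [h3] at h1
  rw [h0, h1, zero_smul]

theorem GSC_finite_lin {β γ : κ} (hβ : β ≠ 0) : {s : κ | γ + s * β = 0}.Finite := by
  apply Set.Finite.subset (Set.finite_singleton (-γ / β))
  intro s hs
  have h1 : γ + s * β = 0 := hs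
  rw [Set.mem_singleton_iff, eq_div_iff hβ]
  linear_combination h1

end

/-- The rotated pair is a good pair for almost all `s`. -/
theorem exists_good_of_ab₁ {κ : Type*} [Field κ] [CharZero κ]
    {f h : Matrix (Fin 7) (Fin 7) κ} (hf : f.IsSymm) (hh : h.IsSymm) (hS : Sm f h)
    (hdf : f.det ≠ 0) (hdh : h.det ≠ 0) {O ω : Fin 7 → κ} (hfO : bl f O O = 0)
    (hhO : bl h O O = 0) (hω : ∑ i, ω i * O i = 1) {t₁ : κ} (ht₁ : t₁ ≠ 0)
    (hdt : (h - t₁ • f).det ≠ 0) {a₁ b₁ : Fin 7 → κ[X]} {m : ℕ} (ha : N0 f h O ω a₁)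
    (hb : N0 f h O ω b₁) (hΦ : bl (hT f h) a₁ a₁ = X * (X - C t₁) * bl (hT f h) b₁ b₁)
    (hprim : ∀ τ : AlgebraicClosure κ, (∃ i, aeval τ (a₁ i) ≠ 0) ∨ ∃ i, aeval τ (b₁ i) ≠ 0)
    (h0 : (bl (hT f h) b₁ b₁).eval 0 ≠ 0) (h1 : (bl (hT f h) b₁ b₁).eval t₁ ≠ 0)
    (hbd : ∀ i, (b₁ i).natDegree ≤ m) (had : ∀ i, (a₁ i).natDegree ≤ m + 1)
    (hlead : bl f (fun i => (a₁ i).coeff (m + 1)) (fun i => (a₁ i).coeff (m + 1)) ≠ 0) :
    ∃ a b : Fin 7 → κ[X], GoodPair f h O ω t₁ a b (m + 1) := by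
  have hfin1 := finite_bad_zero hf hh ht₁ hΦ hprim h0 h1
  have hfin2 := finite_bad_rad hf hh hdf hdh hdt O a₁ b₁
  have hfin3 : {s : κ | (2 * (bl (hT f h) a₁ b₁).eval 0) +
      s * (bl (hT f h) b₁ b₁).eval 0 = 0}.Finite := GSC_finite_lin h0
  have hfin4 : {s : κ | (2 * (bl (hT f h) a₁ b₁).eval t₁) +
      s * (bl (hT f h) b₁ b₁).eval t₁ = 0}.Finite := GSC_finite_lin h1
  obtain ⟨s, hs⟩ := ((((hfin1.union hfin2).union hfin3).union hfin4).union
    (Set.finite_singleton (0 : κ))).infinite_compl.nonempty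
  rw [Set.mem_compl_iff] at hs
  have hs1 : ¬ ∃ τ : AlgebraicClosure κ,
      ev τ (rotA t₁ a₁ b₁ s) = 0 ∨ ev τ (rotB a₁ b₁ s) = 0 := fun h =>
    hs (Or.inl (Or.inl (Or.inl (Or.inl h))))
  have hs2 : ¬ ∃ τ : AlgebraicClosure κ, (mem f h τ).det = 0 ∧
      ¬ ((NonRad f h O τ (ev τ (rotA t₁ a₁ b₁ s)) ∧ NonRad f h O τ (ev τ (rotB a₁ b₁ s))) ∨
        (¬ NonRad f h O τ (ev τ (rotA t₁ a₁ b₁ s)) ∧
          ¬ NonRad f h O τ (ev τ (rotB a₁ b₁ s)))) := fun h =>
    hs (Or.inl (Or.inl (Or.inl (Or.inr h))))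
  have hs3 : (2 * (bl (hT f h) a₁ b₁).eval 0) + s * (bl (hT f h) b₁ b₁).eval 0 ≠ 0 := fun h =>
    hs (Or.inl (Or.inl (Or.inr h)))
  have hs4 : (2 * (bl (hT f h) a₁ b₁).eval t₁) + s * (bl (hT f h) b₁ b₁).eval t₁ ≠ 0 := fun h =>
    hs (Or.inl (Or.inr h))
  have hs5 : s ≠ 0 := fun h => hs (Or.inr h)
  push Not at hs1
  have hA0 : N0 f h O ω (rotA t₁ a₁ b₁ s) := GSC_N0_add ha hb _ _
  have hB0 : N0 f h O ω (rotB a₁ b₁ s) := by
    have := GSC_N0_add ha hb 1 (C s)
    rwa [one_smul] at this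
  have hane : ∀ τ : AlgebraicClosure κ, ev τ (rotA t₁ a₁ b₁ s) ≠ 0 := fun τ => (hs1 τ).1
  have hbne : ∀ τ : AlgebraicClosure κ, ev τ (rotB a₁ b₁ s) ≠ 0 := fun τ => (hs1 τ).2
  have hcoef : (fun i => (rotB a₁ b₁ s i).coeff (m + 1)) = fun i => (a₁ i).coeff (m + 1) := by
    ext i
    have h2 : (b₁ i).coeff (m + 1) = 0 :=
      coeff_eq_zero_of_natDegree_lt (Nat.lt_succ_of_le (hbd i))
    simp [rotB, h2]
  refine ⟨rotA t₁ a₁ b₁ s, rotB a₁ b₁ s, ?_⟩
  refine
    { ha := hA0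
      hb := hB0
      hΦ := GSC_rotA_bl hf hh hΦ s
      had := ?_
      hbd := ?_
      hlead := by rw [hcoef]; exact hlead
      h0 := ?_
      h1 := ?_
      hane := hane
      hbne := hbne
      hloc := ?_ }
  · intro i
    simp only [rotA, Pi.add_apply, Pi.smul_apply, smul_eq_mul]
    refine natDegree_add_le_of_degree_le ?_ ?_
    · refine (natDegree_C_mul_le _ _).trans ((had i).trans (by omega))
    · have h2 : (X * (X - C t₁) : κ[X]).natDegree ≤ 2 := by
        refine natDegree_mul_le.trans ?_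
        rw [natDegree_X, natDegree_X_sub_C]
      refine natDegree_mul_le.trans ?_
      have := hbd i
      omega
  · intro i
    simp only [rotB, Pi.add_apply, Pi.smul_apply, smul_eq_mul]
    refine natDegree_add_le_of_degree_le (had i) ?_
    exact (natDegree_C_mul_le _ _).trans ((hbd i).trans (by omega))
  · rw [GSC_rotB_bl hf hh, hΦ]
    simp only [eval_add, eval_mul, eval_X, zero_mul, zero_add, eval_C]
    have h6 : (2 : κ[X]).eval 0 = 2 := by simp
    rw [h6]
    exact mul_ne_zero hs5 hs3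
  · rw [GSC_rotB_bl hf hh, hΦ]
    simp only [eval_add, eval_mul, eval_X, eval_sub, eval_C, sub_self, mul_zero, zero_mul,
      zero_add]
    have h6 : (2 : κ[X]).eval t₁ = 2 := by simp
    rw [h6]
    exact mul_ne_zero hs5 hs4
  · intro τ
    by_cases hdet : (mem f h τ).det = 0
    · have h2 : (NonRad f h O τ (ev τ (rotA t₁ a₁ b₁ s)) ∧ NonRad f h O τ (ev τ (rotB a₁ b₁ s))) ∨
        (¬ NonRad f h O τ (ev τ (rotA t₁ a₁ b₁ s)) ∧
          ¬ NonRad f h O τ (ev τ (rotB a₁ b₁ s))) := by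
        by_contra hcon
        exact hs2 ⟨τ, hdet, hcon⟩
      rcases h2 with h2 | h2
      · exact Or.inl h2
      · exact Or.inr ⟨h2.1, h2.2, derivative_ne_zero hf hh hS hfO hhO hB0.1
          (GSC_ne_smul hB0 hω (hbne τ)) h2.2⟩
    · exact Or.inl ⟨nonRad_of_det hf hh hdet (GSC_ne_smul hA0 hω (hane τ)),
        nonRad_of_det hf hh hdet (GSC_ne_smul hB0 hω (hbne τ))⟩

end Pool.Agent.Lib.MP_8ab79f_ag.Six
end
end
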