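import Pool.Agent.Lib.MP_8ab79f_ag.Mg.G004
import Pool.Agent.Lib.MP_8ab79f_ag.Mg.G002
import Pool.Agent.Lib.MP_8ab79f_ag.Mg.G001
import Pool.Agent.Lib.MP_8ab79f_ag.Mg.G003

section

set_option autoImplicit false
set_option linter.unusedSectionVars false

noncomputable section

namespace Pool.Agent.Lib.MP_8ab79f_ag.Six

open Polynomial

/-- The largest degree occurring in a family of polynomials which are not all zero. -/
theorem exists_max_degree {κ : Type*} [Field κ] {ι : Type*} [Finite ι] (c : ι → κ[X])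
    (hc : ∃ i, c i ≠ 0) : ∃ D : ℕ, (∀ i, (c i).natDegree ≤ D) ∧ ∃ i, (c i).coeff D ≠ 0 := by
  classical
  have := Fintype.ofFinite ι
  obtain ⟨i₀, hi₀⟩ := hc
  obtain ⟨j, hj, hmax⟩ := Finset.exists_max_image (Finset.univ.filter fun i => c i ≠ 0)
    (fun i => (c i).natDegree) ⟨i₀, by simpa using hi₀⟩
  refine ⟨(c j).natDegree, fun i => ?_, j, ?_⟩
  · by_cases hi : c i = 0
    · simp [hi]
    · exact hmax i (by simpa using hi)
  · have hj' : c j ≠ 0 := by simpa using hj
    exact mt leadingCoeff_eq_zero.1 hj'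

/-- Existence of a good pair. -/
theorem exists_good_pair {κ : Type*} [Field κ] [CharZero κ]
    (h10 : ∀ M : Matrix (Fin 10) (Fin 10) κ[X], ∃ v : Fin 10 → κ[X], v ≠ 0 ∧ bl M v v = 0)
    {f h : Matrix (Fin 7) (Fin 7) κ} (hf : f.IsSymm) (hh : h.IsSymm) (hS : Sm f h)
    (hdf : f.det ≠ 0) (hdh : h.det ≠ 0) {O ω e e' : Fin 7 → κ} (hfO : bl f O O = 0)
    (hhO : bl h O O = 0) (hfe : bl f O e = 1) (hhe : bl h O e = 0) (hfe' : bl f O e' = 0)
    (hhe' : bl h O e' = 1) (hω : ∑ i, ω i * O i = 1) {t₁ : κ} (ht₁ : t₁ ≠ 0)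
    (hdt : (h - t₁ • f).det ≠ 0) {P u : Fin 7 → κ} (hP : bl h P P = 0) (hPO : bl h P O = 0)
    (hPn : ∀ c : κ, P ≠ c • O) (hu : bl h u u = t₁ * bl f u u) (hfu : bl f u O = 0)
    (hhu : bl h u O = 0) (hun : ∀ c : κ, u ≠ c • O) :
    ∃ (a b : Fin 7 → κ[X]) (m : ℕ), GoodPair f h O ω t₁ a b m := by
  obtain ⟨a₀, b₀, ha₀, hb₀, hΦ, hprim⟩ :=
    exists_ab₀ h10 (f := f) (h := h) (O := O) (ω := ω) (X * (X - C t₁))
  have hprim' : ∀ τ : κ, (∃ i, (a₀ i).eval τ ≠ 0) ∨ ∃ i, (b₀ i).eval τ ≠ 0 := by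
    intro τ
    rcases hprim (algebraMap κ _ τ) with ⟨i, hi⟩ | ⟨i, hi⟩
    · left
      refine ⟨i, fun h0 => hi ?_⟩
      rw [aeval_algebraMap_apply, coe_aeval_eq_eval, h0, map_zero]
    · right
      refine ⟨i, fun h0 => hi ?_⟩
      rw [aeval_algebraMap_apply, coe_aeval_eq_eval, h0, map_zero]
  obtain ⟨D₀, hD1, hD2⟩ := exists_max_degree (Sum.elim a₀ fun i => X * b₀ i) (by
    rcases hprim' 0 with ⟨i, hi⟩ | ⟨i, hi⟩
    · refine ⟨Sum.inl i, fun h0 => hi ?_⟩
      have : a₀ i = 0 := h0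
      rw [this, eval_zero]
    · refine ⟨Sum.inr i, fun h0 => hi ?_⟩
      have : X * b₀ i = 0 := h0
      rcases mul_eq_zero.1 this with h1 | h1
      · exact absurd h1 X_ne_zero
      · rw [h1, eval_zero])
  have ha₀d : ∀ i, (a₀ i).natDegree ≤ D₀ := fun i => hD1 (Sum.inl i)
  have hb₀d : ∀ i, (X * b₀ i).natDegree ≤ D₀ := fun i => hD1 (Sum.inr i)
  have hD₀ : (∃ i, (a₀ i).coeff D₀ ≠ 0) ∨ ∃ i, (X * b₀ i).coeff D₀ ≠ 0 := by
    obtain ⟨i | i, hi⟩ := hD2
    · exact Or.inl ⟨i, hi⟩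
    · exact Or.inr ⟨i, hi⟩
  obtain ⟨wa, wb, E, hwa, hwb, h1, h2, h3, h4, h5, h6, h7, h8, h9, h10', h11⟩ :=
    exists_w hf hh hdf hdh hfO hhO hfe hhe hfe' hhe' hω ht₁ hdt hP hPO hPn hu hfu hhu hun ha₀
      hb₀ hΦ hprim' D₀ ha₀d hb₀d hD₀
  obtain ⟨a₁, b₁, m, ha₁, hb₁, hΦ₁, hprim₁, h0, h1', hbd, had, hlead⟩ :=
    exists_ab₁ hf hh ha₀ hb₀ hwa hwb hΦ ha₀d hb₀d h1 h2 h3 h4 h5 h6 h7 h8 h9 h10' h11
  obtain ⟨a, b, hab⟩ := exists_good_of_ab₁ hf hh hS hdf hdh hfO hhO hω ht₁ hdt ha₁ hb₁ hΦ₁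
    hprim₁ h0 h1' hbd had hlead
  exact ⟨a, b, m + 1, hab⟩

end Pool.Agent.Lib.MP_8ab79f_ag.Six
end
end

section

set_option autoImplicit false
set_option linter.unusedSectionVars false

noncomputable section

namespace Pool.Agent.Lib.MP_8ab79f_ag.Six

open Polynomial

section

variable {κ : Type*} [Field κ]

theorem ev_apply {ι : Type*} (τ : AlgebraicClosure κ) (a : ι → κ[X]) (i : ι) :
    ev τ a i = aeval τ (a i) := rfl

/-- A vector which does not vanish at the roots of `G` is unimodular modulo `G`. -/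
theorem dvd_of_unimodular {ι : Type*} [Finite ι] {G μ : κ[X]} {x : ι → κ[X]}
    (hx : ∀ τ : AlgebraicClosure κ, aeval τ G = 0 → ev τ x ≠ 0) (h : ∀ i, G ∣ μ * x i) :
    G ∣ μ := by
  obtain ⟨d, hd⟩ := (IsPrincipalIdealRing.principal
    (Ideal.span (insert G (Set.range x)))).principal
  have hd' : Ideal.span (insert G (Set.range x)) = Ideal.span {d} := hd
  have hdG : d ∣ G := by
    rw [← Ideal.mem_span_singleton, ← hd']
    exact Ideal.subset_span (Set.mem_insert _ _)
  have hdx : ∀ i, d ∣ x i := by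
    intro i
    rw [← Ideal.mem_span_singleton, ← hd']
    exact Ideal.subset_span (Set.mem_insert_of_mem _ (Set.mem_range_self i))
  have hdeg : d.degree = 0 := by
    by_contra hne
    obtain ⟨τ, hτ⟩ := IsAlgClosed.exists_aeval_eq_zero (AlgebraicClosure κ) d hne
    have h1 : aeval τ G = 0 := by
      obtain ⟨k, rfl⟩ := hdG
      rw [map_mul, hτ, zero_mul]
    apply hx τ h1
    funext i
    obtain ⟨k, hk⟩ := hdx i
    rw [ev_apply, hk, map_mul, hτ, zero_mul]
    rfl
  have hdu : IsUnit d := isUnit_iff_degree_eq_zero.2 hdeg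
  have hI : Ideal.span (insert G (Set.range x)) = ⊤ := by
    rw [hd']
    exact Ideal.span_singleton_eq_top.2 hdu
  -- the ideal of all `z` with `G ∣ μ z`
  let J : Ideal κ[X] :=
    { carrier := {z | G ∣ μ * z}
      add_mem' := by
        intro a b ha hb
        show G ∣ μ * (a + b)
        rw [mul_add]
        exact dvd_add ha hb
      zero_mem' := by
        show G ∣ μ * 0
        simp
      smul_mem' := by
        intro c z hz
        show G ∣ μ * (c * z)
        rw [mul_left_comm]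
        exact Dvd.dvd.mul_left hz c }
  have hJ : Ideal.span (insert G (Set.range x)) ≤ J := by
    rw [Ideal.span_le]
    rintro z (rfl | ⟨i, rfl⟩)
    · exact Dvd.intro_left _ rfl
    · exact h i
  have h1 : (1 : κ[X]) ∈ J := hJ (hI ▸ Submodule.mem_top)
  have h2 : G ∣ μ * 1 := h1
  rwa [mul_one] at h2

/-- An irreducible polynomial divides the polynomials vanishing at one of its roots. -/
theorem dvd_of_aeval_eq_zero {q p : κ[X]} (hq : Irreducible q) {τ : AlgebraicClosure κ}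
    (hτ : aeval τ q = 0) (hp : aeval τ p = 0) : q ∣ p := by
  by_contra hne
  obtain ⟨r, s, hrs⟩ := (Irreducible.coprime_iff_not_dvd hq).2 hne
  have := congrArg (aeval τ) hrs
  rw [map_add, map_mul, map_mul, hτ, hp, mul_zero, mul_zero, add_zero, map_one] at this
  exact zero_ne_one this

theorem exists_root {q : κ[X]} (hq : Irreducible q) :
    ∃ τ : AlgebraicClosure κ, aeval τ q = 0 := by
  apply IsAlgClosed.exists_aeval_eq_zero
  intro h
  exact hq.not_isUnit (isUnit_iff_degree_eq_zero.2 h)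

theorem natDegree_bl_le {ι : Type*} [Fintype ι] (A : Matrix ι ι κ) {x y : ι → κ[X]} {m n : ℕ}
    (hx : ∀ i, (x i).natDegree ≤ m) (hy : ∀ i, (y i).natDegree ≤ n) :
    (bl (A.map C) x y).natDegree ≤ m + n := by
  unfold bl
  refine natDegree_sum_le_of_forall_le _ _ fun i _ =>
    natDegree_sum_le_of_forall_le _ _ fun j _ => ?_
  refine natDegree_mul_le.trans (add_le_add ?_ (hy j))
  refine natDegree_mul_le.trans ?_
  rw [Matrix.map_apply, natDegree_C, zero_add]
  exact hx i

theorem coeff_bl {ι : Type*} [Fintype ι] (A : Matrix ι ι κ) {x y : ι → κ[X]} {m n : ℕ}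
    (hx : ∀ i, (x i).natDegree ≤ m) (hy : ∀ i, (y i).natDegree ≤ n) :
    (bl (A.map C) x y).coeff (m + n) =
      bl A (fun i => (x i).coeff m) (fun i => (y i).coeff n) := by
  unfold bl
  rw [finsetSum_coeff]
  refine Finset.sum_congr rfl fun i _ => ?_
  rw [finsetSum_coeff]
  refine Finset.sum_congr rfl fun j _ => ?_
  rw [Matrix.map_apply, mul_assoc, coeff_C_mul, mul_assoc,
    coeff_mul_add_eq_of_natDegree_le (hx i) (hy j)]

/-- Normal form of the value of the form at a vector with nonisotropic leading vector. -/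
theorem exists_monic {ι : Type*} [Fintype ι] {f h : Matrix ι ι κ} {b : ι → κ[X]} {m : ℕ}
    (hb : ∀ i, (b i).natDegree ≤ m)
    (hl : bl f (fun i => (b i).coeff m) (fun i => (b i).coeff m) ≠ 0) :
    ∃ (c : κ) (g : κ[X]), c ≠ 0 ∧ g.Monic ∧ g.natDegree = 2 * m + 1 ∧
      bl (hT f h) b b = C c * g := by
  set p := bl (hT f h) b b with hp
  have h1 : p = bl (h.map C) b b - X * bl (f.map C) b b := bl_hT f h b b
  have hc : p.coeff (2 * m + 1) = -bl f (fun i => (b i).coeff m) (fun i => (b i).coeff m) := by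
    rw [h1, coeff_sub, coeff_X_mul, two_mul, coeff_bl f hb hb,
      coeff_eq_zero_of_natDegree_lt (lt_of_le_of_lt (natDegree_bl_le h hb hb)
        (Nat.lt_succ_self _)), zero_sub]
  have hd : p.natDegree ≤ 2 * m + 1 := by
    rw [h1]
    refine (natDegree_sub_le _ _).trans (max_le ?_ ?_)
    · exact (natDegree_bl_le h hb hb).trans (by omega)
    · refine natDegree_mul_le.trans ?_
      have h2 := natDegree_bl_le f hb hb
      have h3 : (X : κ[X]).natDegree ≤ 1 := natDegree_X_le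
      omega
  have hc0 : p.coeff (2 * m + 1) ≠ 0 := by
    rw [hc]
    exact neg_ne_zero.2 hl
  have hd' : p.natDegree = 2 * m + 1 := le_antisymm hd (le_natDegree_of_ne_zero hc0)
  have hp0 : p ≠ 0 := by
    intro h0
    rw [h0, coeff_zero] at hc0
    exact hc0 rfl
  refine ⟨p.leadingCoeff, C p.leadingCoeff⁻¹ * p, leadingCoeff_ne_zero.2 hp0, ?_, ?_, ?_⟩
  · rw [Monic, leadingCoeff_mul, leadingCoeff_C,
      inv_mul_cancel₀ (leadingCoeff_ne_zero.2 hp0)]
  · rw [natDegree_C_mul (inv_ne_zero (leadingCoeff_ne_zero.2 hp0)), hd']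
  · rw [← mul_assoc, ← C_mul, mul_inv_cancel₀ (leadingCoeff_ne_zero.2 hp0), C_1, one_mul]

end

end Pool.Agent.Lib.MP_8ab79f_ag.Six
end
end

section

set_option autoImplicit false
set_option linter.unusedSectionVars false

noncomputable section

namespace Pool.Agent.Lib.MP_8ab79f_ag.Six

open Polynomial

section

variable {ι : Type*} [Fintype ι] {κ : Type*} [Field κ]

/-- The second end vector of the path. -/
theorem exists_x1 {f h : Matrix ι ι κ} (hf : f.IsSymm) (hh : h.IsSymm) {t₁ : κ} (ht₁ : t₁ ≠ 0)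
    {O u y : ι → κ} (hfu : bl f u O = 0) (hhu : bl h u O = 0)
    (hut : bl h u u = t₁ * bl f u u) (hy : bl h y y = 0) (hyO : bl h y O = 0)
    {b : ι → κ[X]} (hbO : bl (hT f h) b (cst O) = 0) {c : κ} {g : κ[X]}
    (hbb : bl (hT f h) b b = C c * g) (hcop : IsCoprime g (X * (X - C t₁))) :
    ∃ x' x : ι → κ[X], (∀ i, g ∣ x i - b i) ∧
      (∀ i, X * (X - C t₁) ∣ x i - (C c * g * x' i - 2 * bl (hT f h) b x' * b i)) ∧
      (∀ i, X - C t₁ ∣ x' i - C (u i)) ∧
      (∀ i, X ∣ x' i - (bl (hT f h) (cst u) (cst u) * C (y i) -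
        2 * bl (hT f h) (cst u) (cst y) * C (u i))) ∧
      X * (X - C t₁) * g ∣ bl (hT f h) x x ∧
      X * (X - C t₁) * g ∣ bl (hT f h) x (cst O) := by
  have hS := isSymm_hT hf hh
  have huO : bl (hT f h) (cst u) (cst O) = 0 := by
    rw [bl_hT, bl_cst, bl_cst, hfu, hhu]
    simp
  have huu : bl (hT f h) (cst u) (cst u) = -C (bl f u u) * (X - C t₁) := by
    rw [bl_hT, bl_cst, bl_cst, hut, C_mul]
    ring
  have hyy : bl (hT f h) (cst y) (cst y) = -X * C (bl f y y) := by
    rw [bl_hT, bl_cst, bl_cst, hy]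
    simp
  have hyO' : bl (hT f h) (cst y) (cst O) = -X * C (bl f y O) := by
    rw [bl_hT, bl_cst, bl_cst, hyO]
    simp
  set Hu := bl (hT f h) (cst u) (cst u) with hHu
  set Hy := bl (hT f h) (cst u) (cst y) with hHy
  set z₀ : ι → κ[X] := Hu • cst y - (2 * Hy) • cst u with hz₀
  set ε₀ : κ[X] := -C t₁⁻¹ * (X - C t₁) with hε₀
  set ε₁ : κ[X] := C t₁⁻¹ * X with hε₁
  have hcc : C t₁⁻¹ * C t₁ = (1 : κ[X]) := by
    rw [← C_mul, inv_mul_cancel₀ ht₁, C_1]
  have hεε : ε₀ + ε₁ = 1 := by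
    rw [hε₀, hε₁]
    linear_combination hcc
  set x' : ι → κ[X] := ε₁ • cst u + ε₀ • z₀ with hx'
  have hz₀z₀ : bl (hT f h) z₀ z₀ = Hu ^ 2 * (-X * C (bl f y y)) := by
    simp only [hz₀, bl_sub_left, bl_sub_right, bl_smul_left, bl_smul_right]
    rw [hyy, bl_comm hS (cst y) (cst u), ← hHy, ← hHu]
    ring
  have hz₀O : bl (hT f h) z₀ (cst O) = Hu * (-X * C (bl f y O)) := by
    simp only [hz₀, bl_sub_left, bl_smul_left]
    rw [hyO', huO]
    ring
  have hx'x' : X * (X - C t₁) ∣ bl (hT f h) x' x' := by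
    have h1 : bl (hT f h) x' x' = ε₁ ^ 2 * Hu + 2 * (ε₁ * ε₀ * bl (hT f h) (cst u) z₀) +
        ε₀ ^ 2 * (Hu ^ 2 * (-X * C (bl f y y))) := by
      simp only [hx', bl_add_left, bl_add_right, bl_smul_left, bl_smul_right]
      rw [hz₀z₀, bl_comm hS z₀ (cst u), ← hHu]
      ring
    rw [h1, huu, hε₀, hε₁]
    refine dvd_add (dvd_add ?_ ?_) ?_
    · exact ⟨C t₁⁻¹ ^ 2 * X * -C (bl f u u), by ring⟩
    · exact ⟨2 * (C t₁⁻¹ * -C t₁⁻¹ * bl (hT f h) (cst u) z₀), by ring⟩
    · exact ⟨(-C t₁⁻¹) ^ 2 * (X - C t₁) * ((-C (bl f u u) * (X - C t₁)) ^ 2 *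
        -C (bl f y y)), by ring⟩
  have hx'O : X * (X - C t₁) ∣ bl (hT f h) x' (cst O) := by
    have h1 : bl (hT f h) x' (cst O) = ε₀ * (Hu * (-X * C (bl f y O))) := by
      simp only [hx', bl_add_left, bl_smul_left]
      rw [hz₀O, huO]
      ring
    rw [h1, hε₀]
    exact ⟨-C t₁⁻¹ * (Hu * -C (bl f y O)), by ring⟩
  set Hb := bl (hT f h) b x' with hHb
  set β : ι → κ[X] := (C c * g) • x' - (2 * Hb) • b with hβ
  have hββ : bl (hT f h) β β = (C c * g) ^ 2 * bl (hT f h) x' x' := by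
    simp only [hβ, bl_sub_left, bl_sub_right, bl_smul_left, bl_smul_right]
    rw [bl_comm hS x' b, ← hHb, hbb]
    ring
  have hβO : bl (hT f h) β (cst O) = C c * g * bl (hT f h) x' (cst O) := by
    simp only [hβ, bl_sub_left, bl_smul_left]
    rw [hbO]
    ring
  obtain ⟨r, s, hrs⟩ := hcop
  set F : κ[X] := X * (X - C t₁) with hF
  set x : ι → κ[X] := (s * F) • b + (r * g) • β with hx
  have hxb : ∀ i, g ∣ x i - b i := by
    intro i
    refine ⟨r * (β i - b i), ?_⟩
    simp only [hx, Pi.add_apply, Pi.smul_apply, smul_eq_mul]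
    linear_combination (b i) * hrs
  have hxβ : ∀ i, F ∣ x i - β i := by
    intro i
    refine ⟨s * (b i - β i), ?_⟩
    simp only [hx, Pi.add_apply, Pi.smul_apply, smul_eq_mul]
    linear_combination (β i) * hrs
  have hcop' : IsCoprime F g := ⟨s, r, by rw [← hrs]; ring⟩
  refine ⟨x', x, hxb, ?_, ?_, ?_, ?_, ?_⟩
  · intro i
    have := hxβ i
    simpa only [hβ, Pi.sub_apply, Pi.smul_apply, smul_eq_mul] using this
  · intro i
    refine ⟨C t₁⁻¹ * (C (u i) - z₀ i), ?_⟩
    simp only [hx', Pi.add_apply, Pi.smul_apply, smul_eq_mul, cst]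
    rw [hε₀, hε₁]
    linear_combination (C (u i)) * hcc
  · intro i
    have h1 : Hu * C (y i) - 2 * Hy * C (u i) = z₀ i := by
      simp only [hz₀, Pi.sub_apply, Pi.smul_apply, smul_eq_mul, cst]
    rw [h1]
    refine ⟨C t₁⁻¹ * (C (u i) - z₀ i), ?_⟩
    simp only [hx', Pi.add_apply, Pi.smul_apply, smul_eq_mul, cst]
    rw [hε₀, hε₁]
    linear_combination (z₀ i) * hcc
  · refine hcop'.mul_dvd ?_ ?_
    · have h1 := bl_dvd (hT f h) hxβ hxβ
      have h2 : F ∣ bl (hT f h) β β := by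
        rw [hββ]
        exact Dvd.dvd.mul_left hx'x' _
      exact (dvd_iff_dvd_of_dvd_sub h1).2 h2
    · have h1 := bl_dvd (hT f h) hxb hxb
      have h2 : g ∣ bl (hT f h) b b := by
        rw [hbb]
        exact Dvd.intro_left _ rfl
      exact (dvd_iff_dvd_of_dvd_sub h1).2 h2
  · refine hcop'.mul_dvd ?_ ?_
    · have h1 := bl_dvd_left (hT f h) hxβ (cst O)
      have h2 : F ∣ bl (hT f h) β (cst O) := by
        rw [hβO]
        exact Dvd.dvd.mul_left hx'O _
      exact (dvd_iff_dvd_of_dvd_sub h1).2 h2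
    · have h1 := bl_dvd_left (hT f h) hxb (cst O)
      rw [hbO, sub_zero] at h1
      exact h1

end

end Pool.Agent.Lib.MP_8ab79f_ag.Six
end
end

section

set_option autoImplicit false
set_option linter.unusedSectionVars false

noncomputable section

namespace Pool.Agent.Lib.MP_8ab79f_ag.Six

open Polynomial

theorem refl_ne {ι E : Type*} [Fintype ι] [Field E] {A : Matrix ι ι E} {O b x : ι → E}
    (hbO : bl A b O = 0) (hbb : bl A b b ≠ 0) (hx : ∀ c : E, x ≠ c • O) (c : E) :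
    bl A b b • x - (2 * bl A b x) • b ≠ c • O := by
  intro h
  have h1 := congrArg (bl A b) h
  rw [bl_sub_right, bl_smul_right, bl_smul_right, bl_smul_right, hbO, mul_zero] at h1
  have h2 : bl A b x * bl A b b = 0 := by linear_combination -h1
  have h3 : bl A b x = 0 := (mul_eq_zero.1 h2).resolve_right hbb
  rw [h3, mul_zero, zero_smul, sub_zero] at h
  apply hx ((bl A b b)⁻¹ * c)
  rw [mul_smul, ← h, smul_smul, inv_mul_cancel₀ hbb, one_smul]

section

variable {κ : Type*} [Field κ]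

theorem mem_rat (f h : Matrix (Fin 7) (Fin 7) κ) (t : κ) :
    mem f h (algebraMap κ (AlgebraicClosure κ) t) =
      (h - t • f).map (algebraMap κ (AlgebraicClosure κ)) := by
  ext i j
  simp only [mem, Matrix.map_apply, Matrix.sub_apply, Matrix.smul_apply, smul_eq_mul,
    _root_.map_sub, _root_.map_mul]

theorem det_mem_rat {f h : Matrix (Fin 7) (Fin 7) κ} {t : κ} (hd : (h - t • f).det ≠ 0) :
    (mem f h (algebraMap κ (AlgebraicClosure κ) t)).det ≠ 0 := by
  rw [mem_rat]
  have h2 := RingHom.map_det (algebraMap κ (AlgebraicClosure κ)) (h - t • f)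
  have h3 : ((h - t • f).map (algebraMap κ (AlgebraicClosure κ))).det =
      algebraMap κ (AlgebraicClosure κ) (h - t • f).det := h2.symm
  rw [h3]
  exact (_root_.map_ne_zero _).2 hd

theorem bar_ne {A : Matrix (Fin 7) (Fin 7) κ} {O u : Fin 7 → κ} (hO : bl A O O = 0)
    (hu : bl A u u ≠ 0) (c : AlgebraicClosure κ) : bar u ≠ c • bar O := by
  intro h
  have h1 : bl (A.map (algebraMap κ (AlgebraicClosure κ))) (bar u) (bar u) =
      algebraMap κ (AlgebraicClosure κ) (bl A u u) := (bl_map _ A u u).symm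
  have h2 : bl (A.map (algebraMap κ (AlgebraicClosure κ))) (bar O) (bar O) =
      algebraMap κ (AlgebraicClosure κ) (bl A O O) := (bl_map _ A O O).symm
  rw [h, bl_smul_left, bl_smul_right, h2, hO, map_zero, mul_zero, mul_zero] at h1
  exact (_root_.map_ne_zero (algebraMap κ (AlgebraicClosure κ))).2 hu h1.symm

theorem bl_mem_bar (f h : Matrix (Fin 7) (Fin 7) κ) (t : κ) (x y : Fin 7 → κ) :
    bl (mem f h (algebraMap κ (AlgebraicClosure κ) t)) (bar x) (bar y) =
      algebraMap κ (AlgebraicClosure κ) (bl h x y - t * bl f x y) := by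
  rw [mem_rat]
  have h2 : bl ((h - t • f).map (algebraMap κ (AlgebraicClosure κ))) (bar x) (bar y) =
      algebraMap κ (AlgebraicClosure κ) (bl (h - t • f) x y) := (bl_map _ _ x y).symm
  rw [h2, bl_sub_mat, bl_smul_mat]

/-- A vector of the normalized lattice which does not vanish at `τ` is not a multiple of `O`
there. -/
theorem ev_ne_of_N0 {f h : Matrix (Fin 7) (Fin 7) κ} {O ω : Fin 7 → κ} {a : Fin 7 → κ[X]}
    (ha : N0 f h O ω a) (hω : ∑ i, ω i * O i = 1) {τ : AlgebraicClosure κ}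
    (hne : ev τ a ≠ 0) (c : AlgebraicClosure κ) : ev τ a ≠ c • bar O := by
  intro h0
  have h1 : ∑ i, algebraMap κ (AlgebraicClosure κ) (ω i) * ev τ a i = 0 := by
    have := congrArg (aeval τ) ha.2
    rw [map_sum, map_zero] at this
    rw [← this]
    refine Finset.sum_congr rfl fun i _ => ?_
    rw [map_mul, aeval_C]
    rfl
  have h2 : ∑ i, algebraMap κ (AlgebraicClosure κ) (ω i) * bar O i = 1 := by
    have := congrArg (algebraMap κ (AlgebraicClosure κ)) hω
    rw [map_sum, map_one] at this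
    rw [← this]
    refine Finset.sum_congr rfl fun i _ => ?_
    rw [map_mul]
    rfl
  rw [h0] at h1
  have h3 : ∑ i, algebraMap κ (AlgebraicClosure κ) (ω i) * (c • bar O) i = c := by
    have h4 : ∑ i, algebraMap κ (AlgebraicClosure κ) (ω i) * (c • bar O) i =
        c * ∑ i, algebraMap κ (AlgebraicClosure κ) (ω i) * bar O i := by
      rw [Finset.mul_sum]
      refine Finset.sum_congr rfl fun i _ => ?_
      simp only [Pi.smul_apply, smul_eq_mul]
      ring
    rw [h4, h2, mul_one]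
  rw [h3] at h1
  rw [h1, zero_smul] at h0
  exact hne h0

end

/-- The data of the path, all collected. -/
structure PathData {κ : Type*} [Field κ] (f h : Matrix (Fin 7) (Fin 7) κ) (O : Fin 7 → κ)
    (t₁ : κ) (u y : Fin 7 → κ) (a b x' x₁ : Fin 7 → κ[X]) (c : κ) (g : κ[X]) : Prop where
  hg : ∀ i, g ∣ x₁ i - b i
  hF : ∀ i, X * (X - C t₁) ∣ x₁ i - (C c * g * x' i - 2 * bl (hT f h) b x' * b i)
  h1 : ∀ i, X - C t₁ ∣ x' i - C (u i)
  h0 : ∀ i, X ∣ x' i - (bl (hT f h) (cst u) (cst u) * C (y i) -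
        2 * bl (hT f h) (cst u) (cst y) * C (u i))
  hx₁ne : ∀ τ : AlgebraicClosure κ, aeval τ (X * (X - C t₁) * g) = 0 → ev τ x₁ ≠ 0
  path : HasPath f h O (X * (X - C t₁) * g) a x₁

/-- Existence of the path. -/
theorem exists_pathData {κ : Type*} [Field κ] [CharZero κ] {f h : Matrix (Fin 7) (Fin 7) κ}
    (hf : f.IsSymm) (hh : h.IsSymm) (hS : Sm f h) (hdh : h.det ≠ 0) {O ω e' : Fin 7 → κ}
    (hfO : bl f O O = 0) (hfe' : bl f O e' = 0)
    (hhe' : bl h O e' = 1) (hω : ∑ i, ω i * O i = 1) {t₁ : κ} (ht₁ : t₁ ≠ 0)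
    (hdt : (h - t₁ • f).det ≠ 0) {y u : Fin 7 → κ} (hy : bl h y y = 0) (hyO : bl h y O = 0)
    (hyy : bl f y y ≠ 0) (hu : bl h u u = t₁ * bl f u u) (hfu : bl f u O = 0)
    (hhu : bl h u O = 0) (huu : bl f u u ≠ 0) {a b : Fin 7 → κ[X]} {m : ℕ}
    (hab : GoodPair f h O ω t₁ a b m) {c : κ} {g : κ[X]} (hg : g.Monic)
    (hbb : bl (hT f h) b b = C c * g) :
    ∃ x' x₁ : Fin 7 → κ[X], PathData f h O t₁ u y a b x' x₁ c g := by
  classical
  have h2 : (2 : κ) ≠ 0 := two_ne_zero
  have hg0 : g.eval 0 ≠ 0 := by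
    have := hab.h0
    rw [hbb, eval_mul] at this
    exact right_ne_zero_of_mul this
  have hg1 : g.eval t₁ ≠ 0 := by
    have := hab.h1
    rw [hbb, eval_mul] at this
    exact right_ne_zero_of_mul this
  have hirr0 : Irreducible (X : κ[X]) := irreducible_X
  have hirr1 : Irreducible (X - C t₁ : κ[X]) := irreducible_X_sub_C t₁
  have hcop0 : IsCoprime g X := by
    refine ((Irreducible.coprime_iff_not_dvd hirr0).2 fun hd => hg0 ?_).symm
    rw [X_dvd_iff] at hd
    rw [← coeff_zero_eq_eval_zero, hd]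
  have hcop1 : IsCoprime g (X - C t₁) := by
    refine ((Irreducible.coprime_iff_not_dvd hirr1).2 fun hd => hg1 ?_).symm
    rw [dvd_iff_isRoot] at hd
    exact hd
  have hcop : IsCoprime g (X * (X - C t₁)) := hcop0.mul_right hcop1
  obtain ⟨x', x₁, hxg, hxF, hx'1, hx'0, hxx, hxO⟩ :=
    exists_x1 hf hh ht₁ hfu hhu hu hy hyO hab.hb.1 hbb hcop
  have hcast : ∀ τ : AlgebraicClosure κ, aeval τ (C c * g) ≠ 0 → aeval τ g ≠ 0 := by
    intro τ h1 h0
    rw [map_mul, h0, mul_zero] at h1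
    exact h1 rfl
  -- the values at the two rational members
  have hbbτ : ∀ τ : AlgebraicClosure κ, bl (mem f h τ) (ev τ b) (ev τ b) = aeval τ (C c * g) := by
    intro τ
    rw [← aeval_bl_hT, hbb]
  have hbOτ : ∀ τ : AlgebraicClosure κ, bl (mem f h τ) (ev τ b) (bar O) = 0 := by
    intro τ
    rw [← ev_cst τ O, ← aeval_bl_hT, hab.hb.1, map_zero]
  have hval : ∀ τ : AlgebraicClosure κ, aeval τ (X * (X - C t₁)) = 0 →
      ev τ x₁ = bl (mem f h τ) (ev τ b) (ev τ b) • ev τ x' -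
        (2 * bl (mem f h τ) (ev τ b) (ev τ x')) • ev τ b := by
    intro τ hτ
    funext i
    obtain ⟨k, hk⟩ := hxF i
    have h1 := congrArg (aeval τ) hk
    rw [map_mul, hτ, zero_mul] at h1
    simp only [_root_.map_sub, _root_.map_mul, _root_.map_ofNat] at h1
    rw [aeval_bl_hT] at h1
    simp only [Pi.sub_apply, Pi.smul_apply, smul_eq_mul, ev_apply]
    rw [hbbτ, map_mul]
    linear_combination h1
  have hne0 : ∀ τ : AlgebraicClosure κ, aeval τ (X * (X - C t₁)) = 0 →
      (mem f h τ).det ≠ 0 ∧ ∀ c : AlgebraicClosure κ, ev τ x₁ ≠ c • bar O := by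
    intro τ hτ
    have hτ' : τ = 0 ∨ τ = algebraMap κ _ t₁ := by
      rw [map_mul, aeval_X, map_sub, aeval_X, aeval_C] at hτ
      rcases mul_eq_zero.1 hτ with h1 | h1
      · exact Or.inl h1
      · exact Or.inr (sub_eq_zero.1 h1)
    have hx'ne : ∀ c : AlgebraicClosure κ, ev τ x' ≠ c • bar O := by
      rcases hτ' with rfl | rfl
      · -- at zero
        have h1 : ev (0 : AlgebraicClosure κ) x' =
            bl (mem f h (algebraMap κ _ 0)) (bar u) (bar u) • bar y -
              (2 * bl (mem f h (algebraMap κ _ 0)) (bar u) (bar y)) • bar u := by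
          funext i
          obtain ⟨k, hk⟩ := hx'0 i
          have h1 := congrArg (aeval (0 : AlgebraicClosure κ)) hk
          rw [map_mul, aeval_X, zero_mul] at h1
          simp only [_root_.map_sub, _root_.map_mul, _root_.map_ofNat, aeval_C] at h1
          rw [aeval_bl_hT, aeval_bl_hT, ev_cst, ev_cst] at h1
          rw [map_zero]
          simp only [Pi.sub_apply, Pi.smul_apply, smul_eq_mul, ev_apply, bar]
          linear_combination h1
        intro c
        rw [h1]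
        apply refl_ne
        · rw [bl_mem_bar, hfu, hhu]
          simp
        · rw [bl_mem_bar, zero_mul, sub_zero, hu]
          exact (_root_.map_ne_zero _).2 (mul_ne_zero ht₁ huu)
        · exact fun c => bar_ne hfO hyy c
      · have h1 : ev (algebraMap κ (AlgebraicClosure κ) t₁) x' = bar u := by
          funext i
          obtain ⟨k, hk⟩ := hx'1 i
          have h1 := congrArg (aeval (algebraMap κ (AlgebraicClosure κ) t₁)) hk
          rw [map_mul] at h1
          simp only [_root_.map_sub, aeval_X, aeval_C, sub_self, zero_mul] at h1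
          exact sub_eq_zero.1 h1
        intro c
        rw [h1]
        exact bar_ne hfO huu c
    have hbbne : bl (mem f h τ) (ev τ b) (ev τ b) ≠ 0 := by
      rw [← aeval_bl_hT]
      rcases hτ' with rfl | rfl
      · have := hab.h0
        have h4 := aeval_algebraMap_apply (AlgebraicClosure κ) (0 : κ) (bl (hT f h) b b)
        rw [_root_.map_zero, coe_aeval_eq_eval] at h4
        rw [h4]
        exact (_root_.map_ne_zero _).2 this
      · have := hab.h1
        rw [aeval_algebraMap_apply, coe_aeval_eq_eval]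
        exact (_root_.map_ne_zero _).2 this
    constructor
    · rcases hτ' with rfl | rfl
      · have := det_mem_rat (f := f) (h := h) (t := 0) (by simpa using hdh)
        rwa [map_zero] at this
      · exact det_mem_rat hdt
    · intro c
      rw [hval τ hτ]
      exact refl_ne (hbOτ τ) hbbne hx'ne c
  have hgval : ∀ τ : AlgebraicClosure κ, aeval τ g = 0 → ev τ x₁ = ev τ b := by
    intro τ hτ
    funext i
    obtain ⟨k, hk⟩ := hxg i
    have h1 := congrArg (aeval τ) hk
    rw [map_mul, hτ, zero_mul, map_sub] at h1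
    exact sub_eq_zero.1 h1
  refine ⟨x', x₁, hxg, hxF, hx'1, hx'0, ?_, ?_⟩
  · intro τ hτ
    rw [map_mul] at hτ
    rcases mul_eq_zero.1 hτ with h1 | h1
    · intro h0
      apply (hne0 τ h1).2 0
      rw [h0, zero_smul]
    · rw [hgval τ h1]
      exact hab.hbne τ
  · -- the path
    have hF0 : X * (X - C t₁) * g ≠ 0 :=
      mul_ne_zero (mul_ne_zero X_ne_zero (X_sub_C_ne_zero t₁)) hg.ne_zero
    refine hasPath_all h2 hf hh hF0 ?_ hxx ?_ hxO ?_
    · rw [hab.hΦ, hbb]
      exact ⟨C c, by ring⟩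
    · rw [hab.ha.1]
      exact dvd_zero _
    · intro q hq hqG
      obtain ⟨τ, hτ⟩ := exists_root hq
      have hGτ : aeval τ (X * (X - C t₁) * g) = 0 := by
        obtain ⟨k, hk⟩ := hqG
        rw [hk, map_mul, hτ, zero_mul]
      rw [map_mul] at hGτ
      rcases mul_eq_zero.1 hGτ with h1 | h1
      · -- a root of `X (X - t₁)`
        left
        obtain ⟨hdet, hne⟩ := hne0 τ h1
        have hna : NonRad f h O τ (ev τ a) :=
          nonRad_of_det hf hh hdet (ev_ne_of_N0 hab.ha hω (hab.hane τ))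
        have hnx : NonRad f h O τ (ev τ x₁) := nonRad_of_det hf hh hdet hne
        exact exists_v_prime hf hh hS hfe' hhe' τ hτ hna hnx
      · rcases hab.hloc τ with ⟨hna, hnb⟩ | ⟨hna, hnb, hder⟩
        · left
          rw [← hgval τ h1] at hnb
          exact exists_v_prime hf hh hS hfe' hhe' τ hτ hna hnb
        · right
          constructor
          · intro hq2
            have hqg : q ∣ g := dvd_of_aeval_eq_zero hq hτ h1
            have hqF : IsCoprime q (X * (X - C t₁)) := IsCoprime.of_isCoprime_of_dvd_left hcop hqg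
            have hq2g : q ^ 2 ∣ g := (hqF.pow_left).dvd_of_dvd_mul_left hq2
            apply hder
            obtain ⟨k, hk⟩ := hq2g
            rw [hbb, hk]
            simp only [derivative_mul, derivative_C, derivative_pow, _root_.map_add,
              _root_.map_mul, _root_.map_pow, hτ]
            ring
          · apply dvd_of_aeval_eq_zero hq hτ
            rw [aeval_bl_hT, hgval τ h1]
            by_contra hne
            exact hna ⟨ev τ b, hbOτ τ, hne⟩

end Pool.Agent.Lib.MP_8ab79f_ag.Six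
end
end

section

set_option autoImplicit false
set_option linter.unusedSectionVars false

noncomputable section

namespace Pool.Agent.Lib.MP_8ab79f_ag.Six

open Polynomial

/-- There is a rational curve on `f = h = 0` through `P` and `Q`. -/
def CurveLink {κ : Type*} [Field κ] {ι : Type*} [Fintype ι] (f h : Matrix ι ι κ)
    (P Q : ι → κ) : Prop :=
  ∃ c : ι → κ[X], bl (f.map C) c c = 0 ∧ bl (h.map C) c c = 0 ∧
    (∃ δ : κ, δ ≠ 0 ∧ (fun i => (c i).eval 0) = δ • P) ∧
    ∃ δ : κ, δ ≠ 0 ∧ (fun i => (c i).eval 1) = δ • Q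

/-- A vector which is unimodular modulo `G` is not annihilated by nonzero polynomials of smaller
degree. -/
theorem eq_zero_of_isSol {κ : Type*} [Field κ] {f h : Matrix (Fin 7) (Fin 7) κ} {G : κ[X]}
    {x x' : Fin 7 → κ[X]} (hx : ∀ τ : AlgebraicClosure κ, aeval τ G = 0 → ev τ x ≠ 0)
    (hxx' : ∀ i, G ∣ x' i - x i) {μ : κ[X]} (hμ : μ.degree < G.degree) {B : Fin 7 → κ}
    (hs : IsSol f h G x' B μ 0) : μ = 0 := by
  have h1 : ∀ i, G ∣ μ * x i := by
    intro i
    have h2 := hs.cong i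
    rw [Pi.zero_apply, sub_zero] at h2
    have h3 : G ∣ μ * (x' i - x i) := Dvd.dvd.mul_left (hxx' i) μ
    rw [mul_sub] at h3
    exact (dvd_sub_right h2).1 h3
  have h2 := dvd_of_unimodular hx h1
  by_contra hne
  exact absurd (degree_le_of_dvd h2 hne) (not_le.2 hμ)

/-- Two points in good position are linked: the normalized case. -/
theorem link_pair0 {κ : Type*} [Field κ] [CharZero κ]
    (h10 : ∀ M : Matrix (Fin 10) (Fin 10) κ[X], ∃ v : Fin 10 → κ[X], v ≠ 0 ∧ bl M v v = 0)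
    {f h : Matrix (Fin 7) (Fin 7) κ} (hf : f.IsSymm) (hh : h.IsSymm) (hS : Sm f h)
    (hdf : f.det ≠ 0) (hdh : h.det ≠ 0) {O P : Fin 7 → κ} (hfO : bl f O O = 0)
    (hhO : bl h O O = 0) (hfP : bl f P P = 0) (hhP : bl h P P = 0) (hOP : bl f O P ≠ 0)
    (hhOP : bl h O P = 0) : CurveLink f h O P := by
  have h2 : (2 : κ) ≠ 0 := two_ne_zero
  have hO : O ≠ 0 := by
    rintro rfl
    exact hOP (bl_zero_left f P)
  have hPn : ∀ c : κ, P ≠ c • O := by
    rintro c rfl
    rw [bl_smul_right, hfO, mul_zero] at hOP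
    exact hOP rfl
  obtain ⟨e, e', hfe, hhe, hfe', hhe'⟩ := hS.exists_dual hf hh hO hfO hhO
  obtain ⟨ω, hω⟩ : ∃ ω : Fin 7 → κ, ∑ i, ω i * O i = 1 := by
    obtain ⟨i, hi⟩ := Function.ne_iff.1 hO
    refine ⟨Pi.single i (O i)⁻¹, ?_⟩
    rw [Finset.sum_eq_single i]
    · rw [Pi.single_eq_same, inv_mul_cancel₀ hi]
    · intro j _ hj
      rw [Pi.single_eq_of_ne hj, zero_mul]
    · simp
  obtain ⟨u, t₁, hfu, hhu, huu, hut, hdt, ht₁⟩ := exists_u hf hh hS hdf O {0}
  rw [Finset.mem_singleton] at ht₁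
  have hun : ∀ c : κ, u ≠ c • O := by
    rintro c rfl
    rw [bl_smul_right, bl_smul_left, hfO, mul_zero, mul_zero] at huu
    exact huu rfl
  have hPO : bl h P O = 0 := by rw [bl_comm hh, hhOP]
  obtain ⟨a, b, m, hab⟩ := exists_good_pair h10 hf hh hS hdf hdh hfO hhO hfe hhe hfe' hhe' hω
    ht₁ hdt hhP hPO hPn hut hfu hhu hun
  obtain ⟨c, g, hc, hg, hgd, hbb⟩ := exists_monic (h := h) hab.hbd hab.hlead
  -- the vector `y`
  set y : Fin 7 → κ := P + O with hy
  have hyy : bl f y y = 2 * bl f O P := by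
    rw [hy, bl_add_left, bl_add_right, bl_add_right, hfP, hfO, bl_comm hf P O]
    ring
  have hhy : bl h y y = 0 := by
    rw [hy, bl_add_left, bl_add_right, bl_add_right, hhP, hhO, hPO, hhOP]
    ring
  have hyO : bl h y O = 0 := by
    rw [hy, bl_add_left, hPO, hhO, add_zero]
  have hfyO : bl f y O = bl f O P := by
    rw [hy, bl_add_left, hfO, add_zero, bl_comm hf]
  have hyy0 : bl f y y ≠ 0 := by
    rw [hyy]
    exact mul_ne_zero h2 hOP
  obtain ⟨x', x₁, hp⟩ := exists_pathData hf hh hS hdh hfO hfe' hhe' hω ht₁ hdt hhy hyO hyy0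
    hut hfu hhu huu hab hg hbb
  set G : κ[X] := X * (X - C t₁) * g with hG
  have hGm : G.Monic := (monic_X.mul (monic_X_sub_C t₁)).mul hg
  have hGd : G.natDegree = 2 * (m + 1) + 1 := by
    rw [hG, (monic_X.mul (monic_X_sub_C t₁)).natDegree_mul hg,
      monic_X.natDegree_mul (monic_X_sub_C t₁), natDegree_X, natDegree_X_sub_C, hgd]
    ring
  have haa : bl (hT f h) a a = C c * G := by
    rw [hab.hΦ, hbb, hG]
    ring
  obtain ⟨x, hxx, hxO, hx0, hx1⟩ := hp.path
  obtain ⟨Q, hfQ, hhQ, hQ⟩ := dressing hf hh hfO hhO hGm (by omega) x hxx hxO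
  have hev : ∀ (v : κ) (Y : Fin 7 → κ[X]), bl (hT f h) Y (cst O) = 0 →
      bl (hT f h) Y (cst (v • O)) = 0 := by
    intro v Y hY
    rw [cst_smul, bl_smul_right, hY, mul_zero]
  refine ⟨Q, hfQ, hhQ, ?_, ?_⟩
  · -- the first end point
    obtain ⟨δ, ⟨μ, Z, hs, hQ0⟩, hker⟩ := hQ 0
    have h3 := end0 h2 hf hh hGm hab.had hc haa hGd (hev δ a hab.ha.1) hx0 hs
    refine ⟨δ, ?_, ?_⟩
    · intro hδ
      obtain ⟨μ, Z, hμ, hμd, hs'⟩ := hker hδ
      have h4 := end0 h2 hf hh hGm hab.had hc haa hGd (B := 0)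
        (by rw [cst_zero, bl_zero_right]) hx0 hs'
      have h5 := h4.2 rfl
      subst h5
      exact hμ (eq_zero_of_isSol (fun τ _ => hab.hane τ) hx0 hμd hs')
    · rw [hQ0, h3.1, add_zero]
  · -- the second end point
    obtain ⟨δ, ⟨μ, Z, hs, hQ1⟩, hker⟩ := hQ 1
    have hFG : X * (X - C t₁) ∣ G := Dvd.intro _ rfl
    have hgG : g ∣ G := Dvd.intro_left _ rfl
    have hxg : ∀ i, g ∣ (x i).map (evalRingHom 1) - b i := by
      intro i
      have := dvd_add (hgG.trans (hx1 i)) (hp.hg i)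
      rwa [sub_add_sub_cancel] at this
    have hxF : ∀ i, X * (X - C t₁) ∣ (x i).map (evalRingHom 1) -
        (C c * g * x' i - 2 * bl (hT f h) b x' * b i) := by
      intro i
      have := dvd_add (hFG.trans (hx1 i)) (hp.hF i)
      rwa [sub_add_sub_cancel] at this
    have hg0 : g.eval 0 ≠ 0 := by
      have := hab.h0
      rw [hbb, eval_mul] at this
      exact right_ne_zero_of_mul this
    have hg1 : g.eval t₁ ≠ 0 := by
      have := hab.h1
      rw [hbb, eval_mul] at this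
      exact right_ne_zero_of_mul this
    have hfuB : ∀ v : κ, bl f u (v • O) = 0 := fun v => by rw [bl_smul_right, hfu, mul_zero]
    have hhuB : ∀ v : κ, bl h u (v • O) = 0 := fun v => by rw [bl_smul_right, hhu, mul_zero]
    have h3 := end1 h2 hf hh hg ht₁ hg0 hg1 hab.hbd hc hbb hgd (hev δ b hab.hb.1) hut huu
      (hfuB δ) (hhuB δ) hhy hyy0 hxg hxF hp.h1 hp.h0 hs
    refine ⟨-δ, ?_, ?_⟩
    · intro hδ
      rw [neg_eq_zero] at hδ
      obtain ⟨μ, Z, hμ, hμd, hs'⟩ := hker hδ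
      have h4 := end1 h2 hf hh hg ht₁ hg0 hg1 hab.hbd hc hbb hgd (B := 0)
        (by rw [cst_zero, bl_zero_right]) hut huu (bl_zero_right f u) (bl_zero_right h u)
        hhy hyy0 hxg hxF hp.h1 hp.h0 hs'
      have h5 := h4.2 rfl
      subst h5
      exact hμ (eq_zero_of_isSol hp.hx₁ne hx1 hμd hs')
    · rw [hQ1, h3.1, bl_smul_right, hfyO, hyy]
      have h4 : -(2 * (δ * bl f O P) / (2 * bl f O P)) = -δ := by
        field_simp
      rw [h4, hy, smul_add, neg_smul, neg_smul]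
      abel

/-- Smoothness is invariant under a change of the second member of the pencil. -/
theorem Sm.sub {κ : Type*} [Field κ] {f h : Matrix (Fin 7) (Fin 7) κ} (hS : Sm f h) (t : κ) :
    Sm f (h - t • f) := by
  intro α β v hv hαβ hker hcon
  have h1 : (h - t • f).map (algebraMap κ (AlgebraicClosure κ)) =
      h.map (algebraMap κ (AlgebraicClosure κ)) -
        algebraMap κ (AlgebraicClosure κ) t • f.map (algebraMap κ (AlgebraicClosure κ)) := by
    ext i j
    simp only [Matrix.map_apply, Matrix.sub_apply, Matrix.smul_apply, smul_eq_mul,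
      _root_.map_sub, _root_.map_mul]
  rw [h1] at hker hcon
  obtain ⟨hc1, hc2⟩ := hcon
  rw [bl_sub_mat, bl_smul_mat, hc1, mul_zero, sub_zero] at hc2
  refine hS (α - β * algebraMap κ (AlgebraicClosure κ) t) β v hv ?_ ?_ ⟨hc1, hc2⟩
  · by_cases hβ : β = 0
    · left
      rw [hβ, zero_mul, sub_zero]
      exact hαβ.resolve_right (fun h => h hβ)
    · exact Or.inr hβ
  · rw [← hker]
    congr 1
    rw [sub_smul, smul_sub, mul_smul]
    abel

/-- Two points in good position are linked. -/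
theorem link_pair {κ : Type*} [Field κ] [CharZero κ]
    (h10 : ∀ M : Matrix (Fin 10) (Fin 10) κ[X], ∃ v : Fin 10 → κ[X], v ≠ 0 ∧ bl M v v = 0)
    {f h : Matrix (Fin 7) (Fin 7) κ} (hf : f.IsSymm) (hh : h.IsSymm) (hS : Sm f h)
    (hdf : f.det ≠ 0) {O P : Fin 7 → κ} (hfO : bl f O O = 0) (hhO : bl h O O = 0)
    (hfP : bl f P P = 0) (hhP : bl h P P = 0) (hOP : bl f O P ≠ 0) {t : κ}
    (ht : bl h O P = t * bl f O P) (hdt : (h - t • f).det ≠ 0) : CurveLink f h O P := by
  have hh' : (h - t • f).IsSymm := by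
    ext i j
    simp [Matrix.transpose_apply, hf.apply i j, hh.apply i j]
  have key : ∀ x y : Fin 7 → κ, bl (h - t • f) x y = bl h x y - t * bl f x y := by
    intro x y
    rw [bl_sub_mat, bl_smul_mat]
  obtain ⟨c, h1, h2, h3, h4⟩ := link_pair0 h10 hf hh' (hS.sub t) hdf hdt hfO
    (by rw [key, hfO, hhO, mul_zero, sub_zero]) hfP
    (by rw [key, hfP, hhP, mul_zero, sub_zero]) hOP (by rw [key, ht, sub_self])
  refine ⟨c, h1, ?_, h3, h4⟩
  have h5 : (h - t • f).map C = h.map C - C t • f.map (C : κ →+* κ[X]) := by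
    ext i j : 1
    simp [Matrix.map_apply]
  rw [h5, bl_sub_mat, bl_smul_mat, h1, mul_zero, sub_zero] at h2
  exact h2

end Pool.Agent.Lib.MP_8ab79f_ag.Six
end
end
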