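import Pool.Agent.Lib.MP_8ab79f_ag.Mg.G003

section

/-!
# Systems of quadratic forms over a field
-/

set_option autoImplicit false
set_option linter.unusedSectionVars false

noncomputable section

namespace Pool.Agent.Lib.MP_8ab79f_ag.Six

section

variable {F : Type*} [CommRing F] {n r : ℕ}

/-- The form with coefficient vector `a` of the system `x ↦ (xᵀ (M s) x)_s`. -/
def Qf (M : Fin r → Matrix (Fin n) (Fin n) F) (a : Fin r → F) (x : Fin n → F) : F :=
  ∑ s, a s * bl (M s) x x

/-- The polar form of `Qf M a`. -/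
def Bf (M : Fin r → Matrix (Fin n) (Fin n) F) (a : Fin r → F) (x y : Fin n → F) : F :=
  ∑ s, a s * (bl (M s) x y + bl (M s) y x)

theorem Qf_add (M : Fin r → Matrix (Fin n) (Fin n) F) (a : Fin r → F) (x y : Fin n → F) :
    Qf M a (x + y) = Qf M a x + Qf M a y + Bf M a x y := by
  simp only [Qf, Bf, ← Finset.sum_add_distrib]
  refine Finset.sum_congr rfl fun s _ => ?_
  rw [bl_add_left, bl_add_right, bl_add_right]
  ring

theorem Qf_smul (M : Fin r → Matrix (Fin n) (Fin n) F) (a : Fin r → F) (c : F)
    (x : Fin n → F) : Qf M a (c • x) = c ^ 2 * Qf M a x := by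
  simp only [Qf, Finset.mul_sum]
  refine Finset.sum_congr rfl fun s _ => ?_
  rw [bl_smul_left, bl_smul_right]
  ring

theorem Qf_zero_right (M : Fin r → Matrix (Fin n) (Fin n) F) (a : Fin r → F) :
    Qf M a 0 = 0 := by
  simp [Qf, bl_zero_left]

theorem Qf_zero_left (M : Fin r → Matrix (Fin n) (Fin n) F) (x : Fin n → F) :
    Qf M 0 x = 0 := by
  simp [Qf]

theorem Qf_add_left (M : Fin r → Matrix (Fin n) (Fin n) F) (a b : Fin r → F) (x : Fin n → F) :
    Qf M (a + b) x = Qf M a x + Qf M b x := by
  simp [Qf, add_mul, Finset.sum_add_distrib]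

theorem Qf_smul_left (M : Fin r → Matrix (Fin n) (Fin n) F) (c : F) (a : Fin r → F)
    (x : Fin n → F) : Qf M (c • a) x = c * Qf M a x := by
  simp [Qf, mul_assoc, Finset.mul_sum]

theorem Bf_comm (M : Fin r → Matrix (Fin n) (Fin n) F) (a : Fin r → F) (x y : Fin n → F) :
    Bf M a x y = Bf M a y x := by
  simp [Bf, add_comm]

theorem Bf_self (M : Fin r → Matrix (Fin n) (Fin n) F) (a : Fin r → F) (x : Fin n → F) :
    Bf M a x x = 2 * Qf M a x := by
  simp only [Bf, Qf, Finset.mul_sum]
  refine Finset.sum_congr rfl fun s _ => ?_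
  ring

theorem Bf_add_left (M : Fin r → Matrix (Fin n) (Fin n) F) (a : Fin r → F)
    (x x' y : Fin n → F) : Bf M a (x + x') y = Bf M a x y + Bf M a x' y := by
  simp only [Bf, ← Finset.sum_add_distrib]
  refine Finset.sum_congr rfl fun s _ => ?_
  rw [bl_add_left, bl_add_right]
  ring

theorem Bf_smul_left (M : Fin r → Matrix (Fin n) (Fin n) F) (a : Fin r → F) (c : F)
    (x y : Fin n → F) : Bf M a (c • x) y = c * Bf M a x y := by
  simp only [Bf, Finset.mul_sum]
  refine Finset.sum_congr rfl fun s _ => ?_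
  rw [bl_smul_left, bl_smul_right]
  ring

theorem Bf_add_right (M : Fin r → Matrix (Fin n) (Fin n) F) (a : Fin r → F)
    (x y y' : Fin n → F) : Bf M a x (y + y') = Bf M a x y + Bf M a x y' := by
  rw [Bf_comm, Bf_add_left, Bf_comm M a y, Bf_comm M a y']

theorem Bf_smul_right (M : Fin r → Matrix (Fin n) (Fin n) F) (a : Fin r → F) (c : F)
    (x y : Fin n → F) : Bf M a x (c • y) = c * Bf M a x y := by
  rw [Bf_comm, Bf_smul_left, Bf_comm M a y]

theorem Bf_zero_left (M : Fin r → Matrix (Fin n) (Fin n) F) (a : Fin r → F) (y : Fin n → F) :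
    Bf M a 0 y = 0 := by
  simp [Bf, bl_zero_left, bl_zero_right]

theorem Bf_add_coef (M : Fin r → Matrix (Fin n) (Fin n) F) (a b : Fin r → F)
    (x y : Fin n → F) : Bf M (a + b) x y = Bf M a x y + Bf M b x y := by
  simp [Bf, add_mul, Finset.sum_add_distrib]

theorem Bf_smul_coef (M : Fin r → Matrix (Fin n) (Fin n) F) (c : F) (a : Fin r → F)
    (x y : Fin n → F) : Bf M (c • a) x y = c * Bf M a x y := by
  simp [Bf, mul_assoc, Finset.mul_sum]

theorem Bf_zero_coef (M : Fin r → Matrix (Fin n) (Fin n) F) (x y : Fin n → F) :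
    Bf M 0 x y = 0 := by
  simp [Bf]

end

section

variable {F : Type*} [Field F] {n r : ℕ}

/-- The radical of the polar form of `Qf M a`. -/
def radB (M : Fin r → Matrix (Fin n) (Fin n) F) (a : Fin r → F) :
    Submodule F (Fin n → F) where
  carrier := {x | ∀ y, Bf M a x y = 0}
  add_mem' := by
    intro x x' hx hx' y
    rw [Bf_add_left, hx y, hx' y, add_zero]
  zero_mem' := fun y => Bf_zero_left M a y
  smul_mem' := by
    intro c x hx y
    rw [Bf_smul_left, hx y, mul_zero]

/-- The coefficient vectors of the forms of the system which vanish on `W`. -/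
def ann (M : Fin r → Matrix (Fin n) (Fin n) F) (W : Submodule F (Fin n → F)) :
    Submodule F (Fin r → F) where
  carrier := {c | ∀ x ∈ W, Qf M c x = 0}
  add_mem' := by
    intro c c' hc hc' x hx
    rw [Qf_add_left, hc x hx, hc' x hx, add_zero]
  zero_mem' := fun x _ => Qf_zero_left M x
  smul_mem' := by
    intro b c hc x hx
    rw [Qf_smul_left, hc x hx, mul_zero]

/-- The coefficient vectors of the forms of the system whose polar form vanishes on `W`. -/
def annB (M : Fin r → Matrix (Fin n) (Fin n) F) (W : Submodule F (Fin n → F)) :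
    Submodule F (Fin r → F) where
  carrier := {c | ∀ x ∈ W, ∀ y ∈ W, Bf M c x y = 0}
  add_mem' := by
    intro c c' hc hc' x hx y hy
    rw [Bf_add_coef, hc x hx y hy, hc' x hx y hy, add_zero]
  zero_mem' := fun x _ y _ => Bf_zero_coef M x y
  smul_mem' := by
    intro b c hc x hx y hy
    rw [Bf_smul_coef, hc x hx y hy, mul_zero]

theorem mem_radB {M : Fin r → Matrix (Fin n) (Fin n) F} {a : Fin r → F} {x : Fin n → F} :
    x ∈ radB M a ↔ ∀ y, Bf M a x y = 0 := Iff.rfl

theorem mem_ann {M : Fin r → Matrix (Fin n) (Fin n) F} {W : Submodule F (Fin n → F)}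
    {c : Fin r → F} : c ∈ ann M W ↔ ∀ x ∈ W, Qf M c x = 0 := Iff.rfl

theorem mem_annB {M : Fin r → Matrix (Fin n) (Fin n) F} {W : Submodule F (Fin n → F)}
    {c : Fin r → F} : c ∈ annB M W ↔ ∀ x ∈ W, ∀ y ∈ W, Bf M c x y = 0 := Iff.rfl

/-- The exponential sum attached to the form with coefficients `a`. -/
def Sx [Fintype F] (ψ : AddChar F ℂ) (M : Fin r → Matrix (Fin n) (Fin n) F) (a : Fin r → F) :
    ℂ := ∑ x : Fin n → F, ψ (Qf M a x)

/-- The Jacobian matrix of a family of polynomials at a point. -/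
def jac {σ τ : Type*} (P : τ → MvPolynomial σ F) (z : σ → F) : Matrix τ σ F :=
  Matrix.of fun i j => MvPolynomial.eval z (MvPolynomial.pderiv j (P i))

/-- The system satisfies the rank condition of level `e`: if `k ≥ 1` independent forms of the
system vanish on a subspace then its dimension is at most `e - 2 k - 1`. -/
def RankCond (M : Fin r → Matrix (Fin n) (Fin n) F) (e : ℕ) : Prop :=
  ∀ W : Submodule F (Fin n → F), 1 ≤ Module.finrank F (ann M W) →
    Module.finrank F W + 2 * Module.finrank F (ann M W) + 1 ≤ e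

end

end Pool.Agent.Lib.MP_8ab79f_ag.Six
end
end

section

set_option autoImplicit false
set_option linter.unusedSectionVars false

noncomputable section

namespace Pool.Agent.Lib.MP_8ab79f_ag.Six

/-- Systems of quadratic forms over `R` with approximate primitive zeros have primitive zeros. -/
def CompactProp (R : Type*) [CommRing R] (π : R) : Prop :=
  ∀ (n r : ℕ) (M : Fin r → Matrix (Fin n) (Fin n) R),
    (∀ N : ℕ, ∃ x : Fin n → R, (∃ i, ¬ π ∣ x i) ∧ ∀ s, π ^ N ∣ bl (M s) x x) →
    ∃ x : Fin n → R, (∃ i, ¬ π ∣ x i) ∧ ∀ s, bl (M s) x x = 0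

/-- The transformed system `B · M(A x)` is divisible by `π ^ e`. -/
def Adm {R : Type*} [CommRing R] (π : R) {n r : ℕ} (M : Fin r → Matrix (Fin n) (Fin n) R)
    (A : Matrix (Fin n) (Fin n) R) (B : Matrix (Fin r) (Fin r) R) (e : ℕ) : Prop :=
  ∀ (x : Fin n → R) (i : Fin r), π ^ e ∣ ∑ j, B i j * bl (M j) (A.mulVec x) (A.mulVec x)

end Pool.Agent.Lib.MP_8ab79f_ag.Six
end
end

section

set_option autoImplicit false
set_option linter.unusedSectionVars false

noncomputable section

namespace Pool.Agent.Lib.MP_8ab79f_ag.Six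

theorem RComp_isClosed (p : ℕ) [Fact p.Prime] {n m : ℕ} (N : ℕ)
    (U : Set (Fin n → Fin m → ℤ_[p]))
    (hU : ∀ z ∈ U, ∀ w : Fin n → Fin m → ℤ_[p], z + (p : ℤ_[p]) ^ N • w ∈ U) : IsClosed U := by
  rw [← isOpen_compl_iff, Metric.isOpen_iff]
  intro z hz
  have hp : (0 : ℝ) < p := by exact_mod_cast (Fact.out : p.Prime).pos
  refine ⟨(p : ℝ) ^ (-N : ℤ), zpow_pos hp _, ?_⟩
  intro w hw hwU
  apply hz
  have h1 : ∀ i j, ∃ v : ℤ_[p], w i j - z i j = (p : ℤ_[p]) ^ N * v := by
    intro i j
    have h2 : dist (w i j) (z i j) < (p : ℝ) ^ (-N : ℤ) :=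
      lt_of_le_of_lt (le_trans (dist_le_pi_dist (w i) (z i) j) (dist_le_pi_dist w z i)) hw
    rw [dist_eq_norm] at h2
    have h3 := (PadicInt.norm_le_pow_iff_mem_span_pow (w i j - z i j) N).1 h2.le
    rw [Ideal.mem_span_singleton] at h3
    exact h3
  choose v hv using h1
  have h4 : z = w + (p : ℤ_[p]) ^ N • (-v) := by
    funext i j
    have := hv i j
    simp only [Pi.add_apply, Pi.smul_apply, Pi.neg_apply, smul_eq_mul, mul_neg]
    rw [← this]
    ring
  rw [h4]
  exact hU w hwU (-v)

/-- Compactness of the localization of a finite `ℤ_p`-algebra at a maximal ideal. -/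
theorem compactProp_localization (p : ℕ) [Fact p.Prime] (S : Type*) [CommRing S] [IsDomain S]
    [Algebra ℤ_[p] S] [Module.Finite ℤ_[p] S] (Q : Ideal S) [Q.IsMaximal] (hp : (p : S) ∈ Q)
    [IsDiscreteValuationRing (Localization.AtPrime Q)] (π : Localization.AtPrime Q)
    (hπ : Irreducible π) : CompactProp (Localization.AtPrime Q) π := by
  intro n r M hM
  have key : ∀ s : S, π ∣ algebraMap S (Localization.AtPrime Q) s ↔ s ∈ Q := by
    intro s
    rw [← Ideal.mem_span_singleton, ← hπ.maximalIdeal_eq]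
    exact IsLocalization.AtPrime.to_map_mem_maximal_iff (Localization.AtPrime Q) Q s
  have hpπ : π ∣ (p : Localization.AtPrime Q) := by
    have := (key (p : S)).2 hp
    rwa [map_natCast] at this
  obtain ⟨m, f, hf⟩ := Module.Finite.exists_fin' ℤ_[p] S
  let F : (Fin n → Fin m → ℤ_[p]) → (Fin n → Localization.AtPrime Q) :=
    fun z i => algebraMap S _ (f (z i))
  have hF : ∀ (N : ℕ) (z w : Fin n → Fin m → ℤ_[p]) (i : Fin n),
      π ^ N ∣ F (z + (p : ℤ_[p]) ^ N • w) i - F z i := by
    intro N z w i
    have h1 : F (z + (p : ℤ_[p]) ^ N • w) i - F z i =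
        (p : Localization.AtPrime Q) ^ N * F w i := by
      have h2 : f ((z + (p : ℤ_[p]) ^ N • w) i) = f (z i) + (p : ℤ_[p]) ^ N • f (w i) := by
        rw [← map_smul, ← map_add]
        rfl
      change algebraMap S (Localization.AtPrime Q) (f ((z + (p : ℤ_[p]) ^ N • w) i)) -
        algebraMap S (Localization.AtPrime Q) (f (z i)) = _ *
        algebraMap S (Localization.AtPrime Q) (f (w i))
      rw [h2, Algebra.smul_def, map_add, map_mul, map_pow, map_pow, map_natCast, map_natCast]
      ring
    rw [h1]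
    exact Dvd.dvd.mul_right (pow_dvd_pow_of_dvd hpπ N) _
  let K : ℕ → Set (Fin n → Fin m → ℤ_[p]) := fun N =>
    {z | (∃ i, ¬ π ∣ F z i) ∧ ∀ s, π ^ N ∣ bl (M s) (F z) (F z)}
  have hanti : ∀ N, K (N + 1) ⊆ K N := by
    intro N z hz
    exact ⟨hz.1, fun s => dvd_trans (pow_dvd_pow π (Nat.le_succ N)) (hz.2 s)⟩
  have hclosed : ∀ N, IsClosed (K N) := by
    intro N
    apply RComp_isClosed p (N + 1)
    intro z hz w
    have h1 := hF (N + 1) z w
    refine ⟨?_, ?_⟩
    · obtain ⟨i, hi⟩ := hz.1
      refine ⟨i, fun h => hi ?_⟩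
      have h2 : π ∣ F (z + (p : ℤ_[p]) ^ (N + 1) • w) i - F z i :=
        dvd_trans (dvd_pow_self π (Nat.succ_ne_zero N)) (h1 i)
      have h3 := dvd_sub h h2
      rwa [sub_sub_cancel] at h3
    · intro s
      have h2 : ∀ i, π ^ N ∣ F (z + (p : ℤ_[p]) ^ (N + 1) • w) i - F z i :=
        fun i => dvd_trans (pow_dvd_pow π (Nat.le_succ N)) (h1 i)
      have h3 := bl_dvd (M s) h2 h2
      have h4 := dvd_add h3 (hz.2 s)
      rwa [sub_add_cancel] at h4
  have hne : ∀ N, (K N).Nonempty := by
    intro N
    obtain ⟨x, ⟨i0, hi0⟩, hx⟩ := hM N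
    obtain ⟨b, hb⟩ := IsLocalization.exist_integer_multiples_of_finite Q.primeCompl x
    choose y hy using hb
    choose z hz using fun i => hf (y i)
    have hFz : F z = (algebraMap S (Localization.AtPrime Q) (b : S)) • x := by
      funext i
      simp only [F, hz i, hy i, Pi.smul_apply, smul_eq_mul, Algebra.smul_def]
    have hbu : IsUnit (algebraMap S (Localization.AtPrime Q) (b : S)) :=
      IsLocalization.map_units _ b
    refine ⟨z, ⟨i0, ?_⟩, ?_⟩
    · rw [hFz]
      simp only [Pi.smul_apply, smul_eq_mul]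
      rwa [hbu.dvd_mul_left]
    · intro s
      rw [hFz, bl_smul_left, bl_smul_right]
      exact Dvd.dvd.mul_left (Dvd.dvd.mul_left (hx s) _) _
  have hcomp : IsCompact (K 0) := (hclosed 0).isCompact
  obtain ⟨z, hz⟩ := IsCompact.nonempty_iInter_of_sequence_nonempty_isCompact_isClosed K hanti hne
    hcomp hclosed
  rw [Set.mem_iInter] at hz
  refine ⟨F z, (hz 0).1, ?_⟩
  intro s
  by_contra hne0
  obtain ⟨k, hk⟩ := IsDiscreteValuationRing.associated_pow_irreducible hne0 hπ
  have h5 : π ^ (k + 1) ∣ π ^ k := (hk.dvd_iff_dvd_right).1 ((hz (k + 1)).2 s)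
  have h6 := (pow_dvd_pow_iff hπ.ne_zero hπ.not_isUnit).1 h5
  omega

end Pool.Agent.Lib.MP_8ab79f_ag.Six
end
end

section

set_option autoImplicit false
set_option linter.unusedSectionVars false

noncomputable section

namespace Pool.Agent.Lib.MP_8ab79f_ag.Six

open Polynomial in
theorem RRes_quot (p : ℕ) [Fact p.Prime] (S : Type*) [CommRing S] [IsDomain S]
    [Algebra ℤ_[p] S] [Module.Finite ℤ_[p] S] (Q : Ideal S) [Q.IsMaximal] (hp : (p : S) ∈ Q)
    (g : ℤ_[p][X]) (hg : g.Monic) (hgi : Irreducible (g.map PadicInt.toZMod)) (α : S)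
    (hα : aeval α g = 0) :
    Finite (S ⧸ Q) ∧ p ^ g.natDegree ≤ Nat.card (S ⧸ Q) := by
  let _ : Field (S ⧸ Q) := Ideal.Quotient.field Q
  have hp0 : (p : S ⧸ Q) = 0 := by
    rw [← map_natCast (Ideal.Quotient.mk Q)]
    exact Ideal.Quotient.eq_zero_iff_mem.2 hp
  have _ : CharP (S ⧸ Q) p := (CharP.charP_iff_prime_eq_zero Fact.out).2 hp0
  let _ : Algebra (ZMod p) (S ⧸ Q) := ZMod.algebra (S ⧸ Q) p
  let _ : Algebra ℤ_[p] (ZMod p) := (PadicInt.toZMod (p := p)).toAlgebra
  have hcomp : ∀ x : ℤ_[p], algebraMap ℤ_[p] (S ⧸ Q) x =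
      algebraMap (ZMod p) (S ⧸ Q) (PadicInt.toZMod x) := by
    intro x
    have h1 := PadicInt.toZMod_spec x
    rw [PadicInt.maximalIdeal_eq_span_p, Ideal.mem_span_singleton] at h1
    obtain ⟨y, hy⟩ := h1
    have h2 : x = ((ZMod.cast (PadicInt.toZMod x) : ℤ_[p])) + p * y := by
      rw [← hy]
      ring
    have h3 : (ZMod.cast (PadicInt.toZMod x) : ℤ_[p]) =
        (((PadicInt.toZMod x).val : ℕ) : ℤ_[p]) := by
      rw [ZMod.natCast_val]
    have h4 : algebraMap ℤ_[p] (S ⧸ Q) x = (((PadicInt.toZMod x).val : ℕ) : S ⧸ Q) := by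
      conv_lhs => rw [h2]
      rw [h3, map_add, map_mul, map_natCast, map_natCast, hp0, zero_mul, add_zero]
    rw [h4]
    conv_rhs => rw [← ZMod.natCast_zmod_val (PadicInt.toZMod x)]
    rw [map_natCast]
  have _ : IsScalarTower ℤ_[p] (ZMod p) (S ⧸ Q) := IsScalarTower.of_algebraMap_eq hcomp
  have _ : Module.Finite ℤ_[p] (S ⧸ Q) :=
    Module.Finite.of_surjective (Ideal.Quotient.mkₐ ℤ_[p] Q).toLinearMap
      (Ideal.Quotient.mk_surjective)
  have _ : Module.Finite (ZMod p) (S ⧸ Q) :=
    Module.Finite.of_restrictScalars_finite ℤ_[p] (ZMod p) (S ⧸ Q)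
  have hfin : Finite (S ⧸ Q) := Module.finite_of_finite (ZMod p)
  refine ⟨hfin, ?_⟩
  have hroot : aeval (Ideal.Quotient.mk Q α) (g.map PadicInt.toZMod) = 0 := by
    have h1 : aeval (Ideal.Quotient.mk Q α) g = 0 := by
      have h2 := Polynomial.aeval_algHom_apply (Ideal.Quotient.mkₐ ℤ_[p] Q) α g
      rw [hα, map_zero] at h2
      exact h2
    have h3 := Polynomial.aeval_map_algebraMap (R := ℤ_[p]) (ZMod p) (Ideal.Quotient.mk Q α) g
    rw [h1] at h3
    exact h3
  have hmin : g.map PadicInt.toZMod = minpoly (ZMod p) (Ideal.Quotient.mk Q α) :=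
    minpoly.eq_of_irreducible_of_monic hgi hroot (hg.map _)
  have hdeg : g.natDegree ≤ Module.finrank (ZMod p) (S ⧸ Q) := by
    have h1 := minpoly.natDegree_le (A := ZMod p) (Ideal.Quotient.mk Q α)
    rw [← hmin, hg.natDegree_map] at h1
    exact h1
  rw [Module.natCard_eq_pow_finrank (K := ZMod p) (V := S ⧸ Q), Nat.card_zmod]
  exact Nat.pow_le_pow_right (Fact.out : p.Prime).pos hdeg

open Polynomial IsLocalRing in
/-- The residue field of the localization of a finite `ℤ_p`-algebra at a maximal ideal is finite,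
and large if the algebra contains a root of a polynomial which is irreducible modulo `p`. -/
theorem card_residueField (p : ℕ) [Fact p.Prime] (S : Type*) [CommRing S] [IsDomain S]
    [Algebra ℤ_[p] S] [Module.Finite ℤ_[p] S] (Q : Ideal S) [Q.IsMaximal] (hp : (p : S) ∈ Q)
    (g : ℤ_[p][X]) (hg : g.Monic) (hgi : Irreducible (g.map PadicInt.toZMod)) (α : S)
    (hα : aeval α g = 0) :
    Finite (ResidueField (Localization.AtPrime Q)) ∧
      p ^ g.natDegree ≤ Nat.card (ResidueField (Localization.AtPrime Q)) := by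
  obtain ⟨h1, h2⟩ := RRes_quot p S Q hp g hg hgi α hα
  have e : (S ⧸ Q) ≃ ResidueField (Localization.AtPrime Q) :=
    (IsLocalization.AtPrime.equivQuotMaximalIdeal Q (Localization.AtPrime Q)).toEquiv
  exact ⟨Finite.of_equiv _ e, by rwa [← Nat.card_congr e]⟩

end Pool.Agent.Lib.MP_8ab79f_ag.Six
end
end

section

set_option autoImplicit false
set_option linter.unusedSectionVars false

noncomputable section

namespace Pool.Agent.Lib.MP_8ab79f_ag.Six

universe u

open Polynomial IsLocalRing in
/-- Finite extensions of the `p`-adic numbers as fraction fields of discrete valuation rings. -/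
theorem exists_dvr (p : ℕ) [Fact p.Prime] (L : Type u) [Field L] [Algebra ℚ_[p] L]
    [FiniteDimensional ℚ_[p] L] (g : ℤ_[p][X]) (hg : g.Monic)
    (hgi : Irreducible (g.map PadicInt.toZMod)) (α : L)
    (hα : aeval α (g.map (algebraMap ℤ_[p] ℚ_[p])) = 0) :
    ∃ (R : Type u) (_ : CommRing R) (_ : IsDomain R) (_ : IsDiscreteValuationRing R)
      (_ : Algebra R L) (_ : IsFractionRing R L) (π : R), Irreducible π ∧ CompactProp R π ∧
      Finite (ResidueField R) ∧ p ^ g.natDegree ≤ Nat.card (ResidueField R) := by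
  let _ : Algebra ℤ_[p] L := ((algebraMap ℚ_[p] L).comp (algebraMap ℤ_[p] ℚ_[p])).toAlgebra
  have _ : IsScalarTower ℤ_[p] ℚ_[p] L := IsScalarTower.of_algebraMap_eq fun _ => rfl
  have hchar : CharZero L := charZero_of_injective_algebraMap (algebraMap ℚ_[p] L).injective
  have _ : IsFractionRing (integralClosure ℤ_[p] L) L :=
    integralClosure.isFractionRing_of_finite_extension ℚ_[p] L
  have _ : IsDedekindDomain (integralClosure ℤ_[p] L) :=
    integralClosure.isDedekindDomain ℤ_[p] ℚ_[p] L
  have _ : Module.Finite ℤ_[p] (integralClosure ℤ_[p] L) :=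
    IsIntegralClosure.finite ℤ_[p] ℚ_[p] L (integralClosure ℤ_[p] L)
  have hinj : Function.Injective (algebraMap ℤ_[p] (integralClosure ℤ_[p] L)) := by
    have h1 : Function.Injective (algebraMap ℤ_[p] L) :=
      (algebraMap ℚ_[p] L).injective.comp (IsFractionRing.injective ℤ_[p] ℚ_[p])
    intro a b hab
    apply h1
    have := congrArg (algebraMap (integralClosure ℤ_[p] L) L) hab
    exact this
  have _ : FaithfulSMul ℤ_[p] (integralClosure ℤ_[p] L) :=
    (faithfulSMul_iff_algebraMap_injective _ _).2 hinj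
  obtain ⟨Q, hQm, hQ⟩ := Ideal.exists_maximal_ideal_liesOver_of_isIntegral
    (S := integralClosure ℤ_[p] L) (IsLocalRing.maximalIdeal ℤ_[p])
  have hpQ : (p : integralClosure ℤ_[p] L) ∈ Q := by
    have h1 := hQ.over
    have h2 : (p : ℤ_[p]) ∈ IsLocalRing.maximalIdeal ℤ_[p] := by
      rw [PadicInt.maximalIdeal_eq_span_p]
      exact Ideal.mem_span_singleton_self _
    rw [h1, Ideal.mem_comap, map_natCast] at h2
    exact h2
  have hQ0 : Q ≠ ⊥ := by
    rintro rfl
    rw [Ideal.mem_bot] at hpQ
    have h3 : ((p : integralClosure ℤ_[p] L) : L) = 0 := by rw [hpQ]; rfl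
    have h4 : ((p : ℕ) : L) = 0 := by
      rw [← h3]
      simp
    exact (Fact.out : p.Prime).ne_zero (Nat.cast_eq_zero.1 h4)
  have _ : IsDiscreteValuationRing (Localization.AtPrime Q) :=
    IsLocalization.AtPrime.isDiscreteValuationRing_of_dedekind_domain _ hQ0 _
  let _ : Algebra (Localization.AtPrime Q) L :=
    IsLocalization.localizationAlgebraOfSubmonoidLe (Localization.AtPrime Q) L Q.primeCompl
      (nonZeroDivisors (integralClosure ℤ_[p] L)) Q.primeCompl_le_nonZeroDivisors
  have _ : IsScalarTower (integralClosure ℤ_[p] L) (Localization.AtPrime Q) L :=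
    IsLocalization.localization_isScalarTower_of_submonoid_le (Localization.AtPrime Q) L
      Q.primeCompl (nonZeroDivisors (integralClosure ℤ_[p] L)) Q.primeCompl_le_nonZeroDivisors
  have _ : IsFractionRing (Localization.AtPrime Q) L :=
    IsFractionRing.isFractionRing_of_isDomain_of_isLocalization Q.primeCompl _ _
  have hα1 : aeval α g = 0 := by
    have h1 := Polynomial.aeval_map_algebraMap (R := ℤ_[p]) ℚ_[p] α g
    rw [hα] at h1
    exact h1.symm
  have hαint : IsIntegral ℤ_[p] α := ⟨g, hg, hα1⟩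
  obtain ⟨π, hπ⟩ := IsDiscreteValuationRing.exists_irreducible (Localization.AtPrime Q)
  have hα2 : aeval (⟨α, hαint⟩ : integralClosure ℤ_[p] L) g = 0 := by
    have h1 := Polynomial.aeval_algebraMap_apply L (⟨α, hαint⟩ : integralClosure ℤ_[p] L) g
    have h2 : aeval α g = algebraMap (integralClosure ℤ_[p] L) L
      (aeval (⟨α, hαint⟩ : integralClosure ℤ_[p] L) g) := h1
    rw [hα1] at h2
    apply IsFractionRing.injective (integralClosure ℤ_[p] L) L
    rw [← h2, map_zero]
  exact ⟨Localization.AtPrime Q, inferInstance, inferInstance, inferInstance, inferInstance,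
    inferInstance, π, hπ, compactProp_localization p _ Q hpQ π hπ,
    card_residueField p _ Q hpQ g hg hgi ⟨α, hαint⟩ hα2⟩

end Pool.Agent.Lib.MP_8ab79f_ag.Six
end
end

section

set_option autoImplicit false
set_option linter.unusedSectionVars false

noncomputable section

namespace Pool.Agent.Lib.MP_8ab79f_ag.Six

/-- Passing from the ring to its field of fractions. -/
theorem zero_of_ring {R : Type*} [CommRing R] [IsDomain R] {K : Type*} [Field K] [Algebra R K]
    [IsFractionRing R K] {n r : ℕ}
    (h : ∀ M : Fin r → Matrix (Fin n) (Fin n) R,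
      ∃ x : Fin n → R, x ≠ 0 ∧ ∀ s, bl (M s) x x = 0)
    (M : Fin r → Matrix (Fin n) (Fin n) K) :
    ∃ x : Fin n → K, x ≠ 0 ∧ ∀ s, bl (M s) x x = 0 := by
  obtain ⟨b, hb⟩ := IsLocalization.exist_integer_multiples_of_finite (nonZeroDivisors R)
    (fun p : Fin r × Fin n × Fin n => M p.1 p.2.1 p.2.2)
  choose g hg using hb
  obtain ⟨x, hx0, hx⟩ := h fun s => Matrix.of fun i j => g (s, i, j)
  have hinj := IsFractionRing.injective R K
  refine ⟨fun i => algebraMap R K (x i), ?_, fun s => ?_⟩
  · intro h0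
    apply hx0
    ext i
    apply hinj
    simpa using congrFun h0 i
  · have hb0 : algebraMap R K (b : R) ≠ 0 := by
      intro h0
      have h1 : (b : R) = 0 := hinj (by simpa using h0)
      exact nonZeroDivisors.coe_ne_zero b h1
    have h1 := congrArg (algebraMap R K) (hx s)
    have h3 : (Matrix.of fun i j => g (s, i, j)).map (algebraMap R K) =
        (algebraMap R K (b : R)) • M s := by
      ext i j
      have h4 := hg (s, i, j)
      simp only [Matrix.map_apply, Matrix.of_apply, Matrix.smul_apply, smul_eq_mul]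
      rw [h4, Algebra.smul_def]
    rw [bl_map, h3, bl_smul_mat, map_zero] at h1
    exact (mul_eq_zero.1 h1).resolve_left hb0

end Pool.Agent.Lib.MP_8ab79f_ag.Six
end
end

section

set_option autoImplicit false
set_option linter.unusedSectionVars false

noncomputable section

namespace Pool.Agent.Lib.MP_8ab79f_ag.Six

open MvPolynomial in
/-- The substitution `x = z + ε y`. -/
def FLoc_phi {F : Type*} [Field F] {σ : Type*} (z : σ → F) :
    MvPolynomial σ F →+* Polynomial (MvPolynomial σ F) :=
  eval₂Hom ((Polynomial.C : MvPolynomial σ F →+* _).comp (C : F →+* MvPolynomial σ F))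
    fun j => Polynomial.C (C (z j)) + Polynomial.X * Polynomial.C (X j)

open MvPolynomial in
theorem FLoc_phi_C {F : Type*} [Field F] {σ : Type*} (z : σ → F) (a : F) :
    FLoc_phi z (C a) = Polynomial.C (C a) := by
  simp [FLoc_phi]

open MvPolynomial in
theorem FLoc_phi_X {F : Type*} [Field F] {σ : Type*} (z : σ → F) (j : σ) :
    FLoc_phi z (X j) = Polynomial.C (C (z j)) + Polynomial.X * Polynomial.C (X j) := by
  simp [FLoc_phi]

open MvPolynomial in
theorem FLoc_coeff {F : Type*} [Field F] {σ : Type*} [Fintype σ] [DecidableEq σ] (z : σ → F)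
    (p : MvPolynomial σ F) :
    (FLoc_phi z p).coeff 0 = C (eval z p) ∧
      (FLoc_phi z p).coeff 1 = ∑ j, C (eval z (pderiv j p)) * X j := by
  induction p using MvPolynomial.induction_on with
  | C a =>
    rw [FLoc_phi_C]
    constructor
    · simp
    · simp
  | add p q hp hq =>
    rw [map_add, Polynomial.coeff_add, Polynomial.coeff_add, hp.1, hp.2, hq.1, hq.2]
    constructor
    · rw [map_add, map_add]
    · rw [← Finset.sum_add_distrib]
      refine Finset.sum_congr rfl fun j _ => ?_
      rw [map_add, map_add, map_add]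
      ring
  | mul_X p k hp =>
    rw [map_mul, FLoc_phi_X]
    constructor
    · rw [Polynomial.mul_coeff_zero, hp.1]
      simp
    · have h1 : FLoc_phi z p * (Polynomial.C (C (z k)) + Polynomial.X * Polynomial.C (X k)) =
          FLoc_phi z p * Polynomial.C (C (z k)) +
            FLoc_phi z p * Polynomial.X * Polynomial.C (X k) := by ring
      rw [h1, Polynomial.coeff_add, Polynomial.coeff_mul_C, Polynomial.coeff_mul_C,
        Polynomial.coeff_mul_X, hp.1, hp.2, Finset.sum_mul]
      have h2 : ∀ j, C (eval z (pderiv j (p * X k))) * X j =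
          C (eval z (pderiv j p)) * X j * C (z k) +
            (if j = k then C (eval z p) * X k else 0) := by
        intro j
        rw [Derivation.leibniz, pderiv_X]
        simp only [smul_eq_mul, map_add, map_mul, eval_X]
        by_cases h : j = k
        · subst h
          rw [if_pos rfl, Pi.single_eq_same, map_one, map_one]
          ring
        · rw [if_neg h, Pi.single_eq_of_ne' h, map_zero, map_zero]
          ring
      rw [Finset.sum_congr rfl fun j _ => h2 j, Finset.sum_add_distrib, Finset.sum_ite_eq']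
      simp

open MvPolynomial in
theorem FLoc_prod {F : Type*} [Field F] {σ : Type*} [Fintype σ] [DecidableEq σ] (n : σ → ℕ) :
    (∏ i, (X i : MvPolynomial σ F) ^ n i) = monomial (Finsupp.equivFunOnFinite.symm n) 1 := by
  rw [monomial_eq, map_one, one_mul, Finsupp.prod_fintype _ _ (by intro i; simp)]
  rfl

open MvPolynomial in
/-- The lowest part of an algebraic relation vanishes at a nonsingular common zero. -/
theorem local_relation {F : Type*} [Field F] {σ : Type*} [Fintype σ] [DecidableEq σ]
    (P : σ → MvPolynomial σ F) (l : σ) (E : ℕ) (c : Fin (E + 1) → (σ → Fin (E + 1)) → F)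
    (hc : ∑ e : Fin (E + 1), ∑ β : σ → Fin (E + 1),
      C (c e β) * X l ^ (e : ℕ) * ∏ i, P i ^ (β i : ℕ) = 0)
    (z : σ → F) (hz : ∀ i, eval z (P i) = 0) (hJ : (jac P z).det ≠ 0) (m : ℕ)
    (hm : ∀ (e : Fin (E + 1)) (β : σ → Fin (E + 1)), ∑ i, (β i : ℕ) < m → c e β = 0)
    (β : σ → Fin (E + 1)) (hβ : ∑ i, (β i : ℕ) = m) :
    ∑ e : Fin (E + 1), c e β * z l ^ (e : ℕ) = 0 := by
  set Q : σ → Polynomial (MvPolynomial σ F) := fun i => (FLoc_phi z (P i)).divX with hQ
  have hPQ : ∀ i, FLoc_phi z (P i) = Q i * Polynomial.X := by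
    intro i
    have h1 := Polynomial.divX_mul_X_add (FLoc_phi z (P i))
    rw [(FLoc_coeff z (P i)).1, hz i, map_zero, map_zero, add_zero] at h1
    exact h1.symm
  set L : σ → MvPolynomial σ F := fun i => ∑ j, C (jac P z i j) * X j with hL
  have hQ0 : ∀ i, (Q i).coeff 0 = L i := by
    intro i
    rw [hQ]
    simp only
    rw [Polynomial.coeff_divX, zero_add, (FLoc_coeff z (P i)).2]
    rfl
  -- the coefficient of `ε ^ m`
  have h1 : ∑ e : Fin (E + 1), ∑ β : σ → Fin (E + 1),
      (if ∑ i, (β i : ℕ) = m then C (c e β * z l ^ (e : ℕ)) * ∏ i, L i ^ (β i : ℕ) else 0) = 0 := by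
    have h2 := congrArg (fun q => (FLoc_phi z q).coeff m) hc
    simp only [map_sum, map_zero, Polynomial.coeff_zero, Polynomial.finsetSum_coeff] at h2
    refine Eq.trans ?_ h2
    refine Finset.sum_congr rfl fun e _ => Finset.sum_congr rfl fun β' _ => ?_
    have h3 : FLoc_phi z (C (c e β') * X l ^ (e : ℕ) * ∏ i, P i ^ (β' i : ℕ)) =
        (Polynomial.C (C (c e β')) * FLoc_phi z (X l) ^ (e : ℕ) * ∏ i, Q i ^ (β' i : ℕ)) *
          Polynomial.X ^ (∑ i, (β' i : ℕ)) := by
      rw [map_mul, map_mul, map_pow, map_prod, FLoc_phi_C]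
      have h4 : ∏ i, FLoc_phi z (P i ^ (β' i : ℕ)) =
          (∏ i, Q i ^ (β' i : ℕ)) * Polynomial.X ^ (∑ i, (β' i : ℕ)) := by
        rw [← Finset.prod_pow_eq_pow_sum, ← Finset.prod_mul_distrib]
        refine Finset.prod_congr rfl fun i _ => ?_
        rw [map_pow, hPQ, mul_pow]
      rw [h4]
      ring
    rw [h3, Polynomial.coeff_mul_X_pow']
    rcases lt_trichotomy (∑ i, (β' i : ℕ)) m with h | h | h
    · rw [if_neg h.ne, hm e β' h]
      simp
    · rw [if_pos h, if_pos h.le, h, Nat.sub_self]
      have h5 : ∀ q : Polynomial (MvPolynomial σ F), q.coeff 0 = Polynomial.constantCoeff q :=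
        fun q => (Polynomial.constantCoeff_apply q).symm
      have h6 : ∀ i, Polynomial.constantCoeff (Q i) = L i := fun i => by
        rw [← h5, hQ0]
      have h7 : Polynomial.constantCoeff (FLoc_phi z (X l)) = C (z l) := by
        rw [← h5, (FLoc_coeff z (X l)).1, eval_X]
      have h8 : Polynomial.constantCoeff (Polynomial.C (C (c e β') : MvPolynomial σ F)) =
          C (c e β') := by
        rw [← h5, Polynomial.coeff_C_zero]
      rw [h5, map_mul Polynomial.constantCoeff, map_mul Polynomial.constantCoeff,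
        map_pow Polynomial.constantCoeff, map_prod Polynomial.constantCoeff, h7, h8]
      simp only [map_pow, h6, map_mul]
    · rw [if_neg h.ne', if_neg (not_le.2 h)]
  -- the linear substitution
  have hdet : IsUnit (jac P z).det := isUnit_iff_ne_zero.2 hJ
  set ψ : MvPolynomial σ F →+* MvPolynomial σ F :=
    eval₂Hom C fun j => ∑ k, C ((jac P z)⁻¹ j k) * X k with hψ
  have hψC : ∀ a : F, ψ (C a) = C a := fun a => by simp [hψ]
  have hψX : ∀ j, ψ (X j) = ∑ k, C ((jac P z)⁻¹ j k) * X k := fun j => by simp [hψ]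
  have hψL : ∀ i, ψ (L i) = X i := by
    intro i
    have h2 : ψ (L i) = ∑ k, C ((jac P z * (jac P z)⁻¹) i k) * X k := by
      rw [hL]
      simp only [map_sum, map_mul, hψC, hψX, Finset.mul_sum]
      rw [Finset.sum_comm]
      refine Finset.sum_congr rfl fun k _ => ?_
      rw [Matrix.mul_apply, map_sum, Finset.sum_mul]
      refine Finset.sum_congr rfl fun j _ => ?_
      rw [map_mul]
      ring
    rw [h2, Matrix.mul_nonsing_inv _ hdet]
    rw [Finset.sum_eq_single i]
    · simp
    · intro k _ hk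
      rw [Matrix.one_apply_ne' hk]
      simp
    · intro h
      exact absurd (Finset.mem_univ i) h
  have h5 := congrArg ψ h1
  rw [map_sum, map_zero] at h5
  have h6 : ∑ e : Fin (E + 1), ∑ β : σ → Fin (E + 1),
      (if ∑ i, (β i : ℕ) = m then monomial
        (Finsupp.equivFunOnFinite.symm fun i => (β i : ℕ)) (c e β * z l ^ (e : ℕ)) else 0) =
      (0 : MvPolynomial σ F) := by
    refine Eq.trans ?_ h5
    refine Finset.sum_congr rfl fun e _ => ?_
    rw [map_sum]
    refine Finset.sum_congr rfl fun β' _ => ?_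
    split_ifs with h
    · rw [map_mul ψ, hψC, map_prod ψ]
      simp only [map_pow ψ, hψL]
      rw [FLoc_prod, C_mul_monomial, mul_one]
    · rw [map_zero]
  have h7 := congrArg (coeff (Finsupp.equivFunOnFinite.symm fun i => (β i : ℕ))) h6
  rw [coeff_zero, coeff_sum] at h7
  refine Eq.trans ?_ h7
  refine Finset.sum_congr rfl fun e _ => ?_
  rw [coeff_sum, Finset.sum_eq_single β]
  · rw [if_pos hβ, coeff_monomial, if_pos rfl]
  · intro β' _ hne
    split_ifs with h
    · rw [coeff_monomial, if_neg]
      intro heq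
      apply hne
      funext i
      have h8 := DFunLike.congr_fun heq i
      exact Fin.ext h8
    · rw [coeff_zero]
  · intro h
    exact absurd (Finset.mem_univ β) h

end Pool.Agent.Lib.MP_8ab79f_ag.Six
end
end

section

set_option autoImplicit false
set_option linter.unusedSectionVars false

noncomputable section

namespace Pool.Agent.Lib.MP_8ab79f_ag.Six

open MvPolynomial in
/-- Algebraic dependence of a coordinate and of `#σ` polynomials in `#σ` variables. -/
theorem exists_relation {F : Type*} [Field F] {σ : Type*} [Fintype σ] [DecidableEq σ]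
    (P : σ → MvPolynomial σ F) (D : ℕ) (hD : ∀ i, (P i).totalDegree ≤ D) (l : σ) (E : ℕ)
    (hE : (Fintype.card σ * D + 1) ^ Fintype.card σ ≤ E) :
    ∃ c : Fin (E + 1) → (σ → Fin (E + 1)) → F, c ≠ 0 ∧
      ∑ e : Fin (E + 1), ∑ β : σ → Fin (E + 1),
        C (c e β) * X l ^ (e : ℕ) * ∏ i, P i ^ (β i : ℕ) = 0 := by
  classical
  obtain ⟨B, hB⟩ : ∃ B, B = E + E * (Fintype.card σ * D) := ⟨_, rfl⟩
  let T := Fin (E + 1) × (σ → Fin (E + 1))
  let mon : T → MvPolynomial σ F := fun t => X l ^ (t.1 : ℕ) * ∏ i, P i ^ (t.2 i : ℕ)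
  have hdeg : ∀ t, (mon t).totalDegree ≤ B := by
    intro t
    have h1 : (X l ^ (t.1 : ℕ) : MvPolynomial σ F).totalDegree ≤ E := by
      rw [totalDegree_X_pow]; omega
    have h2 : (∏ i, P i ^ (t.2 i : ℕ)).totalDegree ≤ E * (Fintype.card σ * D) := by
      refine (totalDegree_finsetProd _ _).trans ?_
      have : ∀ i ∈ (Finset.univ : Finset σ), (P i ^ (t.2 i : ℕ)).totalDegree ≤ E * D := by
        intro i _
        refine (totalDegree_pow _ _).trans ?_
        exact Nat.mul_le_mul (by omega) (hD i)
      refine (Finset.sum_le_card_nsmul _ _ _ this).trans ?_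
      rw [smul_eq_mul, Finset.card_univ]
      exact le_of_eq (by ring)
    refine (totalDegree_mul _ _).trans ?_
    rw [hB]; exact Nat.add_le_add h1 h2
  let ex : (σ → Fin (B + 1)) → (σ →₀ ℕ) :=
    fun m => Finsupp.equivFunOnFinite.symm (fun i => (m i : ℕ))
  let φ : (T → F) →ₗ[F] ((σ → Fin (B + 1)) → F) :=
    { toFun := fun c m => ∑ t, c t * coeff (ex m) (mon t)
      map_add' := by
        intro c d; funext m
        simp only [Pi.add_apply, add_mul, Finset.sum_add_distrib]
      map_smul' := by
        intro a c; funext m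
        simp only [Pi.smul_apply, smul_eq_mul, RingHom.id_apply, Finset.mul_sum, mul_assoc] }
  have hlt : Module.finrank F ((σ → Fin (B + 1)) → F) < Module.finrank F (T → F) := by
    rw [Module.finrank_fintype_fun_eq_card, Module.finrank_fintype_fun_eq_card]
    have hT : Fintype.card T = (E + 1) ^ Fintype.card σ * (E + 1) := by
      change Fintype.card (Fin (E + 1) × (σ → Fin (E + 1))) = _
      rw [Fintype.card_prod, Fintype.card_fun, Fintype.card_fin]
      ring
    rw [hT, Fintype.card_fun, Fintype.card_fin]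
    calc (B + 1) ^ Fintype.card σ ≤ ((E + 1) * (Fintype.card σ * D + 1)) ^ Fintype.card σ := by
          apply Nat.pow_le_pow_left
          rw [hB]; ring_nf; omega
      _ = (E + 1) ^ Fintype.card σ * (Fintype.card σ * D + 1) ^ Fintype.card σ := by
          rw [mul_pow]
      _ < (E + 1) ^ Fintype.card σ * (E + 1) := by
          apply Nat.mul_lt_mul_of_pos_left (by omega)
          positivity
  obtain ⟨c, hc, hc0⟩ := (Submodule.ne_bot_iff _).1 (LinearMap.ker_ne_bot_of_finrank_lt hlt (f := φ))
  have hpoly : ∑ t : T, C (c t) * mon t = 0 := by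
    ext m
    rw [coeff_sum, coeff_zero]
    simp only [coeff_C_mul]
    by_cases hm : ∀ i, m i < B + 1
    · have h := congrFun (LinearMap.mem_ker.1 hc) (fun i => ⟨m i, hm i⟩)
      have hex : ex (fun i => ⟨m i, hm i⟩) = m := by
        ext i; simp [ex]
      change ∑ t, c t * coeff (ex (fun i => ⟨m i, hm i⟩)) (mon t) = 0 at h
      rw [hex] at h
      exact h
    · push Not at hm
      obtain ⟨i, hi⟩ := hm
      apply Finset.sum_eq_zero
      intro t _
      rw [coeff_eq_zero_of_totalDegree_lt, mul_zero]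
      refine lt_of_le_of_lt (hdeg t) ?_
      have h1 : i ∈ m.support := by
        rw [Finsupp.mem_support_iff]; omega
      have h2 := Finset.single_le_sum (f := fun j => m j) (fun j _ => Nat.zero_le _) h1
      have h3 : m i ≤ ∑ j ∈ m.support, m j := h2
      omega
  refine ⟨fun e β => c (e, β), ?_, ?_⟩
  · intro h0
    apply hc0
    funext t
    exact congrFun (congrFun h0 t.1) t.2
  · rw [← hpoly]
    change _ = ∑ t : Fin (E + 1) × (σ → Fin (E + 1)), C (c t) * mon t
    rw [Fintype.sum_prod_type]
    refine Finset.sum_congr rfl fun e _ => Finset.sum_congr rfl fun β _ => ?_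
    simp only [mon, mul_assoc]

end Pool.Agent.Lib.MP_8ab79f_ag.Six
end
end

section

set_option autoImplicit false
set_option linter.unusedSectionVars false

noncomputable section

namespace Pool.Agent.Lib.MP_8ab79f_ag.Six

open MvPolynomial in
theorem FBzSq_aux {F : Type*} [Field F] {σ : Type*} [Fintype σ]
    [DecidableEq σ] (P : σ → MvPolynomial σ F) (D : ℕ) (hD : ∀ i, (P i).totalDegree ≤ D) (l : σ) :
    ∃ g : Polynomial F, g ≠ 0 ∧ g.natDegree ≤ (Fintype.card σ * D + 1) ^ Fintype.card σ ∧
      ∀ z : σ → F, (∀ i, eval z (P i) = 0) → (jac P z).det ≠ 0 → g.eval (z l) = 0 := by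
  classical
  obtain ⟨E, hE⟩ : ∃ E, E = (Fintype.card σ * D + 1) ^ Fintype.card σ := ⟨_, rfl⟩
  obtain ⟨c, hc0, hc⟩ := exists_relation P D hD l E hE.ge
  have hex : ∃ m : ℕ, ∃ (e : Fin (E + 1)) (β : σ → Fin (E + 1)),
      ∑ i, (β i : ℕ) = m ∧ c e β ≠ 0 := by
    by_contra hcon
    push Not at hcon
    apply hc0
    funext e β
    exact hcon _ e β rfl
  obtain ⟨e0, β0, hβ0, hce⟩ := Nat.find_spec hex
  have hm : ∀ (e : Fin (E + 1)) (β : σ → Fin (E + 1)), ∑ i, (β i : ℕ) < Nat.find hex →
      c e β = 0 := by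
    intro e β hlt
    by_contra hne
    exact Nat.find_min hex hlt ⟨e, β, rfl, hne⟩
  refine ⟨∑ e : Fin (E + 1), Polynomial.C (c e β0) * Polynomial.X ^ (e : ℕ), ?_, ?_, ?_⟩
  · intro h
    apply hce
    have h1 := congrArg (fun p => Polynomial.coeff p (e0 : ℕ)) h
    simp only [Polynomial.finsetSum_coeff, Polynomial.coeff_C_mul_X_pow,
      Polynomial.coeff_zero] at h1
    rw [Finset.sum_eq_single e0] at h1
    · simpa using h1
    · intro b _ hb
      rw [if_neg]
      intro hbe
      exact hb (Fin.ext hbe.symm)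
    · intro h2; exact absurd (Finset.mem_univ _) h2
  · rw [← hE]
    refine Polynomial.natDegree_sum_le_of_forall_le _ _ fun e _ => ?_
    refine (Polynomial.natDegree_C_mul_X_pow_le _ _).trans ?_
    omega
  · intro z hz hJ
    rw [Polynomial.eval_finsetSum]
    have := local_relation P l E c hc z hz hJ (Nat.find hex) hm β0 hβ0
    rw [← this]
    refine Finset.sum_congr rfl fun e _ => ?_
    simp

open MvPolynomial in
/-- A bound for the number of nonsingular common zeros of `#σ` polynomials in `#σ` variables. -/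
theorem bz_square {F : Type*} [Field F] [Fintype F] [DecidableEq F] {σ : Type*} [Fintype σ]
    [DecidableEq σ] (P : σ → MvPolynomial σ F) (D : ℕ) (hD : ∀ i, (P i).totalDegree ≤ D) :
    (Finset.univ.filter fun z : σ → F =>
      (∀ i, eval z (P i) = 0) ∧ (jac P z).det ≠ 0).card ≤
      ((Fintype.card σ * D + 1) ^ Fintype.card σ) ^ Fintype.card σ := by
  classical
  choose g hg0 hgd hg using FBzSq_aux P D hD
  have hsub : (Finset.univ.filter fun z : σ → F =>
      (∀ i, eval z (P i) = 0) ∧ (jac P z).det ≠ 0) ⊆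
      Fintype.piFinset fun l => (g l).roots.toFinset := by
    intro z hz
    rw [Finset.mem_filter] at hz
    rw [Fintype.mem_piFinset]
    intro l
    rw [Multiset.mem_toFinset, Polynomial.mem_roots (hg0 l)]
    exact hg l z hz.2.1 hz.2.2
  refine (Finset.card_le_card hsub).trans ?_
  rw [Fintype.card_piFinset]
  have h1 : ∀ l ∈ (Finset.univ : Finset σ), (g l).roots.toFinset.card ≤
      (Fintype.card σ * D + 1) ^ Fintype.card σ := by
    intro l _
    exact ((Multiset.toFinset_card_le _).trans (Polynomial.card_roots' _)).trans (hgd l)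
  refine (Finset.prod_le_pow_card _ _ _ h1).trans ?_
  rw [Finset.card_univ]

end Pool.Agent.Lib.MP_8ab79f_ag.Six
end
end

section

set_option autoImplicit false
set_option linter.unusedSectionVars false

noncomputable section

namespace Pool.Agent.Lib.MP_8ab79f_ag.Six

/-- The rows of `J` together with the unit vectors. -/
def FBz_rows {F : Type*} [Field F] {σ τ : Type*} [DecidableEq σ] (J : Matrix τ σ F) :
    τ ⊕ σ → (σ → F) :=
  Sum.elim (fun t => J t) (fun m => Pi.single m 1)

/-- Some rows of `J` and at most `k` unit vectors form a basis. -/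
theorem FBz_select {F : Type*} [Field F] {σ τ : Type*} [Fintype σ] [DecidableEq σ] [Fintype τ]
    [DecidableEq τ] (J : Matrix τ σ F) (k : ℕ)
    (hk : Module.finrank F (LinearMap.ker (Matrix.mulVecLin J)) ≤ k) :
    ∃ s : σ → τ ⊕ σ, LinearIndependent F (fun i => FBz_rows J (s i)) ∧
      (Finset.univ.filter fun i => ¬ (s i).isLeft = true).card ≤ k := by
  classical
  set v := FBz_rows J with hv
  obtain ⟨b1, hb1t, -, hb1s, hb1⟩ := exists_linearIndepOn_extension (K := F) (v := v)
    (linearIndepOn_empty F v) (Set.empty_subset (Set.range Sum.inl))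
  obtain ⟨b, -, hb1b, hbs, hb⟩ := exists_linearIndepOn_extension (K := F) (v := v)
    hb1 (Set.subset_univ b1)
  -- the span of `b1` is the row space
  have hspan1 : Submodule.span F (v '' b1) = Submodule.span F (Set.range J.row) := by
    apply le_antisymm
    · apply Submodule.span_mono
      rintro _ ⟨x, hx, rfl⟩
      obtain ⟨t, rfl⟩ := hb1t hx
      exact ⟨t, rfl⟩
    · rw [Submodule.span_le]
      rintro _ ⟨t, rfl⟩
      exact hb1s ⟨Sum.inl t, ⟨t, rfl⟩, rfl⟩
  have hspan : Submodule.span F (v '' b) = ⊤ := by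
    rw [eq_top_iff, ← (Pi.basisFun F σ).span_eq, Submodule.span_le]
    rintro _ ⟨m, rfl⟩
    exact hbs ⟨Sum.inr m, trivial, by simp [hv, FBz_rows]⟩
  have hcard1 : b1.toFinset.card = J.rank := by
    rw [Matrix.rank_eq_finrank_span_row, ← hspan1]
    have h1 := finrank_span_eq_card (R := F) (b := fun x : b1 => v x) hb1
    have h2 : Set.range (fun x : b1 => v x) = v '' b1 := by
      ext y; simp
    rw [h2] at h1
    rw [h1, Set.toFinset_card]
  have hcard : b.toFinset.card = Fintype.card σ := by
    have h1 := finrank_span_eq_card (R := F) (b := fun x : b => v x) hb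
    have h2 : Set.range (fun x : b => v x) = v '' b := by
      ext y; simp
    rw [h2, hspan, finrank_top, Module.finrank_fintype_fun_eq_card] at h1
    rw [h1, Set.toFinset_card]
  have hcard' : Fintype.card b = Fintype.card σ := by
    rw [← hcard, Set.toFinset_card]
  have e : σ ≃ b := Fintype.equivOfCardEq hcard'.symm
  refine ⟨fun i => (e i : τ ⊕ σ), hb.comp e e.injective, ?_⟩
  have hrn := LinearMap.finrank_range_add_finrank_ker (Matrix.mulVecLin J)
  rw [Module.finrank_fintype_fun_eq_card] at hrn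
  have hrank : J.rank = Module.finrank F (LinearMap.range (Matrix.mulVecLin J)) := rfl
  have hsub : (Finset.univ.filter fun i => ¬ ((e i : τ ⊕ σ)).isLeft = true).image
      (fun i => (e i : τ ⊕ σ)) ⊆ b.toFinset \ b1.toFinset := by
    intro x hx
    simp only [Finset.mem_image, Finset.mem_filter, Finset.mem_univ, true_and] at hx
    obtain ⟨i, hi, rfl⟩ := hx
    simp only [Finset.mem_sdiff, Set.mem_toFinset]
    refine ⟨(e i).2, fun h => hi ?_⟩
    obtain ⟨t, ht⟩ := hb1t h
    rw [← ht]; rfl
  have h3 := Finset.card_le_card hsub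
  have hinj : Function.Injective (fun i => (e i : τ ⊕ σ)) :=
    Subtype.val_injective.comp e.injective
  rw [Finset.card_image_of_injective _ hinj,
    Finset.card_sdiff_of_subset (Set.toFinset_subset_toFinset.mpr hb1b), hcard, hcard1] at h3
  change (Finset.univ.filter fun i => ¬ ((e i : τ ⊕ σ)).isLeft = true).card ≤ k
  omega

open MvPolynomial in
/-- The square system attached to a choice of equations and coordinates. -/
def FBz_poly {F : Type*} [Field F] {σ τ : Type*} (P : τ → MvPolynomial σ F) (s : σ → τ ⊕ σ)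
    (c : σ → F) (i : σ) : MvPolynomial σ F :=
  match s i with
  | Sum.inl t => P t
  | Sum.inr m => X m - C (c i)

open MvPolynomial in
theorem FBz_poly_degree {F : Type*} [Field F] {σ τ : Type*} (P : τ → MvPolynomial σ F)
    (s : σ → τ ⊕ σ) (c : σ → F) (D : ℕ) (hD : ∀ i, (P i).totalDegree ≤ D) (i : σ) :
    (FBz_poly P s c i).totalDegree ≤ D + 1 := by
  unfold FBz_poly
  split
  · exact (hD _).trans (Nat.le_succ _)
  · refine (totalDegree_sub _ _).trans ?_
    rw [totalDegree_X, totalDegree_C]
    omega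

open MvPolynomial in
theorem FBz_poly_jac {F : Type*} [Field F] {σ τ : Type*} [DecidableEq σ]
    (P : τ → MvPolynomial σ F) (s : σ → τ ⊕ σ) (c z : σ → F) :
    jac (FBz_poly P s c) z = Matrix.of fun i => FBz_rows (jac P z) (s i) := by
  ext i j
  simp only [jac, Matrix.of_apply, FBz_poly, FBz_rows]
  split
  · next t ht => rw [ht]; rfl
  · next m hm =>
    rw [hm]
    simp only [map_sub, pderiv_X, pderiv_C, sub_zero, Sum.elim_inr]
    by_cases h : j = m
    · subst h; simp
    · rw [Pi.single_eq_of_ne h, Pi.single_eq_of_ne (Ne.symm h), map_zero]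

open MvPolynomial in
/-- A bound for the number of common zeros at which the kernel of the Jacobian matrix has
dimension at most `k`. -/
theorem bz (σ τ : Type) [Fintype σ] [DecidableEq σ] [Fintype τ] [DecidableEq τ] (D k : ℕ) :
    ∃ C : ℕ, ∀ (F : Type*) [Field F] [Fintype F] [DecidableEq F] (P : τ → MvPolynomial σ F),
      (∀ i, (P i).totalDegree ≤ D) →
      ∀ A : Finset (σ → F), (∀ z ∈ A, (∀ i, eval z (P i) = 0) ∧
        Module.finrank F (LinearMap.ker (Matrix.mulVecLin (jac P z))) ≤ k) →
      A.card ≤ C * Fintype.card F ^ k := by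
  classical
  refine ⟨Fintype.card (σ → τ ⊕ σ) *
    ((Fintype.card σ * (D + 1) + 1) ^ Fintype.card σ) ^ Fintype.card σ, ?_⟩
  intro F _ _ _ P hD A hA
  set B := ((Fintype.card σ * (D + 1) + 1) ^ Fintype.card σ) ^ Fintype.card σ with hB
  -- the part of `A` attached to a choice `s`
  let good : (σ → τ ⊕ σ) → (σ → F) → Prop := fun s z =>
    LinearIndependent F (fun i => FBz_rows (jac P z) (s i)) ∧
      (Finset.univ.filter fun i => ¬ (s i).isLeft = true).card ≤ k
  have hcover : A ⊆ Finset.univ.biUnion fun s => A.filter (good s) := by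
    intro z hz
    obtain ⟨s, hs⟩ := FBz_select (jac P z) k (hA z hz).2
    simp only [Finset.mem_biUnion, Finset.mem_univ, true_and, Finset.mem_filter]
    exact ⟨s, hz, hs⟩
  have hpart : ∀ s, (A.filter (good s)).card ≤ B * Fintype.card F ^ k := by
    intro s
    by_cases hsk : (Finset.univ.filter fun i => ¬ (s i).isLeft = true).card ≤ k
    swap
    · have : A.filter (good s) = ∅ := by
        apply Finset.filter_eq_empty_iff.mpr
        intro z _ hz
        exact hsk hz.2
      rw [this]; simp
    let g : (σ → F) → (σ → F) := fun z i =>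
      match s i with
      | Sum.inl _ => 0
      | Sum.inr m => z m
    let T : Finset (σ → F) := Fintype.piFinset fun i =>
      if (s i).isLeft = true then {0} else Finset.univ
    have hmaps : ∀ z ∈ A.filter (good s), g z ∈ T := by
      intro z _
      rw [Fintype.mem_piFinset]
      intro i
      simp only [g]
      cases hsi : s i with
      | inl t => simp
      | inr m => simp
    have hTcard : T.card ≤ Fintype.card F ^ k := by
      rw [Fintype.card_piFinset]
      have h1 : ∀ i, (if (s i).isLeft = true then ({0} : Finset F) else Finset.univ).card =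
          if ¬ (s i).isLeft = true then Fintype.card F else 1 := by
        intro i
        by_cases h : (s i).isLeft = true
        · simp [h]
        · simp [h, Finset.card_univ]
      simp only [h1]
      rw [Finset.prod_ite, Finset.prod_const_one, mul_one, Finset.prod_const]
      exact Nat.pow_le_pow_right Fintype.card_pos hsk
    refine (Finset.card_le_mul_card_image_of_maps_to hmaps B ?_).trans
      (Nat.mul_le_mul_left _ hTcard)
    intro c _
    refine le_trans (Finset.card_le_card ?_) (bz_square (FBz_poly P s c) (D + 1)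
      (FBz_poly_degree P s c D hD))
    intro z hz
    simp only [Finset.mem_filter] at hz
    obtain ⟨⟨hzA, hzg⟩, hgz⟩ := hz
    simp only [Finset.mem_filter, Finset.mem_univ, true_and]
    constructor
    · intro i
      have hgi := congrFun hgz i
      simp only [g] at hgi
      unfold FBz_poly
      split
      · exact (hA z hzA).1 _
      · next m hm =>
        rw [hm] at hgi
        simp [← hgi]
    · rw [FBz_poly_jac]
      have h2 : IsUnit (Matrix.of fun i => FBz_rows (jac P z) (s i)) :=
        Matrix.linearIndependent_rows_iff_isUnit.mp hzg.1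
      rw [Matrix.isUnit_iff_isUnit_det] at h2
      exact h2.ne_zero
  calc A.card ≤ (Finset.univ.biUnion fun s => A.filter (good s)).card :=
        Finset.card_le_card hcover
    _ ≤ ∑ s, (A.filter (good s)).card := Finset.card_biUnion_le
    _ ≤ ∑ _s : (σ → τ ⊕ σ), B * Fintype.card F ^ k := Finset.sum_le_sum fun s _ => hpart s
    _ = Fintype.card (σ → τ ⊕ σ) * B * Fintype.card F ^ k := by
        rw [Finset.sum_const, Finset.card_univ, smul_eq_mul, mul_assoc]

end Pool.Agent.Lib.MP_8ab79f_ag.Six
end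
end
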