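import Pool.Agent.Lib.MP_8ab79f_ag.Mg.G007

section

set_option autoImplicit false
set_option linter.unusedSectionVars false

noncomputable section

namespace Pool.Agent.Lib.MP_8ab79f_ag.Six

/-- Every subspace of `Fⁿ` has a basis in echelon form with respect to suitable pivots. -/
theorem exists_echelon {F : Type*} [Field F] {n : ℕ} (W : Submodule F (Fin n → F)) (j : ℕ)
    (hj : Module.finrank F W = j) :
    ∃ (g : Fin j → Fin n) (w : Fin j → Fin n → F),
      (∀ i i', w i (g i') = if i = i' then 1 else 0) ∧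
      Submodule.span F (Set.range w) = W := by
  classical
  let φ : Fin n → Module.Dual F W := fun k => (LinearMap.proj k).comp W.subtype
  have hφ : ∀ k (x : W), φ k x = (x : Fin n → F) k := fun k x => rfl
  obtain ⟨κ, a, ha, hspan, hli⟩ := exists_linearIndependent' F φ
  have : Finite κ := Finite.of_injective a ha
  have := Fintype.ofFinite κ
  have hinj : ∀ x : W, (∀ k, (x : Fin n → F) (a k) = 0) → x = 0 := by
    intro x hx
    have h1 : ∀ ψ ∈ Submodule.span F (Set.range φ), ψ x = 0 := by
      rw [← hspan]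
      intro ψ hψ
      induction hψ using Submodule.span_induction with
      | mem ψ h =>
        obtain ⟨k, rfl⟩ := h
        exact hx k
      | zero => rfl
      | add ψ ψ' _ _ h h' => rw [LinearMap.add_apply, h, h', add_zero]
      | smul c ψ _ h => rw [LinearMap.smul_apply, h, smul_zero]
    ext k
    exact h1 (φ k) (Submodule.subset_span ⟨k, rfl⟩)
  let T0 : W →ₗ[F] (κ → F) := LinearMap.pi (fun k => φ (a k))
  have hT0 : Function.Injective T0 := by
    rw [← LinearMap.ker_eq_bot, LinearMap.ker_eq_bot']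
    intro x hx
    exact hinj x (fun k => congrFun hx k)
  have hc : Fintype.card κ = j := by
    apply le_antisymm
    · rw [← hj, ← Subspace.dual_finrank_eq]
      exact hli.fintype_card_le_finrank
    · rw [← hj]
      have := LinearMap.finrank_le_finrank_of_injective hT0
      rwa [Module.finrank_fintype_fun_eq_card] at this
  let e : κ ≃ Fin j := Fintype.equivFinOfCardEq hc
  let T : W →ₗ[F] (Fin j → F) := LinearMap.pi (fun i => φ (a (e.symm i)))
  have hT : Function.Injective T := by
    rw [← LinearMap.ker_eq_bot, LinearMap.ker_eq_bot']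
    intro x hx
    refine hinj x (fun k => ?_)
    have := congrFun hx (e k)
    simpa [T, hφ] using this
  let Te : W ≃ₗ[F] (Fin j → F) := T.linearEquivOfInjective hT (by simp [hj])
  refine ⟨fun i => a (e.symm i), fun i => (Te.symm (Pi.single i 1) : Fin n → F), ?_, ?_⟩
  · intro i i'
    have h1 : T (Te.symm (Pi.single i 1)) i' = (Pi.single i 1 : Fin j → F) i' := by
      have : T (Te.symm (Pi.single i 1)) = Te (Te.symm (Pi.single i 1)) := rfl
      rw [this, LinearEquiv.apply_symm_apply]
    have h2 : T (Te.symm (Pi.single i 1)) i' =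
      (Te.symm (Pi.single i 1) : Fin n → F) (a (e.symm i')) := rfl
    rw [h2] at h1
    simp only [h1, Pi.single_apply, eq_comm]
  · let bb := (Pi.basisFun F (Fin j)).map Te.symm
    have h1 : Submodule.span F (Set.range bb) = ⊤ := bb.span_eq
    have h2 := congrArg (Submodule.map W.subtype) h1
    rw [Submodule.map_span, Submodule.map_top, Submodule.range_subtype, ← Set.range_comp] at h2
    refine Eq.trans ?_ h2
    congr 2
    funext i
    simp [bb]

end Pool.Agent.Lib.MP_8ab79f_ag.Six
end
end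

section

set_option autoImplicit false
set_option linter.unusedSectionVars false

noncomputable section

namespace Pool.Agent.Lib.MP_8ab79f_ag.Six

theorem FCount_map_sum {F : Type*} [Field F] (ψ : AddChar F ℂ) {ι : Type*} (s : Finset ι)
    (f : ι → F) : ψ (∑ i ∈ s, f i) = ∏ i ∈ s, ψ (f i) := by
  classical
  induction s using Finset.induction_on with
  | empty => simp
  | insert a s ha ih => rw [Finset.sum_insert ha, Finset.prod_insert ha, AddChar.map_add_eq_mul, ih]

theorem FCount_sum {F : Type*} [Field F] [Fintype F] [DecidableEq F] {r : ℕ}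
    (ψ : AddChar F ℂ) (hψ : ψ ≠ 1) (y : Fin r → F) :
    ∑ a : Fin r → F, ψ (∑ s, a s * y s) =
      if ∀ s, y s = 0 then (Fintype.card F : ℂ) ^ r else 0 := by
  have h1 : ∑ a : Fin r → F, ψ (∑ s, a s * y s) = ∑ a : Fin r → F, ∏ s, ψ (a s * y s) :=
    Finset.sum_congr rfl fun a _ => FCount_map_sum ψ _ _
  rw [h1, ← Fintype.prod_sum (fun (s : Fin r) (t : F) => ψ (t * y s))]
  have h2 : ∀ s : Fin r, ∑ t : F, ψ (t * y s) = if y s = 0 then (Fintype.card F : ℂ) else 0 := by
    intro s
    have := AddChar.sum_mulShift (ψ := ψ) (y s) (AddChar.IsPrimitive.of_ne_one hψ)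
    rw [this]
    split_ifs <;> simp
  simp_rw [h2]
  split_ifs with h
  · rw [Finset.prod_congr rfl (fun s _ => if_pos (h s))]
    simp
  · push Not at h
    obtain ⟨s, hs⟩ := h
    exact Finset.prod_eq_zero (Finset.mem_univ s) (if_neg hs)

/-- The number of zeros of a system as a sum of exponential sums. -/
theorem card_zeros_mul {F : Type*} [Field F] [Fintype F] [DecidableEq F] {n r : ℕ}
    (ψ : AddChar F ℂ) (hψ : ψ ≠ 1) (M : Fin r → Matrix (Fin n) (Fin n) F) :
    (((Finset.univ.filter fun x : Fin n → F => ∀ s, bl (M s) x x = 0).card : ℂ)) *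
      (Fintype.card F : ℂ) ^ r = ∑ a : Fin r → F, Sx ψ M a := by
  simp only [Sx, Qf]
  rw [Finset.sum_comm]
  have h : ∀ x : Fin n → F, ∑ a : Fin r → F, ψ (∑ s, a s * bl (M s) x x) =
      if ∀ s, bl (M s) x x = 0 then (Fintype.card F : ℂ) ^ r else 0 :=
    fun x => FCount_sum ψ hψ fun s => bl (M s) x x
  simp_rw [h]
  rw [← Finset.sum_filter, Finset.sum_const, nsmul_eq_mul]

end Pool.Agent.Lib.MP_8ab79f_ag.Six
end
end

section

set_option autoImplicit false
set_option linter.unusedSectionVars false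

noncomputable section

namespace Pool.Agent.Lib.MP_8ab79f_ag.Six

theorem FGauss_exists_ne {F : Type*} [Field F] (ψ : AddChar F ℂ) (hψ : ψ ≠ 1) :
    ∃ t : F, ψ t ≠ 1 := by
  by_contra h
  push Not at h
  exact hψ (DFunLike.ext _ _ (fun t => by rw [h t, AddChar.one_apply]))

theorem FGauss_translate {F : Type*} [Field F] [Fintype F] {n r : ℕ} (ψ : AddChar F ℂ)
    (M : Fin r → Matrix (Fin n) (Fin n) F) (a : Fin r → F) (z : Fin n → F)
    (hz : z ∈ radB M a) : Sx ψ M a = ψ (Qf M a z) * Sx ψ M a := by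
  unfold Sx
  rw [Finset.mul_sum]
  rw [← Equiv.sum_comp (Equiv.addRight z) (fun x => ψ (Qf M a x))]
  refine Finset.sum_congr rfl fun x _ => ?_
  have h1 : Bf M a x z = 0 := by rw [Bf_comm]; exact hz x
  rw [Equiv.coe_addRight, Qf_add, h1, add_zero, AddChar.map_add_eq_mul, mul_comm]

/-- The exponential sum vanishes unless the form vanishes on the radical. -/
theorem Sx_eq_zero {F : Type*} [Field F] [Fintype F] {n r : ℕ} (ψ : AddChar F ℂ) (hψ : ψ ≠ 1)
    (M : Fin r → Matrix (Fin n) (Fin n) F) (a : Fin r → F)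
    (ha : ∃ x ∈ radB M a, Qf M a x ≠ 0) : Sx ψ M a = 0 := by
  obtain ⟨x, hx, hQ⟩ := ha
  have h2 : (2 : F) = 0 := by
    have h := Bf_self M a x
    rw [hx x] at h
    rcases mul_eq_zero.1 h.symm with h | h
    · exact h
    · exact absurd h hQ
  have hchar : ringChar F = 2 := by
    have h3 : ((2 : ℕ) : F) = 0 := by exact_mod_cast h2
    have h4 := (ringChar.spec F 2).1 h3
    rcases (Nat.dvd_prime Nat.prime_two).1 h4 with h5 | h5
    · exact absurd h5 (CharP.ringChar_ne_one)
    · exact h5
  obtain ⟨t, ht⟩ := FGauss_exists_ne ψ hψ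
  obtain ⟨c, hc⟩ := FiniteField.isSquare_of_char_two hchar (t / Qf M a x)
  have hz := FGauss_translate ψ M a (c • x) ((radB M a).smul_mem c hx)
  rw [Qf_smul] at hz
  have h5 : c ^ 2 * Qf M a x = t := by
    rw [sq, ← hc, div_mul_cancel₀ _ hQ]
  rw [h5] at hz
  have h6 : (1 - ψ t) * Sx ψ M a = 0 := by
    rw [sub_mul, one_mul, ← hz, sub_self]
  rcases mul_eq_zero.1 h6 with h7 | h7
  · exact absurd (sub_eq_zero.1 h7).symm ht
  · exact h7

theorem FGauss_inner {F : Type*} [Field F] [Fintype F] {n r : ℕ} (ψ : AddChar F ℂ) (hψ : ψ ≠ 1)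
    (M : Fin r → Matrix (Fin n) (Fin n) F) (a : Fin r → F) (z : Fin n → F)
    (hz : z ∉ radB M a) : ∑ y : Fin n → F, ψ (Bf M a z y) = 0 := by
  rw [mem_radB] at hz
  push Not at hz
  obtain ⟨y0, hy0⟩ := hz
  obtain ⟨t, ht⟩ := FGauss_exists_ne ψ hψ
  set y1 : Fin n → F := (t / Bf M a z y0) • y0 with hy1
  have hB : Bf M a z y1 = t := by
    rw [hy1, Bf_smul_right, div_mul_cancel₀ _ hy0]
  have h : ∑ y : Fin n → F, ψ (Bf M a z y) = ψ t * ∑ y : Fin n → F, ψ (Bf M a z y) := by
    rw [Finset.mul_sum, ← Equiv.sum_comp (Equiv.addRight y1) (fun y => ψ (Bf M a z y))]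
    refine Finset.sum_congr rfl fun y _ => ?_
    rw [Equiv.coe_addRight, Bf_add_right, hB, AddChar.map_add_eq_mul, mul_comm]
  have h6 : (1 - ψ t) * ∑ y : Fin n → F, ψ (Bf M a z y) = 0 := by
    rw [sub_mul, one_mul, ← h, sub_self]
  rcases mul_eq_zero.1 h6 with h7 | h7
  · exact absurd (sub_eq_zero.1 h7).symm ht
  · exact h7

/-- The bound for the exponential sum in terms of the dimension of the radical. -/
theorem norm_Sx_le {F : Type*} [Field F] [Fintype F] {n r : ℕ} (ψ : AddChar F ℂ) (hψ : ψ ≠ 1)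
    (M : Fin r → Matrix (Fin n) (Fin n) F) (a : Fin r → F) :
    ‖Sx ψ M a‖ ≤ Real.sqrt (Fintype.card F) ^ (n + Module.finrank F (radB M a)) := by
  classical
  set q : ℝ := (Fintype.card F : ℝ) with hq
  have hq0 : 0 ≤ q := Nat.cast_nonneg _
  have hconj : ∀ x : F, (starRingEnd ℂ) (ψ x) = ψ (-x) := fun x =>
    (AddChar.map_neg_eq_conj ψ x).symm
  have hnorm : ∀ x : F, ‖ψ x‖ = 1 := fun x => AddChar.norm_apply ψ x
  -- the square of the modulus
  have h1 : (Sx ψ M a) * (starRingEnd ℂ) (Sx ψ M a) =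
      ∑ z : Fin n → F, ψ (Qf M a z) * ∑ y : Fin n → F, ψ (Bf M a z y) := by
    have e1 : (starRingEnd ℂ) (Sx ψ M a) = ∑ y : Fin n → F, ψ (-Qf M a y) := by
      simp only [Sx, map_sum, hconj]
    rw [e1, Sx, Finset.sum_mul_sum]
    rw [Finset.sum_comm]
    have e2 : ∀ y : Fin n → F, ∑ x : Fin n → F, ψ (Qf M a x) * ψ (-Qf M a y) =
        ∑ z : Fin n → F, ψ (Qf M a z) * ψ (Bf M a z y) := by
      intro y
      rw [← Equiv.sum_comp (Equiv.addRight y) (fun x => ψ (Qf M a x) * ψ (-Qf M a y))]
      refine Finset.sum_congr rfl fun z _ => ?_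
      rw [Equiv.coe_addRight, Qf_add, ← AddChar.map_add_eq_mul, ← AddChar.map_add_eq_mul]
      congr 1
      ring
    rw [Finset.sum_congr rfl (fun y _ => e2 y), Finset.sum_comm]
    simp only [Finset.mul_sum]
  have h2 : ∑ z : Fin n → F, ψ (Qf M a z) * ∑ y : Fin n → F, ψ (Bf M a z y) =
      ∑ z ∈ (Finset.univ : Finset (Fin n → F)).filter (fun z => z ∈ radB M a),
        ψ (Qf M a z) * (Fintype.card F : ℂ) ^ n := by
    rw [Finset.sum_filter]
    refine Finset.sum_congr rfl fun z _ => ?_
    split_ifs with hz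
    · congr 1
      rw [Finset.sum_congr rfl (fun y _ => by rw [hz y, AddChar.map_zero_eq_one])]
      simp
    · rw [FGauss_inner ψ hψ M a z hz, mul_zero]
  have h3 : ‖Sx ψ M a‖ ^ 2 ≤ q ^ n * q ^ (Module.finrank F (radB M a)) := by
    have e : ‖Sx ψ M a‖ ^ 2 = ‖(Sx ψ M a) * (starRingEnd ℂ) (Sx ψ M a)‖ := by
      rw [norm_mul, RCLike.norm_conj, sq]
    rw [e, h1, h2]
    refine (norm_sum_le _ _).trans ?_
    have e2 : ∀ z ∈ (Finset.univ : Finset (Fin n → F)).filter (fun z => z ∈ radB M a),
        ‖ψ (Qf M a z) * (Fintype.card F : ℂ) ^ n‖ = q ^ n := by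
      intro z _
      rw [norm_mul, hnorm, one_mul, norm_pow, Complex.norm_natCast]
    rw [Finset.sum_congr rfl e2, Finset.sum_const, nsmul_eq_mul, mul_comm]
    apply mul_le_mul_of_nonneg_left _ (by positivity)
    have e3 : ((Finset.univ : Finset (Fin n → F)).filter (fun z => z ∈ radB M a)).card =
        Fintype.card F ^ Module.finrank F (radB M a) := by
      rw [← Module.card_eq_pow_finrank (K := F) (V := radB M a), Fintype.card_subtype]
    rw [e3]
    push_cast
    exact le_refl _
  have h4 : (Real.sqrt q ^ (n + Module.finrank F (radB M a))) ^ 2 =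
      q ^ n * q ^ (Module.finrank F (radB M a)) := by
    rw [← pow_add, ← pow_mul, mul_comm, pow_mul, Real.sq_sqrt hq0]
  rw [← h4] at h3
  exact le_of_sq_le_sq h3 (by positivity)

end Pool.Agent.Lib.MP_8ab79f_ag.Six
end
end

section

set_option autoImplicit false
set_option linter.unusedSectionVars false

noncomputable section

namespace Pool.Agent.Lib.MP_8ab79f_ag.Six

private theorem RComb_aux1 (e d : ℕ) :
    (e : ℤ) - d ≤ ∑ θ ∈ Finset.range e, (if d ≤ θ then (1 : ℤ) else 0) := by
  rw [Finset.sum_boole]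
  have h1 : Finset.Ico d e ⊆ Finset.filter (fun θ => d ≤ θ) (Finset.range e) := by
    intro θ hθ
    rw [Finset.mem_Ico] at hθ
    simp [hθ.1, hθ.2]
  have h2 := Finset.card_le_card h1
  rw [Nat.card_Ico] at h2
  have h3 : (e : ℤ) - d ≤ ((e - d : ℕ) : ℤ) := by omega
  exact_mod_cast h3.trans (by exact_mod_cast h2)

private theorem RComb_aux2 (e c C₀ : ℕ) :
    (e : ℤ) - C₀ - c ≤ 2 * ∑ θ ∈ Finset.range e, (if c + 2 * θ + C₀ ≤ e then (1 : ℤ) else 0) := by
  rw [Finset.sum_boole]
  have h1 : Finset.range ((e + 1 - C₀ - c) / 2) ⊆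
      Finset.filter (fun θ => c + 2 * θ + C₀ ≤ e) (Finset.range e) := by
    intro θ hθ
    rw [Finset.mem_range] at hθ
    rw [Finset.mem_filter, Finset.mem_range]
    omega
  have h2 := Finset.card_le_card h1
  rw [Finset.card_range] at h2
  have h4 : ((((e + 1 - C₀ - c) / 2 : ℕ)) : ℤ) ≤
      ((Finset.filter (fun θ => c + 2 * θ + C₀ ≤ e) (Finset.range e)).card : ℤ) := by
    exact_mod_cast h2
  have h3 : (e : ℤ) - C₀ - c ≤ 2 * ((((e + 1 - C₀ - c) / 2 : ℕ)) : ℤ) := by omega
  linarith

/-- The combinatorial inequality behind the boundedness of the index function. -/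
theorem comb_ineq (n r e C₀ : ℕ) (d : Fin n → ℕ) (c : Fin r → ℕ)
    (h : ∀ θ : ℕ, r * (Finset.univ.filter fun a => d a ≤ θ).card +
      n * (Finset.univ.filter fun i => c i + 2 * θ + C₀ ≤ e).card ≤ n * r) :
    n * r * e ≤ n * r * C₀ + 2 * r * ∑ a, d a + n * ∑ i, c i := by
  have h1 : ∀ θ : ℕ, (r : ℤ) * ∑ a : Fin n, (if d a ≤ θ then (1 : ℤ) else 0) +
      n * ∑ i : Fin r, (if c i + 2 * θ + C₀ ≤ e then (1 : ℤ) else 0) ≤ n * r := by
    intro θ
    have := h θ
    rw [Finset.sum_boole, Finset.sum_boole]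
    exact_mod_cast this
  have h2 : ∑ θ ∈ Finset.range e, ((r : ℤ) * ∑ a : Fin n, (if d a ≤ θ then (1 : ℤ) else 0) +
      n * ∑ i : Fin r, (if c i + 2 * θ + C₀ ≤ e then (1 : ℤ) else 0)) ≤
      ∑ θ ∈ Finset.range e, ((n : ℤ) * r) := Finset.sum_le_sum fun θ _ => h1 θ
  rw [Finset.sum_add_distrib, ← Finset.mul_sum, ← Finset.mul_sum, Finset.sum_comm,
    Finset.sum_comm (s := Finset.range e) (t := (Finset.univ : Finset (Fin r))),
    Finset.sum_const, Finset.card_range, nsmul_eq_mul] at h2
  have h3 : ∑ a : Fin n, ((e : ℤ) - d a) ≤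
      ∑ a : Fin n, ∑ θ ∈ Finset.range e, (if d a ≤ θ then (1 : ℤ) else 0) :=
    Finset.sum_le_sum fun a _ => RComb_aux1 e (d a)
  have h4 : ∑ i : Fin r, ((e : ℤ) - C₀ - c i) ≤
      ∑ i : Fin r, 2 * ∑ θ ∈ Finset.range e, (if c i + 2 * θ + C₀ ≤ e then (1 : ℤ) else 0) :=
    Finset.sum_le_sum fun i _ => RComb_aux2 e (c i) C₀
  rw [← Finset.mul_sum] at h4
  rw [Finset.sum_sub_distrib, Finset.sum_const, Finset.card_univ, Fintype.card_fin,
    nsmul_eq_mul] at h3 h4
  have h5 := mul_le_mul_of_nonneg_left h3 (Int.natCast_nonneg r)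
  have h6 := mul_le_mul_of_nonneg_left h4 (Int.natCast_nonneg n)
  zify
  nlinarith [h2, h5, h6]

end Pool.Agent.Lib.MP_8ab79f_ag.Six
end
end

section

set_option autoImplicit false
set_option linter.unusedSectionVars false

noncomputable section

namespace Pool.Agent.Lib.MP_8ab79f_ag.Six

/-- Smith normal form over a discrete valuation ring. -/
theorem smith_dvr {R : Type*} [CommRing R] [IsDomain R] [IsDiscreteValuationRing R] (π : R)
    (hπ : Irreducible π) {n : ℕ} (A : Matrix (Fin n) (Fin n) R) (hA : A.det ≠ 0) :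
    ∃ (U V : Matrix (Fin n) (Fin n) R) (d : Fin n → ℕ), IsUnit U.det ∧ IsUnit V.det ∧
      A = U * Matrix.diagonal (fun i => π ^ d i) * V := by
  classical
  have hinj : Function.Injective (Matrix.mulVecLin A) := by
    rw [← LinearMap.ker_eq_bot, LinearMap.ker_eq_bot']
    intro v hv
    exact Matrix.eq_zero_of_mulVec_eq_zero hA hv
  let e : (Fin n → R) ≃ₗ[R] LinearMap.range (Matrix.mulVecLin A) :=
    LinearEquiv.ofInjective (Matrix.mulVecLin A) hinj
  let cb : Module.Basis (Fin n) R (LinearMap.range (Matrix.mulVecLin A)) :=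
    (Pi.basisFun R (Fin n)).map e
  obtain ⟨b', a, ab', hab⟩ := Submodule.exists_smith_normal_form_of_rank_eq
    (N := LinearMap.range (Matrix.mulVecLin A)) (Pi.basisFun R (Fin n)) e.finrank_eq.symm
  have ha : ∀ i, a i ≠ 0 := by
    intro i hi
    have h1 := hab i
    rw [hi, zero_smul] at h1
    exact ab'.ne_zero i (Subtype.ext h1)
  choose d u hu using fun i => IsDiscreteValuationRing.eq_unit_mul_pow_irreducible (ha i) hπ
  have h1 : (Pi.basisFun R (Fin n)).toMatrix b' * b'.toMatrix (Pi.basisFun R (Fin n)) = 1 :=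
    Module.Basis.toMatrix_mul_toMatrix_flip _ _
  have h2 : ab'.toMatrix cb * cb.toMatrix ab' = 1 := Module.Basis.toMatrix_mul_toMatrix_flip _ _
  refine ⟨(Pi.basisFun R (Fin n)).toMatrix b' * Matrix.diagonal (fun i => (u i : R)),
    ab'.toMatrix cb, d, ?_, Matrix.isUnit_det_of_right_inverse h2, ?_⟩
  · rw [Matrix.det_mul, Matrix.det_diagonal]
    refine (Matrix.isUnit_det_of_right_inverse h1).mul ?_
    exact ⟨∏ i, u i, by simp⟩
  · rw [Matrix.mul_assoc (Module.Basis.toMatrix _ _), Matrix.diagonal_mul_diagonal]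
    ext i j
    have h3 := congrArg (fun z : LinearMap.range (Matrix.mulVecLin A) => (z : Fin n → R) i)
      (ab'.sum_toMatrix_smul_self cb j)
    simp only [Submodule.coe_sum, Submodule.coe_smul, Finset.sum_apply, Pi.smul_apply,
      smul_eq_mul, hab] at h3
    have h4 : ((cb j : LinearMap.range (Matrix.mulVecLin A)) : Fin n → R) i = A i j := by
      simp [cb, e]
    rw [h4] at h3
    rw [← h3, Matrix.mul_apply]
    refine Finset.sum_congr rfl fun k _ => ?_
    have h5 : (Pi.basisFun R (Fin n)).toMatrix b' i k = b' k i := rfl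
    rw [Matrix.mul_diagonal, ← hu k, h5]
    ring

end Pool.Agent.Lib.MP_8ab79f_ag.Six
end
end

section

set_option autoImplicit false
set_option linter.unusedSectionVars false

noncomputable section

namespace Pool.Agent.Lib.MP_8ab79f_ag.Six

/-- A nonzero vector over a discrete valuation ring is a power of the uniformizer times a
primitive vector. -/
theorem RSub_primitive {R : Type*} [CommRing R] [IsDomain R] [IsDiscreteValuationRing R]
    (π : R) (hπ : Irreducible π) {n : ℕ} (z : Fin n → R) (hz : z ≠ 0) :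
    ∃ (N : ℕ) (y : Fin n → R), z = π ^ N • y ∧ ∃ i, ¬ π ∣ y i := by
  obtain ⟨i₀, hi₀⟩ := Function.ne_iff.mp hz
  obtain ⟨N, hN, hN'⟩ : ∃ N : ℕ, (∀ i, π ^ N ∣ z i) ∧ ¬ ∀ i, π ^ (N + 1) ∣ z i := by
    by_contra hcon
    push Not at hcon
    have hall : ∀ N : ℕ, ∀ i, π ^ N ∣ z i := by
      intro N
      induction N with
      | zero => intro i; simp
      | succ N ih => exact hcon N ih
    obtain ⟨d, u, hu⟩ := IsDiscreteValuationRing.eq_unit_mul_pow_irreducible
      (show z i₀ ≠ 0 from hi₀) hπ
    have h1 := hall (d + 1) i₀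
    rw [hu, Units.dvd_mul_left, pow_dvd_pow_iff hπ.ne_zero hπ.not_isUnit] at h1
    omega
  choose y hy using hN
  refine ⟨N, y, funext fun i => hy i, ?_⟩
  by_contra hcon
  push Not at hcon
  refine hN' fun i => ?_
  obtain ⟨c, hc⟩ := hcon i
  exact ⟨c, by rw [hy i, hc, pow_succ]; ring⟩

/-- Zeros supported on a set of coordinates, of a subsystem. -/
theorem exists_zero_subset {R : Type*} [CommRing R] [IsDomain R] [IsDiscreteValuationRing R]
    (π : R) (hπ : Irreducible π) {n r : ℕ} (M : Fin r → Matrix (Fin n) (Fin n) R)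
    (S : Finset (Fin n)) (T : Finset (Fin r)) (hST : 4 * T.card + 1 ≤ S.card)
    (IH : ∀ M' : Fin T.card → Matrix (Fin (4 * T.card + 1)) (Fin (4 * T.card + 1)) R,
      ∃ z : Fin (4 * T.card + 1) → R, z ≠ 0 ∧ ∀ s, bl (M' s) z z = 0) :
    ∃ z : Fin n → R, (∀ a, a ∉ S → z a = 0) ∧ (∃ i, ¬ π ∣ z i) ∧
      ∀ s ∈ T, bl (M s) z z = 0 := by
  classical
  obtain ⟨S', hS', hcard⟩ := Finset.exists_subset_card_eq hST
  let e : Fin (4 * T.card + 1) ↪o Fin n := S'.orderEmbOfFin hcard
  let τ : Fin T.card ↪o Fin r := T.orderEmbOfFin rfl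
  have he : ∀ i, e i ∈ S := fun i => hS' (S'.orderEmbOfFin_mem hcard i)
  have heinj : Function.Injective e := e.injective
  obtain ⟨z', hz', hM'⟩ := IH (fun s => Matrix.of fun i j => M (τ s) (e i) (e j))
  let z : Fin n → R := ∑ i, Pi.single (e i) (z' i)
  have hze : ∀ i, z (e i) = z' i := by
    intro i
    simp only [z, Finset.sum_apply, Pi.single_apply]
    rw [Finset.sum_eq_single i]
    · simp
    · intro b _ hb
      rw [if_neg]
      intro h
      exact hb (heinj h).symm
    · simp
  have hzn : ∀ a, (∀ i, e i ≠ a) → z a = 0 := by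
    intro a ha
    simp only [z, Finset.sum_apply, Pi.single_apply]
    refine Finset.sum_eq_zero fun i _ => ?_
    rw [if_neg]
    intro h
    exact ha i h.symm
  have hz0 : z ≠ 0 := by
    intro h
    apply hz'
    funext i
    rw [← hze i, h]
    rfl
  have hzS : ∀ a, a ∉ S → z a = 0 := by
    intro a ha
    refine hzn a fun i hi => ha ?_
    rw [← hi]
    exact he i
  have hsum : ∀ f : Fin n → R, (∀ a, (∀ i, e i ≠ a) → f a = 0) →
      ∑ a, f a = ∑ i, f (e i) := by
    intro f hf
    rw [← Finset.sum_image (s := Finset.univ) (g := e) (f := f) (fun x _ y _ h => heinj h)]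
    symm
    refine Finset.sum_subset (Finset.subset_univ _) fun a _ ha => hf a fun i hi => ha ?_
    rw [← hi]
    exact Finset.mem_image_of_mem _ (Finset.mem_univ _)
  have hMz : ∀ s ∈ T, bl (M s) z z = 0 := by
    intro s hs
    have : s ∈ Set.range τ := by
      rw [Finset.range_orderEmbOfFin]
      exact hs
    obtain ⟨s', rfl⟩ := this
    rw [← hM' s']
    unfold bl
    rw [hsum _ (fun a ha => by simp [hzn a ha])]
    refine Finset.sum_congr rfl fun i _ => ?_
    rw [hsum _ (fun a ha => by simp [hzn a ha])]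
    refine Finset.sum_congr rfl fun j _ => ?_
    rw [hze, hze, Matrix.of_apply]
  obtain ⟨N, y, hy, i, hi⟩ := RSub_primitive π hπ z hz0
  have hπN : π ^ N ≠ 0 := pow_ne_zero _ hπ.ne_zero
  refine ⟨y, ?_, ⟨i, hi⟩, ?_⟩
  · intro a ha
    have h1 := hzS a ha
    rw [hy, Pi.smul_apply, smul_eq_mul] at h1
    exact (mul_eq_zero.mp h1).resolve_left hπN
  · intro s hs
    have h1 := hMz s hs
    rw [hy, bl_smul_left, bl_smul_right] at h1
    exact (mul_eq_zero.mp ((mul_eq_zero.mp h1).resolve_left hπN)).resolve_left hπN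

end Pool.Agent.Lib.MP_8ab79f_ag.Six
end
end

section

set_option autoImplicit false
set_option linter.unusedSectionVars false

noncomputable section

namespace Pool.Agent.Lib.MP_8ab79f_ag.Six

open Matrix in
private theorem RBound_bl_eq {S : Type*} [CommRing S] {n : ℕ} (A : Matrix (Fin n) (Fin n) S)
    (x y : Fin n → S) : bl A x y = x ⬝ᵥ A.mulVec y := by
  simp only [bl, dotProduct, Matrix.mulVec, Finset.mul_sum]
  refine Finset.sum_congr rfl fun i _ => Finset.sum_congr rfl fun j _ => ?_
  ring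

open Matrix in
private theorem RBound_bl_mulVec {S : Type*} [CommRing S] {n : ℕ}
    (A U : Matrix (Fin n) (Fin n) S) (x y : Fin n → S) :
    bl A (U.mulVec x) (U.mulVec y) = bl (Uᵀ * A * U) x y := by
  rw [RBound_bl_eq, RBound_bl_eq, ← Matrix.mulVec_mulVec, ← Matrix.mulVec_mulVec,
    Matrix.dotProduct_mulVec x Uᵀ, Matrix.vecMul_transpose]

private theorem RBound_bl_sum {S : Type*} [CommRing S] {n r : ℕ} (a : Fin r → S)
    (A : Fin r → Matrix (Fin n) (Fin n) S) (x y : Fin n → S) :
    bl (∑ j, a j • A j) x y = ∑ j, a j * bl (A j) x y := by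
  simp only [RBound_bl_eq, Matrix.sum_mulVec, dotProduct_sum, Matrix.smul_mulVec,
    dotProduct_smul, smul_eq_mul]

private theorem RBound_exp {R : Type*} [CommRing R] [IsDomain R] {π : R} (h0 : π ≠ 0)
    (hu : ¬ IsUnit π) {n : ℕ} {A U V : Matrix (Fin n) (Fin n) R} {d : Fin n → ℕ} {s : ℕ}
    (hU : IsUnit U.det) (hV : IsUnit V.det)
    (h : A = U * Matrix.diagonal (fun i => π ^ d i) * V) (hA : Associated A.det (π ^ s)) :
    ∑ i, d i = s := by
  have h1 : A.det = U.det * π ^ (∑ i, d i) * V.det := by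
    rw [h, Matrix.det_mul, Matrix.det_mul, Matrix.det_diagonal, Finset.prod_pow_eq_pow_sum]
  have h2 : Associated (π ^ (∑ i, d i)) A.det := by
    rw [h1]
    obtain ⟨u, hu⟩ := hU
    obtain ⟨v, hv⟩ := hV
    refine ⟨u * v, ?_⟩
    rw [← hu, ← hv]
    push_cast
    ring
  have h3 := h2.trans hA
  have h4 := (pow_dvd_pow_iff h0 hu).1 h3.dvd
  have h5 := (pow_dvd_pow_iff h0 hu).1 h3.symm.dvd
  exact le_antisymm h4 h5

/-- Boundedness of the index function on the admissible transformations. -/
theorem adm_bound {R : Type*} [CommRing R] [IsDomain R] [IsDiscreteValuationRing R]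
    (π : R) (hπ : Irreducible π) {r : ℕ} (hr : 0 < r)
    (M : Fin r → Matrix (Fin (4 * r + 1)) (Fin (4 * r + 1)) R) (C₀ : ℕ)
    (hC₀ : ∀ x : Fin (4 * r + 1) → R, (∃ i, ¬ π ∣ x i) → ∃ s, ¬ π ^ C₀ ∣ bl (M s) x x)
    (IH : ∀ r' < r, ∀ M' : Fin r' → Matrix (Fin (4 * r' + 1)) (Fin (4 * r' + 1)) R,
      ∃ z : Fin (4 * r' + 1) → R, z ≠ 0 ∧ ∀ s, bl (M' s) z z = 0)
    (A : Matrix (Fin (4 * r + 1)) (Fin (4 * r + 1)) R) (B : Matrix (Fin r) (Fin r) R)
    (e s t : ℕ) (hA : Associated A.det (π ^ s)) (hB : Associated B.det (π ^ t))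
    (hadm : Adm π M A B e) :
    (4 * r + 1) * r * e ≤ (4 * r + 1) * r * C₀ + 2 * r * s + (4 * r + 1) * t := by
  classical
  have h0 : π ≠ 0 := hπ.ne_zero
  have hu : ¬ IsUnit π := hπ.not_isUnit
  have hA0 : A.det ≠ 0 := fun h => by
    rw [h] at hA
    exact pow_ne_zero s h0 ((associated_zero_iff_eq_zero _).1 hA.symm)
  have hB0 : B.det ≠ 0 := fun h => by
    rw [h] at hB
    exact pow_ne_zero t h0 ((associated_zero_iff_eq_zero _).1 hB.symm)
  obtain ⟨U₁, V₁, d, hU₁, hV₁, hAeq⟩ := smith_dvr π hπ A hA0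
  obtain ⟨U₂, V₂, c, hU₂, hV₂, hBeq⟩ := smith_dvr π hπ B hB0
  have hs := RBound_exp h0 hu hU₁ hV₁ hAeq hA
  have ht := RBound_exp h0 hu hU₂ hV₂ hBeq hB
  have key : ∀ θ : ℕ, r * (Finset.univ.filter fun a => d a ≤ θ).card +
      (4 * r + 1) * (Finset.univ.filter fun i => c i + 2 * θ + C₀ ≤ e).card ≤
        (4 * r + 1) * r := by
    intro θ
    set J := Finset.univ.filter fun a => d a ≤ θ with hJ
    set K := Finset.univ.filter fun i => c i + 2 * θ + C₀ ≤ e with hK
    have hKr : K.card ≤ r := by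
      have := Finset.card_le_univ K
      rwa [Fintype.card_fin] at this
    rcases Finset.eq_empty_or_nonempty K with hK0 | hKne
    · have hJn : J.card ≤ 4 * r + 1 := by
        have := Finset.card_le_univ J
        rwa [Fintype.card_fin] at this
      rw [hK0, Finset.card_empty]
      nlinarith
    · have hKpos : 0 < K.card := Finset.card_pos.2 hKne
      have hT : (Kᶜ).card = r - K.card := by
        rw [Finset.card_compl, Fintype.card_fin]
      have claim : J.card ≤ 4 * (Kᶜ).card := by
        by_contra hcon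
        rw [not_le] at hcon
        obtain ⟨z, hzJ, hzp, hzT⟩ := exists_zero_subset π hπ
          (fun i => ∑ j, V₂ i j • (U₁.transpose * M j * U₁)) J Kᶜ hcon
          (IH (Kᶜ).card (by omega))
        -- the vector `y` with `D₁ y = π ^ θ z`
        let y : Fin (4 * r + 1) → R := fun a => π ^ (θ - d a) * z a
        have hy : (Matrix.diagonal (fun i => π ^ d i)).mulVec y = π ^ θ • z := by
          funext a
          rw [Matrix.mulVec_diagonal, Pi.smul_apply, smul_eq_mul]
          by_cases ha : a ∈ J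
          · have hda : d a ≤ θ := by
              rw [hJ, Finset.mem_filter] at ha
              exact ha.2
            show π ^ d a * (π ^ (θ - d a) * z a) = π ^ θ * z a
            rw [← mul_assoc, ← pow_add, Nat.add_sub_cancel' hda]
          · show π ^ d a * (π ^ (θ - d a) * z a) = π ^ θ * z a
            rw [hzJ a ha]
            ring
        have hAx : A.mulVec (V₁⁻¹.mulVec y) = π ^ θ • U₁.mulVec z := by
          rw [hAeq, Matrix.mulVec_mulVec, Matrix.mul_assoc, Matrix.mul_nonsing_inv V₁ hV₁,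
            Matrix.mul_one, ← Matrix.mulVec_mulVec, hy, Matrix.mulVec_smul]
        have hval : ∀ i, π ^ e ∣ π ^ (c i + 2 * θ) *
            ∑ j, V₂ i j * bl (M j) (U₁.mulVec z) (U₁.mulVec z) := by
          intro i
          have h1 : U₂⁻¹ * B = Matrix.diagonal (fun i => π ^ c i) * V₂ := by
            rw [hBeq, Matrix.mul_assoc, ← Matrix.mul_assoc U₂⁻¹, Matrix.nonsing_inv_mul U₂ hU₂,
              Matrix.one_mul]
          have h2 : ∀ m : Fin r → R, π ^ c i * ∑ j, V₂ i j * m j =
              ∑ k, U₂⁻¹ i k * ∑ j, B k j * m j := by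
            intro m
            have h3 := congrFun (congrArg (fun X => Matrix.mulVec X m) h1) i
            rw [← Matrix.mulVec_mulVec, ← Matrix.mulVec_mulVec, Matrix.mulVec_diagonal] at h3
            exact h3.symm
          have h4 := h2 (fun j => bl (M j) (A.mulVec (V₁⁻¹.mulVec y)) (A.mulVec (V₁⁻¹.mulVec y)))
          have h5 : π ^ e ∣ π ^ c i * ∑ j, V₂ i j *
              bl (M j) (A.mulVec (V₁⁻¹.mulVec y)) (A.mulVec (V₁⁻¹.mulVec y)) := by
            rw [h4]
            exact Finset.dvd_sum fun k _ => Dvd.dvd.mul_left (hadm _ k) _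
          rw [hAx] at h5
          have h6 : π ^ c i * ∑ j, V₂ i j *
              bl (M j) (π ^ θ • U₁.mulVec z) (π ^ θ • U₁.mulVec z) =
              π ^ (c i + 2 * θ) * ∑ j, V₂ i j * bl (M j) (U₁.mulVec z) (U₁.mulVec z) := by
            rw [Finset.mul_sum, Finset.mul_sum]
            refine Finset.sum_congr rfl fun j _ => ?_
            rw [bl_smul_left, bl_smul_right]
            ring
          rw [h6] at h5
          exact h5
        have hval2 : ∀ i, π ^ C₀ ∣ ∑ j, V₂ i j * bl (M j) (U₁.mulVec z) (U₁.mulVec z) := by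
          intro i
          by_cases hi : i ∈ K
          · have hie : c i + 2 * θ + C₀ ≤ e := by
              rw [hK, Finset.mem_filter] at hi
              exact hi.2
            have h1 : π ^ (c i + 2 * θ) * π ^ C₀ ∣ π ^ (c i + 2 * θ) *
                ∑ j, V₂ i j * bl (M j) (U₁.mulVec z) (U₁.mulVec z) := by
              rw [← pow_add]
              exact (pow_dvd_pow π hie).trans (hval i)
            exact (mul_dvd_mul_iff_left (pow_ne_zero _ h0)).1 h1
          · have h1 := hzT i (Finset.mem_compl.2 hi)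
            rw [RBound_bl_sum] at h1
            have h2 : ∑ j, V₂ i j * bl (M j) (U₁.mulVec z) (U₁.mulVec z) = 0 := by
              rw [← h1]
              refine Finset.sum_congr rfl fun j _ => ?_
              rw [RBound_bl_mulVec]
            rw [h2]
            exact dvd_zero _
        have hprim : ∃ i, ¬ π ∣ U₁.mulVec z i := by
          by_contra hall
          push Not at hall
          obtain ⟨i, hi⟩ := hzp
          apply hi
          have h1 : z = U₁⁻¹.mulVec (U₁.mulVec z) := by
            rw [Matrix.mulVec_mulVec, Matrix.nonsing_inv_mul U₁ hU₁, Matrix.one_mulVec]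
          have h2 : π ∣ U₁⁻¹.mulVec (U₁.mulVec z) i := by
            rw [Matrix.mulVec, dotProduct]
            exact Finset.dvd_sum fun k _ => Dvd.dvd.mul_left (hall k) _
          rwa [← h1] at h2
        obtain ⟨σ, hσ⟩ := hC₀ _ hprim
        apply hσ
        have h1 : (fun j => bl (M j) (U₁.mulVec z) (U₁.mulVec z)) =
            V₂⁻¹.mulVec (V₂.mulVec (fun j => bl (M j) (U₁.mulVec z) (U₁.mulVec z))) := by
          rw [Matrix.mulVec_mulVec, Matrix.nonsing_inv_mul V₂ hV₂, Matrix.one_mulVec]
        have h2 : π ^ C₀ ∣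
            V₂⁻¹.mulVec (V₂.mulVec (fun j => bl (M j) (U₁.mulVec z) (U₁.mulVec z))) σ := by
          rw [Matrix.mulVec, dotProduct]
          exact Finset.dvd_sum fun k _ => Dvd.dvd.mul_left (hval2 k) _
        rw [← h1] at h2
        exact h2
      rw [hT] at claim
      have h1 : r - K.card + K.card = r := Nat.sub_add_cancel hKr
      nlinarith
  have := comb_ineq (4 * r + 1) r e C₀ d c key
  rw [hs, ht] at this
  exact this

end Pool.Agent.Lib.MP_8ab79f_ag.Six
end
end

section

set_option autoImplicit false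
set_option linter.unusedSectionVars false

noncomputable section

namespace Pool.Agent.Lib.MP_8ab79f_ag.Six

/-- Symmetrisation does not change the values. -/
theorem RDiv_swap {R : Type*} [CommRing R] {n : ℕ} (G : Matrix (Fin n) (Fin n) R)
    (x : Fin n → R) : bl G.transpose x x = bl G x x := by
  unfold bl
  rw [Finset.sum_comm]
  refine Finset.sum_congr rfl fun i _ => Finset.sum_congr rfl fun j _ => ?_
  rw [Matrix.transpose_apply]
  ring

theorem RDiv_diag {R : Type*} [CommRing R] {n : ℕ} (A : Matrix (Fin n) (Fin n) R) (i j : Fin n) :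
    bl A (Pi.single i 1) (Pi.single j 1) = A i j := by
  unfold bl
  rw [Finset.sum_eq_single i, Finset.sum_eq_single j]
  · simp
  · intro b _ hb
    simp [Pi.single_apply, hb]
  · intro h
    exact absurd (Finset.mem_univ _) h
  · intro b _ hb
    apply Finset.sum_eq_zero
    intro k _
    simp [Pi.single_apply, hb]
  · intro h
    exact absurd (Finset.mem_univ _) h

/-- A quadratic form all of whose values are divisible by `d` is `d` times a quadratic form. -/
theorem exists_div_matrix {R : Type*} [CommRing R] {n : ℕ} (d : R)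
    (A : Matrix (Fin n) (Fin n) R) (h : ∀ x, d ∣ bl A x x) :
    ∃ A' : Matrix (Fin n) (Fin n) R, ∀ x, d * bl A' x x = bl A x x := by
  have h1 : ∀ i, d ∣ A i i := by
    intro i
    have := h (Pi.single i 1)
    rwa [RDiv_diag] at this
  have h2 : ∀ i j, d ∣ A i j + A j i := by
    intro i j
    have h3 := h (Pi.single i 1 + Pi.single j 1)
    rw [bl_add_left, bl_add_right, bl_add_right, RDiv_diag, RDiv_diag, RDiv_diag,
      RDiv_diag] at h3
    have h4 := (h3.sub (h1 i)).sub (h1 j)
    have h5 : A i i + A i j + (A j i + A j j) - A i i - A j j = A i j + A j i := by ring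
    rwa [h5] at h4
  choose a ha using h1
  choose b hb using h2
  refine ⟨Matrix.of fun i j => if i = j then a i else if i < j then b i j else 0, fun x => ?_⟩
  set G : Matrix (Fin n) (Fin n) R := Matrix.of fun i j => if j < i then A i j else 0 with hG
  rw [← bl_smul_mat]
  have h3 : d • (Matrix.of fun i j => if i = j then a i else if i < j then b i j else 0 :
      Matrix (Fin n) (Fin n) R) = A + G.transpose - G := by
    ext i j
    simp only [Matrix.smul_apply, Matrix.of_apply, Matrix.add_apply, Matrix.sub_apply,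
      Matrix.transpose_apply, hG, smul_eq_mul]
    have hb' := hb i j
    have ha' := ha i
    rcases lt_trichotomy i j with hij | hij | hij
    · have e1 : ¬ j < i := hij.not_gt
      simp only [hij, e1, hij.ne, if_true, if_false]
      rw [← hb']
      ring
    · subst hij
      simp only [lt_irrefl, if_true, if_false]
      rw [← ha']
      ring
    · have e1 : ¬ i < j := hij.not_gt
      simp only [hij, e1, hij.ne', if_true, if_false]
      ring
  rw [h3, bl_sub_mat, bl_add_mat, RDiv_swap]
  ring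

end Pool.Agent.Lib.MP_8ab79f_ag.Six
end
end

section

set_option autoImplicit false
set_option linter.unusedSectionVars false

noncomputable section

namespace Pool.Agent.Lib.MP_8ab79f_ag.Six

/-- A basis of `k ^ n` some members of which form a basis of a given subspace. -/
theorem RLat_basis {k : Type*} [Field k] {n : ℕ} (W : Submodule k (Fin n → k)) :
    ∃ (w w' : ℕ) (b : Module.Basis (Fin w ⊕ Fin w') k (Fin n → k)),
      w = Module.finrank k W ∧ w + w' = n ∧ ∀ i, b (Sum.inl i) ∈ W := by
  obtain ⟨W', hW'⟩ := Submodule.exists_isCompl W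
  let bW := Module.finBasis k W
  let bW' := Module.finBasis k W'
  refine ⟨_, _, (bW.prod bW').map (Submodule.prodEquivOfIsCompl W W' hW'), rfl, ?_, ?_⟩
  · have := Submodule.finrank_add_eq_of_isCompl hW'
    simpa using this
  · intro i
    simp [Module.Basis.prod_apply]

open IsLocalRing in
/-- A matrix whose columns reduce into a given subspace of the residue space and whose
determinant has the least possible valuation. -/
theorem exists_lat {R : Type*} [CommRing R] [IsDomain R] [IsDiscreteValuationRing R]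
    (π : R) (hπ : Irreducible π) {n : ℕ}
    (W : Submodule (ResidueField R) (Fin n → ResidueField R)) :
    ∃ A : Matrix (Fin n) (Fin n) R,
      Associated A.det (π ^ (n - Module.finrank (ResidueField R) W)) ∧
      ∀ j, (fun i => residue R (A i j)) ∈ W := by
  classical
  obtain ⟨w, w', b, hw, hww, hb⟩ := RLat_basis W
  have hcard : Fintype.card (Fin n) = Fintype.card (Fin w ⊕ Fin w') := by
    simp [hww]
  let e : Fin n ≃ Fin w ⊕ Fin w' := Fintype.equivOfCardEq hcard
  obtain ⟨lift, hlift⟩ := (residue_surjective (R := R)).hasRightInverse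
  let P : Matrix (Fin n) (Fin n) R := Matrix.of fun i j => lift (b (e j) i)
  let D : Fin w ⊕ Fin w' → R := Sum.elim (fun _ => 1) (fun _ => π)
  have hunit : IsUnit P.det := by
    rw [← IsLocalRing.residue_ne_zero_iff_isUnit, RingHom.map_det]
    have h1 : (residue R).mapMatrix P =
        (Pi.basisFun (ResidueField R) (Fin n)).toMatrix (b.reindex e.symm) := by
      ext i j
      simp [P, Module.Basis.toMatrix_apply, hlift (b (e j) i)]
    rw [h1, ← Module.Basis.det_apply]
    exact (Module.Basis.isUnit_det _ _).ne_zero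
  refine ⟨P * Matrix.diagonal fun j => D (e j), ?_, ?_⟩
  · rw [Matrix.det_mul, Matrix.det_diagonal]
    have h2 : ∏ j, D (e j) = π ^ (n - Module.finrank (ResidueField R) W) := by
      rw [Equiv.prod_comp e D, Fintype.prod_sum_type]
      simp only [D, Sum.elim_inl, Sum.elim_inr, Finset.prod_const_one, Finset.prod_const, one_mul,
        Finset.card_univ, Fintype.card_fin]
      congr 1
      omega
    rw [h2]
    exact associated_unit_mul_left _ _ hunit
  · intro j
    simp only [Matrix.mul_diagonal]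
    rcases hj : e j with i | i
    · have h3 : (fun i' => residue R (P i' j * D (Sum.inl i))) = b (Sum.inl i) := by
        ext i'
        simp only [D, Sum.elim_inl, mul_one, P, Matrix.of_apply, hj]
        exact hlift _
      rw [h3]
      exact hb i
    · have h3 : (fun i' => residue R (P i' j * D (Sum.inr i))) = 0 := by
        ext i'
        simp only [D, Sum.elim_inr, map_mul, Pi.zero_apply]
        rw [show residue R π = 0 from ?_, mul_zero]
        rw [residue_eq_zero_iff]
        exact hπ.not_isUnit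
      rw [h3]
      exact Submodule.zero_mem W

end Pool.Agent.Lib.MP_8ab79f_ag.Six
end
end

section

set_option autoImplicit false
set_option linter.unusedSectionVars false

noncomputable section

namespace Pool.Agent.Lib.MP_8ab79f_ag.Six

open Matrix in
private theorem RGood_bl_eq {S : Type*} [CommRing S] {n : ℕ} (A : Matrix (Fin n) (Fin n) S)
    (x y : Fin n → S) : bl A x y = x ⬝ᵥ A.mulVec y := by
  simp only [bl, dotProduct, Matrix.mulVec, Finset.mul_sum]
  refine Finset.sum_congr rfl fun i _ => Finset.sum_congr rfl fun j _ => ?_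
  ring

open Matrix in
private theorem RGood_bl_mulVec {S : Type*} [CommRing S] {n : ℕ}
    (A U : Matrix (Fin n) (Fin n) S) (x y : Fin n → S) :
    bl A (U.mulVec x) (U.mulVec y) = bl (Uᵀ * A * U) x y := by
  rw [RGood_bl_eq, RGood_bl_eq, ← Matrix.mulVec_mulVec, ← Matrix.mulVec_mulVec,
    Matrix.dotProduct_mulVec x Uᵀ, Matrix.vecMul_transpose]

private theorem RGood_bl_sum {S : Type*} [CommRing S] {n r : ℕ} (a : Fin r → S)
    (A : Fin r → Matrix (Fin n) (Fin n) S) (x y : Fin n → S) :
    bl (∑ j, a j • A j) x y = ∑ j, a j * bl (A j) x y := by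
  simp only [RGood_bl_eq, Matrix.sum_mulVec, dotProduct_sum, Matrix.smul_mulVec,
    dotProduct_smul, smul_eq_mul]

open IsLocalRing in
private theorem RGood_dvd {R : Type*} [CommRing R] [IsDomain R] [IsDiscreteValuationRing R]
    {π : R} (hπ : Irreducible π) {x : R} (h : residue R x = 0) : π ∣ x := by
  rw [residue_eq_zero_iff, hπ.maximalIdeal_eq, Ideal.mem_span_singleton] at h
  exact h

open IsLocalRing in
/-- An anisotropic system can be transformed into one whose reduction satisfies the rank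
condition. -/
theorem exists_good {R : Type*} [CommRing R] [IsDomain R] [IsDiscreteValuationRing R]
    (π : R) (hπ : Irreducible π) {r : ℕ} (hr : 0 < r)
    (M : Fin r → Matrix (Fin (4 * r + 1)) (Fin (4 * r + 1)) R)
    (hM : ∀ x : Fin (4 * r + 1) → R, x ≠ 0 → ∃ s, bl (M s) x x ≠ 0) (C₀ : ℕ)
    (hC₀ : ∀ x : Fin (4 * r + 1) → R, (∃ i, ¬ π ∣ x i) → ∃ s, ¬ π ^ C₀ ∣ bl (M s) x x)
    (IH : ∀ r' < r, ∀ M' : Fin r' → Matrix (Fin (4 * r' + 1)) (Fin (4 * r' + 1)) R,
      ∃ z : Fin (4 * r' + 1) → R, z ≠ 0 ∧ ∀ s, bl (M' s) z z = 0) :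
    ∃ M' : Fin r → Matrix (Fin (4 * r + 1)) (Fin (4 * r + 1)) R,
      (∀ x : Fin (4 * r + 1) → R, x ≠ 0 → ∃ s, bl (M' s) x x ≠ 0) ∧
      RankCond (fun s => (M' s).map (residue R)) (4 * r + 1) := by
  classical
  have h0 : π ≠ 0 := hπ.ne_zero
  -- the set of values of the index function
  let P : ℤ → Prop := fun z => ∃ (A : Matrix (Fin (4 * r + 1)) (Fin (4 * r + 1)) R)
    (B : Matrix (Fin r) (Fin r) R) (e s t : ℕ), Associated A.det (π ^ s) ∧
    Associated B.det (π ^ t) ∧ Adm π M A B e ∧
    z = ((4 * r + 1) * r * e : ℤ) - 2 * r * s - (4 * r + 1) * t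
  have hbdd : ∃ b : ℤ, ∀ z : ℤ, P z → z ≤ b := by
    refine ⟨((4 * r + 1) * r * C₀ : ℤ), ?_⟩
    rintro z ⟨A, B, e, s, t, hA, hB, hadm, rfl⟩
    have := adm_bound π hπ hr M C₀ hC₀ IH A B e s t hA hB hadm
    zify at this
    linarith
  have hinh : ∃ z : ℤ, P z := by
    refine ⟨_, 1, 1, 0, 0, 0, ?_, ?_, ?_, rfl⟩
    · simp
    · simp
    · intro x i
      simp
  obtain ⟨z, ⟨A, B, e, s, t, hA, hB, hadm, rfl⟩, hmax⟩ := Int.exists_greatest_of_bdd hbdd hinh
  have hA0 : A.det ≠ 0 := fun h => by
    rw [h] at hA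
    exact pow_ne_zero s h0 ((associated_zero_iff_eq_zero _).1 hA.symm)
  have hB0 : B.det ≠ 0 := fun h => by
    rw [h] at hB
    exact pow_ne_zero t h0 ((associated_zero_iff_eq_zero _).1 hB.symm)
  have hN : ∀ i x, bl (∑ j, B i j • (A.transpose * M j * A)) x x =
      ∑ j, B i j * bl (M j) (A.mulVec x) (A.mulVec x) := by
    intro i x
    rw [RGood_bl_sum]
    refine Finset.sum_congr rfl fun j _ => ?_
    rw [RGood_bl_mulVec]
  have hdiv : ∀ i, ∃ A' : Matrix (Fin (4 * r + 1)) (Fin (4 * r + 1)) R, ∀ x,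
      π ^ e * bl A' x x = ∑ j, B i j * bl (M j) (A.mulVec x) (A.mulVec x) := by
    intro i
    obtain ⟨A', hA'⟩ := exists_div_matrix (π ^ e) (∑ j, B i j • (A.transpose * M j * A))
      (fun x => by rw [hN]; exact hadm x i)
    exact ⟨A', fun x => by rw [hA', hN]⟩
  choose M' hM' using hdiv
  refine ⟨M', ?_, ?_⟩
  · intro x hx
    by_contra hcon
    push Not at hcon
    have hAx : A.mulVec x ≠ 0 := fun h => hx (Matrix.eq_zero_of_mulVec_eq_zero hA0 h)
    obtain ⟨σ, hσ⟩ := hM _ hAx
    apply hσ
    have h1 : B.mulVec (fun j => bl (M j) (A.mulVec x) (A.mulVec x)) = 0 := by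
      funext i
      rw [Matrix.mulVec, dotProduct, Pi.zero_apply, ← hM', hcon, mul_zero]
    exact congrFun (Matrix.eq_zero_of_mulVec_eq_zero hB0 h1) σ
  · intro W hk
    set k := Module.finrank (ResidueField R) (ann (fun s => (M' s).map (residue R)) W) with hkdef
    set w := Module.finrank (ResidueField R) W with hwdef
    have hkr : k ≤ r := by
      have := Submodule.finrank_le (ann (fun s => (M' s).map (residue R)) W)
      rwa [Module.finrank_fin_fun] at this
    have hwn : w ≤ 4 * r + 1 := by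
      have := Submodule.finrank_le W
      rwa [Module.finrank_fin_fun] at this
    obtain ⟨A₁, hA₁, hA₁W⟩ := exists_lat π hπ W
    obtain ⟨B₁, hB₁, hB₁W⟩ := exists_lat π hπ (ann (fun s => (M' s).map (residue R)) W)
    rw [← hwdef] at hA₁
    rw [← hkdef] at hB₁
    have hadm' : Adm π M (A * A₁) (B₁.transpose * B) (e + 1) := by
      intro x i
      have h1 : ∑ j, (B₁.transpose * B) i j *
          bl (M j) ((A * A₁).mulVec x) ((A * A₁).mulVec x) =
          π ^ e * ∑ l, B₁ l i * bl (M' l) (A₁.mulVec x) (A₁.mulVec x) := by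
        have h2 : ∀ l, ∑ j, B l j *
            bl (M j) (A.mulVec (A₁.mulVec x)) (A.mulVec (A₁.mulVec x)) =
            π ^ e * bl (M' l) (A₁.mulVec x) (A₁.mulVec x) := fun l => (hM' l _).symm
        rw [← Matrix.mulVec_mulVec, Finset.mul_sum]
        simp only [Matrix.mul_apply, Matrix.transpose_apply, Finset.sum_mul]
        rw [Finset.sum_comm]
        refine Finset.sum_congr rfl fun l _ => ?_
        have h3 : π ^ e * (B₁ l i * bl (M' l) (A₁.mulVec x) (A₁.mulVec x)) =
            B₁ l i * (π ^ e * bl (M' l) (A₁.mulVec x) (A₁.mulVec x)) := by ring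
        rw [h3, ← h2, Finset.mul_sum]
        refine Finset.sum_congr rfl fun j _ => ?_
        ring
      rw [h1, pow_succ]
      refine mul_dvd_mul_left _ (RGood_dvd hπ ?_)
      have h4 : (fun a => residue R (A₁.mulVec x a)) ∈ W := by
        have h5 : (fun a => residue R (A₁.mulVec x a)) =
            ∑ b, residue R (x b) • (fun a => residue R (A₁ a b)) := by
          funext a
          rw [Matrix.mulVec, dotProduct, map_sum, Finset.sum_apply]
          refine Finset.sum_congr rfl fun b _ => ?_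
          rw [map_mul, Pi.smul_apply, smul_eq_mul, mul_comm]
        rw [h5]
        exact Submodule.sum_mem _ fun b _ => Submodule.smul_mem _ _ (hA₁W b)
      have h6 := (mem_ann.1 (hB₁W i)) _ h4
      rw [Qf] at h6
      rw [map_sum, ← h6]
      refine Finset.sum_congr rfl fun l _ => ?_
      rw [map_mul, bl_map]
    have hdetA : Associated (A * A₁).det (π ^ (s + (4 * r + 1 - w))) := by
      rw [Matrix.det_mul, pow_add]
      exact hA.mul_mul hA₁
    have hdetB : Associated (B₁.transpose * B).det (π ^ (t + (r - k))) := by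
      rw [Matrix.det_mul, Matrix.det_transpose, pow_add, mul_comm]
      exact hB.mul_mul hB₁
    have hm := hmax _ ⟨A * A₁, B₁.transpose * B, e + 1, s + (4 * r + 1 - w), t + (r - k),
      hdetA, hdetB, hadm', rfl⟩
    obtain ⟨w', hw'⟩ := Nat.exists_eq_add_of_le hwn
    obtain ⟨k', hk'⟩ := Nat.exists_eq_add_of_le hkr
    have e1 : 4 * r + 1 - w = w' := by omega
    have e2 : r - k = k' := by omega
    rw [e1, e2] at hm
    push_cast at hm
    have hm2 : ((4 * r + 1) * r : ℤ) ≤ 2 * r * w' + (4 * r + 1) * k' := by nlinarith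
    have hm3 : ((4 * r + 1) * k : ℤ) ≤ 2 * r * w' := by
      have : (r : ℤ) = k + k' := by exact_mod_cast hk'
      nlinarith
    -- so `2 k < w'`
    have hm4 : 2 * k < w' := by
      by_contra hcon
      rw [not_lt] at hcon
      have h7 : (w' : ℤ) ≤ 2 * k := by exact_mod_cast hcon
      have h8 : (2 * r * w' : ℤ) ≤ 2 * r * (2 * k) :=
        mul_le_mul_of_nonneg_left h7 (by positivity)
      have h9 : (1 : ℤ) ≤ k := by exact_mod_cast hk
      nlinarith
    omega

end Pool.Agent.Lib.MP_8ab79f_ag.Six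
end
end
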