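import Pool.Agent.Lib.MP_8ab79f_ag.Mg.G002
import Pool.Agent.Lib.MP_8ab79f_ag.Defs
import Pool.Agent.Lib.MP_8ab79f_ag.Mg.G007
import Pool.Agent.Lib.MP_8ab79f_ag.Mg.G008

section

set_option autoImplicit false
set_option linter.unusedSectionVars false

noncomputable section

namespace Pool.Agent.Lib.MP_8ab79f_ag.Six

open Polynomial

variable {κ : Type*} [Field κ] [CharZero κ]

/-- The linear form `bl A x`. -/
def blL (A : Matrix (Fin 7) (Fin 7) κ) (x : Fin 7 → κ) : (Fin 7 → κ) →ₗ[κ] κ where
  toFun := fun v => bl A x v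
  map_add' := fun v w => bl_add_right A x v w
  map_smul' := fun c v => by simpa using bl_smul_right A c x v

@[simp] theorem blL_apply (A : Matrix (Fin 7) (Fin 7) κ) (x v : Fin 7 → κ) :
    blL A x v = bl A x v := rfl

theorem eq_zero_of_det {A : Matrix (Fin 7) (Fin 7) κ} (hd : A.det ≠ 0) {v : Fin 7 → κ}
    (hv : A.mulVec v = 0) : v = 0 := by
  by_contra hne
  exact hd (Matrix.exists_mulVec_eq_zero_iff.1 ⟨v, hne, hv⟩)

theorem rk_of_det {A : Matrix (Fin 7) (Fin 7) κ} (hd : A.det ≠ 0) :
    ∀ v w : Fin 7 → κ, A.mulVec v = 0 → A.mulVec w = 0 →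
      ∃ s t : κ, (s ≠ 0 ∨ t ≠ 0) ∧ s • v + t • w = 0 := by
  intro v w hv hw
  refine ⟨1, 0, Or.inl one_ne_zero, ?_⟩
  rw [eq_zero_of_det hd hv, eq_zero_of_det hd hw]
  simp

/-- The points `ptR` do not lie in a hyperplane, except possibly the obvious one. -/
theorem exists_ptR {f h : Matrix (Fin 7) (Fin 7) κ} (hf : f.IsSymm) (hh : h.IsSymm) {s : κ}
    (hds : (h - s • f).det ≠ 0) {O u e e' : Fin 7 → κ} (hfO : bl f O O = 0)
    (hhO : bl h O O = 0) (hfe : bl f O e = 1) (hhe : bl h O e = 0) (hfe' : bl f O e' = 0)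
    (hhe' : bl h O e' = 1) (hfu : bl f u O = 0) (hhu : bl h u O = 0)
    (huu : bl f u u ≠ 0) (hu : bl h u u = s * bl f u u) (l : (Fin 7 → κ) →ₗ[κ] κ)
    (hl : ∀ c : κ, ∃ v, l v ≠ c * bl (h - s • f) O v) :
    ∃ v, bl (h - s • f) v O = 0 ∧ l (ptR f h s O u v) ≠ 0 := by
  have hA : (h - s • f).IsSymm := by
    ext i j
    simp [Matrix.transpose_apply, hf.apply i j, hh.apply i j]
  have hAuO : bl (h - s • f) u O = 0 := by
    rw [bl_sub_mat, bl_smul_mat, hhu, hfu]; ring
  have hAuu : bl (h - s • f) u u = 0 := by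
    rw [bl_sub_mat, bl_smul_mat, hu]; ring
  have hfOu : bl f O u = 0 := by rw [bl_comm hf]; exact hfu
  have h20 : (2 : κ) ≠ 0 := two_ne_zero
  set A := h - s • f with hAdef
  have hR : ∀ v, ptR f h s O u v = (bl f (ptY f h s u v) (ptY f h s u v)) • O -
      (2 * bl f O (ptY f h s u v)) • ptY f h s u v := fun v => rfl
  have hY : ∀ v, ptY f h s u v = (2 * bl A u v) • v - (bl A v v) • u := fun v => rfl
  by_cases hlO : l O = 0
  · -- the second case
    have hlR : ∀ v, l (ptR f h s O u v) =
        -(4 * (bl A u v * bl f O v) * (2 * bl A u v * l v - bl A v v * l u)) := by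
      intro v
      have e1 : bl f O (ptY f h s u v) = 2 * bl A u v * bl f O v := by
        rw [hY, bl_sub_right, bl_smul_right, bl_smul_right, hfOu]
        ring
      have e2 : l (ptY f h s u v) = 2 * bl A u v * l v - bl A v v * l u := by
        rw [hY, map_sub, map_smul, map_smul, smul_eq_mul, smul_eq_mul]
      rw [hR, map_sub, map_smul, map_smul, hlO, e1, e2]
      simp only [smul_eq_mul]
      ring
    let W : Submodule κ (Fin 7 → κ) := LinearMap.ker (blL A O)
    have hW : ∀ v : Fin 7 → κ, v ∈ W ↔ bl A v O = 0 := by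
      intro v
      rw [LinearMap.mem_ker, blL_apply, bl_comm hA]
    -- first function
    have h1 : ∃ v : W, bl A u v ≠ 0 := by
      by_contra hcon
      push Not at hcon
      obtain ⟨c, hc⟩ := exists_mulVec_eq_zero (A := A) (O := O) (α := u) hA
        (fun w hw => hcon ⟨w, (hW w).2 hw⟩)
      have h2 := eq_zero_of_det hds hc
      have h3 : u = c • O := sub_eq_zero.1 h2
      apply huu
      rw [h3, bl_smul_left, bl_smul_right, hfO]
      ring
    have h2 : ∃ v : W, bl f O v ≠ 0 := by
      refine ⟨⟨e + s • e', ?_⟩, ?_⟩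
      · rw [LinearMap.mem_ker, blL_apply, hAdef, bl_sub_mat, bl_smul_mat, bl_add_right,
          bl_add_right, bl_smul_right, bl_smul_right, hfe, hhe, hfe', hhe']
        ring
      · show bl f O (e + s • e') ≠ 0
        rw [bl_add_right, bl_smul_right, hfe, hfe']
        simp
    have p1 : PolyLines (fun v : W => bl A u v) :=
      PolyLines.linear ((blL A u).comp W.subtype)
    have p2 : PolyLines (fun v : W => bl f O v) :=
      PolyLines.linear ((blL f O).comp W.subtype)
    have pl : PolyLines (fun v : W => l v) := PolyLines.linear (l.comp W.subtype)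
    have pc : ∀ i : Fin 7, PolyLines (fun v : W => (v : Fin 7 → κ) i) := fun i =>
      PolyLines.linear ((LinearMap.proj i).comp W.subtype)
    have pA : PolyLines (fun v : W => bl A (v : Fin 7 → κ) (v : Fin 7 → κ)) :=
      PolyLines.bl A pc pc
    by_cases hlu : l u = 0
    · -- `l u = 0`
      have h3 : ∃ v : W, l v ≠ 0 := by
        by_contra hcon
        push Not at hcon
        -- then `l` is a multiple of `bl A O`
        by_cases hex : ∃ v₀, bl A O v₀ ≠ 0
        · obtain ⟨v₀, hv₀⟩ := hex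
          obtain ⟨v, hv⟩ := hl (l v₀ / bl A O v₀)
          apply hv
          have h4 := hcon ⟨v - (bl A O v / bl A O v₀) • v₀, by
            rw [LinearMap.mem_ker, map_sub, map_smul, blL_apply, blL_apply, smul_eq_mul,
              div_mul_cancel₀ _ hv₀, sub_self]⟩
          rw [map_sub, map_smul, smul_eq_mul] at h4
          field_simp
          field_simp at h4
          linear_combination h4
        · push Not at hex
          obtain ⟨v, hv⟩ := hl 0
          apply hv
          rw [zero_mul]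
          exact hcon ⟨v, by rw [LinearMap.mem_ker, blL_apply]; exact hex v⟩
      obtain ⟨v, hv⟩ := exists_forall_ne_zero (V := W)
        (fun (i : Fin 3) (v : W) => ![bl A u v, bl f O v, l v] i)
        (by
          intro i
          fin_cases i
          · exact p1
          · exact p2
          · exact pl)
        (by
          intro i
          fin_cases i
          · exact h1
          · exact h2
          · exact h3)
      have hv1 : bl A u v ≠ 0 := hv 0
      have hv2 : bl f O v ≠ 0 := hv 1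
      have hv3 : l v ≠ 0 := hv 2
      refine ⟨v, (hW _).1 v.2, ?_⟩
      rw [hlR, hlu]
      have h40 : (4 : κ) ≠ 0 := by norm_num
      rw [mul_zero, sub_zero]
      exact neg_ne_zero.2 (mul_ne_zero (mul_ne_zero h40 (mul_ne_zero hv1 hv2))
        (mul_ne_zero (mul_ne_zero h20 hv1) hv3))
    · have h3 : ∃ v : W, 2 * bl A u v * l v - bl A (v : Fin 7 → κ) (v : Fin 7 → κ) * l u ≠ 0 := by
        by_contra hcon
        push Not at hcon
        refine not_prod h20 hA (rk_of_det hds) O ⟨(2 / l u) • blL A u, l, fun v hv => ?_⟩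
        have := hcon ⟨v, (hW v).2 hv⟩
        simp only [LinearMap.smul_apply, blL_apply, smul_eq_mul]
        field_simp
        linear_combination -this
      obtain ⟨v, hv⟩ := exists_forall_ne_zero (V := W)
        (fun (i : Fin 3) (v : W) => ![bl A u v, bl f O v,
          2 * bl A u v * l v - bl A (v : Fin 7 → κ) (v : Fin 7 → κ) * l u] i)
        (by
          intro i
          fin_cases i
          · exact p1
          · exact p2
          · exact (((PolyLines.const _).mul p1).mul pl).sub (pA.mul (PolyLines.const _)))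
        (by
          intro i
          fin_cases i
          · exact h1
          · exact h2
          · exact h3)
      have hv1 : bl A u v ≠ 0 := hv 0
      have hv2 : bl f O v ≠ 0 := hv 1
      have hv3 : 2 * bl A u v * l v - bl A (v : Fin 7 → κ) (v : Fin 7 → κ) * l u ≠ 0 := hv 2
      refine ⟨v, (hW _).1 v.2, ?_⟩
      rw [hlR]
      have h40 : (4 : κ) ≠ 0 := by norm_num
      exact neg_ne_zero.2 (mul_ne_zero (mul_ne_zero h40 (mul_ne_zero hv1 hv2)) hv3)
  · -- the first case
    obtain ⟨v, hv1, hv2, hv3⟩ := exists_anisotropic h20 hA (rk_of_det hds) (blL A O) (blL A u)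
    rw [blL_apply] at hv1 hv2
    refine ⟨v, by rw [bl_comm hA]; exact hv1, ?_⟩
    have hy : ptY f h s u v = (-(bl A v v)) • u := by
      rw [hY, hv2]
      simp
    rw [hR, hy, bl_smul_right f _ O u, hfOu, bl_smul_left, bl_smul_right]
    simp only [mul_zero, zero_smul, sub_zero, map_smul, smul_eq_mul]
    exact mul_ne_zero (mul_ne_zero (neg_ne_zero.2 hv3) (mul_ne_zero (neg_ne_zero.2 hv3) huu)) hlO

end Pool.Agent.Lib.MP_8ab79f_ag.Six
end
end

section

set_option autoImplicit false
set_option linter.unusedSectionVars false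

noncomputable section

namespace Pool.Agent.Lib.MP_8ab79f_ag.Six

open Polynomial

private def GRR_blL {κ : Type*} [Field κ] (A : Matrix (Fin 7) (Fin 7) κ) (P : Fin 7 → κ) :
    (Fin 7 → κ) →ₗ[κ] κ where
  toFun v := bl A v P
  map_add' v w := bl_add_left A v w P
  map_smul' c v := bl_smul_left A c v P

private theorem GRR_blL_apply {κ : Type*} [Field κ] (A : Matrix (Fin 7) (Fin 7) κ) (P v : Fin 7 → κ) :
    GRR_blL A P v = bl A v P := rfl

private theorem not_multiple {κ : Type*} [Field κ] {f h : Matrix (Fin 7) (Fin 7) κ}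
    {O e e' : Fin 7 → κ} (hfe : bl f O e = 1) (hhe : bl h O e = 0) (hfe' : bl f O e' = 0)
    (hhe' : bl h O e' = 1) (l : (Fin 7 → κ) →ₗ[κ] κ) {s : κ} (hl : ∃ v, l v ≠ 0)
    (hs : s ≠ -(l e) / l e') (c : κ) : ∃ v, l v ≠ c * bl (h - s • f) O v := by
  by_contra hcon
  push Not at hcon
  have h1 := hcon e
  have h2 := hcon e'
  rw [bl_sub_mat, bl_smul_mat, hfe, hhe] at h1
  rw [bl_sub_mat, bl_smul_mat, hfe', hhe'] at h2
  obtain ⟨v, hv⟩ := hl
  have hc : c ≠ 0 := by
    rintro rfl
    exact hv (by rw [hcon v, zero_mul])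
  apply hs
  rw [h1, h2]
  field_simp
  ring

private theorem ptR_polyLines {κ : Type*} [Field κ] (f h : Matrix (Fin 7) (Fin 7) κ) (s : κ)
    (O u : Fin 7 → κ) (l : (Fin 7 → κ) →ₗ[κ] κ) (V : Submodule κ (Fin 7 → κ)) :
    PolyLines (fun v : V => l (ptR f h s O u v)) := by
  have hv : ∀ i, PolyLines (fun v : V => (v : Fin 7 → κ) i) := fun i =>
    PolyLines.linear ((LinearMap.proj i).comp V.subtype)
  have hcst : ∀ (w : Fin 7 → κ) (i : Fin 7), PolyLines (fun _ : V => w i) := fun w i =>
    PolyLines.const _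
  have hlv : PolyLines (fun v : V => l (v : Fin 7 → κ)) := PolyLines.linear (l.comp V.subtype)
  have h1 : PolyLines (fun v : V => bl (h - s • f) u v) := PolyLines.bl _ (hcst u) hv
  have h2 : PolyLines (fun v : V => bl (h - s • f) v v) := PolyLines.bl _ hv hv
  have hy : ∀ i, PolyLines (fun v : V => ptY f h s u v i) := by
    intro i
    exact (((PolyLines.const 2).mul h1).mul (hv i)).sub (h2.mul (hcst u i))
  have hly : PolyLines (fun v : V => l (ptY f h s u v)) := by
    have e : (fun v : V => l (ptY f h s u v)) = fun v : V =>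
        (2 * bl (h - s • f) u v) * l (v : Fin 7 → κ) - bl (h - s • f) v v * l u := by
      funext v
      rw [ptY, map_sub, map_smul, map_smul, smul_eq_mul, smul_eq_mul]
    rw [e]
    exact (((PolyLines.const 2).mul h1).mul hlv).sub (h2.mul (PolyLines.const _))
  have h3 : PolyLines (fun v : V => bl f (ptY f h s u v) (ptY f h s u v)) :=
    PolyLines.bl _ hy hy
  have h4 : PolyLines (fun v : V => bl f O (ptY f h s u v)) := PolyLines.bl _ (hcst O) hy
  have e : (fun v : V => l (ptR f h s O u v)) = fun v : V =>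
      bl f (ptY f h s u v) (ptY f h s u v) * l O -
        (2 * bl f O (ptY f h s u v)) * l (ptY f h s u v) := by
    funext v
    rw [ptR, map_sub, map_smul, map_smul, smul_eq_mul, smul_eq_mul]
  rw [e]
  exact (h3.mul (PolyLines.const _)).sub (((PolyLines.const 2).mul h4).mul hly)

private theorem det_eval {κ : Type*} [Field κ] (f h : Matrix (Fin 7) (Fin 7) κ) (τ : κ) :
    ((hT f h).det).eval τ = (h - τ • f).det := by
  have h2 : (hT f h).map (evalRingHom τ) = h - τ • f := by
    ext i j
    simp only [hT, Matrix.map_apply, Matrix.sub_apply, Matrix.smul_apply, smul_eq_mul,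
      coe_evalRingHom, eval_sub, eval_C, eval_mul, eval_X]
  rw [← h2, ← RingHom.mapMatrix_apply, ← RingHom.map_det]
  rfl

/-- The intermediate point. -/
theorem exists_R {κ : Type*} [Field κ] [CharZero κ] {f h : Matrix (Fin 7) (Fin 7) κ}
    (hf : f.IsSymm) (hh : h.IsSymm) (hS : Sm f h) (hdf : f.det ≠ 0) {O P : Fin 7 → κ}
    (hO : O ≠ 0) (hP : P ≠ 0) (hfO : bl f O O = 0) (hhO : bl h O O = 0)
    (hfP : bl f P P = 0) (hhP : bl h P P = 0) :
    ∃ (R : Fin 7 → κ) (s t : κ), bl f R R = 0 ∧ bl h R R = 0 ∧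
      bl f O R ≠ 0 ∧ bl h O R = s * bl f O R ∧ (h - s • f).det ≠ 0 ∧
      bl f R P ≠ 0 ∧ bl h R P = t * bl f R P ∧ (h - t • f).det ≠ 0 := by
  classical
  have : Infinite κ := CharZero.infinite κ
  obtain ⟨e, e', hfe, hhe, hfe', hhe'⟩ := hS.exists_dual hf hh hO hfO hhO
  obtain ⟨d, d', hfd, hhd, hfd', hhd'⟩ := hS.exists_dual hf hh hP hfP hhP
  set rts : Finset κ := ((hT f h).det).roots.toFinset with hrts
  -- the linear forms
  let l : Option (Option rts) → (Fin 7 → κ) →ₗ[κ] κ := fun o => match o with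
    | none => GRR_blL f O
    | some none => GRR_blL f P
    | some (some τ) => GRR_blL (h - (τ : κ) • f) P
  let m : Option rts → (Fin 7 → κ) →ₗ[κ] κ := fun o => l (some o)
  obtain ⟨u, s, hfu, hhu, huu, hu, hds, hsS⟩ := exists_u hf hh hS hdf O
    (Finset.univ.image fun o : Option rts => -(m o e) / m o e')
  have hne : ∀ o : Option rts, ∃ v, m o v ≠ 0 := by
    intro o
    match o with
    | none =>
      refine ⟨d, ?_⟩
      change bl f d P ≠ 0
      rw [bl_comm hf, hfd]
      exact one_ne_zero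
    | some τ =>
      refine ⟨d', ?_⟩
      change bl (h - (τ : κ) • f) d' P ≠ 0
      rw [bl_sub_mat, bl_smul_mat, bl_comm hf, bl_comm hh, hfd', hhd', mul_zero, sub_zero]
      exact one_ne_zero
  have hmult : ∀ (o : Option (Option rts)) (c : κ), ∃ v, l o v ≠ c * bl (h - s • f) O v := by
    intro o c
    match o with
    | none =>
      by_contra hcon
      push Not at hcon
      have h1 := hcon e
      have h2 := hcon e'
      change bl f e O = _ at h1
      change bl f e' O = _ at h2
      rw [bl_comm hf, bl_sub_mat, bl_smul_mat, hfe, hhe] at h1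
      rw [bl_comm hf, bl_sub_mat, bl_smul_mat, hfe', hhe'] at h2
      have h3 : c = 0 := by
        have : c * (1 - s * 0) = c := by ring
        rw [this] at h2
        exact h2.symm
      rw [h3, zero_mul] at h1
      exact one_ne_zero h1
    | some o =>
      refine not_multiple hfe hhe hfe' hhe' (m o) (hne o) ?_ c
      intro h1
      apply hsS
      rw [Finset.mem_image]
      exact ⟨o, Finset.mem_univ o, h1.symm⟩
  -- the choice of `v`
  let V : Submodule κ (Fin 7 → κ) := LinearMap.ker (GRR_blL (h - s • f) O)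
  have hVmem : ∀ v : V, bl (h - s • f) v O = 0 := fun v => LinearMap.mem_ker.1 v.2
  obtain ⟨v, hv⟩ := exists_forall_ne_zero (κ := κ) (V := V)
    (fun o (v : V) => l o (ptR f h s O u v)) (fun o => ptR_polyLines f h s O u (l o) V) (by
      intro o
      obtain ⟨v, hv1, hv2⟩ := exists_ptR hf hh hds hfO hhO hfe hhe hfe' hhe' hfu hhu huu hu (l o)
        (hmult o)
      exact ⟨⟨v, LinearMap.mem_ker.2 hv1⟩, hv2⟩)
  obtain ⟨h1, h2, h3⟩ := ptR_mem hf hh hfO hhO hfu hhu hu (hVmem v)
  set R := ptR f h s O u (v : Fin 7 → κ) with hR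
  have hfOR : bl f O R ≠ 0 := by
    rw [bl_comm hf]
    exact hv none
  have hfRP : bl f R P ≠ 0 := hv (some none)
  refine ⟨R, s, bl h R P / bl f R P, h1, h2, hfOR, h3, hds, hfRP, ?_, ?_⟩
  · field_simp
  · intro hdet
    set t := bl h R P / bl f R P with ht
    have hmem : t ∈ rts := by
      rw [hrts, Multiset.mem_toFinset, mem_roots', IsRoot.def, det_eval]
      refine ⟨?_, hdet⟩
      intro h0
      have h4 := det_eval f h s
      rw [h0, eval_zero] at h4
      exact hds h4.symm
    have h5 : bl (h - t • f) R P ≠ 0 := hv (some (some ⟨t, hmem⟩))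
    apply h5
    rw [bl_sub_mat, bl_smul_mat, ht]
    field_simp
    ring

end Pool.Agent.Lib.MP_8ab79f_ag.Six
end
end

section

set_option autoImplicit false
set_option linter.unusedSectionVars false

noncomputable section

namespace Pool.Agent.Lib.MP_8ab79f_ag.Six

open Polynomial

theorem GSmD_bl_eq {ι : Type*} [Fintype ι] {S : Type*} [CommRing S] (A : Matrix ι ι S)
    (x y : ι → S) : bl A x y = ∑ i, x i * (A.mulVec y) i := by
  unfold bl
  refine Finset.sum_congr rfl fun i _ => ?_
  simp only [Matrix.mulVec, dotProduct, Finset.mul_sum]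
  refine Finset.sum_congr rfl fun j _ => ?_
  ring

/-- Some member `f + c h` or `h` of the pencil is nondegenerate. -/
theorem Sm.exists_det_ne_zero {κ : Type*} [Field κ] [CharZero κ]
    {f h : Matrix (Fin 7) (Fin 7) κ} (hf : f.IsSymm) (hh : h.IsSymm) (hS : Sm f h) :
    ∃ c : κ, (f + c • h).det ≠ 0 := by
  by_contra hcon
  push Not at hcon
  set N : Matrix (Fin 7) (Fin 7) κ[X] := f.map C + (X : κ[X]) • h.map C with hN
  have hdet : N.det = 0 := by
    apply Polynomial.funext
    intro c
    rw [eval_zero, ← hcon c]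
    have h1 := RingHom.map_det (evalRingHom c) N
    rw [coe_evalRingHom] at h1
    rw [h1]
    congr 1
    ext i j
    simp only [hN, RingHom.mapMatrix_apply, Matrix.map_apply, Matrix.add_apply,
      Matrix.smul_apply, smul_eq_mul, coe_evalRingHom, eval_mul, eval_add, eval_C, eval_X]
  obtain ⟨n, hn0, hn⟩ := Matrix.exists_mulVec_eq_zero_iff.mpr hdet
  -- differentiate
  have hsym : N.IsSymm := by
    ext i j
    simp [hN, Matrix.transpose_apply, hf.apply i j, hh.apply i j]
  have hd : (h.map C).mulVec n + N.mulVec (fun i => derivative (n i)) = 0 := by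
    funext i
    have h1 : derivative ((N.mulVec n) i) = 0 := by rw [hn]; simp
    simp only [Matrix.mulVec, dotProduct, derivative_sum] at h1
    simp only [Pi.add_apply, Pi.zero_apply, Matrix.mulVec, dotProduct]
    rw [← h1, ← Finset.sum_add_distrib]
    refine Finset.sum_congr rfl fun j _ => ?_
    simp only [hN, Matrix.add_apply, Matrix.smul_apply, Matrix.map_apply, smul_eq_mul,
      derivative_mul, derivative_add, derivative_C, derivative_X]
    ring
  have hhn : bl (h.map C) n n = 0 := by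
    have h1 : bl (h.map C) n n + bl N n (fun i => derivative (n i)) = 0 := by
      rw [GSmD_bl_eq, GSmD_bl_eq, ← Finset.sum_add_distrib]
      refine Finset.sum_eq_zero fun i _ => ?_
      rw [← mul_add]
      have := congrFun hd i
      simp only [Pi.add_apply, Pi.zero_apply] at this
      rw [this, mul_zero]
    have h2 : bl N n (fun i => derivative (n i)) = 0 := by
      rw [bl_comm hsym, GSmD_bl_eq, hn]
      simp
    rw [h2, add_zero] at h1
    exact h1
  have hfn : bl (f.map C) n n = 0 := by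
    have h1 : bl N n n = 0 := by
      rw [GSmD_bl_eq, hn]
      simp
    rw [hN, bl_add_mat, bl_smul_mat, hhn, mul_zero, add_zero] at h1
    exact h1
  -- evaluate at a good point
  obtain ⟨i0, hi0⟩ : ∃ i, n i ≠ 0 := by
    by_contra hc
    push Not at hc
    exact hn0 (funext hc)
  obtain ⟨c, hc⟩ : ∃ c : κ, (n i0).eval c ≠ 0 := by
    by_contra hc
    push Not at hc
    exact hi0 (Polynomial.funext fun c => by rw [hc c, eval_zero])
  set v : Fin 7 → κ := fun i => (n i).eval c with hv
  have hmul : (f + c • h).mulVec v = 0 := by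
    funext i
    have h1 := congrArg (eval c) (congrFun hn i)
    simp only [Matrix.mulVec, dotProduct, eval_finsetSum, Pi.zero_apply, eval_zero] at h1
    simp only [Matrix.mulVec, dotProduct, Pi.zero_apply]
    rw [← h1]
    refine Finset.sum_congr rfl fun j _ => ?_
    simp only [hN, hv, Matrix.add_apply, Matrix.smul_apply, Matrix.map_apply, smul_eq_mul,
      eval_mul, eval_add, eval_C, eval_X]
  have hev : ∀ B : Matrix (Fin 7) (Fin 7) κ, bl (B.map C) n n = 0 → bl B v v = 0 := by
    intro B hB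
    have h1 := bl_map (evalRingHom c) (B.map C) n n
    rw [hB, map_zero] at h1
    have h2 : (B.map C).map (evalRingHom c) = B := by
      ext i j
      simp
    rw [h2] at h1
    exact h1.symm
  set K := AlgebraicClosure κ
  refine hS 1 (algebraMap κ K c) (bar v) ?_ (Or.inl one_ne_zero) ?_ ⟨?_, ?_⟩
  · intro h0
    apply hc
    have := congrFun h0 i0
    exact (algebraMap κ K).injective (this.trans (map_zero _).symm)
  · funext i
    have h1 := congrArg (algebraMap κ K) (congrFun hmul i)
    simp only [Matrix.mulVec, dotProduct, map_sum, map_mul, Pi.zero_apply, map_zero] at h1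
    simp only [Matrix.mulVec, dotProduct, Pi.zero_apply]
    rw [← h1]
    refine Finset.sum_congr rfl fun j _ => ?_
    simp only [bar, Matrix.add_apply, Matrix.smul_apply, Matrix.map_apply, smul_eq_mul,
      map_add, map_mul, one_smul]
    rfl
  · have := bl_map (algebraMap κ K) f v v
    rw [hev f hfn, map_zero] at this
    exact this.symm
  · have := bl_map (algebraMap κ K) h v v
    rw [hev h hhn, map_zero] at this
    exact this.symm

end Pool.Agent.Lib.MP_8ab79f_ag.Six
end
end

section

set_option autoImplicit false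
set_option linter.unusedSectionVars false

noncomputable section

namespace Pool.Agent.Lib.MP_8ab79f_ag.Six

open Polynomial

/-- The polynomial `f` has the symmetric matrix `A`. -/
def HasMat.{u, v, w} {κ : Type u} [Field κ] {n : ℕ} (f : MvPolynomial (Fin n) κ)
    (A : Matrix (Fin n) (Fin n) κ) : Prop :=
  A.IsSymm ∧
    (∀ (S : Type v) [CommRing S] [Algebra κ S] (x : Fin n → S),
      MvPolynomial.aeval x f = bl (A.map (algebraMap κ S)) x x) ∧
    ∀ (S : Type w) [CommRing S] [Algebra κ S] (x : Fin n → S) (i : Fin n),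
      MvPolynomial.aeval x (MvPolynomial.pderiv i f) =
        2 * ((A.map (algebraMap κ S)).mulVec x) i

theorem HasMat.zero.{u, v, w} {κ : Type u} [Field κ] {n : ℕ} :
    HasMat.{u, v, w} (0 : MvPolynomial (Fin n) κ) 0 := by
  refine ⟨Matrix.isSymm_zero, ?_, ?_⟩
  · intro S _ _ x
    simp [bl]
  · intro S _ _ x i
    simp [Matrix.mulVec, dotProduct]

theorem HasMat.add.{u, v, w} {κ : Type u} [Field κ] {n : ℕ} {f g : MvPolynomial (Fin n) κ}
    {A B : Matrix (Fin n) (Fin n) κ} (hf : HasMat.{u, v, w} f A) (hg : HasMat.{u, v, w} g B) :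
    HasMat.{u, v, w} (f + g) (A + B) := by
  obtain ⟨h1, h2, h3⟩ := hf
  obtain ⟨h4, h5, h6⟩ := hg
  refine ⟨h1.add h4, ?_, ?_⟩
  · intro S _ _ x
    rw [map_add, h2, h5, ← bl_add_mat, ← Matrix.map_add _ (fun a b => map_add _ a b)]
  · intro S _ _ x i
    rw [map_add, map_add, h3, h6, Matrix.map_add _ (fun a b => map_add _ a b), Matrix.add_mulVec,
      Pi.add_apply]
    ring

/-- The matrix of a product of two variables. -/
def pairMat {κ : Type*} [Field κ] {n : ℕ} (a : κ) (p q : Fin n) : Matrix (Fin n) (Fin n) κ :=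
  fun i j => a / 2 * ((if i = p then 1 else 0) * (if j = q then 1 else 0) +
    (if i = q then 1 else 0) * (if j = p then 1 else 0))

theorem HasMat.pair.{u, v, w} {κ : Type u} [Field κ] [CharZero κ] {n : ℕ} (a : κ) (p q : Fin n) :
    HasMat.{u, v, w} (MvPolynomial.C a * (MvPolynomial.X p * MvPolynomial.X q)) (pairMat a p q) := by
  have h2 : (2 : κ) ≠ 0 := two_ne_zero
  refine ⟨?_, ?_, ?_⟩
  · ext i j
    simp only [Matrix.transpose_apply, pairMat]
    ring
  · intro S _ _ x
    have e : (algebraMap κ S a) = algebraMap κ S (a / 2) * 2 := by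
      rw [← map_ofNat (algebraMap κ S) 2, ← map_mul, div_mul_cancel₀ _ h2]
    simp only [map_mul, MvPolynomial.aeval_C, MvPolynomial.aeval_X, bl, Matrix.map_apply, pairMat]
    simp only [map_mul, map_add, apply_ite (algebraMap κ S), map_one, map_zero]
    simp only [mul_add, add_mul, Finset.sum_add_distrib, mul_ite, ite_mul, mul_one, mul_zero,
      zero_mul, Finset.sum_ite_eq', Finset.mem_univ, if_true]
    rw [e]
    ring
  · intro S _ _ x i
    have e : (algebraMap κ S a) = algebraMap κ S (a / 2) * 2 := by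
      rw [← map_ofNat (algebraMap κ S) 2, ← map_mul, div_mul_cancel₀ _ h2]
    rw [MvPolynomial.pderiv_C_mul, Derivation.leibniz, MvPolynomial.pderiv_X,
      MvPolynomial.pderiv_X]
    simp only [smul_eq_mul, map_mul, map_add, MvPolynomial.aeval_C, MvPolynomial.aeval_X,
      Matrix.mulVec, dotProduct, Matrix.map_apply, pairMat, Pi.single_apply]
    simp only [map_mul, map_add, apply_ite (algebraMap κ S), map_one, map_zero,
      apply_ite (MvPolynomial.aeval x)]
    simp only [mul_add, add_mul, Finset.sum_add_distrib, mul_ite, ite_mul, mul_one, mul_zero,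
      zero_mul, Finset.sum_ite_eq', Finset.mem_univ, if_true]
    rw [e]
    have c1 : (p = i) ↔ (i = p) := eq_comm
    have c2 : (q = i) ↔ (i = q) := eq_comm
    simp only [c1, c2]
    split_ifs <;> ring

theorem exists_pair {n : ℕ} (m : Fin n →₀ ℕ) (hm : m.degree = 2) :
    ∃ p q : Fin n, m = Finsupp.single p 1 + Finsupp.single q 1 := by
  obtain ⟨g, hg, hg1⟩ := Finsupp.exists_le_degree_eq m 1 (by omega)
  obtain ⟨g', rfl⟩ := le_iff_exists_add.mp hg
  rw [map_add, hg1] at hm
  have h1 : g ∈ Set.range (fun a : Fin n => Finsupp.single a 1) := by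
    rw [Finsupp.range_single_one]
    exact hg1
  have h2 : g' ∈ Set.range (fun a : Fin n => Finsupp.single a 1) := by
    rw [Finsupp.range_single_one]
    show g'.degree = 1
    omega
  obtain ⟨p, rfl⟩ := h1
  obtain ⟨q, rfl⟩ := h2
  exact ⟨p, q, rfl⟩

theorem exists_hasMat.{u, v, w} {κ : Type u} [Field κ] [CharZero κ] {n : ℕ}
    (f : MvPolynomial (Fin n) κ) (hf : f.IsHomogeneous 2) (s : Finset (Fin n →₀ ℕ))
    (hs : s ⊆ f.support) :
    ∃ A, HasMat.{u, v, w} (∑ m ∈ s, MvPolynomial.monomial m (f.coeff m)) A := by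
  classical
  induction s using Finset.induction_on with
  | empty => exact ⟨0, by simpa using HasMat.zero⟩
  | insert m s hms ih =>
    obtain ⟨A, hA⟩ := ih (fun x hx => hs (Finset.mem_insert_of_mem hx))
    have hm : f.coeff m ≠ 0 := MvPolynomial.mem_support_iff.1 (hs (Finset.mem_insert_self _ _))
    have hd : m.degree = 2 := by
      have := hf hm
      rw [Finsupp.degree_eq_weight_one]
      exact this
    obtain ⟨p, q, hpq⟩ := exists_pair m hd
    refine ⟨pairMat (f.coeff m) p q + A, ?_⟩
    rw [Finset.sum_insert hms]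
    refine HasMat.add ?_ hA
    have h := HasMat.pair.{u, v, w} (f.coeff m) p q
    have e : MvPolynomial.monomial m (f.coeff m) =
        MvPolynomial.C (f.coeff m) * (MvPolynomial.X p * MvPolynomial.X q) := by
      nth_rewrite 1 [hpq]
      rw [MvPolynomial.X, MvPolynomial.X, MvPolynomial.monomial_mul, MvPolynomial.C_mul_monomial,
        one_mul, mul_one]
    rw [e]
    exact h

/-- The symmetric matrix of a quadratic form. -/
theorem exists_matrix {κ : Type*} [Field κ] [CharZero κ] {n : ℕ}
    (f : MvPolynomial (Fin n) κ) (hf : f.IsHomogeneous 2) :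
    ∃ A : Matrix (Fin n) (Fin n) κ, A.IsSymm ∧
      (∀ (S : Type*) [CommRing S] [Algebra κ S] (x : Fin n → S),
        MvPolynomial.aeval x f = bl (A.map (algebraMap κ S)) x x) ∧
      ∀ (S : Type*) [CommRing S] [Algebra κ S] (x : Fin n → S) (i : Fin n),
        MvPolynomial.aeval x (MvPolynomial.pderiv i f) =
          2 * ((A.map (algebraMap κ S)).mulVec x) i := by
  obtain ⟨A, hA⟩ := exists_hasMat f hf f.support subset_rfl
  rw [← MvPolynomial.as_sum] at hA
  exact ⟨A, hA.1, hA.2.1, hA.2.2⟩

end Pool.Agent.Lib.MP_8ab79f_ag.Six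
end
end

section

set_option autoImplicit false
set_option linter.unusedSectionVars false

noncomputable section

namespace Pool.Agent.Lib.MP_8ab79f_ag.Six

open Polynomial

/-- The homogenization of a polynomial to the degree `d`. -/
def homg {κ : Type*} [Field κ] (d : ℕ) (p : κ[X]) : MvPolynomial (Fin 2) κ :=
  ∑ j ∈ Finset.range (d + 1), MvPolynomial.C (p.coeff j) *
    (MvPolynomial.X 0 ^ j * MvPolynomial.X 1 ^ (d - j))

theorem homg_isHomogeneous {κ : Type*} [Field κ] (d : ℕ) (p : κ[X]) :
    (homg d p).IsHomogeneous d := by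
  refine MvPolynomial.IsHomogeneous.sum _ _ _ fun j hj => ?_
  have hj' : j ≤ d := by
    have := Finset.mem_range.1 hj
    omega
  have h1 := (MvPolynomial.isHomogeneous_X_pow (R := κ) (0 : Fin 2) j).mul
    (MvPolynomial.isHomogeneous_X_pow (R := κ) (1 : Fin 2) (d - j))
  have h2 := (MvPolynomial.isHomogeneous_C (Fin 2) (p.coeff j)).mul h1
  have e : 0 + (j + (d - j)) = d := by omega
  rw [e] at h2
  exact h2

theorem eval_homg {κ : Type*} [Field κ] (d : ℕ) (p : κ[X]) (s : Fin 2 → κ) :
    MvPolynomial.eval s (homg d p) =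
      ∑ j ∈ Finset.range (d + 1), p.coeff j * (s 0 ^ j * s 1 ^ (d - j)) := by
  simp [homg, map_sum]

theorem eval_homg_ne {κ : Type*} [Field κ] (d : ℕ) (p : κ[X]) (hd : p.natDegree ≤ d)
    (s : Fin 2 → κ) (hs : s 1 ≠ 0) :
    MvPolynomial.eval s (homg d p) = s 1 ^ d * p.eval (s 0 / s 1) := by
  rw [eval_homg, Polynomial.eval_eq_sum_range' (Nat.lt_succ_of_le hd), Finset.mul_sum]
  refine Finset.sum_congr rfl fun j hj => ?_
  have hj' : j ≤ d := by
    have := Finset.mem_range.1 hj
    omega
  obtain ⟨k, rfl⟩ := Nat.exists_eq_add_of_le hj'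
  rw [Nat.add_sub_cancel_left, div_pow, pow_add]
  field_simp

theorem eq_mk_of_smul {κ : Type*} [Field κ] {V : Type*} [AddCommGroup V] [Module κ V]
    (P : Projectivization κ V) {δ : κ} (hδ : δ ≠ 0) (w : V) (hw : w ≠ 0) (h : w = δ • P.rep) :
    P = Projectivization.mk κ w hw := by
  conv_lhs => rw [← P.mk_rep]
  rw [Projectivization.mk_eq_mk_iff']
  exact ⟨δ⁻¹, by rw [h, smul_smul, inv_mul_cancel₀ hδ, one_smul]⟩

/-- A polynomial curve gives a direct link. -/
theorem directlyLinked_of_curve {κ : Type*} [Field κ] [CharZero κ] {n : ℕ}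
    {f g : MvPolynomial (Fin (n + 1)) κ} (hf : f.IsHomogeneous 2) (hg : g.IsHomogeneous 2)
    (c : Fin (n + 1) → κ[X]) (hfc : MvPolynomial.aeval c f = 0)
    (hgc : MvPolynomial.aeval c g = 0)
    {P Q : Projectivization κ (Fin (n + 1) → κ)} {δ₀ δ₁ : κ} (h₀ : δ₀ ≠ 0) (h₁ : δ₁ ≠ 0)
    (hP : (fun i => (c i).eval 0) = δ₀ • P.rep) (hQ : (fun i => (c i).eval 1) = δ₁ • Q.rep) :
    DirectlyLinked f g P Q := by
  obtain ⟨d, hd⟩ : ∃ d, ∀ i, (c i).natDegree ≤ d :=
    ⟨Finset.univ.sup fun i => (c i).natDegree, fun i => Finset.le_sup (f := fun i =>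
      (c i).natDegree) (Finset.mem_univ i)⟩
  have key : ∀ q : MvPolynomial (Fin (n + 1)) κ, q.IsHomogeneous 2 →
      MvPolynomial.aeval c q = 0 → MvPolynomial.aeval (fun i => homg d (c i)) q = 0 := by
    intro q hq hqc
    obtain ⟨A, hA, hA1, -⟩ := exists_matrix.{_, _, 0} q hq
    have hX : (MvPolynomial.X 1 : MvPolynomial (Fin 2) κ) ≠ 0 := MvPolynomial.X_ne_zero _
    have h : MvPolynomial.X 1 * MvPolynomial.aeval (fun i => homg d (c i)) q =
        (0 : MvPolynomial (Fin 2) κ) := by
      apply MvPolynomial.funext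
      intro s
      rw [map_mul, MvPolynomial.eval_X, map_zero]
      by_cases hs : s 1 = 0
      · rw [hs, zero_mul]
      · have e1 : MvPolynomial.eval s (MvPolynomial.aeval (fun i => homg d (c i)) q) =
            bl (A.map (algebraMap κ κ)) (fun i => MvPolynomial.eval s (homg d (c i)))
              (fun i => MvPolynomial.eval s (homg d (c i))) := by
          rw [hA1, bl_map]
          congr 1
          ext i j
          simp
        rw [e1]
        have e2 : (fun i => MvPolynomial.eval s (homg d (c i))) =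
            (s 1 ^ d) • fun i => (c i).eval (s 0 / s 1) := by
          funext i
          rw [eval_homg_ne d (c i) (hd i) s hs]
          rfl
        rw [e2, bl_smul_left, bl_smul_right]
        have e3 : bl (A.map (algebraMap κ κ)) (fun i => (c i).eval (s 0 / s 1))
            (fun i => (c i).eval (s 0 / s 1)) = (MvPolynomial.aeval c q).eval (s 0 / s 1) := by
          rw [hA1, ← Polynomial.coe_evalRingHom, bl_map]
          congr 1
          ext i j
          simp
        rw [e3, hqc]
        simp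
    rcases mul_eq_zero.1 h with h | h
    · exact absurd h hX
    · exact h
  have hu : (fun i => MvPolynomial.eval ![0, 1] (homg d (c i))) = δ₀ • P.rep := by
    rw [← hP]
    funext i
    rw [eval_homg_ne d (c i) (hd i) _ (by simp)]
    simp
  have hv : (fun i => MvPolynomial.eval ![1, 1] (homg d (c i))) = δ₁ • Q.rep := by
    rw [← hQ]
    funext i
    rw [eval_homg_ne d (c i) (hd i) _ (by simp)]
    simp
  refine ⟨d, fun i => homg d (c i), fun i => homg_isHomogeneous d (c i), key f hf hfc,
    key g hg hgc, ![0, 1], ![1, 1], ?_, ?_, ?_, ?_, ?_, ?_⟩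
  · rw [hu]
    exact smul_ne_zero h₀ P.rep_nonzero
  · rw [hv]
    exact smul_ne_zero h₁ Q.rep_nonzero
  · intro h
    have := congrFun h 1
    simp at this
  · intro h
    have := congrFun h 1
    simp at this
  · exact eq_mk_of_smul P h₀ _ _ hu
  · exact eq_mk_of_smul Q h₁ _ _ hv

end Pool.Agent.Lib.MP_8ab79f_ag.Six
end
end

section

set_option autoImplicit false
set_option linter.unusedSectionVars false

noncomputable section

namespace Pool.Agent.Lib.MP_8ab79f_ag.Six

open MvPolynomial

section dd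

variable {F : Type*} [Field F] {σ : Type*} [Fintype σ]

/-- The derivative of `P` at `z` in the direction `v`. -/
def FCl1_dd (z v : σ → F) (P : MvPolynomial σ F) : F := ∑ j, eval z (pderiv j P) * v j

theorem FCl1_dd_add (z v : σ → F) (P Q : MvPolynomial σ F) :
    FCl1_dd z v (P + Q) = FCl1_dd z v P + FCl1_dd z v Q := by
  simp only [FCl1_dd, map_add, add_mul, Finset.sum_add_distrib]

theorem FCl1_dd_sub (z v : σ → F) (P Q : MvPolynomial σ F) :
    FCl1_dd z v (P - Q) = FCl1_dd z v P - FCl1_dd z v Q := by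
  simp only [FCl1_dd, map_sub, sub_mul, Finset.sum_sub_distrib]

theorem FCl1_dd_C (z v : σ → F) (c : F) : FCl1_dd z v (C c) = 0 := by
  simp [FCl1_dd]

theorem FCl1_dd_X [DecidableEq σ] (z v : σ → F) (i : σ) : FCl1_dd z v (X i) = v i := by
  simp only [FCl1_dd, pderiv_X]
  rw [Finset.sum_eq_single i]
  · simp
  · intro j _ hj
    simp [hj]
  · simp

theorem FCl1_dd_mul (z v : σ → F) (P Q : MvPolynomial σ F) :
    FCl1_dd z v (P * Q) = FCl1_dd z v P * eval z Q + eval z P * FCl1_dd z v Q := by
  simp only [FCl1_dd, pderiv_mul, map_add, map_mul, Finset.sum_mul, Finset.mul_sum,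
    ← Finset.sum_add_distrib]
  refine Finset.sum_congr rfl fun j _ => ?_
  ring

theorem FCl1_dd_sum {ι : Type*} (s : Finset ι) (z v : σ → F) (P : ι → MvPolynomial σ F) :
    FCl1_dd z v (∑ i ∈ s, P i) = ∑ i ∈ s, FCl1_dd z v (P i) := by
  classical
  induction s using Finset.induction_on with
  | empty => simp [FCl1_dd]
  | insert a s ha ih => rw [Finset.sum_insert ha, Finset.sum_insert ha, FCl1_dd_add, ih]

theorem FCl1_mem_ker {τ : Type*} (P : τ → MvPolynomial σ F) (z v : σ → F) :
    v ∈ LinearMap.ker (Matrix.mulVecLin (jac P z)) ↔ ∀ i, FCl1_dd z v (P i) = 0 := by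
  rw [LinearMap.mem_ker]
  constructor
  · intro h i
    exact congrFun h i
  · intro h
    funext i
    exact h i

end dd

section polys

variable {F : Type*} [Field F] {n r j : ℕ}

/-- The variables. -/
abbrev FCl1_V (n r j : ℕ) : Type := Fin r ⊕ (Fin j × Fin n)

/-- The echelon conditions. -/
def FCl1_G (g : Fin j → Fin n) (p : Fin j × Fin j) : MvPolynomial (FCl1_V n r j) F :=
  X (Sum.inr (p.1, g p.2)) - C (if p.1 = p.2 then 1 else 0)

/-- The conditions for being in the radical. -/
def FCl1_B (M : Fin r → Matrix (Fin n) (Fin n) F) (p : Fin j × Fin n) :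
    MvPolynomial (FCl1_V n r j) F :=
  ∑ s, X (Sum.inl s) * ∑ m, C (M s m p.2 + M s p.2 m) * X (Sum.inr (p.1, m))

/-- The values of the form. -/
def FCl1_Q (M : Fin r → Matrix (Fin n) (Fin n) F) (i : Fin j) :
    MvPolynomial (FCl1_V n r j) F :=
  ∑ s, X (Sum.inl s) * ∑ m, ∑ m', C (M s m m') * X (Sum.inr (i, m)) * X (Sum.inr (i, m'))

/-- The coefficient part of a point. -/
def FCl1_a (z : FCl1_V n r j → F) : Fin r → F := fun s => z (Sum.inl s)

/-- The vector part of a point. -/
def FCl1_w (z : FCl1_V n r j → F) (i : Fin j) : Fin n → F := fun m => z (Sum.inr (i, m))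

theorem FCl1_bl_single_right (A : Matrix (Fin n) (Fin n) F) (x : Fin n → F) (l : Fin n) :
    bl A x (Pi.single l 1) = ∑ m, A m l * x m := by
  unfold bl
  refine Finset.sum_congr rfl fun i _ => ?_
  rw [Finset.sum_eq_single l]
  · simp
  · intro b _ hb; simp [hb]
  · simp

theorem FCl1_bl_single_left (A : Matrix (Fin n) (Fin n) F) (x : Fin n → F) (l : Fin n) :
    bl A (Pi.single l 1) x = ∑ m, A l m * x m := by
  unfold bl
  rw [Finset.sum_eq_single l]
  · simp
  · intro b _ hb; simp [hb]
  · simp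

theorem FCl1_Bf_single (M : Fin r → Matrix (Fin n) (Fin n) F) (a : Fin r → F) (x : Fin n → F)
    (l : Fin n) : Bf M a x (Pi.single l 1) = ∑ s, a s * ∑ m, (M s m l + M s l m) * x m := by
  unfold Bf
  refine Finset.sum_congr rfl fun s _ => ?_
  rw [FCl1_bl_single_right, FCl1_bl_single_left, ← Finset.sum_add_distrib]
  congr 1
  refine Finset.sum_congr rfl fun m _ => ?_
  ring

theorem FCl1_eval_G (g : Fin j → Fin n) (p : Fin j × Fin j) (z : FCl1_V n r j → F) :
    eval z (FCl1_G g p) = FCl1_w z p.1 (g p.2) - (if p.1 = p.2 then 1 else 0) := by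
  simp [FCl1_G, FCl1_w]

theorem FCl1_eval_B (M : Fin r → Matrix (Fin n) (Fin n) F) (p : Fin j × Fin n)
    (z : FCl1_V n r j → F) :
    eval z (FCl1_B M p) = Bf M (FCl1_a z) (FCl1_w z p.1) (Pi.single p.2 1) := by
  rw [FCl1_Bf_single]
  simp [FCl1_B, FCl1_w, FCl1_a, map_sum]

theorem FCl1_eval_Q (M : Fin r → Matrix (Fin n) (Fin n) F) (i : Fin j)
    (z : FCl1_V n r j → F) :
    eval z (FCl1_Q M i) = Qf M (FCl1_a z) (FCl1_w z i) := by
  simp [FCl1_Q, FCl1_w, FCl1_a, Qf, bl, map_sum]

theorem FCl1_dd_G (g : Fin j → Fin n) (p : Fin j × Fin j) (z v : FCl1_V n r j → F) :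
    FCl1_dd z v (FCl1_G g p) = FCl1_w v p.1 (g p.2) := by
  rw [FCl1_G, FCl1_dd_sub, FCl1_dd_X, FCl1_dd_C, sub_zero]
  rfl

theorem FCl1_dd_B (M : Fin r → Matrix (Fin n) (Fin n) F) (p : Fin j × Fin n)
    (z v : FCl1_V n r j → F) :
    FCl1_dd z v (FCl1_B M p) = Bf M (FCl1_a v) (FCl1_w z p.1) (Pi.single p.2 1) +
      Bf M (FCl1_a z) (FCl1_w v p.1) (Pi.single p.2 1) := by
  rw [FCl1_Bf_single, FCl1_Bf_single]
  simp only [FCl1_B, FCl1_dd_sum, FCl1_dd_mul, FCl1_dd_X, FCl1_dd_C, map_sum, map_mul, eval_X,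
    eval_C, zero_mul, zero_add, FCl1_a, FCl1_w, Finset.sum_add_distrib]

theorem FCl1_dd_Q (M : Fin r → Matrix (Fin n) (Fin n) F) (i : Fin j)
    (z v : FCl1_V n r j → F) :
    FCl1_dd z v (FCl1_Q M i) = Qf M (FCl1_a v) (FCl1_w z i) +
      Bf M (FCl1_a z) (FCl1_w v i) (FCl1_w z i) := by
  simp only [FCl1_Q, FCl1_dd_sum, FCl1_dd_mul, FCl1_dd_X, FCl1_dd_C, map_sum, map_mul, eval_X,
    eval_C, zero_mul, zero_add, FCl1_a, FCl1_w, Qf, Bf, bl, ← Finset.sum_add_distrib]

theorem FCl1_deg_G (g : Fin j → Fin n) (p : Fin j × Fin j) :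
    (FCl1_G g p : MvPolynomial (FCl1_V n r j) F).totalDegree ≤ 3 := by
  unfold FCl1_G
  refine (totalDegree_sub _ _).trans ?_
  rw [totalDegree_X, totalDegree_C]
  simp

theorem FCl1_deg_B (M : Fin r → Matrix (Fin n) (Fin n) F) (p : Fin j × Fin n) :
    (FCl1_B M p : MvPolynomial (FCl1_V n r j) F).totalDegree ≤ 3 := by
  unfold FCl1_B
  refine totalDegree_finsetSum_le fun s _ => ?_
  refine (totalDegree_mul _ _).trans ?_
  have h1 : (X (Sum.inl s) : MvPolynomial (FCl1_V n r j) F).totalDegree ≤ 1 := by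
    rw [totalDegree_X]
  have h2 : (∑ m, C (M s m p.2 + M s p.2 m) * X (Sum.inr (p.1, m)) :
      MvPolynomial (FCl1_V n r j) F).totalDegree ≤ 1 := by
    refine totalDegree_finsetSum_le fun m _ => ?_
    refine (totalDegree_mul _ _).trans ?_
    rw [totalDegree_X, totalDegree_C]
  omega

theorem FCl1_deg_Q (M : Fin r → Matrix (Fin n) (Fin n) F) (i : Fin j) :
    (FCl1_Q M i : MvPolynomial (FCl1_V n r j) F).totalDegree ≤ 3 := by
  unfold FCl1_Q
  refine totalDegree_finsetSum_le fun s _ => ?_
  refine (totalDegree_mul _ _).trans ?_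
  have h1 : (X (Sum.inl s) : MvPolynomial (FCl1_V n r j) F).totalDegree ≤ 1 := by
    rw [totalDegree_X]
  have h2 : (∑ m, ∑ m', C (M s m m') * X (Sum.inr (i, m)) * X (Sum.inr (i, m')) :
      MvPolynomial (FCl1_V n r j) F).totalDegree ≤ 2 := by
    refine totalDegree_finsetSum_le fun m _ => ?_
    refine totalDegree_finsetSum_le fun m' _ => ?_
    refine (totalDegree_mul _ _).trans ?_
    have h3 := totalDegree_mul (C (M s m m') : MvPolynomial (FCl1_V n r j) F)
      (X (Sum.inr (i, m)))
    rw [totalDegree_X, totalDegree_C] at h3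
    rw [totalDegree_X]
    omega
  omega

end polys

section core

variable {F : Type*} [Field F] {n r j : ℕ}

/-- `(g, w)` is an echelon basis of the radical of the form with coefficients `a`. -/
def FCl1_Good (M : Fin r → Matrix (Fin n) (Fin n) F) (g : Fin j → Fin n)
    (z : FCl1_V n r j → F) : Prop :=
  (∀ i i', FCl1_w z i (g i') = if i = i' then 1 else 0) ∧
    Submodule.span F (Set.range (FCl1_w z)) = radB M (FCl1_a z)

theorem FCl1_w_mem {M : Fin r → Matrix (Fin n) (Fin n) F} {g : Fin j → Fin n}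
    {z : FCl1_V n r j → F} (hz : FCl1_Good M g z) (i : Fin j) :
    FCl1_w z i ∈ radB M (FCl1_a z) := by
  rw [← hz.2]
  exact Submodule.subset_span ⟨i, rfl⟩

/-- A form which vanishes against the coordinate vectors vanishes. -/
theorem FCl1_Bf_all (M : Fin r → Matrix (Fin n) (Fin n) F) (a b : Fin r → F)
    (x y : Fin n → F) (h : ∀ l, Bf M a x (Pi.single l 1) + Bf M b y (Pi.single l 1) = 0)
    (u : Fin n → F) : Bf M a x u + Bf M b y u = 0 := by
  have hu : u = ∑ l, u l • (Pi.single l (1 : F) : Fin n → F) := by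
    funext m
    simp [Finset.sum_apply, Pi.single_apply]
  have hsum : ∀ (c : Fin r → F) (x : Fin n → F) (s : Finset (Fin n)),
      Bf M c x (∑ l ∈ s, u l • (Pi.single l (1 : F) : Fin n → F)) =
        ∑ l ∈ s, u l * Bf M c x (Pi.single l 1) := by
    intro c x s
    classical
    induction s using Finset.induction_on with
    | empty => simp [Bf_comm M c x, Bf_zero_left]
    | insert l s hl ih =>
      rw [Finset.sum_insert hl, Finset.sum_insert hl, Bf_add_right, ih, Bf_smul_right]
  rw [hu, hsum, hsum, ← Finset.sum_add_distrib]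
  refine Finset.sum_eq_zero fun l _ => ?_
  rw [← mul_add, h l, mul_zero]

/-- The consequences of the linearised equations. -/
theorem FCl1_core {M : Fin r → Matrix (Fin n) (Fin n) F} {g : Fin j → Fin n}
    {z v : FCl1_V n r j → F} (hz : FCl1_Good M g z)
    (hB : ∀ p : Fin j × Fin n, FCl1_dd z v (FCl1_B M p) = 0) :
    (∀ i u, Bf M (FCl1_a v) (FCl1_w z i) u + Bf M (FCl1_a z) (FCl1_w v i) u = 0) ∧
    ∀ x ∈ radB M (FCl1_a z), ∀ y ∈ radB M (FCl1_a z), Bf M (FCl1_a v) x y = 0 := by
  have h1 : ∀ i u, Bf M (FCl1_a v) (FCl1_w z i) u + Bf M (FCl1_a z) (FCl1_w v i) u = 0 := by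
    intro i u
    refine FCl1_Bf_all M _ _ _ _ (fun l => ?_) u
    have := hB (i, l)
    rwa [FCl1_dd_B] at this
  refine ⟨h1, ?_⟩
  intro x hx y hy
  rw [← hz.2] at hx
  induction hx using Submodule.span_induction with
  | mem x hx =>
    obtain ⟨i, rfl⟩ := hx
    have h2 := h1 i y
    have h3 : Bf M (FCl1_a z) (FCl1_w v i) y = 0 := by
      rw [Bf_comm]; exact hy _
    rw [h3, add_zero] at h2
    exact h2
  | zero => exact Bf_zero_left _ _ _
  | add x x' _ _ ih ih' => rw [Bf_add_left, ih, ih', add_zero]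
  | smul c x _ ih => rw [Bf_smul_left, ih, mul_zero]

theorem FCl1_inj {M : Fin r → Matrix (Fin n) (Fin n) F} {g : Fin j → Fin n}
    {z v : FCl1_V n r j → F} (hz : FCl1_Good M g z)
    (hG : ∀ p : Fin j × Fin j, FCl1_dd z v (FCl1_G g p) = 0)
    (hB : ∀ p : Fin j × Fin n, FCl1_dd z v (FCl1_B M p) = 0)
    (hv : FCl1_a v = 0) : v = 0 := by
  have h1 := (FCl1_core hz hB).1
  have h2 : ∀ i, FCl1_w v i = 0 := by
    intro i
    have h3 : FCl1_w v i ∈ Submodule.span F (Set.range (FCl1_w z)) := by
      rw [hz.2]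
      intro u
      have := h1 i u
      rwa [hv, Bf_zero_coef, zero_add] at this
    obtain ⟨c, hc⟩ := (Submodule.mem_span_range_iff_exists_fun F).1 h3
    have h4 : ∀ i', c i' = 0 := by
      intro i'
      have h5 := hG (i, i')
      rw [FCl1_dd_G] at h5
      simp only at h5
      rw [← hc] at h5
      simp only [Finset.sum_apply, Pi.smul_apply, smul_eq_mul, hz.1] at h5
      simpa using h5
    rw [← hc]
    simp [h4]
  funext t
  rcases t with s | ⟨i, m⟩
  · exact congrFun hv s
  · exact congrFun (h2 i) m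

/-- Reduction of the counting of coefficient vectors to the counting of points. -/
theorem FCl1_count [Fintype F] [DecidableEq F] (M : Fin r → Matrix (Fin n) (Fin n) F)
    (A : Finset (Fin r → F)) (K : ℕ) (c : ℕ → ℕ)
    (H : ∀ (j : ℕ) (g : Fin j → Fin n) (Z : Finset (FCl1_V n r j → F)),
      (∀ z ∈ Z, FCl1_a z ∈ A ∧ FCl1_Good M g z) → Z.card ≤ c j * K) :
    A.card ≤ (∑ j ∈ Finset.range (n + 1), n ^ j * c j) * K := by
  classical
  -- the pieces
  let piece : (j : ℕ) → (Fin j → Fin n) → Finset (Fin r → F) := fun j g =>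
    A.filter (fun a => ∃ z : FCl1_V n r j → F, FCl1_a z = a ∧ FCl1_Good M g z)
  have hpiece : ∀ j g, (piece j g).card ≤ c j * K := by
    intro j g
    have hex : ∀ a : piece j g, ∃ z : FCl1_V n r j → F, FCl1_a z = a.1 ∧ FCl1_Good M g z :=
      fun a => (Finset.mem_filter.1 a.2).2
    choose f hf using hex
    have h1 := H j g (Finset.univ.image f) (by
      intro z hz
      obtain ⟨a, -, rfl⟩ := Finset.mem_image.1 hz
      refine ⟨?_, (hf a).2⟩
      rw [(hf a).1]
      exact (Finset.mem_filter.1 a.2).1)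
    rw [Finset.card_image_of_injective _ (by
      intro a b hab
      apply Subtype.ext
      rw [← (hf a).1, ← (hf b).1, hab])] at h1
    rwa [Finset.card_univ, Fintype.card_coe] at h1
  have hcover : A ⊆ (Finset.range (n + 1)).biUnion
      (fun j => (Finset.univ : Finset (Fin j → Fin n)).biUnion (fun g => piece j g)) := by
    intro a ha
    obtain ⟨g, w, hw1, hw2⟩ := exists_echelon (radB M a) _ rfl
    have hj : Module.finrank F (radB M a) ≤ n := by
      have := Submodule.finrank_le (radB M a)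
      simpa using this
    rw [Finset.mem_biUnion]
    refine ⟨Module.finrank F (radB M a), Finset.mem_range.2 (by omega), ?_⟩
    rw [Finset.mem_biUnion]
    refine ⟨g, Finset.mem_univ _, ?_⟩
    rw [Finset.mem_filter]
    exact ⟨ha, Sum.elim a (fun p => w p.1 p.2), rfl, hw1, hw2⟩
  calc A.card ≤ _ := Finset.card_le_card hcover
    _ ≤ ∑ j ∈ Finset.range (n + 1),
        ((Finset.univ : Finset (Fin j → Fin n)).biUnion (fun g => piece j g)).card :=
      Finset.card_biUnion_le
    _ ≤ ∑ j ∈ Finset.range (n + 1), ∑ g : Fin j → Fin n, (piece j g).card :=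
      Finset.sum_le_sum fun j _ => Finset.card_biUnion_le
    _ ≤ ∑ j ∈ Finset.range (n + 1), ∑ g : Fin j → Fin n, c j * K :=
      Finset.sum_le_sum fun j _ => Finset.sum_le_sum fun g _ => hpiece j g
    _ = (∑ j ∈ Finset.range (n + 1), n ^ j * c j) * K := by
      rw [Finset.sum_mul]
      refine Finset.sum_congr rfl fun j _ => ?_
      rw [Finset.sum_const, Finset.card_univ, Fintype.card_fun, Fintype.card_fin,
        Fintype.card_fin, smul_eq_mul, mul_assoc]

end core

/-- Counting the forms of a system according to the forms vanishing on their radical. -/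
theorem cl1 (n r k : ℕ) :
    ∃ C : ℕ, ∀ (F : Type*) [Field F] [Fintype F] [DecidableEq F]
      (M : Fin r → Matrix (Fin n) (Fin n) F) (A : Finset (Fin r → F)),
      (∀ a ∈ A, (∀ x ∈ radB M a, Qf M a x = 0) ∧
        Module.finrank F (ann M (radB M a)) ≤ k) →
      A.card ≤ C * Fintype.card F ^ k := by
  choose c hc using fun j : ℕ =>
    bz (FCl1_V n r j) ((Fin j × Fin j) ⊕ ((Fin j × Fin n) ⊕ Fin j)) 3 k
  refine ⟨∑ j ∈ Finset.range (n + 1), n ^ j * c j, ?_⟩
  intro F _ _ _ M A hA
  refine FCl1_count M A _ c ?_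
  intro j g Z hZ
  refine hc j F (Sum.elim (FCl1_G g) (Sum.elim (FCl1_B M) (FCl1_Q M))) ?_ Z ?_
  · rintro (p | p | p)
    · exact FCl1_deg_G g p
    · exact FCl1_deg_B M p
    · exact FCl1_deg_Q M p
  · intro z hz
    obtain ⟨hza, hgood⟩ := hZ z hz
    obtain ⟨hQ, hk⟩ := hA _ hza
    refine ⟨?_, ?_⟩
    · rintro (p | p | p)
      · simp only [Sum.elim_inl]
        rw [FCl1_eval_G, hgood.1, sub_self]
      · simp only [Sum.elim_inl, Sum.elim_inr]
        rw [FCl1_eval_B]
        exact FCl1_w_mem hgood p.1 _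
      · simp only [Sum.elim_inr]
        rw [FCl1_eval_Q]
        exact hQ _ (FCl1_w_mem hgood p)
    · refine le_trans ?_ hk
      have hmem : ∀ v ∈ LinearMap.ker (Matrix.mulVecLin
          (jac (Sum.elim (FCl1_G g) (Sum.elim (FCl1_B M) (FCl1_Q M))) z)),
          FCl1_a v ∈ ann M (radB M (FCl1_a z)) := by
        intro v hv
        rw [FCl1_mem_ker] at hv
        have hB : ∀ p, FCl1_dd z v (FCl1_B M p) = 0 := fun p => hv (Sum.inr (Sum.inl p))
        have hQ' : ∀ i, FCl1_dd z v (FCl1_Q M i) = 0 := fun i => hv (Sum.inr (Sum.inr i))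
        have hcore := (FCl1_core hgood hB).2
        intro x hx
        rw [← hgood.2] at hx
        have key : ∀ x ∈ Submodule.span F (Set.range (FCl1_w z)),
            x ∈ radB M (FCl1_a z) ∧ Qf M (FCl1_a v) x = 0 := by
          intro x hx
          induction hx using Submodule.span_induction with
          | mem x hx =>
            obtain ⟨i, rfl⟩ := hx
            refine ⟨FCl1_w_mem hgood i, ?_⟩
            have h1 := hQ' i
            rw [FCl1_dd_Q] at h1
            have h2 : Bf M (FCl1_a z) (FCl1_w v i) (FCl1_w z i) = 0 := by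
              rw [Bf_comm]; exact FCl1_w_mem hgood i _
            rwa [h2, add_zero] at h1
          | zero => exact ⟨Submodule.zero_mem _, Qf_zero_right _ _⟩
          | add x x' _ _ ih ih' =>
            refine ⟨Submodule.add_mem _ ih.1 ih'.1, ?_⟩
            rw [Qf_add, ih.2, ih'.2, hcore x ih.1 x' ih'.1, add_zero, add_zero]
          | smul c x _ ih =>
            refine ⟨Submodule.smul_mem _ _ ih.1, ?_⟩
            rw [Qf_smul, ih.2, mul_zero]
        exact (key x hx).2
      let L : LinearMap.ker (Matrix.mulVecLin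
          (jac (Sum.elim (FCl1_G g) (Sum.elim (FCl1_B M) (FCl1_Q M))) z)) →ₗ[F]
          ann M (radB M (FCl1_a z)) :=
        { toFun := fun v => ⟨FCl1_a v.1, hmem v.1 v.2⟩
          map_add' := fun v v' => rfl
          map_smul' := fun c v => rfl }
      refine LinearMap.finrank_le_finrank_of_injective (f := L) ?_
      rw [← LinearMap.ker_eq_bot, LinearMap.ker_eq_bot']
      intro v hv
      apply Subtype.ext
      have hv' : FCl1_a v.1 = 0 := congrArg Subtype.val hv
      have h0 := (FCl1_mem_ker _ _ _).1 v.2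
      exact FCl1_inj hgood (fun p => h0 (Sum.inl p)) (fun p => h0 (Sum.inr (Sum.inl p))) hv'

end Pool.Agent.Lib.MP_8ab79f_ag.Six
end
end

section

set_option autoImplicit false
set_option linter.unusedSectionVars false

noncomputable section

namespace Pool.Agent.Lib.MP_8ab79f_ag.Six

open MvPolynomial

/-- Counting the forms of a system according to the polar forms vanishing on their radical. -/
theorem cl2 (n r k : ℕ) :
    ∃ C : ℕ, ∀ (F : Type*) [Field F] [Fintype F] [DecidableEq F]
      (M : Fin r → Matrix (Fin n) (Fin n) F) (A : Finset (Fin r → F)),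
      (∀ a ∈ A, Module.finrank F (annB M (radB M a)) ≤ k) →
      A.card ≤ C * Fintype.card F ^ k := by
  choose c hc using fun j : ℕ =>
    bz (FCl1_V n r j) ((Fin j × Fin j) ⊕ (Fin j × Fin n)) 3 k
  refine ⟨∑ j ∈ Finset.range (n + 1), n ^ j * c j, ?_⟩
  intro F _ _ _ M A hA
  refine FCl1_count M A _ c ?_
  intro j g Z hZ
  refine hc j F (Sum.elim (FCl1_G g) (FCl1_B M)) ?_ Z ?_
  · rintro (p | p)
    · exact FCl1_deg_G g p
    · exact FCl1_deg_B M p
  · intro z hz
    obtain ⟨hza, hgood⟩ := hZ z hz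
    have hk := hA _ hza
    refine ⟨?_, ?_⟩
    · rintro (p | p)
      · simp only [Sum.elim_inl]
        rw [FCl1_eval_G, hgood.1, sub_self]
      · simp only [Sum.elim_inr]
        rw [FCl1_eval_B]
        exact FCl1_w_mem hgood p.1 _
    · refine le_trans ?_ hk
      have hmem : ∀ v ∈ LinearMap.ker (Matrix.mulVecLin
          (jac (Sum.elim (FCl1_G g) (FCl1_B M)) z)),
          FCl1_a v ∈ annB M (radB M (FCl1_a z)) := by
        intro v hv
        rw [FCl1_mem_ker] at hv
        have hB : ∀ p, FCl1_dd z v (FCl1_B M p) = 0 := fun p => hv (Sum.inr p)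
        exact (FCl1_core hgood hB).2
      let L : LinearMap.ker (Matrix.mulVecLin
          (jac (Sum.elim (FCl1_G g) (FCl1_B M)) z)) →ₗ[F]
          annB M (radB M (FCl1_a z)) :=
        { toFun := fun v => ⟨FCl1_a v.1, hmem v.1 v.2⟩
          map_add' := fun v v' => rfl
          map_smul' := fun c v => rfl }
      refine LinearMap.finrank_le_finrank_of_injective (f := L) ?_
      rw [← LinearMap.ker_eq_bot, LinearMap.ker_eq_bot']
      intro v hv
      apply Subtype.ext
      have hv' : FCl1_a v.1 = 0 := congrArg Subtype.val hv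
      have h0 := (FCl1_mem_ker _ _ _).1 v.2
      exact FCl1_inj hgood (fun p => h0 (Sum.inl p)) (fun p => h0 (Sum.inr p)) hv'

end Pool.Agent.Lib.MP_8ab79f_ag.Six
end
end

section

set_option autoImplicit false
set_option linter.unusedSectionVars false

noncomputable section

namespace Pool.Agent.Lib.MP_8ab79f_ag.Six

/-- The sum of the exponential sums over the forms of a system satisfying the rank condition. -/
theorem sum_Sx_le (n r : ℕ) :
    ∃ C : ℕ, ∀ (F : Type*) [Field F] [Fintype F] [DecidableEq F] (ψ : AddChar F ℂ), ψ ≠ 1 →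
      ∀ (M : Fin r → Matrix (Fin n) (Fin n) F) (e : ℕ), RankCond M e →
      ∀ A : Finset (Fin r → F), (∀ a ∈ A, 1 ≤ Module.finrank F (ann M (radB M a))) →
      ∑ a ∈ A, ‖Sx ψ M a‖ ≤ C * Real.sqrt (Fintype.card F) ^ (n + e - 1) := by
  choose C hC using fun k => cl1 n r k
  refine ⟨∑ k ∈ Finset.range (r + 1), C k, ?_⟩
  intro F _ _ _ ψ hψ M e hM A hA
  classical
  set ρ : ℝ := Real.sqrt (Fintype.card F) with hρ
  have hq1 : (1 : ℝ) ≤ Fintype.card F := by
    exact_mod_cast Fintype.card_pos
  have hρ1 : 1 ≤ ρ := by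
    rw [hρ, Real.one_le_sqrt]
    exact hq1
  have hρ0 : 0 < ρ := lt_of_lt_of_le one_pos hρ1
  have hρ2 : ρ ^ 2 = Fintype.card F := Real.sq_sqrt (by linarith)
  set A' : Finset (Fin r → F) := A.filter fun a => Sx ψ M a ≠ 0 with hA'
  have h1 : ∑ a ∈ A, ‖Sx ψ M a‖ = ∑ a ∈ A', ‖Sx ψ M a‖ := by
    rw [hA', Finset.sum_filter]
    apply Finset.sum_congr rfl
    intro a _
    split_ifs with h
    · rfl
    · push Not at h
      rw [h, norm_zero]
  have hrank : ∀ a : Fin r → F, Module.finrank F (ann M (radB M a)) ≤ r := by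
    intro a
    have := Submodule.finrank_le (ann M (radB M a))
    simpa using this
  rw [h1, ← Finset.sum_fiberwise_of_maps_to
    (g := fun a => Module.finrank F (ann M (radB M a))) (t := Finset.range (r + 1))
    (fun a _ => Finset.mem_range.mpr (Nat.lt_succ_of_le (hrank a)))]
  push_cast
  rw [Finset.sum_mul]
  apply Finset.sum_le_sum
  intro k _
  set Ak : Finset (Fin r → F) :=
    A'.filter fun a => Module.finrank F (ann M (radB M a)) = k with hAk
  have hcard : Ak.card ≤ C k * Fintype.card F ^ k := by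
    apply hC k F M Ak
    intro a ha
    rw [hAk, Finset.mem_filter, hA', Finset.mem_filter] at ha
    refine ⟨?_, ha.2.le⟩
    intro x hx
    by_contra hne
    exact ha.1.2 (Sx_eq_zero ψ hψ M a ⟨x, hx, hne⟩)
  have hterm : ∀ a ∈ Ak, ‖Sx ψ M a‖ ≤ ρ ^ (n + e - 1) / ρ ^ (2 * k) := by
    intro a ha
    rw [hAk, Finset.mem_filter, hA', Finset.mem_filter] at ha
    have hk1 := hA a ha.1.1
    have hr := hM (radB M a) hk1
    rw [ha.2] at hr
    rw [le_div_iff₀ (by positivity)]
    calc ‖Sx ψ M a‖ * ρ ^ (2 * k)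
        ≤ ρ ^ (n + Module.finrank F (radB M a)) * ρ ^ (2 * k) := by
          gcongr
          exact norm_Sx_le ψ hψ M a
      _ = ρ ^ (n + Module.finrank F (radB M a) + 2 * k) := by rw [← pow_add]
      _ ≤ ρ ^ (n + e - 1) := by
          apply pow_le_pow_right₀ hρ1
          omega
  calc ∑ a ∈ Ak, ‖Sx ψ M a‖ ≤ ∑ _a ∈ Ak, ρ ^ (n + e - 1) / ρ ^ (2 * k) :=
        Finset.sum_le_sum hterm
    _ = Ak.card * (ρ ^ (n + e - 1) / ρ ^ (2 * k)) := by
        rw [Finset.sum_const, nsmul_eq_mul]
    _ ≤ (C k * (Fintype.card F : ℝ) ^ k) * (ρ ^ (n + e - 1) / ρ ^ (2 * k)) := by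
        gcongr
        exact_mod_cast hcard
    _ = C k * ρ ^ (n + e - 1) := by
        rw [pow_mul, hρ2]
        field_simp

end Pool.Agent.Lib.MP_8ab79f_ag.Six
end
end

section

set_option autoImplicit false
set_option linter.unusedSectionVars false

noncomputable section

namespace Pool.Agent.Lib.MP_8ab79f_ag.Six

/-- The value of a form at the images under a linear map, as the value of another form. -/
theorem FSing_bl {F : Type*} [Field F] {n d : ℕ} (L : (Fin d → F) →ₗ[F] (Fin n → F))
    (A : Matrix (Fin n) (Fin n) F) (y y' : Fin d → F) :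
    bl (Matrix.of fun i j => bl A (L (Pi.single i 1)) (L (Pi.single j 1))) y y' =
      bl A (L y) (L y') := by
  have hL : ∀ z : Fin d → F, L z = ∑ i, z i • L (Pi.single i 1) := by
    intro z
    conv_lhs => rw [pi_eq_sum_univ' z]
    rw [map_sum]
    apply Finset.sum_congr rfl
    intro i _
    rw [map_smul]
  have hsuml : ∀ (s : Finset (Fin d)) (f : Fin d → (Fin n → F)) (w : Fin n → F),
      bl A (∑ i ∈ s, f i) w = ∑ i ∈ s, bl A (f i) w := by
    intro s f w
    classical
    induction s using Finset.induction_on with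
    | empty => simp [bl_zero_left]
    | insert a s ha ih => rw [Finset.sum_insert ha, Finset.sum_insert ha, bl_add_left, ih]
  have hsumr : ∀ (s : Finset (Fin d)) (f : Fin d → (Fin n → F)) (w : Fin n → F),
      bl A w (∑ i ∈ s, f i) = ∑ i ∈ s, bl A w (f i) := by
    intro s f w
    classical
    induction s using Finset.induction_on with
    | empty => simp [bl_zero_right]
    | insert a s ha ih => rw [Finset.sum_insert ha, Finset.sum_insert ha, bl_add_right, ih]
  rw [hL y, hL y', hsuml]
  simp_rw [hsumr, bl_smul_left, bl_smul_right]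
  unfold bl
  refine Finset.sum_congr rfl fun i _ => Finset.sum_congr rfl fun j _ => ?_
  simp only [Matrix.of_apply]
  ring

/-- The number of zeros of the system lying in a subspace on which `k ≥ 1` independent forms
vanish. -/
theorem card_zeros_subspace (n r : ℕ) :
    ∃ C : ℕ, ∀ (F : Type*) [Field F] [Fintype F] [DecidableEq F]
      (M : Fin r → Matrix (Fin n) (Fin n) F), RankCond M n →
      ∀ (U : Submodule F (Fin n → F)) (k : ℕ), 1 ≤ k → k ≤ Module.finrank F (ann M U) →
      ∀ A : Finset (Fin n → F), (∀ x ∈ A, x ∈ U ∧ ∀ s, bl (M s) x x = 0) →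
      A.card * Fintype.card F ^ (r + k + 1) ≤ C * Fintype.card F ^ n := by
  choose C hC using fun d => sum_Sx_le d r
  refine ⟨∑ d ∈ Finset.range (n + 1), C d, ?_⟩
  intro F _ _ _ M hM U k hk1 hkU A hA
  classical
  -- the dimension of U
  set d : ℕ := Module.finrank F U with hd
  have hdn : d + 2 * k + 1 ≤ n := by
    have := hM U (hk1.trans hkU)
    omega
  -- a parametrisation of U
  let E : (Fin d → F) ≃ₗ[F] U := LinearEquiv.ofFinrankEq _ _ (by simp [hd])
  let L : (Fin d → F) →ₗ[F] (Fin n → F) := U.subtype ∘ₗ E.toLinearMap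
  have hLinj : Function.Injective L := U.injective_subtype.comp E.injective
  have hLmem : ∀ y, L y ∈ U := fun y => (E y).2
  set M' : Fin r → Matrix (Fin d) (Fin d) F := fun s =>
    Matrix.of fun i j => bl (M s) (L (Pi.single i 1)) (L (Pi.single j 1)) with hM'
  have hbl : ∀ s y y', bl (M' s) y y' = bl (M s) (L y) (L y') := fun s y y' => FSing_bl L (M s) y y'
  have hQ : ∀ c y, Qf M' c y = Qf M c (L y) := by
    intro c y
    simp only [Qf, hbl]
  have hRC : RankCond M' n := by
    intro W hW
    have hann : ann M' W = ann M (W.map L) := by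
      ext c
      rw [mem_ann, mem_ann]
      constructor
      · intro h x hx
        obtain ⟨y, hy, rfl⟩ := Submodule.mem_map.mp hx
        rw [← hQ]
        exact h y hy
      · intro h y hy
        rw [hQ]
        exact h (L y) (Submodule.mem_map_of_mem hy)
    have hfin : Module.finrank F (W.map L) = Module.finrank F W :=
      (LinearEquiv.finrank_eq (Submodule.equivMapOfInjective L hLinj W)).symm
    rw [hann] at hW ⊢
    have := hM (W.map L) hW
    rwa [hfin] at this
  -- a nontrivial character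
  obtain ⟨ψ, hψ1⟩ := (AddChar.exists_apply_ne_zero (α := F) (a := 1)).mpr one_ne_zero
  have hψ : ψ ≠ 1 := by
    intro h
    apply hψ1
    rw [h]
    rfl
  have hsum := hC d F ψ hψ M' n hRC Finset.univ (by
    intro a _
    refine le_trans (hk1.trans hkU) ?_
    apply Submodule.finrank_mono
    intro c hc
    rw [mem_ann] at hc ⊢
    intro y _
    rw [hQ]
    exact hc _ (hLmem y))
  set N' : ℕ := (Finset.univ.filter fun x : Fin d → F => ∀ s, bl (M' s) x x = 0).card with hN'
  have hcount : (N' : ℝ) * (Fintype.card F : ℝ) ^ r ≤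
      C d * Real.sqrt (Fintype.card F) ^ (d + n - 1) := by
    have h1 := card_zeros_mul ψ hψ M'
    have h2 : ‖((N' : ℂ)) * (Fintype.card F : ℂ) ^ r‖ = (N' : ℝ) * (Fintype.card F : ℝ) ^ r := by
      rw [norm_mul, norm_pow, Complex.norm_natCast, Complex.norm_natCast]
    rw [← h2, h1]
    exact (norm_sum_le _ _).trans hsum
  -- A injects into the zeros of M'
  have hAN : A.card ≤ N' := by
    rw [hN', ← Finset.card_image_of_injective _ hLinj]
    apply Finset.card_le_card
    intro x hx
    rw [Finset.mem_image]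
    obtain ⟨hxU, hx0⟩ := hA x hx
    have hLE : L (E.symm ⟨x, hxU⟩) = x := by
      change ((E (E.symm ⟨x, hxU⟩) : U) : Fin n → F) = x
      rw [LinearEquiv.apply_symm_apply]
    refine ⟨E.symm ⟨x, hxU⟩, ?_, hLE⟩
    rw [Finset.mem_filter]
    refine ⟨Finset.mem_univ _, fun s => ?_⟩
    rw [hbl, hLE]
    exact hx0 s
  have hq1 : (1 : ℝ) ≤ Fintype.card F := by
    exact_mod_cast Fintype.card_pos
  have hρ1 : 1 ≤ Real.sqrt (Fintype.card F) := by
    rw [Real.one_le_sqrt]
    exact hq1
  have hρ2 : Real.sqrt (Fintype.card F) ^ 2 = Fintype.card F := Real.sq_sqrt (by linarith)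
  have hpow : Real.sqrt (Fintype.card F) ^ (d + n - 1) ≤ (Fintype.card F : ℝ) ^ (n - k - 1) := by
    calc Real.sqrt (Fintype.card F) ^ (d + n - 1)
        ≤ Real.sqrt (Fintype.card F) ^ (2 * (n - k - 1)) := by
          apply pow_le_pow_right₀ hρ1
          omega
      _ = _ := by rw [pow_mul, hρ2]
  have hCd : (C d : ℝ) ≤ ((∑ d ∈ Finset.range (n + 1), C d : ℕ) : ℝ) := by
    exact_mod_cast Finset.single_le_sum (f := C) (fun _ _ => Nat.zero_le _)
      (Finset.mem_range.mpr (by omega : d < n + 1))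
  have hfinal : ((A.card : ℝ)) * (Fintype.card F : ℝ) ^ (r + k + 1) ≤
      ((∑ d ∈ Finset.range (n + 1), C d : ℕ) : ℝ) * (Fintype.card F : ℝ) ^ n := by
    calc ((A.card : ℝ)) * (Fintype.card F : ℝ) ^ (r + k + 1)
        ≤ (N' : ℝ) * (Fintype.card F : ℝ) ^ (r + k + 1) := by
          gcongr
      _ = ((N' : ℝ) * (Fintype.card F : ℝ) ^ r) * (Fintype.card F : ℝ) ^ (k + 1) := by
          rw [mul_assoc, ← pow_add]
          congr 2
      _ ≤ (C d * (Fintype.card F : ℝ) ^ (n - k - 1)) * (Fintype.card F : ℝ) ^ (k + 1) := by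
          apply mul_le_mul_of_nonneg_right _ (by positivity)
          exact hcount.trans (mul_le_mul_of_nonneg_left hpow (by positivity))
      _ = C d * (Fintype.card F : ℝ) ^ n := by
          rw [mul_assoc, ← pow_add]
          congr 2
          omega
      _ ≤ _ := by gcongr
  exact_mod_cast hfinal

/-- The number of pairs of a nonzero form and of a zero of the system in its radical. -/
theorem card_singular (n r : ℕ) :
    ∃ C : ℕ, ∀ (F : Type*) [Field F] [Fintype F] [DecidableEq F]
      (M : Fin r → Matrix (Fin n) (Fin n) F), RankCond M n →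
      ∀ A : Finset (Fin n → F),
        (∀ x ∈ A, (∀ s, bl (M s) x x = 0) ∧ ∃ a, a ≠ 0 ∧ x ∈ radB M a) →
      A.card * Fintype.card F ^ (r + 1) ≤ C * Fintype.card F ^ n := by
  obtain ⟨C₁, hC₁⟩ := card_zeros_subspace n r
  choose C₂ hC₂ using fun k => cl2 n r k
  refine ⟨∑ k ∈ Finset.range (r + 1), C₂ k * C₁, ?_⟩
  intro F _ _ _ M hM A hA
  classical
  set q : ℕ := Fintype.card F with hq
  have hq0 : 0 < q := Fintype.card_pos
  let Aa : (Fin r → F) → Finset (Fin n → F) := fun a => A.filter fun x => x ∈ radB M a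
  let ds : (Fin r → F) → ℕ := fun a => Module.finrank F (annB M (radB M a))
  set P : Finset (Fin r → F) := Finset.univ.filter fun a => a ≠ 0 with hP
  have hcover : A.card ≤ ∑ a ∈ P, (Aa a).card := by
    refine le_trans (Finset.card_le_card ?_) Finset.card_biUnion_le
    intro x hx
    obtain ⟨_, a, ha, hxa⟩ := hA x hx
    rw [Finset.mem_biUnion]
    exact ⟨a, Finset.mem_filter.mpr ⟨Finset.mem_univ _, ha⟩, Finset.mem_filter.mpr ⟨hx, hxa⟩⟩
  have hds : ∀ a, ds a ≤ r := by
    intro a
    have := Submodule.finrank_le (annB M (radB M a))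
    simpa using this
  have hone : ∀ a ∈ P, (Aa a).card * q ^ (r + ds a + 1) ≤ C₁ * q ^ n := by
    intro a ha
    have ha0 : a ≠ 0 := (Finset.mem_filter.mp ha).2
    have haT : a ∈ annB M (radB M a) := by
      rw [mem_annB]
      intro x hx y _
      exact mem_radB.mp hx y
    have hk1 : 1 ≤ ds a := by
      have : 0 < Module.finrank F (annB M (radB M a)) := by
        rw [Module.finrank_pos_iff_exists_ne_zero]
        exact ⟨⟨a, haT⟩, fun h => ha0 (congrArg Subtype.val h)⟩
      exact this
    let U : Submodule F (Fin n → F) :=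
      { carrier := {x | x ∈ radB M a ∧ ∀ c ∈ annB M (radB M a), Qf M c x = 0}
        add_mem' := by
          rintro x y ⟨hx, hx'⟩ ⟨hy, hy'⟩
          refine ⟨Submodule.add_mem _ hx hy, fun c hc => ?_⟩
          rw [Qf_add, hx' c hc, hy' c hc, mem_annB.mp hc x hx y hy]
          simp
        zero_mem' := ⟨Submodule.zero_mem _, fun c _ => Qf_zero_right M c⟩
        smul_mem' := by
          rintro b x ⟨hx, hx'⟩
          refine ⟨Submodule.smul_mem _ _ hx, fun c hc => ?_⟩
          rw [Qf_smul, hx' c hc, mul_zero] }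
    have hTU : ds a ≤ Module.finrank F (ann M U) := by
      apply Submodule.finrank_mono
      intro c hc
      rw [mem_ann]
      intro x hx
      exact hx.2 c hc
    apply hC₁ F M hM U (ds a) hk1 hTU (Aa a)
    intro x hx
    obtain ⟨hxA, hxa⟩ := Finset.mem_filter.mp hx
    obtain ⟨hx0, _⟩ := hA x hxA
    refine ⟨⟨hxa, fun c _ => ?_⟩, hx0⟩
    simp [Qf, hx0]
  have hfib : ∑ a ∈ P, (Aa a).card =
      ∑ k ∈ Finset.range (r + 1), ∑ a ∈ P with ds a = k, (Aa a).card :=
    (Finset.sum_fiberwise_of_maps_to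
      (fun a _ => Finset.mem_range.mpr (Nat.lt_succ_of_le (hds a))) _).symm
  have hk : ∀ k ∈ Finset.range (r + 1),
      (∑ a ∈ P with ds a = k, (Aa a).card) * q ^ (r + 1) ≤ C₂ k * C₁ * q ^ n := by
    intro k _
    have hqk : 0 < q ^ k := pow_pos hq0 k
    apply Nat.le_of_mul_le_mul_right _ hqk
    have hcardk : (P.filter fun a => ds a = k).card ≤ C₂ k * q ^ k := by
      apply hC₂ k F M
      intro a ha
      exact (Finset.mem_filter.mp ha).2.le
    calc (∑ a ∈ P with ds a = k, (Aa a).card) * q ^ (r + 1) * q ^ k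
        = ∑ a ∈ P with ds a = k, (Aa a).card * q ^ (r + k + 1) := by
          rw [Finset.sum_mul, Finset.sum_mul]
          apply Finset.sum_congr rfl
          intro a _
          rw [mul_assoc, ← pow_add]
          congr 2
          omega
      _ ≤ ∑ a ∈ P with ds a = k, C₁ * q ^ n := by
          apply Finset.sum_le_sum
          intro a ha
          obtain ⟨haP, hak⟩ := Finset.mem_filter.mp ha
          have := hone a haP
          rwa [hak] at this
      _ = (P.filter fun a => ds a = k).card * (C₁ * q ^ n) := by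
          rw [Finset.sum_const, smul_eq_mul]
      _ ≤ (C₂ k * q ^ k) * (C₁ * q ^ n) := by gcongr
      _ = C₂ k * C₁ * q ^ n * q ^ k := by ring
  calc A.card * q ^ (r + 1) ≤ (∑ a ∈ P, (Aa a).card) * q ^ (r + 1) := by gcongr
    _ = ∑ k ∈ Finset.range (r + 1), (∑ a ∈ P with ds a = k, (Aa a).card) * q ^ (r + 1) := by
        rw [hfib, Finset.sum_mul]
    _ ≤ ∑ k ∈ Finset.range (r + 1), C₂ k * C₁ * q ^ n := Finset.sum_le_sum hk
    _ = (∑ k ∈ Finset.range (r + 1), C₂ k * C₁) * q ^ n := by rw [Finset.sum_mul]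

end Pool.Agent.Lib.MP_8ab79f_ag.Six
end
end

section

set_option autoImplicit false
set_option linter.unusedSectionVars false

noncomputable section

namespace Pool.Agent.Lib.MP_8ab79f_ag.Six

theorem FNonsing_real (s C1 C2 : ℝ) (n : ℕ) (hC1 : 0 ≤ C1) (hC2 : 0 ≤ C2)
    (hs : C1 + C2 + 1 ≤ s) (hn : 1 ≤ n) (N : ℝ)
    (h1 : s ^ (2 * n) - C1 * s ^ (n + n - 1) ≤ N) (h2 : N * s ^ 2 ≤ C2 * s ^ (2 * n)) :
    False := by
  have hs0 : 0 < s := by linarith
  obtain ⟨m, rfl⟩ : ∃ m, n = m + 1 := ⟨n - 1, by omega⟩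
  have e1 : 2 * (m + 1) = 2 * m + 1 + 1 := by ring
  have e2 : m + 1 + (m + 1) - 1 = 2 * m + 1 := by omega
  rw [e1, e2] at h1
  rw [e1] at h2
  have hp : 0 < s ^ (2 * m + 1) := pow_pos hs0 _
  have h3 : (s ^ (2 * m + 1 + 1) - C1 * s ^ (2 * m + 1)) * s ^ 2 ≤ C2 * s ^ (2 * m + 1 + 1) :=
    le_trans (mul_le_mul_of_nonneg_right h1 (by positivity)) h2
  have h4 : s ^ (2 * m + 1) * ((s - C1) * s ^ 2) ≤ s ^ (2 * m + 1) * (C2 * s) := by
    calc s ^ (2 * m + 1) * ((s - C1) * s ^ 2)
        = (s ^ (2 * m + 1 + 1) - C1 * s ^ (2 * m + 1)) * s ^ 2 := by ring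
      _ ≤ C2 * s ^ (2 * m + 1 + 1) := h3
      _ = s ^ (2 * m + 1) * (C2 * s) := by ring
  have h5 : (s - C1) * s ^ 2 ≤ C2 * s := le_of_mul_le_mul_left h4 hp
  have h6 : (s - C1) * s ≤ C2 := by
    have : s * ((s - C1) * s) ≤ s * C2 := by nlinarith
    exact le_of_mul_le_mul_left this hs0
  nlinarith

/-- Over a large finite field a system satisfying the rank condition has a nonsingular zero. -/
theorem exists_nonsingular (n r : ℕ) :
    ∃ C : ℕ, ∀ (F : Type*) [Field F] [Fintype F] [DecidableEq F], C ≤ Fintype.card F →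
      ∀ M : Fin r → Matrix (Fin n) (Fin n) F, RankCond M n →
      ∃ x : Fin n → F, (∀ s, bl (M s) x x = 0) ∧ ∀ a : Fin r → F, a ≠ 0 → x ∉ radB M a := by
  classical
  obtain ⟨C1, hC1⟩ := sum_Sx_le n r
  obtain ⟨C2, hC2⟩ := card_singular n r
  refine ⟨(C1 + C2 + 1) ^ 2, ?_⟩
  intro F _ _ _ hcard M hM
  rcases Nat.eq_zero_or_pos r with hr | hr
  · subst hr
    refine ⟨0, fun s => s.elim0, fun a ha => (ha (Subsingleton.elim _ _)).elim⟩
  by_contra hcon
  push Not at hcon
  -- the dimension is at least one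
  have hn : 1 ≤ n := by
    have h := hM ⊥
    have htop : ann M (⊥ : Submodule F (Fin n → F)) = ⊤ := by
      rw [eq_top_iff]
      intro c _
      rw [mem_ann]
      intro x hx
      rw [(Submodule.mem_bot F).1 hx, Qf_zero_right]
    rw [htop, finrank_top, Module.finrank_fin_fun, finrank_bot] at h
    have := h hr
    omega
  set q : ℕ := Fintype.card F with hq
  set s : ℝ := Real.sqrt (q : ℝ) with hs
  have hs2 : s ^ 2 = (q : ℝ) := Real.sq_sqrt (Nat.cast_nonneg _)
  have hsle : (C1 : ℝ) + C2 + 1 ≤ s := by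
    rw [hs]
    apply Real.le_sqrt_of_sq_le
    exact_mod_cast hcard
  obtain ⟨ψ, hψ⟩ := (AddChar.exists_apply_ne_zero (α := F) (a := 1)).2 one_ne_zero
  have hψ1 : ψ ≠ 1 := by
    intro h
    apply hψ
    rw [h]
    rfl
  set A : Finset (Fin n → F) :=
    Finset.univ.filter fun x : Fin n → F => ∀ s, bl (M s) x x = 0 with hA
  have hmul := card_zeros_mul ψ hψ1 M
  rw [← hA] at hmul
  have hA2 : A.card * q ^ (r + 1) ≤ C2 * q ^ n := by
    apply hC2 F M hM A
    intro x hx
    have hx' := (Finset.mem_filter.1 hx).2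
    exact ⟨hx', hcon x hx'⟩
  -- split the sum
  set B : Finset (Fin r → F) :=
    (Finset.univ.erase 0).filter fun a => 1 ≤ Module.finrank F (ann M (radB M a)) with hB
  have hsum : ∑ a : Fin r → F, Sx ψ M a = Sx ψ M 0 + ∑ a ∈ B, Sx ψ M a := by
    rw [← Finset.add_sum_erase Finset.univ _ (Finset.mem_univ (0 : Fin r → F))]
    congr 1
    symm
    apply Finset.sum_subset (Finset.filter_subset _ _)
    intro a ha hna
    have ha0 : a ≠ 0 := (Finset.mem_erase.1 ha).1
    have hfr : ¬ (1 ≤ Module.finrank F (ann M (radB M a))) := by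
      intro h
      exact hna (Finset.mem_filter.2 ⟨ha, h⟩)
    apply Sx_eq_zero ψ hψ1
    by_contra hno
    push Not at hno
    have hmem : a ∈ ann M (radB M a) := by
      rw [mem_ann]
      exact hno
    apply hfr
    rw [Nat.one_le_iff_ne_zero, Ne, Submodule.finrank_eq_zero]
    intro hbot
    rw [hbot] at hmem
    exact ha0 ((Submodule.mem_bot F).1 hmem)
  have hS0 : Sx ψ M 0 = (q : ℂ) ^ n := by
    unfold Sx
    have : ∀ x : Fin n → F, ψ (Qf M 0 x) = 1 := by
      intro x
      rw [Qf_zero_left, AddChar.map_zero_eq_one]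
    rw [Finset.sum_congr rfl fun x _ => this x]
    simp [hq]
  have hBsum : ‖∑ a ∈ B, Sx ψ M a‖ ≤ C1 * s ^ (n + n - 1) := by
    refine le_trans (norm_sum_le _ _) ?_
    exact hC1 F ψ hψ1 M n hM B fun a ha => (Finset.mem_filter.1 ha).2
  have hNr : ((A.card : ℝ) * (q : ℝ) ^ r : ℝ) ≥ (q : ℝ) ^ n - C1 * s ^ (n + n - 1) := by
    have h1 : ((A.card : ℂ) * (q : ℂ) ^ r) = (q : ℂ) ^ n + ∑ a ∈ B, Sx ψ M a := by
      rw [hmul, hsum, hS0]
    have h2 : ‖((A.card : ℂ) * (q : ℂ) ^ r)‖ ≥ ‖((q : ℂ) ^ n)‖ - ‖∑ a ∈ B, Sx ψ M a‖ := by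
      rw [h1]
      have := norm_sub_norm_le ((q : ℂ) ^ n) (-(∑ a ∈ B, Sx ψ M a))
      rw [sub_neg_eq_add, norm_neg] at this
      exact this
    have h3 : ‖((A.card : ℂ) * (q : ℂ) ^ r)‖ = (A.card : ℝ) * (q : ℝ) ^ r := by
      simp
    have h4 : ‖((q : ℂ) ^ n)‖ = (q : ℝ) ^ n := by simp
    rw [h3, h4] at h2
    linarith
  refine FNonsing_real s C1 C2 n (Nat.cast_nonneg _) (Nat.cast_nonneg _) hsle hn
    ((A.card : ℝ) * (q : ℝ) ^ r) ?_ ?_
  · rw [pow_mul, hs2]
    exact hNr
  · rw [pow_mul, hs2, mul_assoc, ← pow_succ]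
    exact_mod_cast hA2

end Pool.Agent.Lib.MP_8ab79f_ag.Six
end
end
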