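import Pool.Agent.Lib.MP_8ab79f_ag.Mg.G007

section

set_option autoImplicit false
set_option linter.unusedSectionVars false

noncomputable section

namespace Pool.Agent.Lib.MP_8ab79f_ag.Six

theorem RLift_surj {K : Type*} [Field K] {n r : ℕ} (M : Fin r → Matrix (Fin n) (Fin n) K)
    (x : Fin n → K) (h : ∀ a : Fin r → K, a ≠ 0 → x ∉ radB M a) (c : Fin r → K) :
    ∃ y : Fin n → K, ∀ s, bl (M s) x y + bl (M s) y x = c s := by
  let L : (Fin n → K) →ₗ[K] (Fin r → K) :=
    { toFun := fun y s => bl (M s) x y + bl (M s) y x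
      map_add' := by
        intro y y'; funext s
        simp only [Pi.add_apply, bl_add_left, bl_add_right]; ring
      map_smul' := by
        intro a y; funext s
        simp only [Pi.smul_apply, smul_eq_mul, RingHom.id_apply, bl_smul_left, bl_smul_right]
        ring }
  have htop : LinearMap.range L = ⊤ := by
    by_contra hne
    obtain ⟨f, hf, hle⟩ := Submodule.exists_le_ker_of_lt_top (LinearMap.range L)
      (lt_top_iff_ne_top.2 hne)
    let a : Fin r → K := fun s => f (Pi.single s 1)
    have hfa : ∀ v : Fin r → K, f v = ∑ s, a s * v s := by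
      intro v
      rw [LinearMap.pi_apply_eq_sum_univ f v]
      refine Finset.sum_congr rfl fun s _ => ?_
      have : (fun j => if s = j then (1 : K) else 0) = Pi.single s 1 := by
        funext j
        by_cases hj : s = j
        · subst hj; simp
        · rw [if_neg hj, Pi.single_eq_of_ne (Ne.symm hj)]
      rw [this, smul_eq_mul, mul_comm]
    have ha : a ≠ 0 := by
      intro ha0
      apply hf
      apply LinearMap.ext
      intro v
      rw [hfa v, ha0]
      simp
    apply h a ha
    intro y
    have h1 : f (L y) = 0 := LinearMap.mem_ker.1 (hle (LinearMap.mem_range_self L y))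
    rw [hfa] at h1
    exact h1
  have hc : c ∈ LinearMap.range L := by rw [htop]; trivial
  obtain ⟨y, hy⟩ := hc
  exact ⟨y, fun s => congrFun hy s⟩

open IsLocalRing in
/-- Nonsingular zeros of the reduction lift to approximate zeros. -/
theorem lift_zero {R : Type*} [CommRing R] [IsDomain R] [IsDiscreteValuationRing R]
    (π : R) (hπ : Irreducible π) {n r : ℕ} (M : Fin r → Matrix (Fin n) (Fin n) R)
    (x₀ : Fin n → R) (h0 : ∀ s, π ∣ bl (M s) x₀ x₀)
    (hns : ∀ a : Fin r → ResidueField R, a ≠ 0 →
      (fun i => residue R (x₀ i)) ∉ radB (fun s => (M s).map (residue R)) a) (N : ℕ) :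
    ∃ x : Fin n → R, (∀ i, π ∣ x i - x₀ i) ∧ ∀ s, π ^ N ∣ bl (M s) x x := by
  have hres : ∀ z : R, residue R z = 0 ↔ π ∣ z := by
    intro z
    rw [residue_eq_zero_iff, hπ.maximalIdeal_eq, Ideal.mem_span_singleton]
  have key : ∀ N : ℕ, ∃ x : Fin n → R, (∀ i, π ∣ x i - x₀ i) ∧
      ∀ s, π ^ (N + 1) ∣ bl (M s) x x := by
    intro N
    induction N with
    | zero => exact ⟨x₀, fun i => by simp, fun s => by simpa using h0 s⟩
    | succ N ih =>
      obtain ⟨x, hx, hd⟩ := ih
      choose c hc using hd
      obtain ⟨yb, hyb⟩ := RLift_surj (fun s => (M s).map (residue R))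
        (fun i => residue R (x₀ i)) hns (fun s => - residue R (c s))
      choose y hy using fun i => residue_surjective (yb i)
      have hxr : (fun i => residue R (x i)) = fun i => residue R (x₀ i) := by
        funext i
        have := (hres _).2 (hx i)
        rw [map_sub, sub_eq_zero] at this
        exact this
      have hyr : (fun i => residue R (y i)) = yb := funext hy
      refine ⟨x + π ^ (N + 1) • y, ?_, ?_⟩
      · intro i
        have : (x + π ^ (N + 1) • y) i - x₀ i = (x i - x₀ i) + π * (π ^ N * y i) := by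
          simp only [Pi.add_apply, Pi.smul_apply, smul_eq_mul]; ring
        rw [this]
        exact dvd_add (hx i) (dvd_mul_right _ _)
      · intro s
        have h1 : π ∣ c s + (bl (M s) x y + bl (M s) y x) := by
          rw [← hres, map_add, map_add, bl_map, bl_map, hxr, hyr]
          have h3 : bl ((M s).map (residue R)) (fun i => residue R (x₀ i)) yb +
              bl ((M s).map (residue R)) yb (fun i => residue R (x₀ i)) = - residue R (c s) := hyb s
          rw [h3]
          ring
        obtain ⟨t, ht⟩ := h1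
        have h2 : bl (M s) (x + π ^ (N + 1) • y) (x + π ^ (N + 1) • y) =
            π ^ (N + 1 + 1) * (t + π ^ N * bl (M s) y y) := by
          rw [bl_add_left, bl_add_right, bl_add_right, bl_smul_left, bl_smul_left, bl_smul_right,
            bl_smul_right, hc s]
          linear_combination π ^ (N + 1) * ht
        rw [h2]
        exact dvd_mul_right _ _
  obtain ⟨x, hx, hd⟩ := key N
  exact ⟨x, hx, fun s => (pow_dvd_pow π (Nat.le_succ N)).trans (hd s)⟩

end Pool.Agent.Lib.MP_8ab79f_ag.Six
end
end

section

set_option autoImplicit false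
set_option linter.unusedSectionVars false

noncomputable section

namespace Pool.Agent.Lib.MP_8ab79f_ag.Six

theorem RLeep_bl_sum_left {ι κ : Type*} [Fintype ι] {S : Type*} [CommRing S]
    (A : Matrix ι ι S) (s : Finset κ) (u : κ → ι → S) (y : ι → S) :
    bl A (∑ a ∈ s, u a) y = ∑ a ∈ s, bl A (u a) y := by
  classical
  induction s using Finset.induction_on with
  | empty => simp [bl_zero_left]
  | insert a s ha ih => rw [Finset.sum_insert ha, Finset.sum_insert ha, bl_add_left, ih]

theorem RLeep_bl_sum_right {ι κ : Type*} [Fintype ι] {S : Type*} [CommRing S]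
    (A : Matrix ι ι S) (s : Finset κ) (u : κ → ι → S) (y : ι → S) :
    bl A y (∑ a ∈ s, u a) = ∑ a ∈ s, bl A y (u a) := by
  classical
  induction s using Finset.induction_on with
  | empty => simp [bl_zero_right]
  | insert a s ha ih => rw [Finset.sum_insert ha, Finset.sum_insert ha, bl_add_right, ih]

theorem RLeep_bl_single {ι : Type*} [Fintype ι] [DecidableEq ι] {S : Type*} [CommRing S]
    (A : Matrix ι ι S) (i j : ι) (c d : S) :
    bl A (Pi.single i c) (Pi.single j d) = A i j * c * d := by
  unfold bl
  rw [Finset.sum_eq_single i, Finset.sum_eq_single j]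
  · simp
  · intro b _ hb
    simp [hb]
  · simp
  · intro b _ hb
    refine Finset.sum_eq_zero fun k _ => ?_
    simp [hb]
  · simp

open Polynomial in
/-- Quadratic forms over `K[t]` from systems of quadratic forms over `K`. -/
theorem leep {K : Type*} [Field K] (D : ℕ)
    (h : ∀ M : Fin (5 * D + 1) →
      Matrix (Fin (4 * (5 * D + 1) + 1)) (Fin (4 * (5 * D + 1) + 1)) K,
      ∃ x : Fin (4 * (5 * D + 1) + 1) → K, x ≠ 0 ∧ ∀ s, bl (M s) x x = 0)
    (M : Matrix (Fin 10) (Fin 10) K[X]) (hM : ∀ i j, (M i j).natDegree ≤ D) :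
    ∃ v : Fin 10 → K[X], v ≠ 0 ∧ bl M v v = 0 := by
  classical
  have hcard : Fintype.card (Fin (4 * (5 * D + 1) + 1)) ≤
      Fintype.card (Fin 10 × Fin (2 * D + 1)) := by
    simp only [Fintype.card_prod, Fintype.card_fin]
    omega
  obtain ⟨e⟩ := Function.Embedding.nonempty_of_card_le hcard
  obtain ⟨x, hx0, hx⟩ := h fun s => Matrix.of fun a b =>
    (M (e a).1 (e b).1 * X ^ ((e a).2 : ℕ) * X ^ ((e b).2 : ℕ)).coeff (s : ℕ)
  set u : Fin (4 * (5 * D + 1) + 1) → Fin 10 → K[X] :=
    fun a => Pi.single (e a).1 (C (x a) * X ^ ((e a).2 : ℕ)) with hu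
  refine ⟨∑ a, u a, ?_, ?_⟩
  · intro h0
    apply hx0
    ext a
    have h1 := congrFun h0 (e a).1
    rw [Finset.sum_apply] at h1
    have h2 := congrArg (fun p : K[X] => p.coeff ((e a).2 : ℕ)) h1
    simp only [finsetSum_coeff, Pi.zero_apply, coeff_zero] at h2
    rw [Finset.sum_eq_single a] at h2
    · simpa [hu] using h2
    · intro b _ hb
      have hne : e b ≠ e a := fun hh => hb (e.injective hh)
      by_cases h3 : (e a).1 = (e b).1
      · have h4 : (e a).2 ≠ (e b).2 := fun h4 => hne (Prod.ext h3.symm h4.symm)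
        have h5 : ((e a).2 : ℕ) ≠ ((e b).2 : ℕ) := fun h5 => h4 (Fin.ext h5)
        simp only [hu, h3, Pi.single_eq_same, coeff_C_mul_X_pow, h5, if_false]
      · simp only [hu, Pi.single_apply, h3, if_false, coeff_zero]
    · simp
  · have key : bl M (∑ a, u a) (∑ a, u a) = ∑ a, ∑ b,
        C (x a * x b) * (M (e a).1 (e b).1 * X ^ ((e a).2 : ℕ) * X ^ ((e b).2 : ℕ)) := by
      rw [RLeep_bl_sum_left]
      refine Finset.sum_congr rfl fun a _ => ?_
      rw [RLeep_bl_sum_right]
      refine Finset.sum_congr rfl fun b _ => ?_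
      rw [hu]
      simp only
      rw [RLeep_bl_single, C_mul]
      ring
    rw [key]
    ext s
    rw [coeff_zero]
    simp only [finsetSum_coeff, coeff_C_mul]
    by_cases hs : s < 5 * D + 1
    · have h1 := hx ⟨s, hs⟩
      unfold bl at h1
      simp only [Matrix.of_apply] at h1
      rw [← h1]
      refine Finset.sum_congr rfl fun a _ => Finset.sum_congr rfl fun b _ => ?_
      ring
    · refine Finset.sum_eq_zero fun a _ => Finset.sum_eq_zero fun b _ => ?_
      rw [coeff_eq_zero_of_natDegree_lt, mul_zero]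
      have h1 : (M (e a).1 (e b).1 * X ^ ((e a).2 : ℕ) * X ^ ((e b).2 : ℕ)).natDegree ≤
          D + (e a).2 + (e b).2 := by
        refine (natDegree_mul_le).trans (add_le_add ?_ (natDegree_X_pow_le _))
        exact (natDegree_mul_le).trans (add_le_add (hM _ _) (natDegree_X_pow_le _))
      have h2 := (e a).2.2
      have h3 := (e b).2.2
      omega

end Pool.Agent.Lib.MP_8ab79f_ag.Six
end
end

section

set_option autoImplicit false
set_option linter.unusedSectionVars false

noncomputable section

namespace Pool.Agent.Lib.MP_8ab79f_ag.Six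

universe u

open Polynomial in
/-- Irreducible monic polynomials of every positive degree over the prime field. -/
theorem ROdd_irred (p : ℕ) [Fact p.Prime] (d : ℕ) (hd : d ≠ 0) :
    ∃ f : (ZMod p)[X], f.Monic ∧ Irreducible f ∧ f.natDegree = d := by
  obtain ⟨a, ha⟩ := Field.exists_primitive_element (ZMod p) (GaloisField p d)
  have hfd : FiniteDimensional (ZMod p) (GaloisField p d) := inferInstance
  have hint : IsIntegral (ZMod p) a := IsIntegral.of_finite (ZMod p) a
  refine ⟨minpoly (ZMod p) a, minpoly.monic hint, minpoly.irreducible hint, ?_⟩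
  rw [← IntermediateField.adjoin.finrank hint, ha, IntermediateField.finrank_top']
  exact GaloisField.finrank p hd

open Polynomial in
/-- Extensions of odd degree with a large residue field. -/
theorem exists_odd_ext (p : ℕ) [Fact p.Prime] (K : Type u) [Field K] [Algebra ℚ_[p] K]
    [FiniteDimensional ℚ_[p] K] (c : ℕ) :
    ∃ (L : Type u) (_ : Field L) (_ : Algebra K L) (_ : Algebra ℚ_[p] L)
      (_ : IsScalarTower ℚ_[p] K L) (_ : FiniteDimensional K L), Odd (Module.finrank K L) ∧
      ∃ (g : ℤ_[p][X]) (α : L), g.Monic ∧ Irreducible (g.map PadicInt.toZMod) ∧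
        aeval α (g.map (algebraMap ℤ_[p] ℚ_[p])) = 0 ∧ c ≤ p ^ g.natDegree := by
  obtain ⟨d, hdle, hdp⟩ := Nat.exists_infinite_primes (Module.finrank ℚ_[p] K + c + 3)
  have hd0 : d ≠ 0 := by omega
  obtain ⟨f, hfm, hfi, hfd⟩ := ROdd_irred p d hd0
  -- lift
  have hlift : f ∈ lifts (PadicInt.toZMod (p := p)) := by
    rw [mem_lifts]
    exact Polynomial.map_surjective _ (ZMod.ringHom_surjective _) f
  obtain ⟨g, hgf, hgd, hgm⟩ := lifts_and_natDegree_eq_and_monic hlift hfm
  have hgi : Irreducible (g.map PadicInt.toZMod) := by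
    rw [hgf]
    exact hfi
  have hgirr : Irreducible g := Monic.irreducible_of_irreducible_map _ g hgm hgi
  set G : ℚ_[p][X] := g.map (algebraMap ℤ_[p] ℚ_[p]) with hG
  have hGirr : Irreducible G :=
    (Monic.irreducible_iff_irreducible_map_fraction_map hgm).1 hgirr
  have hGm : G.Monic := hgm.map _
  have hGd : G.natDegree = d := by
    rw [hG, hgm.natDegree_map, hgd, hfd]
  set H : K[X] := G.map (algebraMap ℚ_[p] K) with hH
  have hHm : H.Monic := hGm.map _
  have hHd : H.natDegree = d := by
    rw [hH, hGm.natDegree_map, hGd]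
  set g1 : K[X] := H.factor with hg1
  have hirr : Irreducible g1 := irreducible_factor H
  have hdvd : g1 ∣ H := factor_dvd_of_natDegree_ne_zero (by rw [hHd]; exact hd0)
  have : Fact (Irreducible g1) := ⟨hirr⟩
  have hg0 : g1 ≠ 0 := hirr.ne_zero
  let pb := AdjoinRoot.powerBasis hg0
  have hfin : FiniteDimensional K (AdjoinRoot g1) := pb.finite
  have hdeg : Module.finrank K (AdjoinRoot g1) = g1.natDegree := by
    rw [pb.finrank, AdjoinRoot.powerBasis_dim]
  have htow : IsScalarTower ℚ_[p] K (AdjoinRoot g1) := inferInstance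
  have hfin' : FiniteDimensional ℚ_[p] (AdjoinRoot g1) := Module.Finite.trans K _
  set α : AdjoinRoot g1 := AdjoinRoot.root g1 with hα
  have hroot : aeval α H = 0 := by
    rw [hα, AdjoinRoot.aeval_eq, AdjoinRoot.mk_eq_zero]
    exact hdvd
  have hrootG : aeval α G = 0 := by
    rw [hH, aeval_map_algebraMap] at hroot
    exact hroot
  have hmin : G = minpoly ℚ_[p] α := minpoly.eq_of_irreducible_of_monic hGirr hrootG hGm
  have hdiv : d ∣ Module.finrank ℚ_[p] (AdjoinRoot g1) := by
    have h1 := minpoly.degree_dvd (K := ℚ_[p]) (IsIntegral.of_finite ℚ_[p] α)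
    rw [← hmin, hGd] at h1
    exact h1
  rw [← Module.finrank_mul_finrank ℚ_[p] K (AdjoinRoot g1), hdeg] at hdiv
  have hpos : 0 < Module.finrank ℚ_[p] K := Module.finrank_pos
  have hnd : d ∣ g1.natDegree := by
    rcases (Nat.Prime.dvd_mul hdp).1 hdiv with h | h
    · have := Nat.le_of_dvd hpos h
      omega
    · exact h
  have hle : g1.natDegree ≤ d := by
    rw [← hHd]
    exact natDegree_le_of_dvd hdvd hHm.ne_zero
  have hpos1 : 0 < g1.natDegree := hirr.natDegree_pos
  have heq : g1.natDegree = d := le_antisymm hle (Nat.le_of_dvd hpos1 hnd)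
  refine ⟨AdjoinRoot g1, inferInstance, inferInstance, inferInstance, htow, hfin, ?_, g, α, hgm,
    hgi, hrootG, ?_⟩
  · rw [hdeg, heq]
    exact hdp.odd_of_ne_two (by omega)
  · rw [hgd, hfd]
    have h2 : d < p ^ d := Nat.lt_pow_self (Fact.out : p.Prime).one_lt
    omega

end Pool.Agent.Lib.MP_8ab79f_ag.Six
end
end

section

set_option autoImplicit false
set_option linter.unusedSectionVars false

noncomputable section

namespace Pool.Agent.Lib.MP_8ab79f_ag.Six

open Polynomial in
/-- An irreducible polynomial over `K` stays irreducible over the rational function field. -/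
theorem irreducible_map_ratFunc {K : Type*} [Field K] (g : K[X]) (hg : Irreducible g)
    (hm : g.Monic) : Irreducible (g.map (algebraMap K (RatFunc K))) := by
  have h1 : Irreducible (g.map (C : K →+* K[X])) := by
    apply Monic.irreducible_of_irreducible_map (evalRingHom (0 : K)) _ (hm.map _)
    rw [map_map]
    have : (evalRingHom (0 : K)).comp (C : K →+* K[X]) = RingHom.id K := by
      ext x
      simp
    rw [this, map_id]
    exact hg
  have h2 := (((hm.map (C : K →+* K[X])).irreducible_iff_irreducible_map_fraction_map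
    (K := RatFunc K)).1 h1)
  rw [map_map] at h2
  have h3 : (algebraMap K[X] (RatFunc K)).comp (C : K →+* K[X]) = algebraMap K (RatFunc K) := by
    rw [IsScalarTower.algebraMap_eq K K[X] (RatFunc K)]
    rfl
  rwa [h3] at h2

end Pool.Agent.Lib.MP_8ab79f_ag.Six
end
end

section

set_option autoImplicit false
set_option linter.unusedSectionVars false

noncomputable section

namespace Pool.Agent.Lib.MP_8ab79f_ag.Six

open Polynomial in
/-- A nonzero polynomial vector is a multiple of a unimodular one. -/
theorem RSpr_aux1 {K : Type*} [Field K] {n : ℕ} (r : Fin n → K[X]) (hr : r ≠ 0) :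
    ∃ (c : K[X]) (s a : Fin n → K[X]), c ≠ 0 ∧ (∀ i, r i = c * s i) ∧ ∑ i, a i * s i = 1 := by
  set I : Ideal K[X] := Ideal.span (Set.range r) with hI
  set c := Submodule.IsPrincipal.generator I with hc
  have hdvd : ∀ i, c ∣ r i := fun i =>
    (Submodule.IsPrincipal.mem_iff_generator_dvd I).1 (Ideal.subset_span ⟨i, rfl⟩)
  choose s hs using hdvd
  obtain ⟨a, ha⟩ := (Ideal.mem_span_range_iff_exists_fun (R := K[X])).1
    (Submodule.IsPrincipal.generator_mem I)
  have hc0 : c ≠ 0 := by
    intro h0
    apply hr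
    funext i
    rw [hs i, h0, zero_mul]
    rfl
  refine ⟨c, s, a, hc0, hs, ?_⟩
  apply mul_left_cancel₀ hc0
  rw [mul_one, Finset.mul_sum]
  rw [← hc] at ha
  conv_rhs => rw [← ha]
  refine Finset.sum_congr rfl fun i _ => ?_
  rw [hs i]
  ring

open Polynomial in
/-- The degree of the value of an anisotropic form at a polynomial vector. -/
theorem RSpr_aux2 {K : Type*} [Field K] {n : ℕ} (M : Matrix (Fin n) (Fin n) K)
    (hM : ∀ v : Fin n → K, v ≠ 0 → bl M v v ≠ 0) (s : Fin n → K[X]) (hs : s ≠ 0) (d : ℕ)
    (hd : ∀ i, (s i).natDegree < d) :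
    ∃ m : ℕ, m < d ∧ (bl (M.map C) s s).natDegree = m + m ∧ bl (M.map C) s s ≠ 0 := by
  set m := Finset.univ.sup (fun i => (s i).natDegree) with hm
  have hle : ∀ i, (s i).natDegree ≤ m := fun i =>
    Finset.le_sup (f := fun i => (s i).natDegree) (Finset.mem_univ i)
  have hne : ∃ i, s i ≠ 0 := by
    by_contra h
    push Not at h
    exact hs (funext h)
  obtain ⟨i0, hi0⟩ := hne
  have hmd : m < d := by
    have hd0 : 0 < d := lt_of_le_of_lt (Nat.zero_le _) (hd i0)
    rw [hm, Finset.sup_lt_iff hd0]
    exact fun i _ => hd i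
  have hu : (fun i => (s i).coeff m) ≠ 0 := by
    intro h
    have h1 : ∀ i, (s i).coeff m = 0 := fun i => congrFun h i
    have h2 : ∀ i, s i ≠ 0 → (s i).natDegree < m := by
      intro i hi
      refine lt_of_le_of_ne (hle i) fun he => hi ?_
      have := h1 i
      rw [← he] at this
      exact leadingCoeff_eq_zero.1 this
    have hm0 : 0 < m := lt_of_le_of_lt (Nat.zero_le _) (h2 i0 hi0)
    have h3 : m < m := by
      conv_lhs => rw [hm]
      rw [Finset.sup_lt_iff hm0]
      intro i _
      by_cases hi : s i = 0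
      · rw [hi, natDegree_zero]
        exact hm0
      · exact h2 i hi
    exact lt_irrefl _ h3
  have hcoeff : (bl (M.map C) s s).coeff (m + m) =
      bl M (fun i => (s i).coeff m) (fun i => (s i).coeff m) := by
    unfold bl
    rw [finsetSum_coeff]
    refine Finset.sum_congr rfl fun i _ => ?_
    rw [finsetSum_coeff]
    refine Finset.sum_congr rfl fun j _ => ?_
    rw [Matrix.map_apply, mul_assoc, coeff_C_mul, coeff_mul_add_eq_of_natDegree_le (hle i) (hle j),
      mul_assoc]
  have hne2 : (bl (M.map C) s s).coeff (m + m) ≠ 0 := by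
    rw [hcoeff]
    exact hM _ hu
  have hdeg : (bl (M.map C) s s).natDegree ≤ m + m := by
    unfold bl
    refine natDegree_sum_le_of_forall_le _ _ fun i _ => ?_
    refine natDegree_sum_le_of_forall_le _ _ fun j _ => ?_
    rw [Matrix.map_apply, mul_assoc]
    refine (natDegree_C_mul_le _ _).trans ?_
    exact natDegree_mul_le_of_le (hle i) (hle j)
  refine ⟨m, hmd, natDegree_eq_of_le_of_coeff_ne_zero hdeg hne2, ?_⟩
  intro h0
  rw [h0, coeff_zero] at hne2
  exact hne2 rfl

open Polynomial in
/-- Springer's theorem, in terms of polynomials of odd degree. -/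
theorem springer_poly {K : Type*} [Field K] {n : ℕ} (M : Matrix (Fin n) (Fin n) K)
    (hM : ∀ v : Fin n → K, v ≠ 0 → bl M v v ≠ 0) (g : K[X]) (hg : Odd g.natDegree)
    (v : Fin n → K[X]) (hv : ∀ q : K[X], Irreducible q → q ∣ g → ∃ i, ¬ q ∣ v i) :
    ¬ g ∣ bl (M.map C) v v := by
  induction hd : g.natDegree using Nat.strong_induction_on generalizing g v with
  | _ d ih =>
  intro hdiv
  classical
  have hd0 : g.natDegree ≠ 0 := by
    intro h0
    rw [h0] at hg
    exact absurd hg (by decide)
  have hg0 : g ≠ 0 := by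
    rintro rfl
    exact hd0 natDegree_zero
  set r : Fin n → K[X] := fun i => v i % g with hr
  have hrv : ∀ i, g ∣ v i - r i := by
    intro i
    refine ⟨v i / g, ?_⟩
    have := EuclideanDomain.div_add_mod (v i) g
    rw [hr]
    linear_combination -this
  have hrq : ∀ q : K[X], Irreducible q → q ∣ g → ∃ i, ¬ q ∣ r i := by
    intro q hq hqg
    obtain ⟨i, hi⟩ := hv q hq hqg
    refine ⟨i, fun h => hi ?_⟩
    have h1 := dvd_add (hqg.trans (hrv i)) h
    rwa [sub_add_cancel] at h1
  have hrdiv : g ∣ bl (M.map C) r r := by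
    have h1 := bl_dvd (M.map C) hrv hrv
    have h2 := dvd_sub hdiv h1
    rwa [sub_sub_cancel] at h2
  have hgu : ¬ IsUnit g := by
    intro h
    exact hd0 (natDegree_eq_zero_of_isUnit h)
  obtain ⟨q0, hq0, hq0g⟩ := WfDvdMonoid.exists_irreducible_factor hgu hg0
  have hr0 : r ≠ 0 := by
    intro h
    obtain ⟨i, hi⟩ := hrq q0 hq0 hq0g
    apply hi
    rw [h]
    exact dvd_zero _
  obtain ⟨c, s, a, hc0, hcs, has⟩ := RSpr_aux1 r hr0
  have hcop : IsCoprime g c := by
    rw [← EuclideanDomain.gcd_isUnit_iff] 
    by_contra hnu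
    have hne : EuclideanDomain.gcd g c ≠ 0 := by
      intro h
      exact hg0 (EuclideanDomain.gcd_eq_zero_iff.1 h).1
    obtain ⟨q, hq, hqd⟩ := WfDvdMonoid.exists_irreducible_factor hnu hne
    obtain ⟨i, hi⟩ := hrq q hq (hqd.trans (EuclideanDomain.gcd_dvd_left _ _))
    apply hi
    rw [hcs i]
    exact (hqd.trans (EuclideanDomain.gcd_dvd_right _ _)).mul_right _
  have hsdiv : g ∣ bl (M.map C) s s := by
    have h1 : bl (M.map C) r r = c * (c * bl (M.map C) s s) := by
      have h2 : r = c • s := by
        funext i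
        rw [hcs i]
        rfl
      rw [h2, bl_smul_left, bl_smul_right]
    rw [h1] at hrdiv
    exact hcop.dvd_of_dvd_mul_left (hcop.dvd_of_dvd_mul_left hrdiv)
  have hs0 : s ≠ 0 := by
    rintro rfl
    apply hr0
    funext i
    rw [hcs i]
    simp
  have hsd : ∀ i, (s i).natDegree < g.natDegree := by
    intro i
    have h1 : (r i).natDegree < g.natDegree := natDegree_mod_lt _ hd0
    refine lt_of_le_of_lt ?_ h1
    by_cases hi : s i = 0
    · rw [hi, natDegree_zero]
      exact Nat.zero_le _
    · rw [hcs i, natDegree_mul hc0 hi]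
      exact Nat.le_add_left _ _
  obtain ⟨m, hmd, hdeg, hne⟩ := RSpr_aux2 M hM s hs0 g.natDegree hsd
  obtain ⟨h, hh⟩ := hsdiv
  have hh0 : h ≠ 0 := by
    rintro rfl
    rw [mul_zero] at hh
    exact hne hh
  have hdh : m + m = g.natDegree + h.natDegree := by
    rw [← hdeg, hh, natDegree_mul hg0 hh0]
  have hodd : Odd h.natDegree := by
    rw [Nat.odd_iff] at hg ⊢
    omega
  refine ih h.natDegree (by omega) h hodd s ?_ rfl ⟨g, by rw [hh, mul_comm]⟩
  intro q hq _
  by_contra hall
  push Not at hall
  apply hq.not_isUnit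
  rw [isUnit_iff_dvd_one, ← has]
  exact Finset.dvd_sum fun i _ => (hall i).mul_left _

end Pool.Agent.Lib.MP_8ab79f_ag.Six
end
end

section

set_option autoImplicit false
set_option linter.unusedSectionVars false

noncomputable section

namespace Pool.Agent.Lib.MP_8ab79f_ag.Six

open Polynomial in
/-- The evaluation of the second variable at `α`. -/
def RSprT_phi {K L : Type*} [Field K] [Field L] [Algebra K L] (α : L) : K[X][X] →+* L[X] :=
  eval₂RingHom (mapRingHom (algebraMap K L)) (C α)

open Polynomial in
theorem RSprT_coeff {K L : Type*} [Field K] [Field L] [Algebra K L] (α : L) (p : K[X][X])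
    (j : ℕ) : (RSprT_phi α p).coeff j =
      aeval α (∑ i ∈ Finset.range (p.natDegree + 1), monomial i ((p.coeff i).coeff j)) := by
  rw [RSprT_phi, coe_eval₂RingHom, eval₂_eq_sum_range, finsetSum_coeff, map_sum]
  refine Finset.sum_congr rfl fun i _ => ?_
  rw [← C_pow, coeff_mul_C, coe_mapRingHom, coeff_map, aeval_monomial]

open Polynomial in
theorem RSprT_injective {K L : Type*} [Field K] [Field L] [Algebra K L] (α : L)
    (hα : IsIntegral K α) (p : K[X][X]) (hp : p.degree < (minpoly K α).degree)
    (h : RSprT_phi α p = 0) : p = 0 := by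
  ext i j
  rw [coeff_zero, coeff_zero]
  have h1 := RSprT_coeff α p j
  rw [h, coeff_zero] at h1
  set q : K[X] := ∑ i ∈ Finset.range (p.natDegree + 1), monomial i ((p.coeff i).coeff j) with hq
  have hcoeff : ∀ i, q.coeff i = (p.coeff i).coeff j := by
    intro i
    rw [hq, finsetSum_coeff]
    simp only [coeff_monomial]
    rw [Finset.sum_ite_eq' ]
    split_ifs with hi
    · rfl
    · rw [Finset.mem_range, not_lt] at hi
      rw [coeff_eq_zero_of_natDegree_lt (p := p) (n := i) (by omega), coeff_zero]
  have hqd : q.degree < (minpoly K α).degree := by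
    refine lt_of_le_of_lt ?_ hp
    rw [degree_le_iff_coeff_zero]
    intro m hm
    rw [hcoeff, coeff_eq_zero_of_degree_lt hm, coeff_zero]
  have hq0 : q = 0 := by
    by_contra hne
    exact absurd hqd (not_lt.2 (minpoly.degree_le_of_ne_zero K α hne h1.symm))
  rw [← hcoeff, hq0, coeff_zero]

open Polynomial in
theorem RSprT_minpoly {K L : Type*} [Field K] [Field L] [Algebra K L] (α : L) :
    RSprT_phi α ((minpoly K α).map C) = 0 := by
  rw [RSprT_phi, coe_eval₂RingHom, eval₂_map]
  have : (mapRingHom (algebraMap K L)).comp (C : K →+* K[X]) =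
      (C : L →+* L[X]).comp (algebraMap K L) := by
    ext x
    simp
  rw [this, ← hom_eval₂]
  have h2 : eval₂ (algebraMap K L) α (minpoly K α) = 0 := minpoly.aeval K α
  rw [h2, map_zero]

open Polynomial in
theorem RSprT_surjective {K L : Type*} [Field K] [Field L] [Algebra K L] (α : L)
    (hα : Algebra.adjoin K {α} = ⊤) (f : L[X]) : ∃ p : K[X][X], RSprT_phi α p = f := by
  induction f using Polynomial.induction_on' with
  | add p q hp hq =>
    obtain ⟨a, rfl⟩ := hp
    obtain ⟨b, rfl⟩ := hq
    exact ⟨a + b, map_add _ _ _⟩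
  | monomial n a =>
    have h1 : a ∈ Algebra.adjoin K {α} := by
      rw [hα]
      trivial
    rw [Algebra.adjoin_singleton_eq_range_aeval] at h1
    obtain ⟨q, hq⟩ := h1
    refine ⟨C (X ^ n) * q.map C, ?_⟩
    have hq' : eval₂ (algebraMap K L) α q = a := hq
    have hc : (mapRingHom (algebraMap K L)).comp (C : K →+* K[X]) =
        (C : L →+* L[X]).comp (algebraMap K L) := by
      ext x
      simp
    have h3 : RSprT_phi α (q.map C) = C a := by
      rw [RSprT_phi, coe_eval₂RingHom, eval₂_map, hc, ← hom_eval₂, hq']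
    rw [map_mul, h3]
    have h4 : RSprT_phi α (C (X ^ n) : K[X][X]) = X ^ n := by
      rw [RSprT_phi, coe_eval₂RingHom, eval₂_C, coe_mapRingHom, Polynomial.map_pow, map_X]
    rw [h4, ← C_mul_X_pow_eq_monomial, mul_comm]

open Polynomial in
/-- Springer's theorem for quadratic forms with polynomial coefficients and an extension of odd
degree of the field of constants. -/
theorem springer_t {K L : Type*} [Field K] [CharZero K] [Field L] [Algebra K L]
    [FiniteDimensional K L] (hodd : Odd (Module.finrank K L)) {n : ℕ}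
    (M : Matrix (Fin n) (Fin n) K[X]) (w : Fin n → L[X]) (hw : w ≠ 0)
    (hMw : bl (M.map (mapRingHom (algebraMap K L))) w w = 0) :
    ∃ v : Fin n → K[X], v ≠ 0 ∧ bl M v v = 0 := by
  classical
  by_contra hno
  push Not at hno
  let pb := Field.powerBasisOfFiniteOfSeparable K L
  set α := pb.gen with hα
  have hint : IsIntegral K α := Algebra.IsIntegral.isIntegral α
  have hadj : Algebra.adjoin K {α} = ⊤ := pb.adjoin_gen_eq_top
  set g := minpoly K α with hg
  have hgm : g.Monic := minpoly.monic hint
  have hgd : g.natDegree = Module.finrank K L := by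
    rw [hg, pb.natDegree_minpoly, pb.finrank]
  -- the lift of the zero
  have hlift : ∀ f : L[X], ∃ p : K[X][X], p.degree < g.degree ∧ RSprT_phi α p = f := by
    intro f
    obtain ⟨p, hp⟩ := RSprT_surjective (K := K) α hadj f
    have hm : (g.map (C : K →+* K[X])).Monic := hgm.map _
    refine ⟨p %ₘ (g.map C), ?_, ?_⟩
    · have h1 := degree_modByMonic_lt p hm
      rwa [hgm.degree_map] at h1
    · have h1 := modByMonic_add_div p (g.map (C : K →+* K[X]))
      have h2 := congrArg (RSprT_phi (K := K) α) h1
      rw [map_add, map_mul, RSprT_minpoly, zero_mul, add_zero, hp] at h2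
      exact h2
  choose p hpd hpw using hlift
  set v : Fin n → K[X][X] := fun i => p (w i) with hv
  have hv1 : ∀ i, RSprT_phi (K := K) α (v i) = w i := fun i => hpw (w i)
  have hval : RSprT_phi (K := K) α (bl (M.map C) v v) = 0 := by
    rw [bl_map]
    have h1 : ((M.map C).map (RSprT_phi (K := K) α)) = M.map (mapRingHom (algebraMap K L)) := by
      ext i j : 1
      simp [RSprT_phi]
    rw [h1]
    simp only [hv1]
    exact hMw
  have hdvd : g.map (C : K →+* K[X]) ∣ bl (M.map C) v v := by
    have hm : (g.map (C : K →+* K[X])).Monic := hgm.map _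
    rw [← modByMonic_eq_zero_iff_dvd hm]
    apply RSprT_injective α hint
    · have h1 := degree_modByMonic_lt (bl (M.map C) v v) hm
      rwa [hgm.degree_map] at h1
    · have h1 := modByMonic_add_div (bl (M.map C) v v) (g.map (C : K →+* K[X]))
      have h2 := congrArg (RSprT_phi (K := K) α) h1
      rw [map_add, map_mul, RSprT_minpoly, zero_mul, add_zero, hval] at h2
      exact h2
  -- pass to the rational function field
  set ψ : K[X] →+* RatFunc K := algebraMap K[X] (RatFunc K) with hψ
  have hψi : Function.Injective ψ := IsFractionRing.injective K[X] (RatFunc K)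
  set M' : Matrix (Fin n) (Fin n) (RatFunc K) := M.map ψ with hM'
  have haniso : ∀ u : Fin n → RatFunc K, u ≠ 0 → bl M' u u ≠ 0 := by
    intro u hu h0
    obtain ⟨b, hb⟩ := IsLocalization.exist_integer_multiples_of_finite (nonZeroDivisors K[X]) u
    choose y hy using hb
    have hb0 : (b : K[X]) ≠ 0 := nonZeroDivisors.ne_zero b.2
    have hyu : (fun i => ψ (y i)) = ψ (b : K[X]) • u := by
      funext i
      have := hy i
      rw [Pi.smul_apply, smul_eq_mul, hψ, this, Algebra.smul_def]
    have hy0 : y ≠ 0 := by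
      rintro rfl
      apply hu
      funext i
      have h1 := congrFun hyu i
      simp only [Pi.zero_apply, map_zero, Pi.smul_apply, smul_eq_mul] at h1
      rcases mul_eq_zero.1 h1.symm with h2 | h2
      · exact absurd (hψi (h2.trans (map_zero ψ).symm)) hb0
      · exact h2
    apply hno y hy0
    apply hψi
    rw [bl_map, hyu, bl_smul_left, bl_smul_right, h0, mul_zero, mul_zero, map_zero]
  set g' : (RatFunc K)[X] := g.map (algebraMap K (RatFunc K)) with hg'
  have hirr : Irreducible g' := irreducible_map_ratFunc g (minpoly.irreducible hint) hgm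
  have hg'd : Odd g'.natDegree := by
    rw [hg', hgm.natDegree_map, hgd]
    exact hodd
  set v' : Fin n → (RatFunc K)[X] := fun i => (v i).map ψ with hv'
  have hdvd' : g' ∣ bl (M'.map C) v' v' := by
    have h1 := map_dvd (mapRingHom ψ) hdvd
    rw [bl_map] at h1
    have h2 : (M.map (C : K[X] →+* K[X][X])).map (mapRingHom ψ) = M'.map C := by
      ext i j : 1
      simp [hM']
    have h3 : mapRingHom ψ (g.map (C : K →+* K[X])) = g' := by
      rw [coe_mapRingHom, map_map, hg']
      congr 1
    rw [h2, h3] at h1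
    exact h1
  refine springer_poly M' haniso g' hg'd v' ?_ hdvd'
  intro q hq hqg
  by_contra hall
  push Not at hall
  have hass : g' ∣ q := (hq.associated_of_dvd hirr hqg).symm.dvd
  apply hw
  funext i
  have h1 : g' ∣ v' i := hass.trans (hall i)
  have h2 : v' i = 0 := by
    apply eq_zero_of_dvd_of_degree_lt h1
    rw [hv', hg', hgm.degree_map]
    exact lt_of_le_of_lt degree_map_le (hpd (w i))
  have h3 : v i = 0 := (Polynomial.map_eq_zero_iff hψi).1 h2
  rw [← hv1 i, h3, map_zero]
  rfl

end Pool.Agent.Lib.MP_8ab79f_ag.Six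
end
end
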