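import Pool.Agent.Lib.MP_8ab79f_ag.Mg.G008
import Pool.Agent.Lib.MP_8ab79f_ag.Mg.G009
import Pool.Agent.Lib.MP_8ab79f_ag.Mg.G006
import Pool.Agent.Lib.MP_8ab79f_ag.Mg.G007

section

set_option autoImplicit false
set_option linter.unusedSectionVars false

noncomputable section

namespace Pool.Agent.Lib.MP_8ab79f_ag.Six

open IsLocalRing in
theorem RHB_dvd_iff {R : Type*} [CommRing R] [IsDomain R] [IsDiscreteValuationRing R]
    {π : R} (hπ : Irreducible π) (a : R) : π ∣ a ↔ residue R a = 0 := by
  rw [residue_eq_zero_iff, hπ.maximalIdeal_eq, Ideal.mem_span_singleton]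

open IsLocalRing in
/-- Heath-Brown's theorem: `r` quadratic forms in `4 r + 1` variables over a local field with a
large residue field have a common nontrivial zero. -/
theorem hb (r : ℕ) : ∃ C : ℕ, ∀ (R : Type*) [CommRing R] [IsDomain R]
    [IsDiscreteValuationRing R] (π : R), Irreducible π → CompactProp R π →
    Finite (ResidueField R) → C ≤ Nat.card (ResidueField R) →
    ∀ M : Fin r → Matrix (Fin (4 * r + 1)) (Fin (4 * r + 1)) R,
      ∃ x : Fin (4 * r + 1) → R, x ≠ 0 ∧ ∀ s, bl (M s) x x = 0 := by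
  induction r using Nat.strong_induction_on with
  | _ r IH =>
    rcases Nat.eq_zero_or_pos r with rfl | hr
    · refine ⟨0, fun R _ _ _ π hπ hc hf hcard M => ⟨fun _ => 1, ?_, fun s => s.elim0⟩⟩
      intro h
      exact one_ne_zero (congrFun h 0)
    · choose C hC using IH
      obtain ⟨C1, hC1⟩ := exists_nonsingular (4 * r + 1) r
      refine ⟨C1 + ∑ m : Fin r, C m m.2, ?_⟩
      intro R _ _ _ π hπ hc hf hcard M
      by_contra hcon
      have hM : ∀ x : Fin (4 * r + 1) → R, x ≠ 0 → ∃ s, bl (M s) x x ≠ 0 := by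
        intro x hx
        by_contra h
        exact hcon ⟨x, hx, fun s => by
          by_contra h'
          exact h ⟨s, h'⟩⟩
      obtain ⟨C0, hC0⟩ : ∃ C0 : ℕ, ∀ x : Fin (4 * r + 1) → R, (∃ i, ¬ π ∣ x i) →
          ∃ s, ¬ π ^ C0 ∣ bl (M s) x x := by
        by_contra h
        push Not at h
        obtain ⟨x, ⟨i, hi⟩, hx⟩ := hc _ _ M (fun N => by
          obtain ⟨x, hx, hx2⟩ := h N
          exact ⟨x, hx, hx2⟩)
        obtain ⟨s, hs⟩ := hM x (by rintro rfl; exact hi (dvd_zero _))
        exact hs (hx s)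
      obtain ⟨M', hM', hrk⟩ := exists_good π hπ hr M hM C0 hC0 (fun r' hr' M'' => by
        refine hC r' hr' R π hπ hc hf (le_trans ?_ hcard) M''
        have h1 : C r' hr' ≤ ∑ m : Fin r, C m m.2 :=
          Finset.single_le_sum (f := fun m : Fin r => C m m.2) (fun _ _ => Nat.zero_le _)
            (Finset.mem_univ (⟨r', hr'⟩ : Fin r))
        omega)
      let _ : Fintype (ResidueField R) := Fintype.ofFinite _
      let _ : DecidableEq (ResidueField R) := Classical.decEq _
      obtain ⟨xb, hx0, hxn⟩ := hC1 (ResidueField R) (by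
        rw [← Nat.card_eq_fintype_card]; omega) _ hrk
      choose x0 hx0' using fun i => residue_surjective (xb i)
      have hxb : (fun i => residue R (x0 i)) = xb := funext hx0'
      have h0 : ∀ s, π ∣ bl (M' s) x0 x0 := by
        intro s
        rw [RHB_dvd_iff hπ, bl_map, hxb]
        exact hx0 s
      obtain ⟨i0, hi0⟩ : ∃ i, xb i ≠ 0 := by
        by_contra h
        push Not at h
        have h1 : xb = 0 := funext h
        have h2 : (fun _ : Fin r => (1 : ResidueField R)) ≠ 0 := by
          intro h3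
          exact one_ne_zero (congrFun h3 ⟨0, hr⟩)
        refine hxn _ h2 ?_
        rw [h1]
        exact Submodule.zero_mem _
      obtain ⟨x, ⟨i, hi⟩, hx⟩ := hc _ _ M' (fun N => by
        obtain ⟨x, hx1, hx2⟩ := lift_zero π hπ M' x0 h0 (by rw [hxb]; exact hxn) N
        refine ⟨x, ⟨i0, fun h => ?_⟩, hx2⟩
        apply hi0
        rw [← hx0' i0, ← RHB_dvd_iff hπ]
        have h3 := dvd_sub h (hx1 i0)
        rwa [sub_sub_cancel] at h3)
      obtain ⟨s, hs⟩ := hM' x (by rintro rfl; exact hi (dvd_zero _))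
      exact hs (hx s)

end Pool.Agent.Lib.MP_8ab79f_ag.Six
end
end

section

set_option autoImplicit false
set_option linter.unusedSectionVars false

noncomputable section

namespace Pool.Agent.Lib.MP_8ab79f_ag.Six

universe u

open Polynomial in
/-- Quadratic forms in ten variables over the polynomial ring over a `p`-adic field are
isotropic. -/
theorem isotropic_ten (p : ℕ) [Fact p.Prime] (K : Type u) [Field K] [Algebra ℚ_[p] K]
    [FiniteDimensional ℚ_[p] K] (M : Matrix (Fin 10) (Fin 10) K[X]) :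
    ∃ v : Fin 10 → K[X], v ≠ 0 ∧ bl M v v = 0 := by
  have hchar : CharZero K := charZero_of_injective_algebraMap (algebraMap ℚ_[p] K).injective
  obtain ⟨D, hD⟩ : ∃ D : ℕ, ∀ i j, (M i j).natDegree ≤ D := by
    refine ⟨Finset.univ.sup fun i => Finset.univ.sup fun j => (M i j).natDegree, fun i j => ?_⟩
    exact (Finset.le_sup (f := fun j => (M i j).natDegree) (Finset.mem_univ j)).trans
      (Finset.le_sup (f := fun i => Finset.univ.sup fun j => (M i j).natDegree)
        (Finset.mem_univ i))
  obtain ⟨c, hc⟩ := hb.{u} (5 * D + 1)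
  obtain ⟨L, _, _, _, _, _, hodd, g, α, hg, hgi, hα, hcg⟩ := exists_odd_ext p K c
  have _ : FiniteDimensional ℚ_[p] L := FiniteDimensional.trans ℚ_[p] K L
  obtain ⟨R, _, _, _, _, _, π, hπ, hcomp, hfin, hcard⟩ := exists_dvr p L g hg hgi α hα
  have h1 := hc R π hπ hcomp hfin (hcg.trans hcard)
  have h2 : ∀ M : Fin (5 * D + 1) →
      Matrix (Fin (4 * (5 * D + 1) + 1)) (Fin (4 * (5 * D + 1) + 1)) L,
      ∃ x : Fin (4 * (5 * D + 1) + 1) → L, x ≠ 0 ∧ ∀ s, bl (M s) x x = 0 :=
    fun M => zero_of_ring (R := R) h1 M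
  obtain ⟨w, hw, hMw⟩ := leep D h2 (M.map (mapRingHom (algebraMap K L))) (by
    intro i j
    rw [Matrix.map_apply]
    exact (natDegree_map_le).trans (hD i j))
  exact springer_t hodd M w hw hMw

end Pool.Agent.Lib.MP_8ab79f_ag.Six
end
end
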